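import Pool.Agent.PPG.Stmts

namespace PPG

theorem abl_proof : Stmt_ABL := by
  intro z a c m₀ n hm ha hc hz hS
  have hm0 : (1 : ℝ) ≤ m₀ := by exact_mod_cast hm
  have hlog : 0 ≤ Real.log n := Real.log_natCast_nonneg n
  rcases le_or_gt n m₀ with h | h
  · rw [Finset.Ioc_eq_empty (by omega), Finset.sum_empty]
    positivity
  have hS' : ∀ M, 1 ≤ M → M ≤ n → ∑ m ∈ Finset.Ioc m₀ M, z m ≤ a + c * M := by
    intro M h1 h2
    refine le_trans ?_ (hS M h1 h2)
    refine Finset.sum_le_sum_of_subset_of_nonneg ?_ (fun m _ _ => hz m)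
    intro m hmm
    rw [Finset.mem_Ioc] at hmm
    rw [Finset.mem_Icc]
    omega
  have key : ∀ k, m₀ ≤ k → k ≤ n → ∑ m ∈ Finset.Ioc m₀ k, z m / m ≤
      (∑ m ∈ Finset.Ioc m₀ k, z m) / (k + 1) + a * (1 / ((m₀ : ℝ) + 1) - 1 / (k + 1)) +
        c * (Real.log (k + 1) - Real.log (m₀ + 1)) := by
    intro k hk
    induction k, hk using Nat.le_induction with
    | base => intro _; simp
    | succ k hk ih =>
      intro hkn
      have ih' := ih (by omega)
      have hkm : (1 : ℝ) ≤ k := by
        have : 1 ≤ k := by omega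
        exact_mod_cast this
      rw [Finset.sum_Ioc_succ_top (by omega), Finset.sum_Ioc_succ_top (by omega)]
      have hb := hS' (k + 1) (by omega) hkn
      rw [Finset.sum_Ioc_succ_top (by omega)] at hb
      set T := ∑ m ∈ Finset.Ioc m₀ k, z m with hT
      push_cast at hb ⊢
      have e1 : (1 : ℝ) / (k + 2) ≤ Real.log (k + 1 + 1) - Real.log (k + 1) := by
        rw [← Real.log_div (by positivity) (by positivity)]
        have := Real.one_sub_inv_le_log_of_pos (x := ((k : ℝ) + 1 + 1) / (k + 1)) (by positivity)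
        refine le_trans (le_of_eq ?_) this
        rw [inv_div]
        field_simp
        ring
      have e2 : (T + z (k + 1)) / (k + 1) - (T + z (k + 1)) / (k + 1 + 1) =
          (T + z (k + 1)) / ((k + 1) * (k + 2)) := by
        field_simp
        ring
      have e3 : (T + z (k + 1)) / (((k : ℝ) + 1) * (k + 2)) ≤
          (a + c * (k + 1)) / ((k + 1) * (k + 2)) := by
        exact div_le_div_of_nonneg_right hb (by positivity)
      have e4 : (a + c * ((k : ℝ) + 1)) / ((k + 1) * (k + 2)) =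
          a * (1 / (k + 1) - 1 / (k + 1 + 1)) + c * (1 / (k + 2)) := by
        field_simp
        ring
      have e5 : c * (1 / ((k : ℝ) + 2)) ≤ c * (Real.log (k + 1 + 1) - Real.log (k + 1)) :=
        mul_le_mul_of_nonneg_left e1 hc
      have e6 : T / ((k : ℝ) + 1) + z (k + 1) / (k + 1) = (T + z (k + 1)) / (k + 1) := by
        rw [add_div]
      have e7 : a * (1 / ((m₀ : ℝ) + 1) - 1 / (k + 1 + 1)) =
          a * (1 / ((m₀ : ℝ) + 1) - 1 / (k + 1)) + a * (1 / (k + 1) - 1 / (k + 1 + 1)) := by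
        ring
      have e8 : c * (Real.log ((k : ℝ) + 1 + 1) - Real.log (m₀ + 1)) =
          c * (Real.log (k + 1) - Real.log (m₀ + 1)) +
            c * (Real.log (k + 1 + 1) - Real.log (k + 1)) := by
        ring
      rw [e7, e8]
      linarith
  have h1 := key n h.le le_rfl
  have h2 := hS' n (by omega) le_rfl
  have hn1 : (1 : ℝ) ≤ n := by
    have : 1 ≤ n := by omega
    exact_mod_cast this
  have h3 : (∑ m ∈ Finset.Ioc m₀ n, z m) / ((n : ℝ) + 1) ≤ (a + c * n) / (n + 1) :=
    div_le_div_of_nonneg_right h2 (by positivity)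
  have h4 : (a + c * (n : ℝ)) / (n + 1) ≤ a * (1 / (n + 1)) + c := by
    have : (a + c * (n : ℝ)) / (n + 1) = a * (1 / (n + 1)) + c - c / (n + 1) := by
      field_simp
      ring
    rw [this]
    have : 0 ≤ c / ((n : ℝ) + 1) := by positivity
    linarith
  have h5 : Real.log ((n : ℝ) + 1) - Real.log (m₀ + 1) ≤ Real.log n := by
    have e1 : Real.log 2 ≤ Real.log ((m₀ : ℝ) + 1) :=
      Real.log_le_log (by norm_num) (by linarith)
    have e2 : Real.log ((n : ℝ) + 1) ≤ Real.log (2 * n) :=
      Real.log_le_log (by positivity) (by linarith)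
    rw [Real.log_mul (by norm_num) (by positivity)] at e2
    linarith
  have h6 : a * (1 / ((m₀ : ℝ) + 1)) ≤ 2 * a / m₀ := by
    rw [mul_one_div, div_le_div_iff₀ (by positivity) (by positivity)]
    nlinarith
  have h7 : c * (Real.log ((n : ℝ) + 1) - Real.log (m₀ + 1)) ≤ c * Real.log n :=
    mul_le_mul_of_nonneg_left h5 hc
  have h8 : a * (1 / ((m₀ : ℝ) + 1) - 1 / (n + 1)) =
      a * (1 / ((m₀ : ℝ) + 1)) - a * (1 / (n + 1)) := by ring
  rw [h8] at h1
  have h9 : c * (2 + Real.log n) = 2 * c + c * Real.log n := by ring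
  rw [h9]
  linarith

end PPG
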