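import Pool.Agent.PPG.Stmts

/-!
# Squad PPG (MP_0bf616_gt), module BKG: from polytopes to convex bodies
-/

set_option autoImplicit false

namespace PPG

open MeasureTheory Set Filter Topology
open PPI
open scoped Pointwise

namespace BKG_

lemma lim1 (m : ℕ) {X Y : ℝ} (h : ∀ δ : ℝ, 0 < δ → δ < 1 → (1 - δ) ^ m * X ≤ Y) : X ≤ Y := by
  have ht : Tendsto (fun δ : ℝ => (1 - δ) ^ m * X) (𝓝[>] 0) (𝓝 X) := by
    have h1 : ContinuousAt (fun δ : ℝ => (1 - δ) ^ m * X) 0 := by fun_prop
    have h2 := h1.tendsto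
    simp only [sub_zero, one_pow, one_mul] at h2
    exact h2.mono_left nhdsWithin_le_nhds
  refine le_of_tendsto ht ?_
  have h3 : ∀ᶠ δ : ℝ in 𝓝[>] 0, δ ∈ Ioo (0 : ℝ) 1 := Ioo_mem_nhdsGT one_pos
  exact h3.mono fun δ hδ => h δ hδ.1 hδ.2

lemma vl_smul {n : ℕ} (K : Set (EE n)) {r : ℝ} (hr : 0 < r) : vl (r • K) = r ^ n * vl K := by
  unfold vl
  rw [Measure.addHaar_smul, ENNReal.toReal_mul, finrank_euclideanSpace_fin,
    abs_of_pos (by positivity), ENNReal.toReal_ofReal (by positivity)]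

lemma vl_pos {n : ℕ} {K : Set (EE n)} (hk : IsCompact K) (hi : (interior K).Nonempty) :
    0 < vl K := by
  unfold vl
  apply ENNReal.toReal_pos
  · have := (isOpen_interior.measure_pos volume hi).trans_le (measure_mono interior_subset)
    exact this.ne'
  · exact hk.measure_lt_top.ne

lemma vl_mono {n : ℕ} {K L : Set (EE n)} (hL : IsCompact L) (h : K ⊆ L) : vl K ≤ vl L :=
  ENNReal.toReal_mono hL.measure_lt_top.ne (measure_mono h)

lemma vl_trans {n : ℕ} (K : Set (EE n)) (z : EE n) : vl ((fun x => x + z) '' K) = vl K := by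
  unfold vl
  congr 1
  rw [Set.image_add_right, measure_preimage_add_right]

end BKG_

open BKG_ in
theorem bkg_proof (h1 : Stmt_PTG) (h2 : Stmt_AP2) (h3 : Stmt_LMV) (h4 : Stmt_TUB)
    (h5 : PPI.Stmt_MON) (h6 : PPI.Stmt_AVE) : Stmt_BKG := by
  obtain ⟨c, C, hc, hC, hP⟩ := h1
  refine ⟨c, C, hc, hC, ?_⟩
  intro n hn K hconv hcomp hint
  obtain ⟨hfin, hmono, htr⟩ := h5 n hn
  have hnp : (0 : ℝ) < n := by positivity
  have hk : 0 < kap n := (h6 n (by omega)).1
  have hk1 : 0 < kap (n - 1) := (h6 (n - 1) (by omega)).1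
  have hPn : 0 < Pn n := by
    unfold Pn
    positivity
  -- the centred case
  have key : ∀ K : Set (EE n), Convex ℝ K → IsCompact K → 0 ∈ interior K →
      Real.exp (-(C * Real.log n)) * Pn n * vl K ^ (n - 1) ≤ vl (projBody K) ∧
      ∀ η : ℝ, 0 ≤ η →
        (∀ A : EE n →L[ℝ] EE n, |A.det| * kap n = vl K → ∀ t : ℝ, 0 < t →
          (1 + (1 + η) * n * t) * vl K ≤ vl (K + t • (A '' Bn n))) →
        (1 + η) ^ (c * n) * (Real.exp (-(C * Real.log n)) * Pn n * vl K ^ (n - 1)) ≤
          vl (projBody K) := by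
    intro K hconv hcomp h0
    have hvK : 0 < vl K := vl_pos hcomp ⟨0, h0⟩
    have step : ∀ δ : ℝ, 0 < δ → δ < 1 → ∃ (P : Set (EE n)) (D : ℝ) (A : EE n →L[ℝ] EE n),
        IsCompact P ∧ Convex ℝ P ∧ P ⊆ K ∧ (1 - δ) • K ⊆ P ∧ 0 < vl P ∧
        (1 - δ) ^ n * vl K ≤ vl P ∧ 0 ≤ D ∧ |A.det| * kap n = vl P ∧
        (∀ t : ℝ, 0 ≤ t → vl (P + t • (A '' Bn n)) ≤ vl P * (1 + t * Real.exp (D / n)) ^ n) ∧
        Real.exp (c * D) * ((1 - δ) ^ (n * (n - 1)) *
          (Real.exp (-(C * Real.log n)) * Pn n * vl K ^ (n - 1))) ≤ vl (projBody K) := by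
      intro δ hδ0 hδ1
      obtain ⟨N, v, hPc, hPK, hKP⟩ := h2 n K δ (by omega) hconv hcomp h0 hδ0 hδ1
      have hvP : (1 - δ) ^ n * vl K ≤ vl (Pol v) := by
        rw [← vl_smul K (by linarith : (0 : ℝ) < 1 - δ)]
        exact vl_mono hPc hKP
      have hvP0 : 0 < vl (Pol v) := by
        have : 0 < (1 - δ) ^ n * vl K := by
          have : 0 < 1 - δ := by linarith
          positivity
        linarith
      obtain ⟨D, A, hD, hA, htube, _, hmain⟩ := hP n N v hn hPc hvP0
      have hPconv : Convex ℝ (Pol v) := by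
        intro x hx y hy a b ha hb hab i
        rw [inner_add_right, inner_smul_right, inner_smul_right]
        have h7 := hx i
        have h8 := hy i
        nlinarith
      refine ⟨Pol v, D, A, hPc, hPconv, hPK, hKP, hvP0, hvP, hD, hA, htube, ?_⟩
      have h9 : vl (projBody (Pol v)) ≤ vl (projBody K) :=
        ENNReal.toReal_mono (hfin K hcomp) (measure_mono (hmono _ _ hPc hcomp hPK))
      refine le_trans ?_ h9
      refine le_trans ?_ hmain
      have h10 : (1 - δ) ^ (n * (n - 1)) * vl K ^ (n - 1) ≤ vl (Pol v) ^ (n - 1) := by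
        rw [pow_mul, ← mul_pow]
        refine pow_le_pow_left₀ ?_ hvP _
        have : 0 < 1 - δ := by linarith
        positivity
      have h11 : Real.exp (c * D - C * Real.log n) =
          Real.exp (c * D) * Real.exp (-(C * Real.log n)) := by
        rw [← Real.exp_add]
        ring_nf
      rw [h11]
      calc Real.exp (c * D) * ((1 - δ) ^ (n * (n - 1)) *
            (Real.exp (-(C * Real.log n)) * Pn n * vl K ^ (n - 1)))
          = (Real.exp (c * D) * Real.exp (-(C * Real.log n)) * Pn n) *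
              ((1 - δ) ^ (n * (n - 1)) * vl K ^ (n - 1)) := by ring
        _ ≤ (Real.exp (c * D) * Real.exp (-(C * Real.log n)) * Pn n) * vl (Pol v) ^ (n - 1) :=
            mul_le_mul_of_nonneg_left h10 (by positivity)
    refine ⟨lim1 (n * (n - 1)) fun δ hδ0 hδ1 => ?_, fun η hη hyp => ?_⟩
    · obtain ⟨P, D, A, _, _, _, _, _, _, hD, _, _, hm⟩ := step δ hδ0 hδ1
      refine le_trans ?_ hm
      have h12 : 1 ≤ Real.exp (c * D) := Real.one_le_exp (by positivity)
      have h13 : 0 ≤ (1 - δ) ^ (n * (n - 1)) *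
          (Real.exp (-(C * Real.log n)) * Pn n * vl K ^ (n - 1)) := by
        have : 0 < 1 - δ := by linarith
        positivity
      nlinarith
    · refine h3 n c η _ _ (by omega) hc hη (by positivity) ?_
      intro t δ ht hδ0 hδ1
      obtain ⟨P, D, A, hPc, hPconv, hPK, hKP, hvP0, hvP, hD, hA, htube, hm⟩ := step δ hδ0 hδ1
      refine ⟨Real.exp (D / n), Real.exp_pos _, ?_, ?_⟩
      · exact (h4 n K P A η δ (Real.exp (D / n)) (by omega) hcomp hPc hconv hPconv hvP0 hPK hδ0
          hδ1 hKP hη hA htube hyp).2 t ht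
      · have h14 : Real.exp (D / n) ^ (c * (n : ℝ)) = Real.exp (c * D) := by
          rw [← Real.exp_mul]
          congr 1
          field_simp
        rw [h14]
        exact hm
  -- translation
  obtain ⟨z, hz⟩ := hint
  set K' := (fun x => x + (-z)) '' K with hK'
  have hvl : vl K' = vl K := vl_trans K (-z)
  have hproj : projBody K' = projBody K := htr K (-z)
  have hc' : IsCompact K' := hcomp.image (by fun_prop)
  have hconv' : Convex ℝ K' := by
    have : K' = (-z) +ᵥ K := by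
      ext x
      simp only [hK', mem_image, Set.mem_vadd_set, vadd_eq_add]
      constructor
      · rintro ⟨y, hy, rfl⟩
        exact ⟨y, hy, by abel⟩
      · rintro ⟨y, hy, rfl⟩
        exact ⟨y, hy, by abel⟩
    rw [this]
    exact hconv.vadd _
  have h0' : (0 : EE n) ∈ interior K' := by
    have e1 : interior K' = (fun x => x + (-z)) '' interior K := by
      have := (Homeomorph.addRight (-z)).image_interior K
      exact this.symm
    rw [e1]
    exact ⟨z, hz, by simp⟩
  obtain ⟨r1, r2⟩ := key K' hconv' hc' h0'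
  rw [hvl, hproj] at r1
  refine ⟨r1, fun η hη hyp => ?_⟩
  have := r2 η hη ?_
  · rw [hvl, hproj] at this
    exact this
  · intro A hA t ht
    rw [hvl] at hA ⊢
    have e2 : K' + t • (A '' Bn n) = (fun x => x + (-z)) '' (K + t • (A '' Bn n)) := by
      ext x
      simp only [hK', Set.mem_add, mem_image]
      constructor
      · rintro ⟨_, ⟨y, hy, rfl⟩, b, hb, rfl⟩
        exact ⟨y + b, ⟨y, hy, b, hb, rfl⟩, by abel⟩
      · rintro ⟨_, ⟨y, hy, b, hb, rfl⟩, rfl⟩
        exact ⟨y + -z, ⟨y, hy, rfl⟩, b, hb, by abel⟩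
    rw [e2, vl_trans]
    exact hyp A hA t ht

end PPG
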