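import Pool.Agent.PPG.Stmts

/-!
# Squad PPG (MP_0bf616_gt), module BMX: exact moments of projections of the uniform distribution
on the ball
-/

set_option autoImplicit false

namespace PPG

open MeasureTheory Set Filter Topology
open PPI
open scoped Pointwise

theorem bmx_proof (h1 : PPF.Stmt_BMG) (h2 : PPF.Stmt_BMR) (h3 : PPI.Stmt_MGA)
    (h4 : PPI.Stmt_MCC) (h5 : PPI.Stmt_AVE) : Stmt_BMX := by
  intro n j q A hj hjn hA
  have hn : 1 ≤ n := le_trans hj hjn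
  have hk : 0 < kap n := (h5 n hn).1
  have e0 : cc n q * ∫ x in Bn n, ‖A x‖ ^ (2 * q) =
      √(2 * Real.pi) ^ n * ∏ i ∈ Finset.range q, ((j : ℝ) + 2 * i) := by
    rw [← h2 n j q A hn, h1 n j q A hjn hA, h3 j q hj, ← mul_assoc, ← pow_add,
      Nat.sub_add_cancel hjn]
  have e1 := h4 n q hn
  have hP2 : 0 < ∏ i ∈ Finset.range q, ((n : ℝ) + 2 + 2 * i) :=
    Finset.prod_pos (fun i _ => by positivity)
  have hcc : cc n q ≠ 0 := by
    intro h
    rw [h, zero_mul] at e1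
    have : 0 < √(2 * Real.pi) ^ n * ∏ i ∈ Finset.range q, ((n : ℝ) + 2 + 2 * i) := by positivity
    linarith
  have e2 : (∫ x in Bn n, ‖A x‖ ^ (2 * q)) * ∏ i ∈ Finset.range q, ((n : ℝ) + 2 + 2 * i) =
      kap n * ∏ i ∈ Finset.range q, ((j : ℝ) + 2 * i) := by
    have h : cc n q * ((∫ x in Bn n, ‖A x‖ ^ (2 * q)) *
        ∏ i ∈ Finset.range q, ((n : ℝ) + 2 + 2 * i)) =
        cc n q * (kap n * ∏ i ∈ Finset.range q, ((j : ℝ) + 2 * i)) := by
      rw [← mul_assoc, e0, ← mul_assoc, e1]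
      ring
    exact mul_left_cancel₀ hcc h
  show (∫ x in Bn n, ‖A x‖ ^ (2 * q)) / kap n = _
  rw [Finset.prod_div_distrib, div_eq_div_iff hk.ne' hP2.ne', e2, mul_comm]

end PPG
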