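import Pool.Agent.PPG.Stmts

/-!
# Squad PPG (MP_0bf616_gt), module CHN: summary of the chain
-/

set_option autoImplicit false

namespace PPG

open MeasureTheory Set Filter Topology
open PPI
open scoped Pointwise

namespace CHN_

lemma pr_idn (n : ℕ) : PR n (idn n) := by
  refine ⟨fun x y => rfl, fun x => rfl, ?_⟩
  have : ∀ k : Fin n, ‖idn n (EuclideanSpace.single k (1 : ℝ))‖ ^ 2 = 1 := by
    intro k
    simp [idn]
  simp [this]

lemma fe_one (n : ℕ) (hn : 1 ≤ n) : fe n n 1 = 0 := by
  have : (n : ℝ) ≠ 0 := by positivity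
  simp [fe, this]

lemma std_par {n : ℕ} (x : EE n) :
    ∑ k, bb (fun k : Fin n => EuclideanSpace.single k (1 : ℝ)) x k = ‖x‖ ^ 2 := by
  rw [EuclideanSpace.real_norm_sq_eq]
  refine Finset.sum_congr rfl fun k _ => ?_
  simp only [bb]
  rw [EuclideanSpace.inner_single_left]
  simp

lemma std_on {n : ℕ} : Orthonormal ℝ (fun k : Fin n => (EuclideanSpace.single k (1 : ℝ) : EE n)) :=
  EuclideanSpace.orthonormal_single

end CHN_

open CHN_ in
open Classical in
theorem chn_proof (h1 : Stmt_WSM) (h2 : Stmt_ONB) (h3 : Stmt_MGP) (h4 : Stmt_TAI)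
    (h5 : Stmt_ENT) (h6 : Stmt_XTJ) : Stmt_CHN := by
  intro n ι _ p w hn hIS
  have hP := pr_idn n
  obtain ⟨hW0, hW1⟩ := h1 n n ι p w (idn n) hn hIS hP
  set μ : (Fin n → ι) → ℝ := fun f => Wt p w n (idn n) f with hμ
  set v : (Fin n → ι) → Fin n → EE n := fun f =>
    if Wt p w n (idn n) f = 0 then (fun k => EuclideanSpace.single k 1) else fg w n (idn n) f
    with hv
  have hvne : ∀ f, μ f ≠ 0 → v f = fg w n (idn n) f := by
    intro f hf
    simp only [hv]
    rw [if_neg hf]
  have hsum : ∀ G H : (Fin n → EE n) → ℝ, (∀ u, G u = H u) →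
      ∑ f, μ f * G (v f) = ∑ f, Wt p w n (idn n) f * H (fg w n (idn n) f) := by
    intro G H hGH
    refine Finset.sum_congr rfl fun f _ => ?_
    by_cases hf : μ f = 0
    · have : Wt p w n (idn n) f = 0 := hf
      rw [hf, this]
      ring
    · rw [hvne f hf, hGH]
  refine ⟨Fin n → ι, inferInstance, μ, v, ?_, ?_⟩
  · refine ⟨hW0, hW1, ?_, ?_, ?_, ?_⟩
    · intro f
      by_cases hf : μ f = 0
      · have : v f = fun k => EuclideanSpace.single k 1 := by
          simp only [hv]
          rw [if_pos hf]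
        rw [this]
        exact std_on
      · rw [hvne f hf]
        exact (h2 n n ι p w (idn n) f hP hf).1
    · intro f x
      by_cases hf : μ f = 0
      · have : v f = fun k => EuclideanSpace.single k 1 := by
          simp only [hv]
          rw [if_pos hf]
        rw [this]
        exact std_par x
      · rw [hvne f hf]
        have := (h2 n n ι p w (idn n) f hP hf).2.2 x
        simpa [idn] using this
    · intro x k h
      have e1 := hsum (fun u => h (tl u x k) * bb u x k) (fun u => h (tl u x k) * bb u x k)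
        (fun _ => rfl)
      have e2 := hsum (fun u => h (tl u x k) * tl u x k) (fun u => h (tl u x k) * tl u x k)
        (fun _ => rfl)
      rw [e1, e2]
      exact h3 n n ι p w (idn n) x k h hn hIS hP
    · intro x k hk
      have e1 := hsum (fun u => tl u x k) (fun u => tl u x k) (fun _ => rfl)
      rw [e1]
      have := h4 n n ι p w (idn n) x k hn hIS hP hk
      simpa [idn] using this
  · refine le_trans ?_ (h6 n ι p w hn hIS)
    have hE := h5 n n ι p w (idn n) hn hIS hP
    have z1 : ∑ j, p j * ((n : ℝ) * fe n n (‖idn n (w j)‖ ^ 2)) = 0 := by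
      refine Finset.sum_eq_zero fun j _ => ?_
      have : ‖idn n (w j)‖ ^ 2 = 1 := by
        simp [idn, hIS.nrm j]
      rw [this, fe_one n hn]
      ring
    have z2 : ∑ f, Wt p w n (idn n) f * ∑ j, p j * cs (fg w n (idn n) f) (w j) =
        ∑ j, p j * ∑ o, μ o * cs (v o) (w j) := by
      have : ∀ j, ∑ o, μ o * cs (v o) (w j) =
          ∑ f, Wt p w n (idn n) f * cs (fg w n (idn n) f) (w j) := fun j =>
        hsum (fun u => cs u (w j)) (fun u => cs u (w j)) (fun _ => rfl)
      simp only [this, Finset.mul_sum]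
      rw [Finset.sum_comm]
      refine Finset.sum_congr rfl fun j _ => Finset.sum_congr rfl fun f _ => ?_
      ring
    rw [z1, z2, zero_add] at hE
    refine mul_le_mul_of_nonneg_left (Real.exp_le_exp.mpr ?_) (Real.sqrt_nonneg _)
    have : (n : ℝ) / 2 * ∑ j, p j * ∑ o, μ o * cs (v o) (w j) =
      (n * ∑ j, p j * ∑ o, μ o * cs (v o) (w j)) / 2 := by ring
    rw [this]
    linarith

end PPG
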