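import Pool.Agent.PPG.Stmts

/-!
# Squad PPG (MP_0bf616_gt), module CLS: classes of jumps
-/

set_option autoImplicit false

namespace PPG

open MeasureTheory Set Filter Topology
open PPI
open scoped Pointwise

namespace CLS_

lemma bb_nonneg {m n : ℕ} (v : Fin m → EE n) (x : EE n) (k : Fin m) : 0 ≤ bb v x k := sq_nonneg _

lemma bb_le_tl {m n : ℕ} (v : Fin m → EE n) (x : EE n) (k : Fin m) :
    bb v x k ≤ tl v x k := by
  unfold tl
  have h : bb v x k = if (k : ℕ) ≤ (k : ℕ) then bb v x k else 0 := by simp
  rw [h]
  refine Finset.single_le_sum (f := fun l : Fin m => if (k : ℕ) ≤ (l : ℕ) then bb v x l else 0)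
    (fun l _ => ?_) (Finset.mem_univ k)
  split_ifs
  · exact bb_nonneg v x l
  · exact le_rfl

end CLS_

open CLS_ in
theorem cls_proof (h1 : Stmt_TTF) : Stmt_CLS := by
  classical
  intro n K β v x
  constructor
  · unfold JA JB JM JL JO
    rw [← Finset.sum_add_distrib, ← Finset.sum_add_distrib, ← Finset.sum_add_distrib]
    apply Finset.sum_congr rfl
    intro k _
    by_cases hb : β ≤ bb v x k
    · by_cases hK : (k : ℕ) < K
      · have hK' : ¬ K ≤ (k : ℕ) := not_le.mpr hK
        by_cases ht : et < tl v x k
        · have ht' : ¬ tl v x k ≤ et := not_le.mpr ht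
          by_cases hbe : be ≤ bb v x k
          · have hbe' : ¬ bb v x k < be := not_lt.mpr hbe
            simp [hb, hK, hK', ht, ht', hbe, hbe']
          · have hbe' : bb v x k < be := not_le.mp hbe
            simp [hb, hK, hK', ht, ht', hbe, hbe']
        · have ht' : tl v x k ≤ et := not_lt.mp ht
          simp [hb, hK, hK', ht, ht']
      · have hK' : K ≤ (k : ℕ) := not_lt.mp hK
        simp [hb, hK, hK']
    · simp [hb]
  · unfold JB JM JL JO cs cm
    rw [Finset.sum_div, ← Finset.sum_add_distrib, ← Finset.sum_add_distrib,
      ← Finset.sum_add_distrib, ← Finset.sum_add_distrib]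
    apply Finset.sum_le_sum
    intro k _
    obtain ⟨-, hc1, hc2⟩ := h1 (tl v x k) (bb v x k) (bb_nonneg v x k) (bb_le_tl v x k)
    have hb0 := bb_nonneg v x k
    by_cases hb : β ≤ bb v x k
    · have hb1 : ¬ bb v x k < β := not_lt.mpr hb
      by_cases hK : (k : ℕ) < K
      · have hK' : ¬ K ≤ (k : ℕ) := not_le.mpr hK
        by_cases ht : et < tl v x k
        · have ht' : ¬ tl v x k ≤ et := not_le.mpr ht
          by_cases hbe : be ≤ bb v x k
          · have hbe' : ¬ bb v x k < be := not_lt.mpr hbe
            simp [hb, hb1, hK, hK', ht, ht', hbe, hbe']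
            exact hc1
          · have hbe' : bb v x k < be := not_le.mp hbe
            simp [hb, hb1, hK, hK', ht, ht', hbe, hbe']
            by_contra hcon
            rw [not_le] at hcon
            have he : et = 4 * be := by unfold et be; norm_num
            rw [he] at ht
            have hpos : 0 < TT (tl v x k) (bb v x k) := by
              have : 0 ≤ bb v x k / 4 := by positivity
              linarith
            have h2 : 4 * be * TT (tl v x k) (bb v x k) < tl v x k * TT (tl v x k) (bb v x k) :=
              mul_lt_mul_of_pos_right ht hpos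
            have hbe0 : 0 < be := by unfold be; norm_num
            have h3 : be * bb v x k ≤ 4 * be * TT (tl v x k) (bb v x k) := by nlinarith
            have h4 : bb v x k ^ 2 ≤ be * bb v x k := by nlinarith
            linarith
        · have ht' : tl v x k ≤ et := not_lt.mp ht
          simp [hb, hb1, hK, hK', ht, ht']
          exact hc1
      · have hK' : K ≤ (k : ℕ) := not_lt.mp hK
        simp [hb, hb1, hK, hK']
        exact hc1
    · have hb1 : bb v x k < β := not_le.mp hb
      simp [hb, hb1]

end PPG
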