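import Pool.Agent.PPG.Stmts

/-!
# Squad PPG, module CMB: the cost of the large jumps
-/

set_option autoImplicit false

namespace PPG

open MeasureTheory Set Filter Topology
open PPI
open scoped Pointwise

namespace CMB_

/-- the average of `J (v o) (w j)` -/
noncomputable def S {n : ℕ} {ι Ω : Type} [Fintype ι] [Fintype Ω] (p : ι → ℝ) (w : ι → EE n)
    (μ : Ω → ℝ) (v : Ω → Fin n → EE n) (J : (Fin n → EE n) → EE n → ℝ) : ℝ :=
  ∑ j, p j * ∑ o, μ o * J (v o) (w j)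

theorem S_add {n : ℕ} {ι Ω : Type} [Fintype ι] [Fintype Ω] (p : ι → ℝ) (w : ι → EE n)
    (μ : Ω → ℝ) (v : Ω → Fin n → EE n) (J J' : (Fin n → EE n) → EE n → ℝ) :
    S p w μ v (fun a b => J a b + J' a b) = S p w μ v J + S p w μ v J' := by
  unfold S
  rw [← Finset.sum_add_distrib]
  refine Finset.sum_congr rfl fun j _ => ?_
  rw [← mul_add, ← Finset.sum_add_distrib]
  congr 1
  refine Finset.sum_congr rfl fun o _ => ?_
  ring

theorem S_mul {n : ℕ} {ι Ω : Type} [Fintype ι] [Fintype Ω] (p : ι → ℝ) (w : ι → EE n)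
    (μ : Ω → ℝ) (v : Ω → Fin n → EE n) (c : ℝ) (J : (Fin n → EE n) → EE n → ℝ) :
    S p w μ v (fun a b => c * J a b) = c * S p w μ v J := by
  unfold S
  simp only [Finset.mul_sum]
  refine Finset.sum_congr rfl fun j _ => ?_
  refine Finset.sum_congr rfl fun o _ => ?_
  ring

theorem S_swap {n : ℕ} {ι Ω : Type} [Fintype ι] [Fintype Ω] (p : ι → ℝ) (w : ι → EE n)
    (μ : Ω → ℝ) (v : Ω → Fin n → EE n) (J : (Fin n → EE n) → EE n → ℝ) :
    ∑ o, μ o * ∑ j, p j * J (v o) (w j) = S p w μ v J := by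
  unfold S
  simp only [Finset.mul_sum]
  rw [Finset.sum_comm]
  refine Finset.sum_congr rfl fun j _ => ?_
  refine Finset.sum_congr rfl fun o _ => ?_
  ring

theorem S_nonneg {n : ℕ} {ι Ω : Type} [Fintype ι] [Fintype Ω] (p : ι → ℝ) (w : ι → EE n)
    (μ : Ω → ℝ) (v : Ω → Fin n → EE n) (J : (Fin n → EE n) → EE n → ℝ)
    (hp : ∀ i, 0 < p i) (hμ : ∀ o, 0 ≤ μ o) (hJ : ∀ a b, 0 ≤ J a b) :
    0 ≤ S p w μ v J := by
  unfold S
  refine Finset.sum_nonneg fun j _ => mul_nonneg (hp j).le ?_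
  exact Finset.sum_nonneg fun o _ => mul_nonneg (hμ o) (hJ _ _)

theorem bb_nonneg {m n : ℕ} (v : Fin m → EE n) (x : EE n) (k : Fin m) : 0 ≤ bb v x k := by
  unfold bb; positivity

theorem JB_nonneg {n : ℕ} (β : ℝ) (K : ℕ) (v : Fin n → EE n) (x : EE n) : 0 ≤ JB β K v x := by
  unfold JB
  refine Finset.sum_nonneg fun k _ => ?_
  split_ifs
  · exact bb_nonneg _ _ _
  · exact le_rfl

theorem JM_nonneg {n : ℕ} (β : ℝ) (K : ℕ) (v : Fin n → EE n) (x : EE n) : 0 ≤ JM β K v x := by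
  unfold JM
  refine Finset.sum_nonneg fun k _ => ?_
  split_ifs
  · exact bb_nonneg _ _ _
  · exact le_rfl

theorem JO_nonneg {n : ℕ} (β : ℝ) (K : ℕ) (v : Fin n → EE n) (x : EE n) : 0 ≤ JO β K v x := by
  unfold JO
  refine Finset.sum_nonneg fun k _ => ?_
  split_ifs
  · exact bb_nonneg _ _ _
  · exact le_rfl

theorem JL_nonneg {n : ℕ} (β : ℝ) (K : ℕ) (v : Fin n → EE n) (x : EE n) : 0 ≤ JL β K v x := by
  unfold JL
  refine Finset.sum_nonneg fun k _ => ?_
  split_ifs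
  · exact bb_nonneg _ _ _
  · exact le_rfl

/-- the final linear arithmetic -/
theorem final (N b m l o E : ℝ) (hN : 0 ≤ N) (hb : 0 ≤ b) (hm : 0 ≤ m) (hl : 0 ≤ l)
    (ho : 0 ≤ o)
    (h1 : N * ((1 / 2 - be / 100) * (b + m + l + o) + be / 8 * b) ≤ E)
    (h2 : 2 * N * l ≤ E) (h3 : N * o ≤ et * (1024 * E)) :
    (1 + be / 100) * (N / 2 * (b + 1 / 4 * m + l + o)) ≤ E := by
  have hb' : 0 ≤ N * b := mul_nonneg hN hb
  have hm' : 0 ≤ N * m := mul_nonneg hN hm
  have hl' : 0 ≤ N * l := mul_nonneg hN hl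
  have ho' : 0 ≤ N * o := mul_nonneg hN ho
  unfold be at h1 ⊢
  unfold et at h3
  have e1 : N * ((1 / 2 - 1 / 2 ^ 20 / 100) * (b + m + l + o) + 1 / 2 ^ 20 / 8 * b) =
    (1 / 2 - 1 / 2 ^ 20 / 100) * (N * b + N * m + N * l + N * o) + 1 / 2 ^ 20 / 8 * (N * b) := by
    ring
  have e2 : (1 + 1 / 2 ^ 20 / 100) * (N / 2 * (b + 1 / 4 * m + l + o)) =
    (1 + 1 / 2 ^ 20 / 100) / 2 * (N * b + 1 / 4 * (N * m) + N * l + N * o) := by
    ring
  rw [e1] at h1
  rw [e2]
  have h2' : 2 * (N * l) ≤ E := by linarith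
  clear e1 e2 h2
  generalize N * b = B at *
  generalize N * m = M at *
  generalize N * l = L at *
  generalize N * o = O at *
  norm_num at h1 h3 ⊢
  linarith

end CMB_

open CMB_ in
theorem cmb_proof (hCLS : Stmt_CLS) (hT1 : Stmt_T1) (hT2 : Stmt_T2) (hT3 : Stmt_T3) :
    Stmt_CMB := by
  obtain ⟨n₀, hn₀⟩ := hT3
  refine ⟨max n₀ 1, ?_⟩
  intro n ι _ p w D Ω _ μ v hn hIS hMI hRF
  have hn0 : n₀ ≤ n := le_trans (le_max_left _ _) hn
  have hn1 : 1 ≤ n := le_trans (le_max_right _ _) hn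
  set K : ℕ := n - n / 32 with hK
  have hKn : K ≤ n := Nat.sub_le _ _
  have h32 : 32 * (n - K) ≤ n := by omega
  have t1 : ∀ o, (n : ℝ) * ∑ i, p i * ((1 / 2 - be / 100) * JA (bs n) (v o) (w i) +
      be / 8 * JB (bs n) K (v o) (w i)) ≤ D + 1 := fun o =>
    hT1 n K ι p w D (v o) hn1 hIS hMI (hRF.on o)
  have t2 := hT2 n K ι p w D Ω μ v hn1 hIS hMI hRF hKn h32
  have t3 := hn₀ n ι p w D Ω μ v (bs n) hn0 hIS hMI hRF
  rw [← hK] at t3
  have e2 : ∑ j, p j * ∑ o, μ o * JL (bs n) K (v o) (w j) = S p w μ v (JL (bs n) K) := rfl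
  have e3 : ∑ j, p j * ∑ o, μ o * JO (bs n) K (v o) (w j) = S p w μ v (JO (bs n) K) := rfl
  rw [e2] at t2
  rw [e3] at t3
  have t1' : (n : ℝ) * ((1 / 2 - be / 100) * (S p w μ v (JB (bs n) K) + S p w μ v (JM (bs n) K) +
      S p w μ v (JL (bs n) K) + S p w μ v (JO (bs n) K)) +
      be / 8 * S p w μ v (JB (bs n) K)) ≤ D + 1 := by
    have h : ∑ o, μ o * ((n : ℝ) * ∑ i, p i * ((1 / 2 - be / 100) * JA (bs n) (v o) (w i) +
        be / 8 * JB (bs n) K (v o) (w i))) ≤ ∑ o, μ o * (D + 1) :=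
      Finset.sum_le_sum fun o _ => mul_le_mul_of_nonneg_left (t1 o) (hRF.nn o)
    rw [← Finset.sum_mul, hRF.sum, one_mul] at h
    have e : ∑ o, μ o * ((n : ℝ) * ∑ i, p i * ((1 / 2 - be / 100) * JA (bs n) (v o) (w i) +
        be / 8 * JB (bs n) K (v o) (w i))) = (n : ℝ) *
        ((1 / 2 - be / 100) * (S p w μ v (JB (bs n) K) + S p w μ v (JM (bs n) K) +
      S p w μ v (JL (bs n) K) + S p w μ v (JO (bs n) K)) +
      be / 8 * S p w μ v (JB (bs n) K)) := by
      have e1 : ∑ o, μ o * ((n : ℝ) * ∑ i, p i * ((1 / 2 - be / 100) * JA (bs n) (v o) (w i) +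
        be / 8 * JB (bs n) K (v o) (w i))) = (n : ℝ) * ∑ o, μ o * ∑ i, p i *
          ((1 / 2 - be / 100) * JA (bs n) (v o) (w i) +
        be / 8 * JB (bs n) K (v o) (w i)) := by
        rw [Finset.mul_sum]
        exact Finset.sum_congr rfl fun o _ => by ring
      rw [e1]
      congr 1
      have e4 := S_swap p w μ v (fun a b => (1 / 2 - be / 100) * JA (bs n) a b +
        be / 8 * JB (bs n) K a b)
      rw [e4]
      have e5 : (fun (a : Fin n → EE n) (b : EE n) => (1 / 2 - be / 100) * JA (bs n) a b +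
        be / 8 * JB (bs n) K a b) = fun a b => (1 / 2 - be / 100) * (JB (bs n) K a b +
          JM (bs n) K a b + JL (bs n) K a b + JO (bs n) K a b) +
        be / 8 * JB (bs n) K a b := by
        funext a b
        rw [(hCLS n K (bs n) a b).1]
      rw [e5, S_add p w μ v (fun a b => (1 / 2 - be / 100) * (JB (bs n) K a b +
          JM (bs n) K a b + JL (bs n) K a b + JO (bs n) K a b))
          (fun a b => be / 8 * JB (bs n) K a b),
        S_mul p w μ v (1 / 2 - be / 100) (fun a b => JB (bs n) K a b +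
          JM (bs n) K a b + JL (bs n) K a b + JO (bs n) K a b),
        S_mul p w μ v (be / 8) (JB (bs n) K),
        S_add p w μ v (fun a b => JB (bs n) K a b + JM (bs n) K a b + JL (bs n) K a b)
          (JO (bs n) K),
        S_add p w μ v (fun a b => JB (bs n) K a b + JM (bs n) K a b) (JL (bs n) K),
        S_add p w μ v (JB (bs n) K) (JM (bs n) K)]
    rw [e] at h
    exact h
  have eg : ∑ j, p j * ∑ o, μ o *
      (JB (bs n) K (v o) (w j) + JM (bs n) K (v o) (w j) / 4 +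
        JL (bs n) K (v o) (w j) + JO (bs n) K (v o) (w j)) =
      S p w μ v (JB (bs n) K) + 1 / 4 * S p w μ v (JM (bs n) K) + S p w μ v (JL (bs n) K) +
        S p w μ v (JO (bs n) K) := by
    have e0 : ∑ j, p j * ∑ o, μ o *
      (JB (bs n) K (v o) (w j) + JM (bs n) K (v o) (w j) / 4 +
        JL (bs n) K (v o) (w j) + JO (bs n) K (v o) (w j)) =
        S p w μ v (fun a b => JB (bs n) K a b + 1 / 4 * JM (bs n) K a b + JL (bs n) K a b +
          JO (bs n) K a b) := by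
      unfold S
      refine Finset.sum_congr rfl fun j _ => ?_
      congr 1
      refine Finset.sum_congr rfl fun o _ => ?_
      ring
    rw [e0, S_add p w μ v (fun a b => JB (bs n) K a b + 1 / 4 * JM (bs n) K a b +
        JL (bs n) K a b) (JO (bs n) K),
      S_add p w μ v (fun a b => JB (bs n) K a b + 1 / 4 * JM (bs n) K a b) (JL (bs n) K),
      S_add p w μ v (JB (bs n) K) (fun a b => 1 / 4 * JM (bs n) K a b),
      S_mul p w μ v (1 / 4) (JM (bs n) K)]
  rw [eg]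
  exact final n _ _ _ _ _ (Nat.cast_nonneg n)
    (S_nonneg p w μ v _ hIS.ppos hRF.nn (JB_nonneg _ _))
    (S_nonneg p w μ v _ hIS.ppos hRF.nn (JM_nonneg _ _))
    (S_nonneg p w μ v _ hIS.ppos hRF.nn (JL_nonneg _ _))
    (S_nonneg p w μ v _ hIS.ppos hRF.nn (JO_nonneg _ _)) t1' t2 t3

end PPG
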