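import Pool.Agent.PPG.Stmts

/-!
# Squad PPG (MP_0bf616_gt), module CRE: the core
-/

set_option autoImplicit false

namespace PPG

open MeasureTheory Set Filter Topology
open PPI
open scoped Pointwise

namespace CRE_

lemma D_nonneg (h : PPI.Stmt_AVE) {n : ℕ} (hn : 1 ≤ n) {ι : Type} [Fintype ι] {p : ι → ℝ}
    {w : ι → EE n} {D : ℝ} (hI : IS p w) (hM : MI p w D) : 0 ≤ D := by
  have hk : 0 < kap n := (h n hn).1
  have h1 := (hM (Bn n) (fun _ => 1) (isCompact_closedBall _ _) (convex_closedBall _ _)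
    ⟨0, by simp [Bn]⟩ (by
      intro i x hx
      have h2 : ‖x‖ ≤ 1 := by simpa [Bn] using hx
      calc inner ℝ (w i) x ≤ ‖w i‖ * ‖x‖ := real_inner_le_norm _ _
        _ ≤ 1 * 1 := by
          rw [hI.nrm i]
          linarith
        _ = 1 := by ring)).2
  have h3 : ∑ i, p i * (1 : ℝ) = 1 := by simp [hI.psum]
  rw [h3, one_pow, mul_one] at h1
  have h4 : vl (Bn n) = kap n := rfl
  rw [h4] at h1
  have h5 : 1 ≤ Real.exp D := by
    by_contra h6
    push Not at h6
    have := mul_lt_mul_of_pos_left h6 hk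
    linarith
  exact Real.one_le_exp_iff.mp h5

lemma small {n n₀ : ℕ} {C D c X : ℝ} (hn : 2 ≤ n) (hn0 : n < n₀) (hC : (n₀ : ℝ) ≤ C)
    (hD : 0 ≤ D) (hc : c ≤ 1) (hX : (n.factorial : ℝ) / (n : ℝ) ^ n ≤ X) :
    √((n.factorial : ℝ) / (n : ℝ) ^ n) * Real.exp (-((1 - c) * D + C * Real.log n)) ≤ X := by
  refine le_trans ?_ hX
  have hnp : (0 : ℝ) < n := by positivity
  have hn1 : (1 : ℝ) ≤ n := by exact_mod_cast (by omega : 1 ≤ n)
  have hlog : 0 ≤ Real.log n := Real.log_nonneg hn1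
  set y : ℝ := (n.factorial : ℝ) / (n : ℝ) ^ n with hy
  have hy0 : 0 < y := by positivity
  have h1 : Real.exp (-((1 - c) * D + C * Real.log n)) ≤ √y := by
    have h2 : Real.exp (-((1 - c) * D + C * Real.log n)) ≤ Real.exp (-((n : ℝ) * Real.log n)) := by
      apply Real.exp_le_exp.mpr
      have h3 : 0 ≤ (1 - c) * D := mul_nonneg (by linarith) hD
      have h4 : (n : ℝ) * Real.log n ≤ C * Real.log n := by
        apply mul_le_mul_of_nonneg_right _ hlog
        have : (n : ℝ) < n₀ := by exact_mod_cast hn0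
        linarith
      linarith
    have h5 : Real.exp (-((n : ℝ) * Real.log n)) = ((n : ℝ) ^ n)⁻¹ := by
      rw [Real.exp_neg, mul_comm, Real.exp_mul, Real.exp_log hnp, Real.rpow_natCast]
    have h6 : ((n : ℝ) ^ n)⁻¹ ≤ y := by
      rw [hy, div_eq_mul_inv]
      have : (1 : ℝ) ≤ n.factorial := by exact_mod_cast Nat.factorial_pos n
      have h7 : (0 : ℝ) ≤ ((n : ℝ) ^ n)⁻¹ := by positivity
      nlinarith
    have h8 : y ≤ √y := by
      have h9 : y ≤ 1 := by
        rw [hy, div_le_one (by positivity)]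
        exact_mod_cast Nat.factorial_le_pow n
      exact Real.le_sqrt_of_sq_le (by nlinarith)
    linarith [h2, h5.le, h6, h8]
  calc √y * Real.exp (-((1 - c) * D + C * Real.log n)) ≤ √y * √y :=
        mul_le_mul_of_nonneg_left h1 (Real.sqrt_nonneg _)
    _ = y := Real.mul_self_sqrt hy0.le

end CRE_

open CRE_ in
theorem cre_proof (h1 : Stmt_CHN) (h2 : Stmt_CLS) (h3 : Stmt_CMB) (h4 : Stmt_SJB)
    (h5 : Stmt_SMN) (h6 : PPI.Stmt_AVE) : Stmt_CRE := by
  obtain ⟨n₂, hcmb⟩ := h3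
  obtain ⟨C₁, n₁, hC₁, hsjb⟩ := h4 (be / 400) (by norm_num [be])
  set n₀ := max n₁ n₂ with hn₀
  refine ⟨be / 400, C₁ + 2 + n₀, by norm_num [be], by norm_num [be], by positivity, ?_⟩
  intro n ι _ p w D hn hI hM
  have hD := D_nonneg h6 (by omega : 1 ≤ n) hI hM
  refine ⟨hD, ?_⟩
  by_cases hlt : n < n₀
  · exact small hn hlt (by linarith) hD (by norm_num [be]) (h5 n ι p w (by omega) hI)
  push Not at hlt
  obtain ⟨Ω, hΩ, μ, v, hRF, hXT⟩ := h1 n ι p w (by omega) hI
  refine le_trans ?_ hXT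
  refine mul_le_mul_of_nonneg_left (Real.exp_le_exp.mpr ?_) (Real.sqrt_nonneg _)
  have a1 := hcmb n ι p w D Ω μ v (le_trans (le_max_right _ _) hlt) hI hM hRF
  have a2 := hsjb n ι p w D Ω μ v (le_trans (le_max_left _ _) hlt) hI hM hRF
  set K := n - n / 32 with hK
  have a3 : ∑ j, p j * ∑ o, μ o * cs (v o) (w j) ≤
      ∑ j, p j * ∑ o, μ o * (JB (bs n) K (v o) (w j) + JM (bs n) K (v o) (w j) / 4 +
        JL (bs n) K (v o) (w j) + JO (bs n) K (v o) (w j)) +
      ∑ j, p j * ∑ o, μ o * cm (bs n) (v o) (w j) := by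
    rw [← Finset.sum_add_distrib]
    refine Finset.sum_le_sum fun j _ => ?_
    rw [← mul_add]
    refine mul_le_mul_of_nonneg_left ?_ (hI.ppos j).le
    rw [← Finset.sum_add_distrib]
    refine Finset.sum_le_sum fun o _ => ?_
    rw [← mul_add]
    exact mul_le_mul_of_nonneg_left (h2 n K (bs n) (v o) (w j)).2 (hRF.nn o)
  set Z := ∑ j, p j * ∑ o, μ o * (JB (bs n) K (v o) (w j) + JM (bs n) K (v o) (w j) / 4 +
        JL (bs n) K (v o) (w j) + JO (bs n) K (v o) (w j)) with hZ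
  set Y := ∑ j, p j * ∑ o, μ o * cm (bs n) (v o) (w j) with hY
  set T := ∑ j, p j * ∑ o, μ o * cs (v o) (w j) with hT
  have hnp : (0 : ℝ) ≤ n := by positivity
  have a4 : (n : ℝ) / 2 * T ≤ (n : ℝ) / 2 * Z + (n : ℝ) / 2 * Y := by
    rw [← mul_add]
    exact mul_le_mul_of_nonneg_left a3 (by positivity)
  have hlog2 : (1 : ℝ) / 2 ≤ Real.log n := by
    have h7 : Real.log 2 ≤ Real.log n := Real.log_le_log (by norm_num) (by exact_mod_cast hn)
    have := Real.log_two_gt_d9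
    linarith
  have hn0' : (0 : ℝ) ≤ (n₀ : ℝ) * Real.log n := by
    have : 0 ≤ Real.log n := by linarith
    positivity
  have a5 : (n : ℝ) / 2 * Z ≤ (1 - be / 200) * (D + 1) := by
    have h8 : (1 + be / 100) * ((n : ℝ) / 2 * Z) ≤ D + 1 := a1
    have h9 : (n : ℝ) / 2 * Z ≤ (D + 1) / (1 + be / 100) := by
      rw [le_div_iff₀ (by norm_num [be])]
      linarith
    refine h9.trans ?_
    rw [div_le_iff₀ (by norm_num [be])]
    have : 0 ≤ D + 1 := by linarith
    have h10 : 1 ≤ (1 - be / 200) * (1 + be / 100) := by norm_num [be]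
    nlinarith
  have hb : be / 400 ≤ 1 := by norm_num [be]
  have hb0 : 0 < be := by norm_num [be]
  nlinarith

end PPG
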