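import Pool.Agent.PPG.Stmts

set_option autoImplicit false

namespace PPG

open MeasureTheory Set Filter Topology
open PPI
open scoped Pointwise

namespace DET_

lemma pr_idn (n : ℕ) : PR n (idn n) where
  sym := fun x y => by simp [idn]
  idem := fun x => by simp [idn]
  rk := by simp [idn]

end DET_

theorem det_proof (hONB : Stmt_ONB) (hTRI : Stmt_TRI) : Stmt_DET := by
  intro n ι _ p w f hIS hW
  obtain ⟨hon, -, -⟩ := hONB n n ι p w (idn n) f (DET_.pr_idn n) hW
  obtain ⟨htri, hWt⟩ := hTRI n n ι p w (idn n) f (DET_.pr_idn n) hW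
  set v : Fin n → EE n := fg w n (idn n) f with hv
  set W : Matrix (Fin n) (Fin n) ℝ := Matrix.of fun k j => w (f k) j with hWdef
  set V : Matrix (Fin n) (Fin n) ℝ := Matrix.of fun k j => v k j with hVdef
  have hin : ∀ x y : EE n, inner ℝ x y = ∑ j, x j * y j := by
    intro x y
    rw [PiLp.inner_apply]
    refine Finset.sum_congr rfl fun j _ => ?_
    simp [mul_comm]
  have hG : ∀ k l, (W * V.transpose) k l = inner ℝ (w (f k)) (v l) := by
    intro k l
    rw [Matrix.mul_apply, hin]
    rfl
  have hVV : V * V.transpose = 1 := by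
    ext k l
    rw [Matrix.mul_apply]
    have h1 : ∑ j, V k j * V.transpose j l = inner ℝ (v k) (v l) := by
      rw [hin]; rfl
    rw [h1, (orthonormal_iff_ite.mp hon) k l, Matrix.one_apply]
  have hdV : V.det ^ 2 = 1 := by
    have := congrArg Matrix.det hVV
    rw [Matrix.det_mul, Matrix.det_transpose, Matrix.det_one] at this
    rw [pow_two]; exact this
  have hdG : (W * V.transpose).det = ∏ k, inner ℝ (w (f k)) (v k) := by
    rw [Matrix.det_of_lowerTriangular]
    · exact Finset.prod_congr rfl fun k _ => hG k k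
    · intro k l hkl
      rw [hG]
      exact htri k l (by simpa using hkl)
  have hdet2 : dt (fun k => w (f k)) ^ 2 = ∏ k, (inner ℝ (w (f k)) (v k)) ^ 2 := by
    have h1 : dt (fun k => w (f k)) = W.det := rfl
    rw [Finset.prod_pow, ← hdG, Matrix.det_mul, Matrix.det_transpose, mul_pow, hdV, mul_one, h1]
  refine ⟨?_, ?_⟩
  · rw [hWt, hdet2]
  · have h2 : dt (fun k => w (f k)) ^ 2 ≤ 1 := by
      rw [hdet2]
      refine Finset.prod_le_one (fun k _ => sq_nonneg _) fun k _ => ?_
      have h3 : |inner ℝ (w (f k)) (v k)| ≤ ‖w (f k)‖ * ‖v k‖ := abs_real_inner_le_norm _ _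
      rw [hIS.nrm, hon.1 k, one_mul] at h3
      rw [← sq_abs]
      exact pow_le_one₀ (abs_nonneg _) h3
    exact (sq_le_one_iff_abs_le_one _).mp h2

end PPG
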