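import Pool.Agent.PPF.Stmts

/-!
# Squad PPG (MP_0bf616_gt): Petty's projection inequality up to a polynomial factor, and exactly
for bodies which are not nearly isoperimetric.  Definitions.
-/

set_option autoImplicit false

namespace PPG

open MeasureTheory Set Filter Topology
open PPI
open scoped Pointwise

noncomputable section

/-! ## Isotropic families of unit vectors -/

/-- a finitely supported isotropic probability measure on the sphere -/
structure IS {n : ℕ} {ι : Type} [Fintype ι] (p : ι → ℝ) (w : ι → EE n) : Prop where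
  ppos : ∀ i, 0 < p i
  psum : ∑ i, p i = 1
  nrm : ∀ i, ‖w i‖ = 1
  iso : ∀ x : EE n, (n : ℝ) * ∑ i, p i * (inner ℝ (w i) x) ^ 2 = ‖x‖ ^ 2

/-- Minkowski's inequality `|L| ≤ κ_n exp D (∑ p_i h_L(w_i))^n` -/
def MI {n : ℕ} {ι : Type} [Fintype ι] (p : ι → ℝ) (w : ι → EE n) (D : ℝ) : Prop :=
  ∀ (L : Set (EE n)) (c : ι → ℝ), IsCompact L → Convex ℝ L → L.Nonempty →
    (∀ i, ∀ x ∈ L, inner ℝ (w i) x ≤ c i) →
    0 ≤ ∑ i, p i * c i ∧ vl L ≤ kap n * Real.exp D * (∑ i, p i * c i) ^ n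

/-! ## The determinantal chain -/

/-- `P` is the orthogonal projection onto a subspace of dimension `m` -/
structure PR {n : ℕ} (m : ℕ) (P : EE n →L[ℝ] EE n) : Prop where
  sym : ∀ x y, inner ℝ (P x) y = inner ℝ x (P y)
  idem : ∀ x, P (P x) = P x
  rk : ∑ k : Fin n, ‖P (EuclideanSpace.single k 1)‖ ^ 2 = m

/-- the unit vector in the direction `P w` -/
def dir {n : ℕ} (P : EE n →L[ℝ] EE n) (w : EE n) : EE n := (‖P w‖)⁻¹ • P w

/-- the projection `P` minus the projection onto the line spanned by `P w` -/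
def upd {n : ℕ} (P : EE n →L[ℝ] EE n) (w : EE n) : EE n →L[ℝ] EE n :=
  P - (innerSL ℝ (dir P w)).smulRight (dir P w)

/-- the probability of the sequence of indices `f` for the chain started at `P` (of rank `m`) -/
def Wt {n : ℕ} {ι : Type} (p : ι → ℝ) (w : ι → EE n) :
    (m : ℕ) → (EE n →L[ℝ] EE n) → (Fin m → ι) → ℝ
  | 0, _, _ => 1
  | m + 1, P, f => ((n : ℝ) / ((m : ℝ) + 1) * (p (f 0) * ‖P (w (f 0))‖ ^ 2)) *
      Wt p w m (upd P (w (f 0))) (Fin.tail f)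

/-- the orthonormal flag belonging to the sequence of indices `f` -/
def fg {n : ℕ} {ι : Type} (w : ι → EE n) :
    (m : ℕ) → (EE n →L[ℝ] EE n) → (Fin m → ι) → Fin m → EE n
  | 0, _, _ => fun i => i.elim0
  | m + 1, P, f => Fin.cons (dir P (w (f 0))) (fg w m (upd P (w (f 0))) (Fin.tail f))

/-- the identity of `R^n` -/
def idn (n : ℕ) : EE n →L[ℝ] EE n := ContinuousLinearMap.id ℝ (EE n)

/-- `b_k(x) = ⟨v_k, x⟩²` -/
def bb {m n : ℕ} (v : Fin m → EE n) (x : EE n) (k : Fin m) : ℝ := (inner ℝ (v k) x) ^ 2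

/-- the tails `∑_{l ≥ k} ⟨v_l, x⟩²` -/
def tl {m n : ℕ} (v : Fin m → EE n) (x : EE n) (k : ℕ) : ℝ :=
  ∑ l : Fin m, if k ≤ (l : ℕ) then bb v x l else 0

/-- `T(t,b) = (t - b) log ((t - b) / t) + b` -/
def TT (t b : ℝ) : ℝ := (t - b) * Real.log ((t - b) / t) + b

/-- the cost `∑_k T(t_k, b_k)` -/
def cs {m n : ℕ} (v : Fin m → EE n) (x : EE n) : ℝ := ∑ k : Fin m, TT (tl v x k) (bb v x k)

open Classical in
/-- the part of the cost given by the jumps smaller than `β` -/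
def cm {m n : ℕ} (β : ℝ) (v : Fin m → EE n) (x : EE n) : ℝ :=
  ∑ k : Fin m, if bb v x k < β then TT (tl v x k) (bb v x k) else 0

/-- `(n/m) t log ((n/m) t)` -/
def fe (n m : ℕ) (t : ℝ) : ℝ := (n : ℝ) / m * t * Real.log ((n : ℝ) / m * t)

/-- random orthonormal flags -/
structure RF {n : ℕ} {Ω : Type} [Fintype Ω] (μ : Ω → ℝ) (v : Ω → Fin n → EE n) : Prop where
  nn : ∀ o, 0 ≤ μ o
  sum : ∑ o, μ o = 1
  on : ∀ o, Orthonormal ℝ (v o)
  par : ∀ o x, ∑ k, bb (v o) x k = ‖x‖ ^ 2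
  mg : ∀ (x : EE n) (k : Fin n) (h : ℝ → ℝ),
    ((n : ℝ) - (k : ℕ)) * ∑ o, μ o * (h (tl (v o) x k) * bb (v o) x k) =
      ∑ o, μ o * (h (tl (v o) x k) * tl (v o) x k)
  tail : ∀ (x : EE n) (k : ℕ), k ≤ n →
    (n : ℝ) * ∑ o, μ o * tl (v o) x k = ((n : ℝ) - k) * ‖x‖ ^ 2

/-! ## Classes of jumps -/

/-- the constant `2^(-18)` -/
def et : ℝ := 1 / 2 ^ 18

/-- the constant `2^(-20)` -/
def be : ℝ := 1 / 2 ^ 20

/-- the constant `2^(-10)` -/
def rh : ℝ := 1 / 2 ^ 10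

open Classical in
/-- sum of all jumps `≥ β` -/
def JA {n : ℕ} (β : ℝ) (v : Fin n → EE n) (x : EE n) : ℝ :=
  ∑ k : Fin n, if β ≤ bb v x k then bb v x k else 0

open Classical in
/-- big jumps: `k < K`, `t_k > et`, `b_k ≥ be` -/
def JB {n : ℕ} (β : ℝ) (K : ℕ) (v : Fin n → EE n) (x : EE n) : ℝ :=
  ∑ k : Fin n, if β ≤ bb v x k ∧ (k : ℕ) < K ∧ et < tl v x k ∧ be ≤ bb v x k
    then bb v x k else 0

open Classical in
/-- medium jumps: `k < K`, `t_k > et`, `b_k < be` -/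
def JM {n : ℕ} (β : ℝ) (K : ℕ) (v : Fin n → EE n) (x : EE n) : ℝ :=
  ∑ k : Fin n, if β ≤ bb v x k ∧ (k : ℕ) < K ∧ et < tl v x k ∧ bb v x k < be
    then bb v x k else 0

open Classical in
/-- low jumps: `k < K`, `t_k ≤ et` -/
def JO {n : ℕ} (β : ℝ) (K : ℕ) (v : Fin n → EE n) (x : EE n) : ℝ :=
  ∑ k : Fin n, if β ≤ bb v x k ∧ (k : ℕ) < K ∧ tl v x k ≤ et then bb v x k else 0

open Classical in
/-- late jumps: `K ≤ k` -/
def JL {n : ℕ} (β : ℝ) (K : ℕ) (v : Fin n → EE n) (x : EE n) : ℝ :=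
  ∑ k : Fin n, if β ≤ bb v x k ∧ K ≤ (k : ℕ) then bb v x k else 0

open Classical in
/-- the vector of the late jumps -/
def XL {n : ℕ} (β : ℝ) (K : ℕ) (v : Fin n → EE n) (x : EE n) : EE n :=
  ∑ k : Fin n, if β ≤ bb v x k ∧ K ≤ (k : ℕ) then (inner ℝ (v k) x : ℝ) • v k else 0

/-! ## Test bodies -/

/-- orthogonal projection onto the span of the `v i`, `i ∈ s` -/
def psp {n : ℕ} {κ : Type} (v : κ → EE n) (s : Finset κ) : EE n →L[ℝ] EE n :=
  (Submodule.span ℝ (v '' (s : Set κ))).starProjection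

/-- the level of the constraint for a set of `j` vectors out of `M` vectors -/
def lev (n M j : ℕ) : ℝ := 200 * j * (1 + Real.log (2 * M / j)) / n

/-- the test body for the vectors `v i` -/
def TB {n : ℕ} {κ : Type} (M : ℕ) (v : κ → EE n) : Set (EE n) :=
  {x | x ∈ Bn n ∧ ∀ s : Finset κ, ‖psp v s x‖ ^ 2 ≤ lev n M s.card}

/-- the threshold for the size of the jumps -/
def bs (n : ℕ) : ℝ := 200 * (100 / be) ^ 2 * (1 + Real.log (64 * n)) / n

/-- `κ_{n-1}^n / κ_n^{n-2}` -/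
def Pn (n : ℕ) : ℝ := kap (n - 1) ^ n / kap n ^ (n - 2)

end

end PPG
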