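import Pool.Agent.PPG.Stmts

/-!
# Squad PPG (MP_0bf616_gt), module ENT: the entropy of the chain
-/

set_option autoImplicit false

namespace PPG

open MeasureTheory Set Filter Topology
open PPI
open scoped Pointwise

namespace ENT_

lemma sum_cons {ι : Type} [Fintype ι] (m : ℕ) (F : (Fin (m + 1) → ι) → ℝ) :
    ∑ f, F f = ∑ i, ∑ g : Fin m → ι, F (Fin.cons i g) := by
  rw [← (Fin.consEquiv (fun _ : Fin (m + 1) => ι)).sum_comp, Fintype.sum_prod_type]
  rfl

lemma wt_cons {n : ℕ} {ι : Type} (p : ι → ℝ) (w : ι → EE n) (m : ℕ) (P : EE n →L[ℝ] EE n)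
    (i : ι) (g : Fin m → ι) :
    Wt p w (m + 1) P (Fin.cons i g) =
      ((n : ℝ) / ((m : ℝ) + 1) * (p i * ‖P (w i)‖ ^ 2)) * Wt p w m (upd P (w i)) g := by
  simp [Wt]

lemma fg_cons {n : ℕ} {ι : Type} (w : ι → EE n) (m : ℕ) (P : EE n →L[ℝ] EE n)
    (i : ι) (g : Fin m → ι) :
    fg w (m + 1) P (Fin.cons i g) = Fin.cons (dir P (w i)) (fg w m (upd P (w i)) g) := by
  simp [fg]

lemma tl_cons_succ {m n : ℕ} (v : EE n) (u : Fin m → EE n) (x : EE n) (k : ℕ) :
    tl (Fin.cons v u : Fin (m + 1) → EE n) x (k + 1) = tl u x k := by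
  unfold tl
  rw [Fin.sum_univ_succ]
  simp [bb]

lemma tl_zero {m n : ℕ} (v : Fin m → EE n) (x : EE n) : tl v x 0 = ∑ k, bb v x k := by
  simp [tl]

lemma cs_cons {m n : ℕ} (v : EE n) (u : Fin m → EE n) (x : EE n) :
    cs (Fin.cons v u : Fin (m + 1) → EE n) x =
      TT (∑ k, bb (Fin.cons v u : Fin (m + 1) → EE n) x k) ((inner ℝ v x) ^ 2) + cs u x := by
  have h0 : TT (tl (Fin.cons v u : Fin (m + 1) → EE n) x ((0 : Fin (m + 1)) : ℕ))
      (bb (Fin.cons v u : Fin (m + 1) → EE n) x 0) =
      TT (∑ k, bb (Fin.cons v u : Fin (m + 1) → EE n) x k) ((inner ℝ v x) ^ 2) := by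
    rw [Fin.val_zero, tl_zero]
    simp [bb]
  have h1 : ∀ k : Fin m, TT (tl (Fin.cons v u : Fin (m + 1) → EE n) x ((k.succ : Fin (m + 1)) : ℕ))
      (bb (Fin.cons v u : Fin (m + 1) → EE n) x k.succ) = TT (tl u x k) (bb u x k) := by
    intro k
    rw [Fin.val_succ, tl_cons_succ]
    simp [bb]
  unfold cs
  rw [Fin.sum_univ_succ, h0, Finset.sum_congr rfl fun k _ => h1 k]

end ENT_

open ENT_ in
theorem ent_proof (h1 : Stmt_TTF) (h2 : Stmt_ONE) (h3 : Stmt_UPD) (h4 : Stmt_STP)
    (h5 : Stmt_WSM) (h6 : Stmt_ONB) : Stmt_ENT := by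
  intro n m ι _ p w P hn hIS
  induction m generalizing P with
  | zero =>
    intro hP
    simp [Wt, cs]
  | succ m ih =>
    intro hP
    obtain ⟨hs1, hs2⟩ := h4 n m ι p w P hn hIS hP
    set q : ι → ℝ := fun i => (n : ℝ) / ((m : ℝ) + 1) * (p i * ‖P (w i)‖ ^ 2) with hq
    have hm1 : (0 : ℝ) < (m : ℝ) + 1 := by positivity
    have hn0 : (0 : ℝ) < n := by exact_mod_cast hn
    have hq0 : ∀ i, 0 ≤ q i := by
      intro i
      have := hIS.ppos i
      simp only [hq]; positivity
    have hqs : ∑ i, q i = 1 := by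
      simp only [hq]
      rw [← Finset.mul_sum, div_mul_eq_mul_div, hs1, div_self hm1.ne']
    have hPne : ∀ i, q i ≠ 0 → P (w i) ≠ 0 := by
      intro i hi h0
      apply hi
      simp [hq, h0]
    have hPR : ∀ i, q i ≠ 0 → PR m (upd P (w i)) := fun i hi =>
      ((h3 n m P (w i) hP).2.2.2 (hPne i hi)).1
    -- the numbers `t_j`, `b_ij`
    set t : ι → ℝ := fun j => ‖P (w j)‖ ^ 2 with ht
    set b : ι → ι → ℝ := fun i j => (inner ℝ (dir P (w i)) (w j)) ^ 2 with hb
    have hupd : ∀ i j, ‖upd P (w i) (w j)‖ ^ 2 = t j - b i j := fun i j =>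
      (h3 n m P (w i) hP).2.2.1 (w j)
    have hbt : ∀ i j, b i j ≤ t j := fun i j => (h3 n m P (w i) hP).1 (w j)
    have hb0 : ∀ i j, 0 ≤ b i j := fun i j => sq_nonneg _
    have ht0 : ∀ j, 0 ≤ t j := fun j => sq_nonneg _
    have hqb : ∀ j, ((m : ℝ) + 1) * ∑ i, q i * b i j = t j := by
      intro j
      have e0 : t j = ‖P (w j)‖ ^ 2 := rfl
      rw [e0, ← hs2 (w j), Finset.mul_sum, Finset.mul_sum]
      refine Finset.sum_congr rfl fun i _ => ?_
      simp only [hq, hb]
      field_simp
    -- one step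
    have hone : ∀ j, (m : ℝ) * ∑ i, q i * fe n m (t j - b i j) ≤
        (m : ℝ) * fe n (m + 1) (t j) + n * ∑ i, q i * TT (t j) (b i j) := by
      intro j
      rcases Nat.eq_zero_or_pos m with hm | hm
      · subst hm
        have : 0 ≤ ∑ i, q i * TT (t j) (b i j) :=
          Finset.sum_nonneg fun i _ => mul_nonneg (hq0 i) (h1 _ _ (hb0 i j) (hbt i j)).1
        simp only [Nat.cast_zero, zero_mul, zero_add]
        positivity
      · exact h2 n m ι q (fun i => b i j) (t j) hn hm (ht0 j) hq0 hqs (fun i => hb0 i j)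
          (fun i => hbt i j) (hqb j)
    -- rewriting of the sums
    have hL : ∀ i, ∑ g : Fin m → ι, Wt p w (m + 1) P (Fin.cons i g) *
        Real.log (Wt p w (m + 1) P (Fin.cons i g) /
          ∏ k, p ((Fin.cons i g : Fin (m + 1) → ι) k)) ≤
        p i * fe n (m + 1) (t i) + q i * (∑ j, p j * (m * fe n m (t j - b i j)) +
          n * ∑ g, Wt p w m (upd P (w i)) g * ∑ j, p j * cs (fg w m (upd P (w i)) g) (w j)) := by
      intro i
      have hpi := hIS.ppos i
      have hfe : p i * fe n (m + 1) (t i) = q i * Real.log (q i / p i) := by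
        simp only [fe, hq, ht]
        have e1 : (n : ℝ) / ((m : ℝ) + 1) * (p i * ‖P (w i)‖ ^ 2) / p i
            = (n : ℝ) / ((m : ℝ) + 1) * ‖P (w i)‖ ^ 2 := by
          field_simp
        rw [e1]
        push_cast
        ring
      by_cases hqi : q i = 0
      · have hz : ∀ g : Fin m → ι, Wt p w (m + 1) P (Fin.cons i g) = 0 := by
          intro g
          rw [wt_cons]
          have : (n : ℝ) / ((m : ℝ) + 1) * (p i * ‖P (w i)‖ ^ 2) = 0 := hqi
          rw [this, zero_mul]
        rw [hfe, hqi]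
        simp [hz]
      · have hPi := hPR i hqi
        obtain ⟨hW0, hW1⟩ := h5 n m ι p w (upd P (w i)) hn hIS hPi
        have hih := ih (upd P (w i)) hPi
        have e1 : ∀ g : Fin m → ι, Wt p w (m + 1) P (Fin.cons i g) *
            Real.log (Wt p w (m + 1) P (Fin.cons i g) /
              ∏ k, p ((Fin.cons i g : Fin (m + 1) → ι) k)) =
            q i * (Wt p w m (upd P (w i)) g * Real.log (q i / p i)) +
            q i * (Wt p w m (upd P (w i)) g *
              Real.log (Wt p w m (upd P (w i)) g / ∏ k, p (g k))) := by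
          intro g
          rw [wt_cons]
          have hq' : (n : ℝ) / ((m : ℝ) + 1) * (p i * ‖P (w i)‖ ^ 2) = q i := rfl
          rw [hq']
          by_cases hg : Wt p w m (upd P (w i)) g = 0
          · rw [hg]; simp
          · have hprod : (0 : ℝ) < ∏ k, p (g k) := Finset.prod_pos fun k _ => hIS.ppos _
            have e2 : ∏ k, p ((Fin.cons i g : Fin (m + 1) → ι) k) = p i * ∏ k, p (g k) := by
              rw [Fin.prod_univ_succ]
              simp
            have e3 : q i * Wt p w m (upd P (w i)) g / (p i * ∏ k, p (g k)) =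
                (q i / p i) * (Wt p w m (upd P (w i)) g / ∏ k, p (g k)) := by
              rw [mul_div_mul_comm]
            rw [e2, e3, Real.log_mul (div_ne_zero hqi hpi.ne') (div_ne_zero hg hprod.ne')]
            ring
        rw [Finset.sum_congr rfl fun g _ => e1 g, Finset.sum_add_distrib, ← Finset.mul_sum,
          ← Finset.mul_sum, ← Finset.sum_mul, hW1, one_mul, ← hfe]
        have hih' : ∑ g, Wt p w m (upd P (w i)) g *
            Real.log (Wt p w m (upd P (w i)) g / ∏ k, p (g k)) ≤
            ∑ j, p j * (m * fe n m (t j - b i j)) +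
            n * ∑ g, Wt p w m (upd P (w i)) g *
              ∑ j, p j * cs (fg w m (upd P (w i)) g) (w j) := by
          have e4 : ∑ j, p j * (m * fe n m (t j - b i j))
              = ∑ j, p j * (m * fe n m (‖upd P (w i) (w j)‖ ^ 2)) := by
            refine Finset.sum_congr rfl fun j _ => ?_
            rw [hupd]
          rw [e4]
          exact hih
        have := mul_le_mul_of_nonneg_left hih' (hq0 i)
        linarith
    -- the cost
    have hR : ∀ i, ∑ g : Fin m → ι, Wt p w (m + 1) P (Fin.cons i g) *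
        ∑ j, p j * cs (fg w (m + 1) P (Fin.cons i g)) (w j) =
        q i * (∑ j, p j * TT (t j) (b i j)) +
        q i * ∑ g, Wt p w m (upd P (w i)) g *
          ∑ j, p j * cs (fg w m (upd P (w i)) g) (w j) := by
      intro i
      have hq' : (n : ℝ) / ((m : ℝ) + 1) * (p i * ‖P (w i)‖ ^ 2) = q i := rfl
      by_cases hqi : q i = 0
      · have hz : ∀ g : Fin m → ι, Wt p w (m + 1) P (Fin.cons i g) = 0 := by
          intro g
          rw [wt_cons, hq', hqi, zero_mul]
        rw [hqi]
        simp [hz]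
      · have hPi := hPR i hqi
        obtain ⟨hW0, hW1⟩ := h5 n m ι p w (upd P (w i)) hn hIS hPi
        have e1 : ∀ g : Fin m → ι, Wt p w (m + 1) P (Fin.cons i g) *
            ∑ j, p j * cs (fg w (m + 1) P (Fin.cons i g)) (w j) =
            q i * (Wt p w m (upd P (w i)) g * ∑ j, p j * TT (t j) (b i j)) +
            q i * (Wt p w m (upd P (w i)) g *
              ∑ j, p j * cs (fg w m (upd P (w i)) g) (w j)) := by
          intro g
          by_cases hg : Wt p w (m + 1) P (Fin.cons i g) = 0
          · have hg' : Wt p w m (upd P (w i)) g = 0 := by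
              rw [wt_cons, hq'] at hg
              exact (mul_eq_zero.1 hg).resolve_left hqi
            rw [hg, hg']
            simp
          · have hon := (h6 n (m + 1) ι p w P (Fin.cons i g) hP hg).2.2
            have e2 : ∀ j, cs (fg w (m + 1) P (Fin.cons i g)) (w j) =
                TT (t j) (b i j) + cs (fg w m (upd P (w i)) g) (w j) := by
              intro j
              have h := hon (w j)
              rw [fg_cons] at h ⊢
              rw [cs_cons, h]
            rw [Finset.sum_congr rfl fun j _ => by rw [e2 j, mul_add], Finset.sum_add_distrib,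
              wt_cons, hq']
            ring
        rw [Finset.sum_congr rfl fun g _ => e1 g, Finset.sum_add_distrib, ← Finset.mul_sum,
          ← Finset.mul_sum, ← Finset.sum_mul, hW1, one_mul]
    rw [sum_cons, sum_cons (F := fun f => Wt p w (m + 1) P f *
      ∑ j, p j * cs (fg w (m + 1) P f) (w j)), Finset.sum_congr rfl fun i _ => hR i]
    refine (Finset.sum_le_sum fun i _ => hL i).trans ?_
    -- collect
    have c1 : ∑ i, q i * ∑ j, p j * (m * fe n m (t j - b i j))
        = ∑ j, p j * ((m : ℝ) * ∑ i, q i * fe n m (t j - b i j)) := by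
      simp only [Finset.mul_sum]
      rw [Finset.sum_comm]
      refine Finset.sum_congr rfl fun j _ => Finset.sum_congr rfl fun i _ => ?_
      ring
    have c2 : ∑ i, q i * (∑ j, p j * TT (t j) (b i j))
        = ∑ j, p j * ∑ i, q i * TT (t j) (b i j) := by
      simp only [Finset.mul_sum]
      rw [Finset.sum_comm]
      refine Finset.sum_congr rfl fun j _ => Finset.sum_congr rfl fun i _ => ?_
      ring
    have c3 : ∑ j, p j * ((m : ℝ) * ∑ i, q i * fe n m (t j - b i j)) ≤
        ∑ j, p j * ((m : ℝ) * fe n (m + 1) (t j) + n * ∑ i, q i * TT (t j) (b i j)) :=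
      Finset.sum_le_sum fun j _ => mul_le_mul_of_nonneg_left (hone j) (hIS.ppos j).le
    have c4 : ∑ j, p j * ((m : ℝ) * fe n (m + 1) (t j) + n * ∑ i, q i * TT (t j) (b i j))
        = ∑ j, p j * ((m : ℝ) * fe n (m + 1) (t j)) +
          n * ∑ j, p j * ∑ i, q i * TT (t j) (b i j) := by
      rw [Finset.mul_sum, ← Finset.sum_add_distrib]
      refine Finset.sum_congr rfl fun j _ => ?_
      ring
    have c5 : ∑ j, p j * (((m + 1 : ℕ) : ℝ) * fe n (m + 1) (t j))
        = ∑ j, p j * ((m : ℝ) * fe n (m + 1) (t j)) + ∑ j, p j * fe n (m + 1) (t j) := by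
      rw [← Finset.sum_add_distrib]
      refine Finset.sum_congr rfl fun j _ => ?_
      push_cast
      ring
    have c6 : ∑ i, (p i * fe n (m + 1) (t i) + q i * (∑ j, p j * (m * fe n m (t j - b i j)) +
          n * ∑ g, Wt p w m (upd P (w i)) g * ∑ j, p j * cs (fg w m (upd P (w i)) g) (w j)))
        = ∑ i, p i * fe n (m + 1) (t i) + ∑ i, q i * ∑ j, p j * (m * fe n m (t j - b i j)) +
          n * ∑ i, q i * ∑ g, Wt p w m (upd P (w i)) g *
            ∑ j, p j * cs (fg w m (upd P (w i)) g) (w j) := by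
      rw [Finset.mul_sum, ← Finset.sum_add_distrib, ← Finset.sum_add_distrib]
      refine Finset.sum_congr rfl fun i _ => ?_
      ring
    have c7 : (n : ℝ) * ∑ i, (q i * (∑ j, p j * TT (t j) (b i j)) +
        q i * ∑ g, Wt p w m (upd P (w i)) g *
          ∑ j, p j * cs (fg w m (upd P (w i)) g) (w j)) =
        n * ∑ i, q i * (∑ j, p j * TT (t j) (b i j)) +
        n * ∑ i, q i * ∑ g, Wt p w m (upd P (w i)) g *
          ∑ j, p j * cs (fg w m (upd P (w i)) g) (w j) := by
      rw [Finset.sum_add_distrib, mul_add]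
    rw [c6, c7, c2, c5, c1]
    linarith [c3, c4]

end PPG
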