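import Pool.Agent.PPG.Stmts

set_option autoImplicit false

namespace PPG

open MeasureTheory Set Filter Topology
open PPI
open scoped Pointwise

namespace FFD_

theorem vl_fin {n : ℕ} (S : Set (EE n)) (hS : S ⊆ Bn n) : volume S ≠ ⊤ := by
  have h1 : volume (Bn n) < ⊤ := by
    unfold Bn
    exact (isCompact_closedBall (0 : EE n) 1).measure_lt_top
  exact ((measure_mono hS).trans_lt h1).ne

end FFD_

open FFD_ in
theorem ffd_proof (hCAP : PPF.Stmt_CAP) (hAVE : PPI.Stmt_AVE) : Stmt_FFD := by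
  intro n N ι _ p w D hn hIS hMI hN
  obtain ⟨hkap, -⟩ := hAVE n hn
  -- ι is nonempty
  have hne : Nonempty ι := by
    by_contra hcon
    rw [not_nonempty_iff] at hcon
    have h := hIS.psum
    simp at h
  have hcard : 1 ≤ Fintype.card ι := Fintype.card_pos
  have hN1 : 1 ≤ N := le_trans hcard hN
  have hNr : (1 : ℝ) ≤ N := by exact_mod_cast hN1
  have hnr : (1 : ℝ) ≤ n := by exact_mod_cast hn
  have hn0 : (n : ℝ) ≠ 0 := by positivity
  set u : ℝ := (2 * (N : ℝ)) ^ (-(2 / (n : ℝ))) with hu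
  have h2N : (0 : ℝ) < 2 * N := by linarith
  have hu0 : 0 < u := Real.rpow_pos_of_pos h2N _
  have hu1 : u ≤ 1 := by
    apply Real.rpow_le_one_of_one_le_of_nonpos
    · linarith
    · have : 0 < 2 / (n : ℝ) := by positivity
      linarith
  have hupow : √u ^ n = 1 / (2 * (N : ℝ)) := by
    rw [Real.sqrt_eq_rpow, hu, ← Real.rpow_mul h2N.le, ← Real.rpow_natCast,
      ← Real.rpow_mul h2N.le]
    have h1 : -(2 / (n : ℝ)) * (1 / 2) * (n : ℝ) = -1 := by
      field_simp
    rw [h1, Real.rpow_neg_one, one_div]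
  set τ : ℝ := √(1 - u) with hτ
  have hτ0 : 0 ≤ τ := Real.sqrt_nonneg _
  have hτsq : τ ^ 2 = 1 - u := Real.sq_sqrt (by linarith)
  have hτ1 : τ ≤ 1 := by
    rw [hτ]
    exact Real.sqrt_le_one.mpr (by linarith)
  set L : Set (EE n) := {x : EE n | x ∈ Bn n ∧ ∀ i, inner ℝ (w i) x ≤ τ} with hL
  have hLsub : L ⊆ Bn n := fun x hx => hx.1
  have hLclosed : IsClosed L := by
    have h1 : L = Bn n ∩ ⋂ i, {x : EE n | inner ℝ (w i) x ≤ τ} := by
      ext x
      simp [hL]
    rw [h1]
    apply IsClosed.inter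
    · exact Metric.isClosed_closedBall
    · apply isClosed_iInter
      intro i
      exact isClosed_le (continuous_const.inner continuous_id) continuous_const
  have hLcomp : IsCompact L := by
    have hB : IsCompact (Bn n) := by
      unfold Bn
      exact isCompact_closedBall (0 : EE n) 1
    exact hB.of_isClosed_subset hLclosed hLsub
  have hLconv : Convex ℝ L := by
    intro x hx y hy a b ha hb hab
    refine ⟨?_, ?_⟩
    · have hc : Convex ℝ (Bn n) := by
        unfold Bn
        exact convex_closedBall (0 : EE n) 1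
      exact hc hx.1 hy.1 ha hb hab
    · intro i
      rw [inner_add_right, inner_smul_right, inner_smul_right]
      have h1 := hx.2 i
      have h2 := hy.2 i
      calc a * inner ℝ (w i) x + b * inner ℝ (w i) y ≤ a * τ + b * τ := by
            have := mul_le_mul_of_nonneg_left h1 ha
            have := mul_le_mul_of_nonneg_left h2 hb
            linarith
        _ = τ := by rw [← add_mul, hab, one_mul]
  have hLne : L.Nonempty := by
    refine ⟨0, ?_, ?_⟩
    · simp [Bn]
    · intro i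
      simpa using hτ0
  -- caps
  set Cp : ι → Set (EE n) := fun i => {x : EE n | x ∈ Bn n ∧ τ ≤ inner ℝ x (w i)} with hCp
  have hCpsub : ∀ i, Cp i ⊆ Bn n := fun i x hx => hx.1
  have hcap : ∀ i, vl (Cp i) ≤ 1 / (2 * (N : ℝ)) * kap n := by
    intro i
    have h1 := hCAP n (w i) τ hn (hIS.nrm i) hτ0 hτ1
    have h2 : (1 : ℝ) - τ ^ 2 = u := by rw [hτsq]; ring
    rw [h2, hupow] at h1
    exact h1
  have hcover : Bn n ⊆ L ∪ ⋃ i, Cp i := by
    intro x hx
    by_cases h : ∀ i, inner ℝ (w i) x ≤ τ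
    · exact Or.inl ⟨hx, h⟩
    · push Not at h
      obtain ⟨i, hi⟩ := h
      refine Or.inr (mem_iUnion.mpr ⟨i, hx, ?_⟩)
      rw [real_inner_comm]
      exact hi.le
  have hmeas : kap n ≤ vl L + ∑ i, vl (Cp i) := by
    have h1 : volume (Bn n) ≤ volume L + ∑ i, volume (Cp i) := by
      calc volume (Bn n) ≤ volume (L ∪ ⋃ i, Cp i) := measure_mono hcover
        _ ≤ volume L + volume (⋃ i, Cp i) := measure_union_le _ _
        _ ≤ volume L + ∑ i, volume (Cp i) := by
            gcongr
            exact measure_iUnion_fintype_le _ _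
    have hfin : volume L + ∑ i, volume (Cp i) ≠ ⊤ := by
      apply ENNReal.add_ne_top.mpr
      refine ⟨vl_fin L hLsub, ?_⟩
      exact (ENNReal.sum_lt_top.mpr (fun i _ => (vl_fin (Cp i) (hCpsub i)).lt_top)).ne
    have h2 := ENNReal.toReal_mono hfin h1
    rw [ENNReal.toReal_add (vl_fin L hLsub)
      (ENNReal.sum_lt_top.mpr (fun i _ => (vl_fin (Cp i) (hCpsub i)).lt_top)).ne,
      ENNReal.toReal_sum (fun i _ => vl_fin (Cp i) (hCpsub i))] at h2
    exact h2
  have hsum : ∑ i, vl (Cp i) ≤ kap n / 2 := by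
    calc ∑ i, vl (Cp i) ≤ ∑ _i : ι, 1 / (2 * (N : ℝ)) * kap n :=
          Finset.sum_le_sum (fun i _ => hcap i)
      _ = (Fintype.card ι : ℝ) * (1 / (2 * (N : ℝ)) * kap n) := by
          rw [Finset.sum_const, Finset.card_univ, nsmul_eq_mul]
      _ ≤ (N : ℝ) * (1 / (2 * (N : ℝ)) * kap n) := by
          apply mul_le_mul_of_nonneg_right
          · exact_mod_cast hN
          · positivity
      _ = kap n / 2 := by field_simp
  have hLlow : kap n / 2 ≤ vl L := by linarith
  have hMI' := (hMI L (fun _ => τ) hLcomp hLconv hLne (fun i x hx => hx.2 i)).2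
  have hst : ∑ i, p i * τ = τ := by
    rw [← Finset.sum_mul, hIS.psum, one_mul]
  rw [hst] at hMI'
  have hhalf : (1 : ℝ) / 2 ≤ Real.exp D * τ ^ n := by
    have h1 : kap n * (1 / 2) ≤ kap n * (Real.exp D * τ ^ n) := by
      calc kap n * (1 / 2) = kap n / 2 := by ring
        _ ≤ vl L := hLlow
        _ ≤ kap n * Real.exp D * τ ^ n := hMI'
        _ = kap n * (Real.exp D * τ ^ n) := by ring
    exact le_of_mul_le_mul_left h1 hkap
  have hτexp : τ ≤ Real.exp (-(u / 2)) := by
    have h1 : 1 - u ≤ Real.exp (-u) := by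
      have := Real.add_one_le_exp (-u)
      linarith
    rw [hτ]
    apply Real.sqrt_le_iff.mpr
    refine ⟨(Real.exp_pos _).le, ?_⟩
    rw [← Real.exp_nat_mul]
    have h2 : ((2 : ℕ) : ℝ) * (-(u / 2)) = -u := by push_cast; ring
    rw [h2]
    exact h1
  have hτn : τ ^ n ≤ Real.exp (-((n : ℝ) / 2 * u)) := by
    calc τ ^ n ≤ Real.exp (-(u / 2)) ^ n := pow_le_pow_left₀ hτ0 hτexp n
      _ = Real.exp (-((n : ℝ) / 2 * u)) := by
          rw [← Real.exp_nat_mul]
          ring_nf
  have hfin : (1 : ℝ) / 2 ≤ Real.exp (D - (n : ℝ) / 2 * u) := by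
    calc (1 : ℝ) / 2 ≤ Real.exp D * τ ^ n := hhalf
      _ ≤ Real.exp D * Real.exp (-((n : ℝ) / 2 * u)) :=
          mul_le_mul_of_nonneg_left hτn (Real.exp_pos _).le
      _ = Real.exp (D - (n : ℝ) / 2 * u) := by
          rw [← Real.exp_add]
          ring_nf
  have hlog := Real.log_le_log (by norm_num : (0 : ℝ) < 1 / 2) hfin
  rw [Real.log_exp] at hlog
  have hl2 : Real.log (1 / 2) = - Real.log 2 := by
    rw [one_div, Real.log_inv]
  rw [hl2] at hlog
  linarith

end PPG
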