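import Pool.Agent.PPG.Stmts

/-!
# Squad PPG (MP_0bf616_gt), module FIN: the theorem
-/

set_option autoImplicit false

namespace PPG

open MeasureTheory Set Filter Topology
open PPI
open scoped Pointwise

namespace FIN_

lemma vl_pos {n : ℕ} {K : Set (EE n)} (hk : IsCompact K) (hi : (interior K).Nonempty) :
    0 < vl K := by
  unfold vl
  apply ENNReal.toReal_pos
  · have := (isOpen_interior.measure_pos volume hi).trans_le (measure_mono interior_subset)
    exact this.ne'
  · exact hk.measure_lt_top.ne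

lemma vl_trans {n : ℕ} (K : Set (EE n)) (z : EE n) : vl ((fun x => x + z) '' K) = vl K := by
  unfold vl
  congr 1
  rw [Set.image_add_right, measure_preimage_add_right]

lemma rpow_neg' {n : ℕ} (hn : 2 ≤ n) (C : ℝ) : (n : ℝ) ^ (-C) = Real.exp (-(C * Real.log n)) := by
  have : (0 : ℝ) < n := by positivity
  rw [Real.rpow_def_of_pos this]
  ring_nf

end FIN_

open FIN_ in
theorem fin_proof (h1 : Stmt_BKG) (h2 : Stmt_PTG) (h3 : Stmt_KST) (h4 : Stmt_KFF)
    (h5 : PPF.Stmt_POL) (h6 : PPI.Stmt_MON) (h7 : PPI.Stmt_AVE) : Stmt_FIN := by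
  have hPn : ∀ n : ℕ, 2 ≤ n → 0 < Pn n := by
    intro n hn
    have hk : 0 < kap n := (h7 n (by omega)).1
    have hk1 : 0 < kap (n - 1) := (h7 (n - 1) (by omega)).1
    unfold Pn
    positivity
  refine ⟨?_, ?_⟩
  · obtain ⟨c, C₀, hc, hC₀, hB⟩ := h1
    obtain ⟨C', hC', hst⟩ := h3 c C₀ hc hC₀
    refine ⟨c, C₀ + C', hc, by linarith, ?_⟩
    intro n hn K hconv hcomp hint
    obtain ⟨hB1, hB2⟩ := hB n hn K hconv hcomp hint
    have hv := vl_pos hcomp hint
    have hp := hPn n hn
    have hnp : (0 : ℝ) < n := by positivity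
    have hlog : 0 ≤ Real.log n := Real.log_nonneg (by exact_mod_cast (by omega : 1 ≤ n))
    have hexp : (n : ℝ) ^ (-(C₀ + C')) ≤ Real.exp (-(C₀ * Real.log n)) := by
      rw [rpow_neg' hn]
      apply Real.exp_le_exp.mpr
      nlinarith
    have hX : 0 < Pn n * vl K ^ (n - 1) := by positivity
    refine ⟨?_, ?_, ?_⟩
    · calc (n : ℝ) ^ (-(C₀ + C')) * (Pn n * vl K ^ (n - 1))
          ≤ Real.exp (-(C₀ * Real.log n)) * (Pn n * vl K ^ (n - 1)) :=
            mul_le_mul_of_nonneg_right hexp hX.le
        _ = Real.exp (-(C₀ * Real.log n)) * Pn n * vl K ^ (n - 1) := by ring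
        _ ≤ _ := hB1
    · intro η hη hyp
      calc (1 + η) ^ (c * n) * (n : ℝ) ^ (-(C₀ + C')) * (Pn n * vl K ^ (n - 1))
          ≤ (1 + η) ^ (c * n) * Real.exp (-(C₀ * Real.log n)) * (Pn n * vl K ^ (n - 1)) := by
            refine mul_le_mul_of_nonneg_right (mul_le_mul_of_nonneg_left hexp ?_) hX.le
            positivity
        _ = (1 + η) ^ (c * n) * (Real.exp (-(C₀ * Real.log n)) * Pn n * vl K ^ (n - 1)) := by
            ring
        _ ≤ _ := hB2 η hη hyp
    · intro hyp
      have h8 : 0 ≤ C' * Real.log n / n := by positivity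
      have h9 := hB2 (C' * Real.log n / n) h8 (by
        intro A hA t ht
        refine le_trans ?_ (hyp A hA t ht)
        refine mul_le_mul_of_nonneg_right ?_ hv.le
        have : C' * Real.log n / n ≤ (C₀ + C') * Real.log n / n := by
          gcongr
          linarith
        have h10 : 0 ≤ (n : ℝ) * t := by positivity
        nlinarith)
      refine lt_of_lt_of_le ?_ h9
      have h11 := hst n hn
      calc Pn n * vl K ^ (n - 1) = 1 * (Pn n * vl K ^ (n - 1)) := by ring
        _ < ((1 + C' * Real.log n / n) ^ (c * n) * Real.exp (-(C₀ * Real.log n))) *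
            (Pn n * vl K ^ (n - 1)) := mul_lt_mul_of_pos_right h11 hX
        _ = _ := by ring
  · obtain ⟨c, C, hc, hC, hP⟩ := h2
    obtain ⟨c', n₀, hc', hff⟩ := h4 c C hc hC
    refine ⟨c', max n₀ 2, hc', ?_⟩
    intro n hn N v b hN hcomp hint
    have hn2 : 2 ≤ n := le_trans (le_max_right _ _) hn
    have hn0 : n₀ ≤ n := le_trans (le_max_left _ _) hn
    obtain ⟨v', z, hz⟩ := h5 n N v b hint
    obtain ⟨hfin, hmono, htr⟩ := h6 n hn2
    set K := {x : EE n | ∀ i, inner ℝ (v i) x ≤ b i} with hK
    have hvl : vl K = vl (Pol v') := by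
      rw [hz, vl_trans]
    have hproj : projBody K = projBody (Pol v') := by
      rw [hz, htr]
    have hPol : Pol v' = (fun x => x + (-z)) '' K := by
      rw [hz, ← Set.image_comp]
      have : ((fun x : EE n => x + -z) ∘ fun x => x + z) = id := by
        funext x
        simp
      rw [this, Set.image_id]
    have hPc : IsCompact (Pol v') := by
      rw [hPol]
      exact hcomp.image (by fun_prop)
    have hv : 0 < vl K := vl_pos hcomp hint
    have hN1 : 1 ≤ N := by
      by_contra hN0
      have hN0' : N = 0 := by omega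
      subst hN0'
      have hu : Pol v' = univ := by
        ext x
        simp [Pol]
      rw [hu] at hPc
      have : Nontrivial (EE n) := by
        have : Nonempty (Fin n) := ⟨⟨0, by omega⟩⟩
        infer_instance
      exact noncompact_univ (EE n) hPc
    rw [hvl] at hv
    obtain ⟨D, A, hD, _, _, hDN, hmain⟩ := hP n N v' hn2 hPc hv
    have h12 := hff n hn0 hn2 N hN1 hN
    have h13 : 0 < c * D - C * Real.log n := by nlinarith
    rw [hvl, hproj]
    refine lt_of_lt_of_le ?_ hmain
    have hX : 0 < Pn n * vl (Pol v') ^ (n - 1) := by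
      have := hPn n hn2
      positivity
    calc Pn n * vl (Pol v') ^ (n - 1) = 1 * (Pn n * vl (Pol v') ^ (n - 1)) := by ring
      _ < Real.exp (c * D - C * Real.log n) * (Pn n * vl (Pol v') ^ (n - 1)) :=
          mul_lt_mul_of_pos_right (Real.one_lt_exp_iff.mpr h13) hX
      _ = _ := by ring

end PPG
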