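import Pool.Agent.PPG.Stmts

/-!
# Squad PPG (MP_0bf616_gt), module IND: second moments of sums of independent vectors
-/

set_option autoImplicit false

namespace PPG

open MeasureTheory Set Filter Topology
open PPI
open scoped Pointwise

theorem ind_aux_sum {M : Type} [AddCommMonoid M] (R : ℕ) (Ω : Type) [Fintype Ω]
    (f : (Fin (R + 1) → Ω) → M) :
    ∑ F : Fin (R + 1) → Ω, f F = ∑ o : Ω, ∑ F : Fin R → Ω, f (Fin.cons o F) := by
  rw [← Fintype.sum_prod_type']
  exact (Fintype.sum_equiv (Fin.consEquiv (fun _ : Fin (R + 1) => Ω)) _ _ (fun _ => rfl)).symm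

theorem ind_aux_all (n R : ℕ) (Ω : Type) [Fintype Ω] (μ : Ω → ℝ) (X : Ω → EE n) (g : Ω → ℝ)
    (h1 : ∑ o, μ o = 1) :
    ∑ F : Fin R → Ω, (∏ r, μ (F r)) = 1 ∧
    ∑ F : Fin R → Ω, (∏ r, μ (F r)) * ∑ r, g (F r) = R * ∑ o, μ o * g o ∧
    ∑ F : Fin R → Ω, (∏ r, μ (F r)) • ∑ r, X (F r) = (R : ℝ) • ∑ o, μ o • X o ∧
    ∑ F : Fin R → Ω, (∏ r, μ (F r)) * ‖∑ r, X (F r)‖ ^ 2 =
      R * ∑ o, μ o * ‖X o‖ ^ 2 + R * ((R : ℝ) - 1) * ‖∑ o, μ o • X o‖ ^ 2 := by
  induction R with
  | zero => simp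
  | succ R ih =>
    obtain ⟨i1, i2, i3, i4⟩ := ih
    refine ⟨?_, ?_, ?_, ?_⟩
    · rw [ind_aux_sum]
      simp only [Fin.prod_univ_succ, Fin.cons_zero, Fin.cons_succ]
      simp only [← Finset.mul_sum, i1, mul_one, h1]
    · rw [ind_aux_sum]
      simp only [Fin.prod_univ_succ, Fin.sum_univ_succ, Fin.cons_zero, Fin.cons_succ]
      have e : ∀ o : Ω, ∑ F : Fin R → Ω, (μ o * ∏ r, μ (F r)) * (g o + ∑ r, g (F r)) =
          μ o * g o + μ o * (R * ∑ o, μ o * g o) := by
        intro o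
        calc ∑ F : Fin R → Ω, (μ o * ∏ r, μ (F r)) * (g o + ∑ r, g (F r))
            = ∑ F : Fin R → Ω, (μ o * g o * (∏ r, μ (F r)) +
                μ o * ((∏ r, μ (F r)) * ∑ r, g (F r))) :=
              Finset.sum_congr rfl (fun F _ => by ring)
          _ = μ o * g o * (∑ F : Fin R → Ω, ∏ r, μ (F r)) +
                μ o * ∑ F : Fin R → Ω, (∏ r, μ (F r)) * ∑ r, g (F r) := by
              rw [Finset.sum_add_distrib, Finset.mul_sum, Finset.mul_sum]
          _ = _ := by rw [i1, i2, mul_one]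
      rw [Finset.sum_congr rfl (fun o _ => e o), Finset.sum_add_distrib, ← Finset.sum_mul, h1]
      push_cast
      ring
    · rw [ind_aux_sum]
      simp only [Fin.prod_univ_succ, Fin.sum_univ_succ, Fin.cons_zero, Fin.cons_succ]
      have e : ∀ o : Ω, ∑ F : Fin R → Ω, (μ o * ∏ r, μ (F r)) • (X o + ∑ r, X (F r)) =
          μ o • X o + μ o • ((R : ℝ) • ∑ o, μ o • X o) := by
        intro o
        calc ∑ F : Fin R → Ω, (μ o * ∏ r, μ (F r)) • (X o + ∑ r, X (F r))
            = ∑ F : Fin R → Ω, ((∏ r, μ (F r)) • (μ o • X o) +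
                μ o • ((∏ r, μ (F r)) • ∑ r, X (F r))) :=
              Finset.sum_congr rfl (fun F _ => by
                rw [smul_add, mul_smul, mul_smul, smul_comm (μ o) (∏ r, μ (F r)) (X o)])
          _ = (∑ F : Fin R → Ω, ∏ r, μ (F r)) • (μ o • X o) +
                μ o • ∑ F : Fin R → Ω, (∏ r, μ (F r)) • ∑ r, X (F r) := by
              rw [Finset.sum_add_distrib, Finset.sum_smul, Finset.smul_sum]
          _ = _ := by rw [i1, i3, one_smul]
      rw [Finset.sum_congr rfl (fun o _ => e o), Finset.sum_add_distrib, ← Finset.sum_smul, h1,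
        one_smul]
      push_cast
      rw [add_smul, one_smul, add_comm]
    · rw [ind_aux_sum]
      simp only [Fin.prod_univ_succ, Fin.sum_univ_succ, Fin.cons_zero, Fin.cons_succ]
      have e : ∀ o : Ω, ∑ F : Fin R → Ω, (μ o * ∏ r, μ (F r)) * ‖X o + ∑ r, X (F r)‖ ^ 2 =
          μ o * ‖X o‖ ^ 2 + 2 * R * (inner ℝ (μ o • X o) (∑ o, μ o • X o)) +
          μ o * (R * ∑ o, μ o * ‖X o‖ ^ 2 + R * ((R : ℝ) - 1) * ‖∑ o, μ o • X o‖ ^ 2) := by
        intro o
        calc ∑ F : Fin R → Ω, (μ o * ∏ r, μ (F r)) * ‖X o + ∑ r, X (F r)‖ ^ 2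
            = ∑ F : Fin R → Ω, (μ o * ‖X o‖ ^ 2 * (∏ r, μ (F r)) +
                2 * inner ℝ (μ o • X o) ((∏ r, μ (F r)) • ∑ r, X (F r)) +
                μ o * ((∏ r, μ (F r)) * ‖∑ r, X (F r)‖ ^ 2)) :=
              Finset.sum_congr rfl (fun F _ => by
                rw [@norm_add_sq_real, real_inner_smul_left, real_inner_smul_right]
                ring)
          _ = μ o * ‖X o‖ ^ 2 * (∑ F : Fin R → Ω, ∏ r, μ (F r)) +
                2 * inner ℝ (μ o • X o) (∑ F : Fin R → Ω, (∏ r, μ (F r)) • ∑ r, X (F r)) +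
                μ o * ∑ F : Fin R → Ω, (∏ r, μ (F r)) * ‖∑ r, X (F r)‖ ^ 2 := by
              rw [Finset.sum_add_distrib, Finset.sum_add_distrib, inner_sum,
                Finset.mul_sum, Finset.mul_sum, Finset.mul_sum]
          _ = _ := by
              rw [i1, i3, i4, real_inner_smul_right]
              ring
      rw [Finset.sum_congr rfl (fun o _ => e o), Finset.sum_add_distrib, Finset.sum_add_distrib,
        ← Finset.sum_mul, h1, ← Finset.mul_sum, ← sum_inner, real_inner_self_eq_norm_sq]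
      push_cast
      ring

theorem ind_proof : Stmt_IND := by
  intro n R Ω _ μ X g h1
  obtain ⟨i1, i2, -, i4⟩ := ind_aux_all n R Ω μ X g h1
  exact ⟨i1, i2, i4⟩

end PPG

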