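import Pool.Agent.PPG.Stmts

/-!
# Squad PPG (MP_0bf616_gt), module ISP: polytopes in isotropic position
-/

set_option autoImplicit false

namespace PPG

open MeasureTheory Set Filter Topology
open PPI
open scoped Pointwise

namespace ISP_

variable {n : ℕ}

lemma det_adjoint (A : EE n →L[ℝ] EE n) : (ContinuousLinearMap.adjoint A).det = A.det := by
  unfold ContinuousLinearMap.det
  rw [← ContinuousLinearMap.adjoint_toLinearMap,
    ← LinearMap.det_toMatrix (EuclideanSpace.basisFun (Fin n) ℝ).toBasis,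
    LinearMap.toMatrix_adjoint, Matrix.det_conjTranspose,
    ← LinearMap.det_toMatrix (EuclideanSpace.basisFun (Fin n) ℝ).toBasis]
  simp

lemma vl_image (T : EE n →L[ℝ] EE n) (S : Set (EE n)) : vl (T '' S) = |T.det| * vl S := by
  unfold vl
  rw [Measure.addHaar_image_continuousLinearMap, ENNReal.toReal_mul,
    ENNReal.toReal_ofReal (abs_nonneg _)]

lemma dt_smul (c : Fin n → ℝ) (x : Fin n → EE n) :
    dt (fun k => c k • x k) = (∏ k, c k) * dt x := by
  unfold dt
  rw [← Matrix.det_mul_column]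
  congr 1

lemma XT_resc {ι : Type} [Fintype ι] (a s : ι → ℝ) (u : ι → EE n) (S : ℝ) (hS : 0 < S)
    (hs : ∀ i, 0 < s i) :
    XT (fun i => a i * s i / S) (fun i => (s i)⁻¹ • u i) = (S ^ n)⁻¹ * XT a u := by
  unfold XT
  rw [Finset.mul_sum]
  refine Finset.sum_congr rfl fun f _ => ?_
  rw [dt_smul (fun k => (s (f k))⁻¹) (fun k => u (f k)), abs_mul]
  have h1 : |∏ k : Fin n, (s (f k))⁻¹| = (∏ k : Fin n, s (f k))⁻¹ := by
    rw [Finset.prod_inv_distrib, abs_inv, abs_of_pos (Finset.prod_pos fun k _ => hs (f k))]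
  have h2 : ∏ k : Fin n, (a (f k) * s (f k) / S) =
      (∏ k : Fin n, a (f k)) * (∏ k : Fin n, s (f k)) * (S ^ n)⁻¹ := by
    rw [Finset.prod_div_distrib, Finset.prod_mul_distrib, Finset.prod_const, Finset.card_univ,
      Fintype.card_fin, div_eq_mul_inv]
  have h3 : (∏ k : Fin n, s (f k)) ≠ 0 := (Finset.prod_pos fun k _ => hs (f k)).ne'
  rw [h1, h2]
  field_simp

end ISP_

open ISP_ in
theorem isp_proof (h1 : Stmt_GE3) (h2 : Stmt_PMN) (h3 : Stmt_PFO) (h4 : PPI.Stmt_SPN)
    (h5 : PPI.Stmt_TRX) (h6 : PPI.Stmt_AVE) : Stmt_ISP := by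
  intro n N v hn hcomp hvol
  obtain ⟨ι, hι, a, u, hcard, hMK, hXT, hsum, hsup⟩ := h1 n N v hn hcomp hvol
  have hn1 : 1 ≤ n := by omega
  have hnp : (0 : ℝ) < n := by positivity
  have hk : 0 < kap n := (h6 n hn1).1
  set V := vl (Pol v) with hV
  have hVn : 0 < V ^ (n - 1) := by positivity
  have hspan := h4 n ι a u _ hn1 hMK hVn
  have hr : 0 < V / kap n := by positivity
  obtain ⟨B, hBdet, hBmin⟩ := h2 n ι a u (V / kap n) hn1 hMK.pos hspan hr
  have hdet : B.det ≠ 0 := by
    intro h0
    rw [h0, abs_zero] at hBdet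
    linarith
  have hfo := h3 n ι a u B hn1 hMK.pos hMK.ne hdet (by
    intro B' hB'
    exact hBmin B' (by rw [hB', hBdet]))
  have hBne : ∀ i, B (u i) ≠ 0 := by
    intro i h0
    apply hMK.ne i
    have h := (B.toContinuousLinearEquivOfDetNeZero hdet).injective
    apply h
    rw [ContinuousLinearMap.toContinuousLinearEquivOfDetNeZero_apply,
      ContinuousLinearMap.toContinuousLinearEquivOfDetNeZero_apply]
    simpa using h0
  have hs : ∀ i, 0 < ‖B (u i)‖ := fun i => norm_pos_iff.mpr (hBne i)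
  set S := ∑ i, a i * ‖B (u i)‖ with hS
  have hι1 : Nonempty ι := by
    by_contra hne
    rw [not_nonempty_iff] at hne
    have : ∑ i, a i = 0 := by simp
    rw [this] at hsum
    have : (n : ℝ) * V ≠ 0 := by positivity
    exact this hsum.symm
  have hSpos : 0 < S := Finset.sum_pos (fun i _ => mul_pos (hMK.pos i) (hs i))
    Finset.univ_nonempty
  set p : ι → ℝ := fun i => a i * ‖B (u i)‖ / S with hp
  set w : ι → EE n := fun i => (‖B (u i)‖)⁻¹ • B (u i) with hw
  set D : ℝ := n * Real.log (S / (n * V)) with hD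
  have hSV : 0 < S / (n * V) := by positivity
  have hDn : Real.exp (D / n) = S / (n * V) := by
    rw [hD, mul_div_cancel_left₀ _ hnp.ne', Real.exp_log hSV]
  have hDe : Real.exp D = (S / (n * V)) ^ n := by
    rw [← hDn, ← Real.exp_nat_mul]
    congr 1
    field_simp
  have hVV : V * V ^ (n - 1) = V ^ n := by
    rw [← pow_succ']
    congr 1
    omega
  set A : EE n →L[ℝ] EE n := ContinuousLinearMap.adjoint B with hA
  have hAdet : |A.det| = V / kap n := by rw [hA, det_adjoint, hBdet]
  have hpsum : ∑ i, p i = 1 := by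
    simp only [hp]
    rw [← Finset.sum_div]
    exact div_self hSpos.ne'
  have hpc : ∀ c : ι → ℝ, ∑ i, a i * (‖B (u i)‖ * c i) = S * ∑ i, p i * c i := by
    intro c
    rw [Finset.mul_sum]
    refine Finset.sum_congr rfl fun i _ => ?_
    simp only [hp]
    field_simp
  have hIS : IS p w := by
    refine ⟨fun i => div_pos (mul_pos (hMK.pos i) (hs i)) hSpos, hpsum, fun i => ?_, fun x => ?_⟩
    · simp only [hw]
      rw [norm_smul, norm_inv, norm_norm, inv_mul_cancel₀ (hs i).ne']
    · have e1 := hfo x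
      have e2 : ∑ i, p i * (inner ℝ (w i) x) ^ 2 =
          S⁻¹ * ∑ i, a i * ((inner ℝ (B (u i)) x) ^ 2 / ‖B (u i)‖) := by
        rw [Finset.mul_sum]
        refine Finset.sum_congr rfl fun i _ => ?_
        simp only [hp, hw]
        rw [real_inner_smul_left]
        have := (hs i).ne'
        field_simp
      rw [e2]
      calc (n : ℝ) * (S⁻¹ * ∑ i, a i * ((inner ℝ (B (u i)) x) ^ 2 / ‖B (u i)‖))
          = S⁻¹ * (n * ∑ i, a i * ((inner ℝ (B (u i)) x) ^ 2 / ‖B (u i)‖)) := by ring
        _ = S⁻¹ * (S * ‖x‖ ^ 2) := by rw [e1]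
        _ = ‖x‖ ^ 2 := by field_simp
  refine ⟨ι, hι, p, w, D, A, hcard, hIS, ?_, ?_, ?_, ?_⟩
  · -- Minkowski
    intro L c hL hLc hLn hb
    have hm := hMK.mink (A '' L) (fun i => ‖B (u i)‖ * c i)
      (hL.image A.continuous) (hLc.linear_image A.toLinearMap)
      (hLn.image _) (by
        rintro i _ ⟨x, hx, rfl⟩
        rw [hA, ContinuousLinearMap.adjoint_inner_right]
        have h7 := hb i x hx
        simp only [hw] at h7
        rw [real_inner_smul_left, inv_mul_le_iff₀ (hs i)] at h7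
        exact h7)
    rw [hpc c, vl_image, hAdet] at hm
    obtain ⟨hm1, hm2⟩ := hm
    refine ⟨nonneg_of_mul_nonneg_right hm1 hSpos, ?_⟩
    have e3 : (0 : ℝ) < (n : ℝ) ^ n * V ^ n := by positivity
    have e4 : (n : ℝ) ^ n * V ^ n * vl L ≤ kap n * S ^ n * (∑ i, p i * c i) ^ n := by
      calc (n : ℝ) ^ n * V ^ n * vl L
          = kap n * ((n : ℝ) ^ n * V ^ (n - 1) * (V / kap n * vl L)) := by
            rw [← hVV]
            field_simp
        _ ≤ kap n * (S * ∑ i, p i * c i) ^ n := mul_le_mul_of_nonneg_left hm2 hk.le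
        _ = kap n * S ^ n * (∑ i, p i * c i) ^ n := by
            rw [mul_pow]
            ring
    have e5 : kap n * Real.exp D * (∑ i, p i * c i) ^ n =
        (kap n * S ^ n * (∑ i, p i * c i) ^ n) / ((n : ℝ) ^ n * V ^ n) := by
      rw [hDe, div_pow, mul_pow]
      ring
    rw [e5, le_div_iff₀ e3]
    linarith
  · rw [hAdet]
    field_simp
  · have e6 : XT p w = (S ^ n)⁻¹ * (V / kap n * XT a u) := by
      have e7 := XT_resc a (fun i => ‖B (u i)‖) (fun i => B (u i)) S hSpos hs
      have e8 := h5 n ι a u B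
      rw [e8, hBdet] at e7
      exact e7
    have e9 : kap n * (n : ℝ) ^ n * V ^ (n - 1) * Real.exp D * XT p w = XT a u := by
      rw [e6, hDe, div_pow, mul_pow, ← hVV]
      field_simp
    rw [e9]
    exact hXT
  · intro t ht
    have e10 := (hMK.mink (Pol v + t • (A '' Bn n)) (fun i => 1 + t * ‖B (u i)‖)
      (hcomp.add (((isCompact_closedBall _ _).image A.continuous).smul t)) ?_ ?_ ?_).2
    · have e11 : ∑ i, a i * (1 + t * ‖B (u i)‖) = n * V * (1 + t * Real.exp (D / n)) := by
        have : ∑ i, a i * (1 + t * ‖B (u i)‖) = ∑ i, a i + t * S := by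
          rw [hS, Finset.mul_sum, ← Finset.sum_add_distrib]
          refine Finset.sum_congr rfl fun i _ => ?_
          ring
        rw [this, hsum, hDn]
        field_simp
      rw [e11, mul_pow, mul_pow, ← hVV] at e10
      have e12 : (0 : ℝ) < (n : ℝ) ^ n * V ^ (n - 1) := by positivity
      refine le_of_mul_le_mul_left ?_ e12
      calc (n : ℝ) ^ n * V ^ (n - 1) * vl (Pol v + t • (A '' Bn n)) ≤ _ := e10
        _ = _ := by ring
    · have hPconv : Convex ℝ (Pol v) := by
        intro x hx y hy a' b' ha hb hab i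
        rw [inner_add_right, inner_smul_right, inner_smul_right]
        have h7 := hx i
        have h8 := hy i
        nlinarith
      exact hPconv.add (((convex_closedBall _ _).linear_image A.toLinearMap).smul t)
    · refine ⟨(0 : EE n) + t • A 0, ?_⟩
      exact Set.add_mem_add (by intro i; simp)
        (Set.smul_mem_smul_set ⟨0, by simp [Bn], rfl⟩)
    · rintro i _ ⟨x, hx, _, ⟨_, ⟨b, hb, rfl⟩, rfl⟩, rfl⟩
      have hb' : ‖b‖ ≤ 1 := by simpa [Bn] using hb
      change inner ℝ (u i) (x + t • A b) ≤ 1 + t * ‖B (u i)‖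
      rw [inner_add_right, inner_smul_right, hA, ContinuousLinearMap.adjoint_inner_right]
      have h8 := hsup i x hx
      have h9 : inner ℝ (B (u i)) b ≤ ‖B (u i)‖ := by
        calc inner ℝ (B (u i)) b ≤ ‖B (u i)‖ * ‖b‖ := real_inner_le_norm _ _
          _ ≤ ‖B (u i)‖ * 1 := mul_le_mul_of_nonneg_left hb' (norm_nonneg _)
          _ = _ := mul_one _
      have := mul_le_mul_of_nonneg_left h9 ht
      linarith

end PPG
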