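import Pool.Agent.PPG.Stmts
import Mathlib.Tactic

set_option autoImplicit false

namespace PPG

open PPI

theorem kff_proof : Stmt_KFF := by
  intro c C hc hC
  refine ⟨c / (4 * (C + c + 1)), 2, by positivity, ?_⟩
  intro n _ hn N hN hle
  have hn' : (2 : ℝ) ≤ (n : ℝ) := by exact_mod_cast hn
  have hn0 : (0 : ℝ) < (n : ℝ) := by linarith
  have hlog2 : Real.log 2 ≤ Real.log n := Real.log_le_log (by norm_num) hn'
  have hl2 : 0 < Real.log 2 := Real.log_pos (by norm_num)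
  have hlog : 0 < Real.log n := lt_of_lt_of_le hl2 hlog2
  have hN' : (1 : ℝ) ≤ (N : ℝ) := by exact_mod_cast hN
  have hN0 : (0 : ℝ) < (N : ℝ) := by linarith
  set b : ℝ := c / (4 * (C + c + 1)) * n / Real.log n with hb
  have hD : 0 < 4 * (C + c + 1) := by linarith
  have hb0 : 0 < b := by rw [hb]; positivity
  have h2n : (0 : ℝ) < 2 / (n : ℝ) := by positivity
  have hNb : (N : ℝ) ^ (2 / (n : ℝ)) ≤ b := by
    have h1 : (N : ℝ) ^ (2 / (n : ℝ)) ≤ (b ^ ((n : ℝ) / 2)) ^ (2 / (n : ℝ)) :=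
      Real.rpow_le_rpow hN0.le hle h2n.le
    rw [← Real.rpow_mul hb0.le] at h1
    have h2 : (n : ℝ) / 2 * (2 / (n : ℝ)) = 1 := by field_simp
    rw [h2, Real.rpow_one] at h1
    exact h1
  have h22 : (2 : ℝ) ^ (2 / (n : ℝ)) ≤ 2 := by
    have h1 : (2 : ℝ) / (n : ℝ) ≤ 1 := by
      rw [div_le_one hn0]; exact hn'
    calc (2 : ℝ) ^ (2 / (n : ℝ)) ≤ (2 : ℝ) ^ (1 : ℝ) :=
          Real.rpow_le_rpow_of_exponent_le (by norm_num) h1
      _ = 2 := Real.rpow_one 2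
  have hp : (2 * (N : ℝ)) ^ (2 / (n : ℝ)) ≤ 2 * b := by
    rw [Real.mul_rpow (by norm_num) hN0.le]
    exact mul_le_mul h22 hNb (Real.rpow_nonneg hN0.le _) (by norm_num)
  have hpp : 0 < (2 * (N : ℝ)) ^ (2 / (n : ℝ)) := Real.rpow_pos_of_pos (by linarith) _
  have hinv : (2 * b)⁻¹ ≤ (2 * (N : ℝ)) ^ (-(2 / (n : ℝ))) := by
    rw [Real.rpow_neg (by linarith)]
    exact inv_anti₀ hpp hp
  have key : (n : ℝ) / 2 * (2 * b)⁻¹ = (C + c + 1) / c * Real.log n := by
    rw [hb]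
    field_simp
    ring
  have h3 : (C + c + 1) / c * Real.log n ≤ (n : ℝ) / 2 * (2 * (N : ℝ)) ^ (-(2 / (n : ℝ))) := by
    rw [← key]
    exact mul_le_mul_of_nonneg_left hinv (by linarith)
  have h4 : c * ((C + c + 1) / c * Real.log n - Real.log 2)
      ≤ c * ((n : ℝ) / 2 * (2 * (N : ℝ)) ^ (-(2 / (n : ℝ))) - Real.log 2) :=
    mul_le_mul_of_nonneg_left (by linarith) hc.le
  have h5 : c * ((C + c + 1) / c * Real.log n - Real.log 2)
      = (C + c + 1) * Real.log n - c * Real.log 2 := by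
    field_simp
  have h6 : c * Real.log 2 ≤ c * Real.log n := mul_le_mul_of_nonneg_left hlog2 hc.le
  have h7 : (C + c + 1) * Real.log n = C * Real.log n + c * Real.log n + Real.log n := by ring
  linarith

end PPG
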