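import Pool.Agent.PPG.Stmts

/-! # Module KST: constants for strictness -/

set_option autoImplicit false

namespace PPG

open MeasureTheory Set Filter Topology
open PPI
open scoped Pointwise

theorem kst_proof : Stmt_KST := by
  intro c C hc hC
  refine ⟨2 * Real.exp (C / c), by positivity, ?_⟩
  intro n hn
  have hn0 : (0 : ℝ) < n := by
    have : 0 < n := by omega
    exact_mod_cast this
  have hn2 : (2 : ℝ) ≤ n := by exact_mod_cast hn
  have hL : 0 < Real.log n := Real.log_pos (by linarith)
  have hlog2 : Real.log 2 < 1 := by linarith [Real.log_two_lt_d9]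
  have hLn : Real.log n ≤ n / 2 := by
    have h1 : Real.log (n / 2) ≤ n / 2 - 1 := Real.log_le_sub_one_of_pos (by linarith)
    rw [Real.log_div hn0.ne' (by norm_num)] at h1
    linarith
  set L := Real.log n with hLdef
  set s := Real.exp (C / c) with hs
  have hs0 : 0 < s := Real.exp_pos _
  have hp1 : 0 ≤ 2 * (L / n) := by positivity
  have hp2 : 2 * (L / n) ≤ 1 := by
    rw [← mul_div_assoc, div_le_one hn0]; linarith
  have hB := rpow_one_add_le_one_add_mul_self (s := s) (by linarith) hp1 hp2
  have hbase : (1 + s) ^ (2 * (L / n)) ≤ 1 + 2 * s * L / n := by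
    refine hB.trans (le_of_eq ?_)
    field_simp
  have hcn : 0 < c * n := mul_pos hc hn0
  have h1 : ((1 + s) ^ (2 * (L / n))) ^ (c * n) ≤ (1 + 2 * s * L / n) ^ (c * n) :=
    Real.rpow_le_rpow (Real.rpow_nonneg (by linarith) _) hbase hcn.le
  have h2 : ((1 + s) ^ (2 * (L / n))) ^ (c * n) = (1 + s) ^ (2 * c * L) := by
    rw [← Real.rpow_mul (by linarith)]
    congr 1
    field_simp
  have h3 : s ^ (2 * c * L) < (1 + s) ^ (2 * c * L) :=
    Real.rpow_lt_rpow hs0.le (by linarith) (by positivity)
  have h4 : s ^ (2 * c * L) = Real.exp (2 * C * L) := by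
    rw [hs, ← Real.exp_mul]
    congr 1
    field_simp
  have h5 : Real.exp (2 * C * L) * Real.exp (-(C * L)) = Real.exp (C * L) := by
    rw [← Real.exp_add]; congr 1; ring
  have h6 : 1 < Real.exp (C * L) := Real.one_lt_exp_iff.mpr (by positivity)
  calc (1 : ℝ) < Real.exp (C * L) := h6
    _ = Real.exp (2 * C * L) * Real.exp (-(C * L)) := h5.symm
    _ ≤ (1 + 2 * s * L / n) ^ (c * n) * Real.exp (-(C * L)) := by
      apply mul_le_mul_of_nonneg_right _ (Real.exp_pos _).le
      rw [← h4]
      exact h3.le.trans (h2 ▸ h1)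

end PPG
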