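import Pool.Agent.PPG.Stmts

/-!
# Module LMV of squad PPG: a limit
-/

set_option autoImplicit false

namespace PPG

open MeasureTheory Set Filter Topology
open PPI
open scoped Pointwise

namespace LMV_

/-- a small time at which the linear function wins -/
lemma time (n : ℕ) (s A : ℝ) (hn : 1 ≤ n) (hs : 0 < s) (hA : s < A) :
    ∃ t : ℝ, 0 < t ∧ (1 + t * s) ^ n < 1 + A * n * t := by
  have hn' : (1 : ℝ) ≤ n := by exact_mod_cast hn
  have hA0 : 0 < A := hs.trans hA
  refine ⟨(A - s) / (2 * A * s * n), by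
    have : 0 < A - s := by linarith
    positivity, ?_⟩
  set t : ℝ := (A - s) / (2 * A * s * n) with ht
  have ht0 : 0 < t := by
    have : 0 < A - s := by linarith
    rw [ht]; positivity
  have h2 : 2 * A * s * n * t = A - s := by
    rw [ht]; field_simp
  have hx0 : 0 < t * s := by positivity
  have hnx : 2 * (n * (t * s)) < 1 := by
    have : A * (2 * (n * (t * s))) = A - s := by linarith
    by_contra hcon
    push Not at hcon
    have := mul_le_mul_of_nonneg_left hcon hA0.le
    linarith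
  have hx1 : t * s < 1 := by nlinarith
  have hB : 1 + (n : ℝ) * (-(t * s)) ≤ (1 + -(t * s)) ^ n :=
    one_add_mul_le_pow (by linarith) n
  have hP : (1 + t * s) ^ n * (1 + -(t * s)) ^ n ≤ 1 := by
    rw [← mul_pow]
    apply pow_le_one₀
    · nlinarith
    · nlinarith
  have hpos : 0 < (1 + t * s) ^ n := by positivity
  have h3 : (1 + t * s) ^ n * (1 - n * (t * s)) ≤ 1 := by
    have := mul_le_mul_of_nonneg_left hB hpos.le
    linarith
  have hd : 0 < 1 - n * (t * s) := by linarith
  have h4 : 1 < (1 + A * n * t) * (1 - n * (t * s)) := by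
    have e1 : (1 + A * n * t) * (1 - n * (t * s))
        = 1 + n * t * ((A - s) - (2 * A * s * n * t) / 2) := by ring
    rw [e1, h2]
    have : 0 < n * t * ((A - s) - (A - s) / 2) := by
      have : 0 < A - s := by linarith
      have h5 : (A - s) - (A - s) / 2 = (A - s) / 2 := by ring
      rw [h5]; positivity
    linarith
  by_contra hcon
  push Not at hcon
  have := mul_le_mul_of_nonneg_right hcon hd.le
  linarith

end LMV_

theorem lmv_proof : Stmt_LMV := by
  intro n c η X Y hn hc hη hX H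
  have hn' : (1 : ℝ) ≤ n := by exact_mod_cast hn
  have hcn : 0 < c * n := by positivity
  have key : ∀ s : ℝ, 0 < s → s < 1 + η → s ^ (c * n) * X ≤ Y := by
    intro s hs hsA
    obtain ⟨t, ht, hlt⟩ := LMV_.time n s (1 + η) hn hs hsA
    have hc1 : Tendsto (fun δ : ℝ => (1 - δ) ^ n * (1 + (1 + η) * n * t)) (𝓝[>] 0)
        (𝓝 (1 + (1 + η) * n * t)) := by
      have hcont : Continuous (fun δ : ℝ => (1 - δ) ^ n * (1 + (1 + η) * n * t)) := by
        fun_prop
      have := (hcont.tendsto 0).mono_left (nhdsWithin_le_nhds (s := Ioi 0))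
      simpa using this
    have hev : ∀ᶠ δ : ℝ in 𝓝[>] 0, (1 + t * s) ^ n < (1 - δ) ^ n * (1 + (1 + η) * n * t) :=
      hc1.eventually_const_lt hlt
    have hc2 : Tendsto (fun δ : ℝ => s ^ (c * n) * ((1 - δ) ^ (n * (n - 1)) * X)) (𝓝[>] 0)
        (𝓝 (s ^ (c * n) * X)) := by
      have hcont : Continuous (fun δ : ℝ => s ^ (c * n) * ((1 - δ) ^ (n * (n - 1)) * X)) := by
        fun_prop
      have := (hcont.tendsto 0).mono_left (nhdsWithin_le_nhds (s := Ioi 0))
      simpa using this
    refine le_of_tendsto hc2 ?_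
    have hδ : ∀ᶠ δ : ℝ in 𝓝[>] 0, δ ∈ Ioo (0 : ℝ) 1 := Ioo_mem_nhdsGT one_pos
    filter_upwards [hev, hδ] with δ h1 h2
    obtain ⟨r, hr, hr1, hr2⟩ := H t δ ht h2.1 h2.2
    have h3 : (1 + t * s) ^ n < (1 + t * r) ^ n := lt_of_lt_of_le h1 hr1
    have h4 : 1 + t * s < 1 + t * r := lt_of_pow_lt_pow_left₀ n (by positivity) h3
    have h5 : s < r := by
      have : t * s < t * r := by linarith
      exact lt_of_mul_lt_mul_left this ht.le
    have h6 : s ^ (c * n) ≤ r ^ (c * n) := Real.rpow_le_rpow hs.le h5.le hcn.le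
    have h7 : 0 ≤ (1 - δ) ^ (n * (n - 1)) * X := by
      have : 0 ≤ 1 - δ := by linarith [h2.2]
      positivity
    exact (mul_le_mul_of_nonneg_right h6 h7).trans hr2
  have hlim : Tendsto (fun s : ℝ => s ^ (c * n) * X) (𝓝[<] (1 + η)) (𝓝 ((1 + η) ^ (c * n) * X)) := by
    have hcont : ContinuousAt (fun s : ℝ => s ^ (c * n)) (1 + η) :=
      Real.continuousAt_rpow_const _ _ (Or.inr hcn.le)
    exact ((hcont.tendsto).mono_left (nhdsWithin_le_nhds (s := Iio (1 + η)))).mul_const X
  refine le_of_tendsto hlim ?_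
  have hs : ∀ᶠ s : ℝ in 𝓝[<] (1 + η), s ∈ Ioo (0 : ℝ) (1 + η) := Ioo_mem_nhdsLT (by linarith)
  filter_upwards [hs] with s h
  exact key s h.1 h.2

end PPG
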