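import Pool.Agent.PPG.Stmts

set_option autoImplicit false

namespace PPG

open MeasureTheory Set Filter Topology
open PPI
open scoped Pointwise

namespace LTI_

/-- Parseval for an orthonormal family of `n` vectors in `R^n` -/
theorem pars {n : ℕ} (hn : 1 ≤ n) (v : Fin n → EE n) (hv : Orthonormal ℝ v) (x y : EE n) :
    ∑ l, inner ℝ (v l) x * inner ℝ (v l) y = inner ℝ x y := by
  haveI : Nonempty (Fin n) := ⟨⟨0, hn⟩⟩
  have hcard : Fintype.card (Fin n) = Module.finrank ℝ (EE n) := by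
    rw [finrank_euclideanSpace]
  have hspan : Submodule.span ℝ (Set.range v) = ⊤ :=
    hv.linearIndependent.span_eq_top_of_card_eq_finrank hcard
  let B := OrthonormalBasis.mk hv (le_of_eq hspan.symm)
  have hB : ∀ l, B l = v l := by
    intro l
    exact congrFun (OrthonormalBasis.coe_mk hv (le_of_eq hspan.symm)) l
  have h := B.sum_inner_mul_inner x y
  rw [← h]
  refine Finset.sum_congr rfl fun l _ => ?_
  rw [hB l, real_inner_comm]

theorem tl_eq {n : ℕ} (v : Fin n → EE n) (x : EE n) (K : ℕ) :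
    tl v x K = ∑ l ∈ Finset.univ.filter (fun l : Fin n => K ≤ (l : ℕ)), (inner ℝ (v l) x) ^ 2 := by
  rw [Finset.sum_filter]
  rfl

theorem hd_eq {n : ℕ} (hn : 1 ≤ n) (v : Fin n → EE n) (hv : Orthonormal ℝ v) (x : EE n) (K : ℕ) :
    ‖x‖ ^ 2 - tl v x K
      = ∑ l ∈ Finset.univ.filter (fun l : Fin n => ¬ K ≤ (l : ℕ)), (inner ℝ (v l) x) ^ 2 := by
  have h := pars hn v hv x x
  rw [real_inner_self_eq_norm_sq] at h
  rw [← h, tl_eq, ← Finset.sum_filter_add_sum_filter_not Finset.univ (fun l : Fin n => K ≤ (l : ℕ))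
    (fun l => inner ℝ (v l) x * inner ℝ (v l) x)]
  have e : ∀ s : Finset (Fin n), ∑ l ∈ s, inner ℝ (v l) x * inner ℝ (v l) x
      = ∑ l ∈ s, (inner ℝ (v l) x) ^ 2 := fun s => Finset.sum_congr rfl fun l _ => (sq _).symm
  rw [e, e]
  ring

theorem cvx {n : ℕ} (v : Fin n → EE n) (s : Finset (Fin n)) (x y : EE n) (a b : ℝ) (ha : 0 ≤ a)
    (hb : 0 ≤ b) (hab : a + b = 1) :
    ∑ l ∈ s, (inner ℝ (v l) (a • x + b • y)) ^ 2
      ≤ a * ∑ l ∈ s, (inner ℝ (v l) x) ^ 2 + b * ∑ l ∈ s, (inner ℝ (v l) y) ^ 2 := by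
  rw [Finset.mul_sum, Finset.mul_sum, ← Finset.sum_add_distrib]
  refine Finset.sum_le_sum fun l _ => ?_
  rw [inner_add_right, inner_smul_right, inner_smul_right]
  have hb' : b = 1 - a := by linarith
  subst hb'
  have h : 0 ≤ a * (1 - a) * (inner ℝ (v l) x - inner ℝ (v l) y) ^ 2 :=
    mul_nonneg (mul_nonneg ha hb) (sq_nonneg _)
  nlinarith [h]

theorem cont {n : ℕ} (v : Fin n → EE n) (s : Finset (Fin n)) :
    Continuous (fun x : EE n => ∑ l ∈ s, (inner ℝ (v l) x) ^ 2) := by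
  refine continuous_finset_sum _ fun l _ => ?_
  exact (continuous_const.inner continuous_id).pow 2

/-- the body of `LTV` -/
def BL {n : ℕ} (v : Fin n → EE n) (K : ℕ) : Set (EE n) :=
  {x : EE n | x ∈ Bn n ∧ ‖x‖ ^ 2 - tl v x K ≤ 1 - ((n : ℝ) - K) / (4 * n) ∧
    tl v x K ≤ 4 * ((n : ℝ) - K) / n}

theorem BL_props {n : ℕ} (hn : 1 ≤ n) (v : Fin n → EE n) (hv : Orthonormal ℝ v) (K : ℕ)
    (hK : K ≤ n) : IsCompact (BL v K) ∧ Convex ℝ (BL v K) ∧ (BL v K).Nonempty := by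
  have hn' : (0 : ℝ) < n := by exact_mod_cast hn
  have hK' : (0 : ℝ) ≤ (n : ℝ) - K := by
    have : (K : ℝ) ≤ n := by exact_mod_cast hK
    linarith
  have e1 : (fun x : EE n => ‖x‖ ^ 2 - tl v x K) = fun x : EE n =>
      ∑ l ∈ Finset.univ.filter (fun l : Fin n => ¬ K ≤ (l : ℕ)), (inner ℝ (v l) x) ^ 2 := by
    funext x; exact hd_eq hn v hv x K
  have e2 : (fun x : EE n => tl v x K) = fun x : EE n =>
      ∑ l ∈ Finset.univ.filter (fun l : Fin n => K ≤ (l : ℕ)), (inner ℝ (v l) x) ^ 2 := by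
    funext x; exact tl_eq v x K
  refine ⟨?_, ?_, ?_⟩
  · have h : BL v K = Metric.closedBall (0 : EE n) 1 ∩
        ({x : EE n | ‖x‖ ^ 2 - tl v x K ≤ 1 - ((n : ℝ) - K) / (4 * n)} ∩
          {x : EE n | tl v x K ≤ 4 * ((n : ℝ) - K) / n}) := rfl
    rw [h]
    refine (isCompact_closedBall _ _).inter_right (IsClosed.inter ?_ ?_)
    · refine isClosed_le ?_ continuous_const
      rw [e1]
      exact cont v _
    · refine isClosed_le ?_ continuous_const
      rw [e2]
      exact cont v _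
  · intro x hx y hy a b ha hb hab
    refine ⟨?_, ?_, ?_⟩
    · exact (convex_closedBall (0 : EE n) 1) hx.1 hy.1 ha hb hab
    · have h1 := hx.2.1
      have h2 := hy.2.1
      rw [hd_eq hn v hv] at h1 h2 ⊢
      refine le_trans (cvx v _ x y a b ha hb hab) ?_
      have h3 := mul_le_mul_of_nonneg_left h1 ha
      have h4 := mul_le_mul_of_nonneg_left h2 hb
      have h5 : a * (1 - ((n : ℝ) - K) / (4 * n)) + b * (1 - ((n : ℝ) - K) / (4 * n))
          = 1 - ((n : ℝ) - K) / (4 * n) := by rw [← add_mul, hab, one_mul]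
      linarith
    · have h1 := hx.2.2
      have h2 := hy.2.2
      rw [tl_eq] at h1 h2 ⊢
      refine le_trans (cvx v _ x y a b ha hb hab) ?_
      have h3 := mul_le_mul_of_nonneg_left h1 ha
      have h4 := mul_le_mul_of_nonneg_left h2 hb
      have h5 : a * (4 * ((n : ℝ) - K) / n) + b * (4 * ((n : ℝ) - K) / n)
          = 4 * ((n : ℝ) - K) / n := by rw [← add_mul, hab, one_mul]
      linarith
  · refine ⟨0, ?_, ?_, ?_⟩
    · exact Metric.mem_closedBall_self zero_le_one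
    · rw [hd_eq hn v hv]
      have h0 : ∑ l ∈ Finset.univ.filter (fun l : Fin n => ¬ K ≤ (l : ℕ)),
          (inner ℝ (v l) (0 : EE n)) ^ 2 = 0 := by
        refine Finset.sum_eq_zero fun l _ => ?_
        rw [inner_zero_right]; norm_num
      rw [h0]
      have h1 : ((n : ℝ) - K) / (4 * n) ≤ 1 := by
        rw [div_le_one (by linarith)]
        have : (0 : ℝ) ≤ K := Nat.cast_nonneg K
        linarith
      linarith
    · rw [tl_eq]
      have h0 : ∑ l ∈ Finset.univ.filter (fun l : Fin n => K ≤ (l : ℕ)),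
          (inner ℝ (v l) (0 : EE n)) ^ 2 = 0 := by
        refine Finset.sum_eq_zero fun l _ => ?_
        rw [inner_zero_right]; norm_num
      rw [h0]
      exact div_nonneg (by linarith) hn'.le

theorem key {n : ℕ} (hn : 1 ≤ n) (v : Fin n → EE n) (hv : Orthonormal ℝ v) (K : ℕ)
    (hK : K ≤ n) (w x : EE n) (hw : ‖w‖ = 1) (hx : x ∈ BL v K)
    (hy : tl v w K ≤ rh * ((n : ℝ) - K) / n) :
    inner ℝ w x ≤ 1 - ((n : ℝ) - K) / (16 * n) := by
  have hn' : (0 : ℝ) < n := by exact_mod_cast hn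
  have hK' : (0 : ℝ) ≤ (n : ℝ) - K := by
    have : (K : ℝ) ≤ n := by exact_mod_cast hK
    linarith
  have hKn : (n : ℝ) - K ≤ n := by
    have : (0 : ℝ) ≤ K := Nat.cast_nonneg K
    linarith
  obtain ⟨_, h1, h2⟩ := hx
  have e := pars hn v hv w x
  rw [← Finset.sum_filter_add_sum_filter_not Finset.univ (fun l : Fin n => K ≤ (l : ℕ))] at e
  have c1 := Finset.sum_mul_sq_le_sq_mul_sq (Finset.univ.filter (fun l : Fin n => K ≤ (l : ℕ)))
    (fun l => inner ℝ (v l) w) (fun l => inner ℝ (v l) x)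
  have c2 := Finset.sum_mul_sq_le_sq_mul_sq (Finset.univ.filter (fun l : Fin n => ¬ K ≤ (l : ℕ)))
    (fun l => inner ℝ (v l) w) (fun l => inner ℝ (v l) x)
  rw [← tl_eq, ← tl_eq] at c1
  rw [← hd_eq hn v hv, ← hd_eq hn v hv, hw] at c2
  have t0 : 0 ≤ tl v x K := by
    rw [tl_eq]; exact Finset.sum_nonneg fun l _ => sq_nonneg _
  have t1 : 0 ≤ tl v w K := by
    rw [tl_eq]; exact Finset.sum_nonneg fun l _ => sq_nonneg _
  have t2 : 0 ≤ ‖x‖ ^ 2 - tl v x K := by
    rw [hd_eq hn v hv]; exact Finset.sum_nonneg fun l _ => sq_nonneg _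
  set u : ℝ := ((n : ℝ) - K) / n with hu
  have hu0 : 0 ≤ u := div_nonneg hK' hn'.le
  have hu1 : u ≤ 1 := by rw [hu, div_le_one hn']; exact hKn
  have r1 : ((n : ℝ) - K) / (4 * n) = u / 4 := by rw [hu]; field_simp
  have r2 : 4 * ((n : ℝ) - K) / n = 4 * u := by rw [hu]; field_simp
  have r3 : rh * ((n : ℝ) - K) / n = u / 1024 := by
    rw [hu, rh]; norm_num; field_simp
  have r4 : ((n : ℝ) - K) / (16 * n) = u / 16 := by rw [hu]; field_simp
  rw [r1] at h1
  rw [r2] at h2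
  rw [r3] at hy
  rw [r4]
  have d1 : tl v w K * tl v x K ≤ (u / 16) ^ 2 := by
    have := mul_le_mul hy h2 t0 (by linarith)
    have e2 : u / 1024 * (4 * u) = (u / 16) ^ 2 := by ring
    linarith
  have d2 : (1 ^ 2 - tl v w K) * (‖x‖ ^ 2 - tl v x K) ≤ (1 - u / 8) ^ 2 := by
    have a1 : (1 ^ 2 - tl v w K) * (‖x‖ ^ 2 - tl v x K) ≤ 1 * (‖x‖ ^ 2 - tl v x K) :=
      mul_le_mul_of_nonneg_right (by linarith) t2
    have a2 : 0 ≤ u ^ 2 := sq_nonneg u
    nlinarith
  have b1 := abs_le_of_sq_le_sq (le_trans c1 d1) (by linarith)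
  have b2 := abs_le_of_sq_le_sq (le_trans c2 d2) (by linarith)
  have b3 := le_trans (le_abs_self _) b1
  have b4 := le_trans (le_abs_self _) b2
  linarith

end LTI_

open LTI_ in
theorem lti_proof (h1 : Stmt_LTV) (h2 : PPI.Stmt_AVE) : Stmt_LTI := by
  obtain ⟨m₁, hm1, hL⟩ := h1
  refine ⟨m₁, hm1, ?_⟩
  intro n K ι _ p w D v hI hM hv hKn
  have hn : 1 ≤ n := by omega
  have hK : K ≤ n := by omega
  have hn' : (0 : ℝ) < n := by exact_mod_cast hn
  have hK' : (0 : ℝ) ≤ (n : ℝ) - K := by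
    have : (K : ℝ) ≤ n := by exact_mod_cast hK
    linarith
  obtain ⟨hc, hcv, hne⟩ := BL_props hn v hv K hK
  set c : ι → ℝ := fun j => 1 - ((n : ℝ) - K) / (16 * n) *
    (if tl v (w j) K ≤ rh * ((n : ℝ) - K) / n then 1 else 0) with hcdef
  have hb : ∀ i, ∀ x ∈ BL v K, inner ℝ (w i) x ≤ c i := by
    intro i x hx
    by_cases hi : tl v (w i) K ≤ rh * ((n : ℝ) - K) / n
    · rw [hcdef]
      simp only [if_pos hi, mul_one]
      exact key hn v hv K hK (w i) x (hI.nrm i) hx hi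
    · rw [hcdef]
      simp only [if_neg hi, mul_zero, sub_zero]
      have h3 : ‖x‖ ≤ 1 := by
        have := hx.1
        rw [Bn, Metric.mem_closedBall, dist_zero_right] at this
        exact this
      have h4 := real_inner_le_norm (w i) x
      rw [hI.nrm i, one_mul] at h4
      exact le_trans h4 h3
  obtain ⟨hs0, hvl⟩ := hM (BL v K) c hc hcv hne hb
  set Pr : ℝ := ∑ j, p j * (if tl v (w j) K ≤ rh * ((n : ℝ) - K) / n then 1 else 0) with hPr
  have hsum : ∑ i, p i * c i = 1 - ((n : ℝ) - K) / (16 * n) * Pr := by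
    have e0 : ∑ i, p i * c i = ∑ i, p i - ((n : ℝ) - K) / (16 * n) * Pr := by
      rw [hPr, Finset.mul_sum, ← Finset.sum_sub_distrib]
      refine Finset.sum_congr rfl fun i _ => ?_
      rw [hcdef]
      ring
    rw [e0, hI.psum]
  have hkap := (h2 n hn).1
  have hv2 := hL n K v hv hKn
  have hv3 : kap n / 2 ≤ kap n * Real.exp D * (∑ i, p i * c i) ^ n := le_trans hv2 hvl
  rw [hsum] at hv3 hs0
  have hexp : (1 - ((n : ℝ) - K) / (16 * n) * Pr) ^ n ≤ Real.exp (-(((n : ℝ) - K) * Pr / 16)) := by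
    have a1 : 1 - ((n : ℝ) - K) / (16 * n) * Pr ≤ Real.exp (-(((n : ℝ) - K) / (16 * n) * Pr)) := by
      have := Real.add_one_le_exp (-(((n : ℝ) - K) / (16 * n) * Pr))
      linarith
    have a2 := pow_le_pow_left₀ hs0 a1 n
    rw [← Real.exp_nat_mul] at a2
    refine le_trans a2 (le_of_eq ?_)
    congr 1
    field_simp
  have h5 : kap n / 2 ≤ kap n * Real.exp D * Real.exp (-(((n : ℝ) - K) * Pr / 16)) :=
    le_trans hv3 (mul_le_mul_of_nonneg_left hexp (mul_nonneg hkap.le (Real.exp_pos _).le))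
  rw [mul_assoc, ← Real.exp_add] at h5
  have h6 : (1 : ℝ) / 2 ≤ Real.exp (D + -(((n : ℝ) - K) * Pr / 16)) := by
    have h7 : kap n * (1 / 2) ≤ kap n * Real.exp (D + -(((n : ℝ) - K) * Pr / 16)) := by
      have e : kap n / 2 = kap n * (1 / 2) := by ring
      rw [e] at h5
      exact h5
    exact le_of_mul_le_mul_left h7 hkap
  have h8 : (-1 : ℝ) ≤ D + -(((n : ℝ) - K) * Pr / 16) := by
    by_contra hcon
    push_neg at hcon
    have h9 := Real.exp_lt_exp.2 hcon
    have h10 : Real.exp (-1) < 1 / 2 := by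
      rw [Real.exp_neg]
      have h11 : (2 : ℝ) < Real.exp 1 := by
        have := Real.exp_one_gt_d9
        linarith
      rw [inv_eq_one_div]
      exact one_div_lt_one_div_of_lt (by norm_num) h11
    linarith
  linarith

end PPG
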