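import Pool.Agent.PPG.Stmts

/-!
# Squad PPG, module LTV: volume of the second test body.
-/

set_option autoImplicit false

namespace PPG

open MeasureTheory Set Filter Topology
open PPI
open scoped Pointwise

namespace LTV_

/-- coordinates with respect to a part of an orthonormal family -/
theorem coi_exists {n : ℕ} (v : Fin n → EE n) (hv : Orthonormal ℝ v) (s : Finset (Fin n)) :
    ∃ A : EE n →L[ℝ] EE s.card, PPF.Coi A ∧ ∀ x, ‖A x‖ ^ 2 = ∑ l ∈ s, bb v x l := by
  classical
  let u : Fin s.card → EE n := fun k => v (s.equivFin.symm k)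
  have hu : Orthonormal ℝ u := by
    apply hv.comp
    intro a b hab
    exact s.equivFin.symm.injective (Subtype.ext hab)
  let L : EE n →ₗ[ℝ] EE s.card :=
    { toFun := fun x => WithLp.toLp 2 (fun k => (inner ℝ (u k) x : ℝ))
      map_add' := by
        intro x y
        ext k
        simp [inner_add_right]
      map_smul' := by
        intro c x
        ext k
        simp [inner_smul_right] }
  let B : EE s.card →ₗ[ℝ] EE n :=
    { toFun := fun y => ∑ k, y k • u k
      map_add' := by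
        intro x y
        simp [add_smul, Finset.sum_add_distrib]
      map_smul' := by
        intro c x
        simp [Finset.smul_sum, mul_smul] }
  let A : EE n →L[ℝ] EE s.card := L.toContinuousLinearMap
  let B' : EE s.card →L[ℝ] EE n := B.toContinuousLinearMap
  have hA : ∀ x k, A x k = inner ℝ (u k) x := fun x k => rfl
  have hB : ∀ y, B' y = ∑ k, y k • u k := fun y => rfl
  have hadj : B' = ContinuousLinearMap.adjoint A := by
    rw [ContinuousLinearMap.eq_adjoint_iff]
    intro x y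
    rw [hB, sum_inner, PiLp.inner_apply]
    refine Finset.sum_congr rfl fun k _ => ?_
    rw [inner_smul_left, hA]
    simp [mul_comm]
  refine ⟨A, ?_, ?_⟩
  · unfold PPF.Coi
    rw [← hadj]
    ext1 y
    change A (B' y) = y
    ext k
    rw [hA, hB, inner_sum]
    simp_rw [inner_smul_right, orthonormal_iff_ite.1 hu]
    simp
  · intro x
    rw [EuclideanSpace.real_norm_sq_eq]
    simp_rw [hA]
    have h1 : ∑ l ∈ s, bb v x l = ∑ l : s, bb v x l := (Finset.sum_coe_sort s _).symm
    rw [h1, ← Equiv.sum_comp s.equivFin.symm]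
    rfl

/-- Markov's inequality on the ball -/
theorem markov {n : ℕ} (hn : 1 ≤ n) (hAVE : PPI.Stmt_AVE) (f : EE n → ℝ) (hf : Continuous f)
    (h0 : ∀ x, 0 ≤ f x) (c : ℝ) (hc : 0 < c) :
    vl {x | x ∈ Bn n ∧ c ≤ f x} ≤ kap n * (ave f / c) := by
  obtain ⟨hk, hint, -⟩ := hAVE n hn
  have h1 := mul_meas_ge_le_integral_of_nonneg (μ := volume.restrict (Bn n)) (f := f)
    (Eventually.of_forall h0) (hint f hf) c
  have hm : MeasurableSet {x | c ≤ f x} := measurableSet_le measurable_const hf.measurable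
  have h2 : (volume.restrict (Bn n)).real {x | c ≤ f x} = vl {x | x ∈ Bn n ∧ c ≤ f x} := by
    rw [measureReal_restrict_apply hm, measureReal_def]
    unfold vl
    have h3 : {x | c ≤ f x} ∩ Bn n = {x | x ∈ Bn n ∧ c ≤ f x} := by
      ext x
      exact and_comm
    rw [h3]
  rw [h2] at h1
  have h4 : kap n * (ave f / c) = (∫ x in Bn n, f x) / c := by
    unfold ave
    field_simp
  rw [h4, le_div_iff₀ hc, mul_comm]
  exact h1

theorem finite_vol {n : ℕ} (S : Set (EE n)) (hS : S ⊆ Bn n) : volume S ≠ ⊤ := by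
  have h1 : volume (Bn n) < ⊤ := (isCompact_closedBall (0 : EE n) 1).measure_lt_top
  exact ((measure_mono hS).trans_lt h1).ne

theorem exp_aux {y : ℝ} (h0 : 0 ≤ y) (h1 : y ≤ 1 / 4) : Real.exp (-(5 / 4 * y)) ≤ 1 - y := by
  have h2 := Real.quadratic_le_exp_of_nonneg (x := 5 / 4 * y) (by linarith)
  rw [Real.exp_neg, inv_le_comm₀ (Real.exp_pos _) (by linarith)]
  refine le_trans ?_ h2
  rw [inv_le_iff_one_le_mul₀ (by linarith)]
  nlinarith [mul_nonneg h0 h0, mul_nonneg (mul_nonneg h0 h0) h0,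
    mul_nonneg h0 (sub_nonneg.2 h1), mul_nonneg (mul_nonneg h0 h0) (sub_nonneg.2 h1)]

end LTV_

open LTV_ in
theorem ltv_proof (hBMX : Stmt_BMX) (hAVE : PPI.Stmt_AVE) : Stmt_LTV := by
  classical
  refine ⟨67, by norm_num, ?_⟩
  intro n K v hv hK
  have hn : 1 ≤ n := by omega
  have hn0 : (0 : ℝ) < n := by exact_mod_cast hn
  obtain ⟨m, hm⟩ : ∃ m, m = n - K := ⟨_, rfl⟩
  have hm67 : 67 ≤ m := by omega
  have hmn : m ≤ n := by omega
  have hmR : (n : ℝ) - K = m := by
    rw [hm, Nat.cast_sub (by omega)]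
  have hm67' : (67 : ℝ) ≤ m := by exact_mod_cast hm67
  have hmn' : (m : ℝ) ≤ n := by exact_mod_cast hmn
  have hm0 : (0 : ℝ) < m := by linarith
  obtain ⟨hk, hint, -, -, hconst, hmono, -⟩ := hAVE n hn
  -- the two sets of indices
  obtain ⟨s₁, hs₁⟩ : ∃ s : Finset (Fin n), s = Finset.univ.filter fun l : Fin n => (l : ℕ) < K :=
    ⟨_, rfl⟩
  obtain ⟨s₂, hs₂⟩ : ∃ s : Finset (Fin n), s = Finset.univ.filter fun l : Fin n => K ≤ (l : ℕ) :=
    ⟨_, rfl⟩
  have hc₁ : s₁.card = K := by
    have h1 : s₁ = Finset.univ.map (Fin.castLEEmb (show K ≤ n by omega)) := by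
      rw [hs₁]
      ext l
      simp only [Finset.mem_filter, Finset.mem_univ, true_and, Finset.mem_map]
      constructor
      · intro h
        exact ⟨⟨l, h⟩, rfl⟩
      · rintro ⟨k, rfl⟩
        exact k.2
    rw [h1, Finset.card_map, Finset.card_univ, Fintype.card_fin]
  have hc₂ : s₂.card = m := by
    have h1 : s₁.card + s₂.card = n := by
      rw [hs₁, hs₂]
      have h2 := Finset.card_filter_add_card_filter_not (s := (Finset.univ : Finset (Fin n)))
        (fun l => (l : ℕ) < K)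
      simp only [not_lt] at h2
      rw [h2, Finset.card_univ, Fintype.card_fin]
    omega
  have htl : ∀ x, tl v x K = ∑ l ∈ s₂, bb v x l := by
    intro x
    unfold tl
    rw [hs₂, Finset.sum_filter]
  have hpar : ∀ x, ‖x‖ ^ 2 - tl v x K = ∑ l ∈ s₁, bb v x l := by
    intro x
    have h1 : ‖x‖ ^ 2 = ∑ l, bb v x l := by
      have : Nonempty (Fin n) := ⟨⟨0, hn⟩⟩
      let b := basisOfOrthonormalOfCardEqFinrank hv (by simp)
      have hb : ⇑b = v := coe_basisOfOrthonormalOfCardEqFinrank hv (by simp)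
      have hspan : ⊤ ≤ Submodule.span ℝ (Set.range v) := by
        rw [← hb, b.span_eq]
      have h2 := (OrthonormalBasis.mk hv hspan).sum_sq_norm_inner_right x
      rw [← h2]
      refine Finset.sum_congr rfl fun l _ => ?_
      rw [OrthonormalBasis.coe_mk, Real.norm_eq_abs, sq_abs]
      rfl
    rw [h1, htl, hs₁, hs₂]
    have h2 := Finset.sum_filter_add_sum_filter_not (s := (Finset.univ : Finset (Fin n)))
      (fun l => (l : ℕ) < K) (bb v x)
    simp only [not_lt] at h2
    linarith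
  obtain ⟨A₁, hA₁, hA₁n⟩ := coi_exists v hv s₁
  obtain ⟨A₂, hA₂, hA₂n⟩ := coi_exists v hv s₂
  obtain ⟨y, hy⟩ : ∃ y : ℝ, y = m / (4 * n) := ⟨_, rfl⟩
  have hy0 : 0 ≤ y := by rw [hy]; positivity
  have hy1 : y ≤ 1 / 4 := by
    rw [hy, div_le_div_iff₀ (by positivity) (by norm_num)]
    linarith
  have hyn : y * n = m / 4 := by
    rw [hy]
    field_simp
  -- first bad set
  have hbad₁ : vl {x : EE n | x ∈ Bn n ∧ 1 - y < ‖x‖ ^ 2 - tl v x K} ≤ kap n / 4 := by
    by_cases hK0 : K = 0
    · have h1 : {x : EE n | x ∈ Bn n ∧ 1 - y < ‖x‖ ^ 2 - tl v x K} = ∅ := by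
        ext x
        simp only [Set.mem_ofPred_eq, Set.mem_empty_iff_false, iff_false, not_and, not_lt]
        intro _
        rw [hpar x]
        have h2 : s₁ = ∅ := by
          rw [← Finset.card_eq_zero, hc₁, hK0]
        rw [h2, Finset.sum_empty]
        linarith
      rw [h1]
      unfold vl
      simp only [measure_empty, ENNReal.toReal_zero]
      positivity
    · have hc1 : 1 ≤ s₁.card := by omega
      have hcn : s₁.card ≤ n := by omega
      have hmom := hBMX n s₁.card n A₁ hc1 hcn hA₁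
      have hle : ave (fun x => ‖A₁ x‖ ^ (2 * n)) ≤ Real.exp (-((m + 2) / 3)) := by
        rw [hmom]
        have h1 : ∀ i ∈ Finset.range n, (((s₁.card : ℕ) : ℝ) + 2 * i) / ((n : ℝ) + 2 + 2 * i) ≤
            Real.exp (-((m + 2) / (3 * n))) := by
          intro i hi
          have hin : (i : ℝ) + 1 ≤ n := by exact_mod_cast Finset.mem_range.1 hi
          have hi0 : (0 : ℝ) ≤ i := Nat.cast_nonneg i
          have h2 : (((s₁.card : ℕ) : ℝ) + 2 * i) / ((n : ℝ) + 2 + 2 * i) ≤
              1 - (m + 2) / (3 * n) := by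
            rw [hc₁, div_le_iff₀ (by positivity)]
            have h3 : (K : ℝ) = n - m := by linarith
            rw [h3]
            have h4 : (m + 2 : ℝ) / (3 * n) * ((n : ℝ) + 2 + 2 * i) ≤ m + 2 := by
              rw [div_mul_eq_mul_div, div_le_iff₀ (by positivity)]
              have h5 : (n : ℝ) + 2 + 2 * i ≤ 3 * n := by linarith
              exact mul_le_mul_of_nonneg_left h5 (by positivity)
            nlinarith
          refine h2.trans ?_
          have h3 := Real.add_one_le_exp (-((m + 2) / (3 * n) : ℝ))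
          linarith
        refine (Finset.prod_le_prod (fun i _ => by positivity) h1).trans ?_
        rw [Finset.prod_const, Finset.card_range, ← Real.exp_nat_mul]
        apply le_of_eq
        congr 1
        field_simp
      have hsub : {x : EE n | x ∈ Bn n ∧ 1 - y < ‖x‖ ^ 2 - tl v x K} ⊆
          {x | x ∈ Bn n ∧ (1 - y) ^ n ≤ ‖A₁ x‖ ^ (2 * n)} := by
        rintro x ⟨hx, hx2⟩
        refine ⟨hx, ?_⟩
        rw [hpar x, ← hA₁n x] at hx2
        rw [pow_mul]
        exact pow_le_pow_left₀ (by linarith) hx2.le n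
      have h1y : (0 : ℝ) < 1 - y := by linarith
      have hpow : Real.exp (-(5 / 16 * m)) ≤ (1 - y) ^ n := by
        have h2 := pow_le_pow_left₀ (Real.exp_pos _).le (exp_aux hy0 hy1) n
        rw [← Real.exp_nat_mul] at h2
        refine le_trans (le_of_eq ?_) h2
        congr 1
        nlinarith
      have hpow0 : (0 : ℝ) < (1 - y) ^ n := pow_pos h1y n
      have hmk := markov hn hAVE (fun x => ‖A₁ x‖ ^ (2 * n)) (by fun_prop)
        (fun x => by positivity) ((1 - y) ^ n) hpow0
      have hmon : vl {x : EE n | x ∈ Bn n ∧ 1 - y < ‖x‖ ^ 2 - tl v x K} ≤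
          vl {x | x ∈ Bn n ∧ (1 - y) ^ n ≤ ‖A₁ x‖ ^ (2 * n)} := by
        unfold vl
        exact ENNReal.toReal_mono (finite_vol _ fun x hx => hx.1) (measure_mono hsub)
      refine hmon.trans (hmk.trans ?_)
      rw [div_eq_mul_inv (kap n) 4]
      refine mul_le_mul_of_nonneg_left ?_ hk.le
      rw [div_le_iff₀ hpow0]
      have hfin : Real.exp (-((m + 2) / 3)) ≤ 4⁻¹ * Real.exp (-(5 / 16 * m)) := by
        have h3 : Real.exp (-((m + 2 : ℝ) / 3)) =
            Real.exp (-(m / 48 + 2 / 3)) * Real.exp (-(5 / 16 * m)) := by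
          rw [← Real.exp_add]
          congr 1
          ring
        rw [h3]
        refine mul_le_mul_of_nonneg_right ?_ (Real.exp_pos _).le
        rw [Real.exp_neg]
        refine inv_anti₀ (by norm_num) ?_
        have h4 : Real.exp 2 ≤ Real.exp ((m : ℝ) / 48 + 2 / 3) := by
          apply Real.exp_le_exp.2
          linarith
        have h5 : (4 : ℝ) ≤ Real.exp 2 := by
          have h6 : Real.exp 2 = Real.exp 1 * Real.exp 1 := by
            rw [← Real.exp_add]
            norm_num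
          have h7 := Real.exp_one_gt_d9
          rw [h6]
          nlinarith
        linarith
      refine hle.trans (hfin.trans ?_)
      exact mul_le_mul_of_nonneg_left hpow (by norm_num)
  -- second bad set
  have hbad₂ : vl {x : EE n | x ∈ Bn n ∧ 4 * (m : ℝ) / n < tl v x K} ≤ kap n / 4 := by
    have hc1 : 1 ≤ s₂.card := by omega
    have hcn : s₂.card ≤ n := by omega
    have hmom := hBMX n s₂.card m A₂ hc1 hcn hA₂
    have hle : ave (fun x => ‖A₂ x‖ ^ (2 * m)) ≤ (3 * m / n) ^ m := by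
      rw [hmom]
      have h1 : ∀ i ∈ Finset.range m, (((s₂.card : ℕ) : ℝ) + 2 * i) / ((n : ℝ) + 2 + 2 * i) ≤
          3 * m / n := by
        intro i hi
        have him : (i : ℝ) ≤ m := by exact_mod_cast (Finset.mem_range.1 hi).le
        have hi0 : (0 : ℝ) ≤ i := Nat.cast_nonneg i
        rw [hc₂]
        apply div_le_div₀ (by positivity) (by linarith) hn0 (by linarith)
      refine (Finset.prod_le_prod (fun i _ => by positivity) h1).trans ?_
      rw [Finset.prod_const, Finset.card_range]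
    have hc0 : (0 : ℝ) < 4 * m / n := by positivity
    have hsub : {x : EE n | x ∈ Bn n ∧ 4 * (m : ℝ) / n < tl v x K} ⊆
        {x | x ∈ Bn n ∧ (4 * (m : ℝ) / n) ^ m ≤ ‖A₂ x‖ ^ (2 * m)} := by
      rintro x ⟨hx, hx2⟩
      refine ⟨hx, ?_⟩
      rw [htl x, ← hA₂n x] at hx2
      rw [pow_mul]
      exact pow_le_pow_left₀ hc0.le hx2.le m
    have hpow0 : (0 : ℝ) < (4 * (m : ℝ) / n) ^ m := pow_pos hc0 m
    have hmk := markov hn hAVE (fun x => ‖A₂ x‖ ^ (2 * m)) (by fun_prop)
      (fun x => by positivity) ((4 * (m : ℝ) / n) ^ m) hpow0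
    have hmon : vl {x : EE n | x ∈ Bn n ∧ 4 * (m : ℝ) / n < tl v x K} ≤
        vl {x | x ∈ Bn n ∧ (4 * (m : ℝ) / n) ^ m ≤ ‖A₂ x‖ ^ (2 * m)} := by
      unfold vl
      exact ENNReal.toReal_mono (finite_vol _ fun x hx => hx.1) (measure_mono hsub)
    refine hmon.trans (hmk.trans ?_)
    rw [div_eq_mul_inv (kap n) 4]
    refine mul_le_mul_of_nonneg_left ?_ hk.le
    rw [div_le_iff₀ hpow0]
    refine hle.trans ?_
    have h3 : (3 * (m : ℝ) / n) ^ m = (3 / 4) ^ m * (4 * (m : ℝ) / n) ^ m := by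
      rw [← mul_pow]
      congr 1
      field_simp
    rw [h3]
    refine mul_le_mul_of_nonneg_right ?_ hpow0.le
    have h4 : (3 / 4 : ℝ) ^ m ≤ (3 / 4) ^ 67 := pow_le_pow_of_le_one (by norm_num)
      (by norm_num) hm67
    refine h4.trans (by norm_num)
  -- conclusion
  obtain ⟨L, hL⟩ : ∃ L : Set (EE n), L = {x : EE n | x ∈ Bn n ∧
      ‖x‖ ^ 2 - tl v x K ≤ 1 - ((n : ℝ) - K) / (4 * n) ∧ tl v x K ≤ 4 * ((n : ℝ) - K) / n} :=
    ⟨_, rfl⟩
  rw [← hL]
  obtain ⟨S₁, hS₁⟩ : ∃ S : Set (EE n),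
      S = {x : EE n | x ∈ Bn n ∧ 1 - y < ‖x‖ ^ 2 - tl v x K} := ⟨_, rfl⟩
  obtain ⟨S₂, hS₂⟩ : ∃ S : Set (EE n),
      S = {x : EE n | x ∈ Bn n ∧ 4 * (m : ℝ) / n < tl v x K} := ⟨_, rfl⟩
  rw [← hS₁] at hbad₁
  rw [← hS₂] at hbad₂
  have hcov : Bn n ⊆ L ∪ (S₁ ∪ S₂) := by
    intro x hx
    by_cases h1 : ‖x‖ ^ 2 - tl v x K ≤ 1 - y
    · by_cases h2 : tl v x K ≤ 4 * (m : ℝ) / n
      · left
        rw [hL]
        refine ⟨hx, ?_, ?_⟩
        · rw [hmR, ← hy]
          exact h1
        · rw [hmR]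
          exact h2
      · right
        right
        rw [hS₂]
        exact ⟨hx, not_le.1 h2⟩
    · right
      left
      rw [hS₁]
      exact ⟨hx, not_le.1 h1⟩
  have hfL : volume L ≠ ⊤ := finite_vol L (by rw [hL]; exact fun x hx => hx.1)
  have hf1 : volume S₁ ≠ ⊤ := finite_vol S₁ (by rw [hS₁]; exact fun x hx => hx.1)
  have hf2 : volume S₂ ≠ ⊤ := finite_vol S₂ (by rw [hS₂]; exact fun x hx => hx.1)
  have htot : kap n ≤ vl L + (vl S₁ + vl S₂) := by
    unfold kap vl
    rw [← ENNReal.toReal_add hf1 hf2, ← ENNReal.toReal_add hfL (ENNReal.add_ne_top.2 ⟨hf1, hf2⟩)]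
    refine ENNReal.toReal_mono
      (ENNReal.add_ne_top.2 ⟨hfL, ENNReal.add_ne_top.2 ⟨hf1, hf2⟩⟩) ?_
    refine (measure_mono hcov).trans ((measure_union_le _ _).trans ?_)
    gcongr
    exact measure_union_le _ _
  linarith

end PPG
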