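import Pool.Agent.PPG.Stmts

set_option autoImplicit false

namespace PPG

open MeasureTheory Set Filter Topology
open PPI
open scoped Pointwise

namespace MGP_

lemma sum_cons {ι : Type} [Fintype ι] (m : ℕ) (F : (Fin (m + 1) → ι) → ℝ) :
    ∑ f, F f = ∑ i, ∑ g : Fin m → ι, F (Fin.cons i g) := by
  rw [← Fintype.sum_equiv (Fin.consEquiv fun _ => ι) (fun x => F (Fin.cons x.1 x.2)) F
    (fun x => rfl), Fintype.sum_prod_type]

lemma fg_cons {n : ℕ} {ι : Type} (w : ι → EE n) (m : ℕ) (P : EE n →L[ℝ] EE n) (i : ι)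
    (g : Fin m → ι) :
    fg w (m + 1) P (Fin.cons i g) = Fin.cons (dir P (w i)) (fg w m (upd P (w i)) g) := rfl

lemma Wt_cons {n : ℕ} {ι : Type} (p : ι → ℝ) (w : ι → EE n) (m : ℕ) (P : EE n →L[ℝ] EE n)
    (i : ι) (g : Fin m → ι) :
    Wt p w (m + 1) P (Fin.cons i g) =
      ((n : ℝ) / ((m : ℝ) + 1) * (p i * ‖P (w i)‖ ^ 2)) * Wt p w m (upd P (w i)) g := rfl

lemma tl_zero {m n : ℕ} (v : Fin m → EE n) (x : EE n) : tl v x 0 = ∑ k, bb v x k := by
  simp [tl]

lemma tl_cons {m n : ℕ} (v : EE n) (u : Fin m → EE n) (x : EE n) (k : ℕ) :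
    tl (Fin.cons v u : Fin (m + 1) → EE n) x (k + 1) = tl u x k := by
  unfold tl
  rw [Fin.sum_univ_succ]
  have h0 : ¬ (k + 1 ≤ ((0 : Fin (m + 1)) : ℕ)) := by simp
  rw [if_neg h0, zero_add]
  apply Finset.sum_congr rfl
  intro l _
  have h1 : (k + 1 ≤ (l.succ : ℕ)) ↔ (k ≤ (l : ℕ)) := by
    rw [Fin.val_succ]; omega
  have h2 : bb (Fin.cons v u : Fin (m + 1) → EE n) x l.succ = bb u x l := rfl
  rw [h2]
  simp only [h1]

end MGP_

open MGP_ in
theorem mgp_proof (hU : Stmt_UPD) (hS : Stmt_STP) (hW : Stmt_WSM) (hO : Stmt_ONB) :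
    Stmt_MGP := by
  intro n m ι _ p w P x k h hn hI
  induction m generalizing P with
  | zero => exact k.elim0
  | succ m ih =>
    intro hP
    have hmp : (0 : ℝ) < (m : ℝ) + 1 := by positivity
    obtain ⟨s1, s2⟩ := hS n m ι p w P hn hI hP
    rw [sum_cons, sum_cons]
    refine Fin.cases ?_ (fun k' => ?_) k
    · -- the first step
      have h1 : ∀ i (g : Fin m → ι), Wt p w (m + 1) P (Fin.cons i g) *
          (h (tl (fg w (m + 1) P (Fin.cons i g)) x ((0 : Fin (m + 1)) : ℕ)) *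
            bb (fg w (m + 1) P (Fin.cons i g)) x 0) =
          ((n : ℝ) / ((m : ℝ) + 1) * (p i * ‖P (w i)‖ ^ 2)) *
            (h (‖P x‖ ^ 2) * (inner ℝ (dir P (w i)) x) ^ 2) * Wt p w m (upd P (w i)) g := by
        intro i g
        by_cases h0 : Wt p w (m + 1) P (Fin.cons i g) = 0
        · have h0' := h0
          rw [Wt_cons] at h0'
          rw [h0, zero_mul]
          linear_combination (-(h (‖P x‖ ^ 2) * (inner ℝ (dir P (w i)) x) ^ 2)) * h0'
        · obtain ⟨-, -, o3⟩ := hO n (m + 1) ι p w P (Fin.cons i g) hP h0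
          have h2 : tl (fg w (m + 1) P (Fin.cons i g)) x ((0 : Fin (m + 1)) : ℕ) = ‖P x‖ ^ 2 := by
            rw [Fin.val_zero, tl_zero, o3 x]
          have h3 : bb (fg w (m + 1) P (Fin.cons i g)) x 0 = (inner ℝ (dir P (w i)) x) ^ 2 := rfl
          rw [h2, h3, Wt_cons]
          ring
      have h1' : ∀ i (g : Fin m → ι), Wt p w (m + 1) P (Fin.cons i g) *
          (h (tl (fg w (m + 1) P (Fin.cons i g)) x ((0 : Fin (m + 1)) : ℕ)) *
            tl (fg w (m + 1) P (Fin.cons i g)) x ((0 : Fin (m + 1)) : ℕ)) =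
          ((n : ℝ) / ((m : ℝ) + 1) * (p i * ‖P (w i)‖ ^ 2)) *
            (h (‖P x‖ ^ 2) * ‖P x‖ ^ 2) * Wt p w m (upd P (w i)) g := by
        intro i g
        by_cases h0 : Wt p w (m + 1) P (Fin.cons i g) = 0
        · have h0' := h0
          rw [Wt_cons] at h0'
          rw [h0, zero_mul]
          linear_combination (-(h (‖P x‖ ^ 2) * ‖P x‖ ^ 2)) * h0'
        · obtain ⟨-, -, o3⟩ := hO n (m + 1) ι p w P (Fin.cons i g) hP h0
          have h2 : tl (fg w (m + 1) P (Fin.cons i g)) x ((0 : Fin (m + 1)) : ℕ) = ‖P x‖ ^ 2 := by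
            rw [Fin.val_zero, tl_zero, o3 x]
          rw [h2, Wt_cons]
          ring
      simp_rw [h1, h1', ← Finset.mul_sum]
      have h4 : ∀ i (c : ℝ), ((n : ℝ) / ((m : ℝ) + 1) * (p i * ‖P (w i)‖ ^ 2)) * c *
          ∑ g, Wt p w m (upd P (w i)) g =
          ((n : ℝ) / ((m : ℝ) + 1) * (p i * ‖P (w i)‖ ^ 2)) * c := by
        intro i c
        by_cases h0 : P (w i) = 0
        · rw [h0]; simp
        · have hP' := ((hU n m P (w i) hP).2.2.2 h0).1
          rw [(hW n m ι p w _ hn hI hP').2, mul_one]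
      simp_rw [h4]
      have h5 : ∑ i, (n : ℝ) / ((m : ℝ) + 1) * (p i * ‖P (w i)‖ ^ 2) *
          (h (‖P x‖ ^ 2) * (inner ℝ (dir P (w i)) x) ^ 2) =
          h (‖P x‖ ^ 2) / ((m : ℝ) + 1) *
            ((n : ℝ) * ∑ i, p i * ‖P (w i)‖ ^ 2 * (inner ℝ (dir P (w i)) x) ^ 2) := by
        rw [Finset.mul_sum, Finset.mul_sum]
        apply Finset.sum_congr rfl
        intro i _
        ring
      have h6 : ∑ i, (n : ℝ) / ((m : ℝ) + 1) * (p i * ‖P (w i)‖ ^ 2) *
          (h (‖P x‖ ^ 2) * ‖P x‖ ^ 2) =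
          h (‖P x‖ ^ 2) * ‖P x‖ ^ 2 / ((m : ℝ) + 1) *
            ((n : ℝ) * ∑ i, p i * ‖P (w i)‖ ^ 2) := by
        rw [Finset.mul_sum, Finset.mul_sum]
        apply Finset.sum_congr rfl
        intro i _
        ring
      rw [h5, h6, s1, s2 x]
      push_cast
      rw [Fin.val_zero]
      push_cast
      field_simp
      ring
    · -- the later steps
      have h1 : ∀ i (g : Fin m → ι), Wt p w (m + 1) P (Fin.cons i g) *
          (h (tl (fg w (m + 1) P (Fin.cons i g)) x ((k'.succ : Fin (m + 1)) : ℕ)) *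
            bb (fg w (m + 1) P (Fin.cons i g)) x k'.succ) =
          ((n : ℝ) / ((m : ℝ) + 1) * (p i * ‖P (w i)‖ ^ 2)) *
            (Wt p w m (upd P (w i)) g * (h (tl (fg w m (upd P (w i)) g) x k') *
              bb (fg w m (upd P (w i)) g) x k')) := by
        intro i g
        rw [Wt_cons, fg_cons, Fin.val_succ, tl_cons]
        have h3 : bb (Fin.cons (dir P (w i)) (fg w m (upd P (w i)) g) : Fin (m + 1) → EE n) x
          k'.succ = bb (fg w m (upd P (w i)) g) x k' := rfl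
        rw [h3]
        ring
      have h1' : ∀ i (g : Fin m → ι), Wt p w (m + 1) P (Fin.cons i g) *
          (h (tl (fg w (m + 1) P (Fin.cons i g)) x ((k'.succ : Fin (m + 1)) : ℕ)) *
            tl (fg w (m + 1) P (Fin.cons i g)) x ((k'.succ : Fin (m + 1)) : ℕ)) =
          ((n : ℝ) / ((m : ℝ) + 1) * (p i * ‖P (w i)‖ ^ 2)) *
            (Wt p w m (upd P (w i)) g * (h (tl (fg w m (upd P (w i)) g) x k') *
              tl (fg w m (upd P (w i)) g) x k')) := by
        intro i g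
        rw [Wt_cons, fg_cons, Fin.val_succ, tl_cons]
        ring
      simp_rw [h1, h1', ← Finset.mul_sum]
      rw [Finset.mul_sum]
      apply Finset.sum_congr rfl
      intro i _
      by_cases h0 : P (w i) = 0
      · rw [h0]; simp
      · have hP' := ((hU n m P (w i) hP).2.2.2 h0).1
        have h7 := ih (upd P (w i)) k' hP'
        rw [← h7, Fin.val_succ]
        push_cast
        ring

end PPG
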