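import Pool.Agent.PPG.Stmts

/-!
# Squad PPG, module OBO: the low jumps
-/

set_option autoImplicit false

namespace PPG

open PPI

namespace OBOAux

theorem bb_nonneg {m n : ℕ} (v : Fin m → EE n) (x : EE n) (k : Fin m) : 0 ≤ bb v x k :=
  sq_nonneg _

theorem tl_anti {m n : ℕ} (v : Fin m → EE n) (x : EE n) {k k' : ℕ} (h : k ≤ k') :
    tl v x k' ≤ tl v x k := by
  unfold tl
  refine Finset.sum_le_sum fun l _ => ?_
  have := bb_nonneg v x l
  by_cases h1 : k' ≤ (l : ℕ)
  · rw [if_pos h1, if_pos (h.trans h1)]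
  · rw [if_neg h1]
    split_ifs <;> simp [this]

end OBOAux

open OBOAux in
theorem obo_proof : Stmt_OBO := by
  intro n K β v x
  have het : (0 : ℝ) ≤ et := by unfold et; positivity
  by_cases hK : tl v x K ≤ et
  · rw [if_pos hK, mul_one]
    by_cases hex : ∃ k : Fin n, tl v x k ≤ et
    · classical
      obtain ⟨k1, hk1⟩ := hex
      have hne : (Finset.univ.filter fun k : Fin n => tl v x k ≤ et).Nonempty :=
        ⟨k1, Finset.mem_filter.mpr ⟨Finset.mem_univ _, hk1⟩⟩
      set k0 := (Finset.univ.filter fun k : Fin n => tl v x k ≤ et).min' hne with hk0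
      have hk0m : tl v x k0 ≤ et :=
        (Finset.mem_filter.mp (Finset.min'_mem _ hne)).2
      refine le_trans ?_ hk0m
      unfold JO
      rw [tl]
      refine Finset.sum_le_sum fun l _ => ?_
      have hb := bb_nonneg v x l
      by_cases h1 : β ≤ bb v x l ∧ (l : ℕ) < K ∧ tl v x l ≤ et
      · rw [if_pos h1]
        have h2 : k0 ≤ l :=
          Finset.min'_le (Finset.univ.filter fun k : Fin n => tl v x k ≤ et) l
            (Finset.mem_filter.mpr ⟨Finset.mem_univ _, h1.2.2⟩)
        rw [if_pos (show (k0 : ℕ) ≤ (l : ℕ) from h2)]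
      · rw [if_neg h1]
        split_ifs <;> simp [hb]
    · have h0 : JO β K v x = 0 := by
        unfold JO
        refine Finset.sum_eq_zero fun l _ => ?_
        rw [if_neg]
        rintro ⟨_, _, h3⟩
        exact hex ⟨l, h3⟩
      rw [h0]; exact het
  · rw [if_neg hK, mul_zero]
    have h0 : JO β K v x = 0 := by
      unfold JO
      refine Finset.sum_eq_zero fun l _ => ?_
      rw [if_neg]
      rintro ⟨_, h2, h3⟩
      exact hK (le_trans (tl_anti v x h2.le) h3)
    rw [h0]

end PPG
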