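import Pool.Agent.PPG.Stmts

set_option autoImplicit false

namespace PPG

open MeasureTheory Set Filter Topology
open PPI
open scoped Pointwise

namespace ONB_

lemma nsq {n : ℕ} (y : EE n) :
    ‖y‖ ^ 2 = ∑ k : Fin n, (inner ℝ y (EuclideanSpace.single k (1 : ℝ))) ^ 2 := by
  have h1 := EuclideanSpace.norm_sq_eq y
  rw [h1]
  apply Finset.sum_congr rfl
  intro k _
  rw [real_inner_comm, EuclideanSpace.inner_single_left]
  simp

lemma zero_of {n : ℕ} {P : EE n →L[ℝ] EE n} (hP : PR 0 P) (x : EE n) : P x = 0 := by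
  have h1 : ∀ k : Fin n, P (EuclideanSpace.single k (1 : ℝ)) = 0 := by
    intro k
    have h2 := hP.rk
    rw [Nat.cast_zero] at h2
    have h3 := (Finset.sum_eq_zero_iff_of_nonneg (fun j _ => sq_nonneg _)).mp h2 k
      (Finset.mem_univ k)
    exact norm_eq_zero.mp (pow_eq_zero_iff (two_ne_zero) |>.mp h3)
  have h2 : ‖P x‖ ^ 2 = 0 := by
    rw [nsq]
    apply Finset.sum_eq_zero
    intro k _
    rw [hP.sym, h1, inner_zero_right]
    norm_num
  exact norm_eq_zero.mp (pow_eq_zero_iff (two_ne_zero) |>.mp h2)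

end ONB_

theorem onb_proof (hUPD : Stmt_UPD) : Stmt_ONB := by
  intro n m ι _ p w
  induction m with
  | zero =>
    intro P f hP _
    refine ⟨⟨fun i => i.elim0, fun i => i.elim0⟩, fun k => k.elim0, ?_⟩
    intro x
    rw [ONB_.zero_of hP x]
    simp
  | succ m ih =>
    intro P f hP hW
    have hW' : ((n : ℝ) / ((m : ℝ) + 1) * (p (f 0) * ‖P (w (f 0))‖ ^ 2)) *
      Wt p w m (upd P (w (f 0))) (Fin.tail f) ≠ 0 := hW
    have h1 : P (w (f 0)) ≠ 0 := by
      intro h0
      apply hW'
      rw [h0]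
      simp
    have h2 : Wt p w m (upd P (w (f 0))) (Fin.tail f) ≠ 0 := right_ne_zero_of_mul hW'
    obtain ⟨u1, u2, u3, u4⟩ := hUPD n m P (w (f 0)) hP
    obtain ⟨v1, v2, v3, v4, v5, v6, v7⟩ := u4 h1
    obtain ⟨a1, a2, a3⟩ := ih (upd P (w (f 0))) (Fin.tail f) v1 h2
    have hfg : fg w (m + 1) P f = Fin.cons (dir P (w (f 0)))
      (fg w m (upd P (w (f 0))) (Fin.tail f)) := rfl
    have horth : ∀ k, inner ℝ (dir P (w (f 0))) (fg w m (upd P (w (f 0))) (Fin.tail f) k) = 0 := by
      intro k
      rw [← a2 k]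
      exact v6 _
    refine ⟨?_, ?_, ?_⟩
    · rw [hfg]
      refine ⟨?_, ?_⟩
      · intro k
        refine Fin.cases ?_ (fun j => ?_) k
        · rw [Fin.cons_zero]; exact v2
        · rw [Fin.cons_succ]; exact a1.1 j
      · intro k l hkl
        revert hkl
        refine Fin.cases ?_ (fun j => ?_) k
        · refine Fin.cases ?_ (fun j' => ?_) l
          · intro h; exact absurd rfl h
          · intro _
            rw [Fin.cons_zero, Fin.cons_succ]
            exact horth j'
        · refine Fin.cases ?_ (fun j' => ?_) l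
          · intro _
            rw [Fin.cons_zero, Fin.cons_succ, real_inner_comm]
            exact horth j
          · intro h
            rw [Fin.cons_succ, Fin.cons_succ]
            exact a1.2 (fun h' => h (by rw [h']))
    · intro k
      rw [hfg]
      refine Fin.cases ?_ (fun j => ?_) k
      · rw [Fin.cons_zero]; exact v3
      · rw [Fin.cons_succ, ← a2 j]
        exact v5 _
    · intro x
      rw [hfg, Fin.sum_univ_succ]
      have h3 : bb (Fin.cons (dir P (w (f 0))) (fg w m (upd P (w (f 0))) (Fin.tail f)) :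
          Fin (m + 1) → EE n) x 0 = (inner ℝ (dir P (w (f 0))) x) ^ 2 := rfl
      have h4 : ∀ k : Fin m, bb (Fin.cons (dir P (w (f 0)))
          (fg w m (upd P (w (f 0))) (Fin.tail f)) : Fin (m + 1) → EE n) x k.succ =
          bb (fg w m (upd P (w (f 0))) (Fin.tail f)) x k := fun k => rfl
      simp only [h3, h4]
      rw [a3 x, u3 x]
      ring

end PPG
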