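import Pool.Agent.PPG.Stmts

namespace PPG

theorem one_proof : Stmt_ONE := by
  intro n m ι _ q b t hn hm ht hq hsum hb hbt hmean
  have hn0 : (0 : ℝ) < n := by exact_mod_cast hn
  have hm0 : (0 : ℝ) < m := by exact_mod_cast hm
  rcases ht.eq_or_lt with h0 | h0
  · have hb0 : ∀ i, b i = 0 := fun i => le_antisymm (by rw [h0]; exact hbt i) (hb i)
    rw [← h0]
    simp [hb0, fe, TT]
  have key : ∀ i, (m : ℝ) * (q i * fe n m (t - b i)) =
      n * Real.log ((n : ℝ) / m * t) * (q i * (t - b i)) + n * (q i * TT t (b i)) -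
        n * (q i * b i) := by
    intro i
    unfold fe TT
    rcases (sub_nonneg.mpr (hbt i)).eq_or_lt with h1 | h1
    · rw [← h1]; simp
    · have e1 : (n : ℝ) / m * (t - b i) = ((n : ℝ) / m * t) * ((t - b i) / t) := by
        field_simp
      have e2 : Real.log ((n : ℝ) / m * (t - b i)) =
          Real.log ((n : ℝ) / m * t) + Real.log ((t - b i) / t) := by
        rw [e1, Real.log_mul (by positivity) (by positivity)]
      rw [e2]
      field_simp
      ring
  have hS : (m : ℝ) * ∑ i, q i * fe n m (t - b i) =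
      n * Real.log ((n : ℝ) / m * t) * (∑ i, q i * (t - b i)) + n * (∑ i, q i * TT t (b i)) -
        n * (∑ i, q i * b i) := by
    rw [Finset.mul_sum, Finset.sum_congr rfl (fun i _ => key i), Finset.sum_sub_distrib,
      Finset.sum_add_distrib, Finset.mul_sum, Finset.mul_sum, Finset.mul_sum]
  have hB : ∑ i, q i * b i = t / (m + 1) := by
    field_simp
    linarith
  have hC : ∑ i, q i * (t - b i) = m * t / (m + 1) := by
    have : ∑ i, q i * (t - b i) = (∑ i, q i) * t - ∑ i, q i * b i := by
      rw [Finset.sum_mul, ← Finset.sum_sub_distrib]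
      exact Finset.sum_congr rfl (fun i _ => by ring)
    rw [this, hsum, hB]
    field_simp
    ring
  rw [hS, hB, hC]
  have e3 : Real.log ((n : ℝ) / m * t) =
      Real.log ((n : ℝ) / (m + 1) * t) + Real.log (1 + 1 / (m : ℝ)) := by
    rw [← Real.log_mul (by positivity) (by positivity)]
    congr 1
    field_simp
  have e4 : Real.log (1 + 1 / (m : ℝ)) ≤ 1 / m := by
    have := Real.log_le_sub_one_of_pos (x := 1 + 1 / (m : ℝ)) (by positivity)
    linarith
  have e5 : (m : ℝ) * fe n (m + 1) t =
      n * Real.log ((n : ℝ) / (m + 1) * t) * (m * t / (m + 1)) := by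
    unfold fe
    push_cast
    field_simp
  rw [e5, e3]
  have e6 : (n : ℝ) * Real.log (1 + 1 / (m : ℝ)) * (m * t / (m + 1)) ≤
      n * (1 / m) * (m * t / (m + 1)) := by
    have : (0 : ℝ) ≤ m * t / (m + 1) := by positivity
    exact mul_le_mul_of_nonneg_right (mul_le_mul_of_nonneg_left e4 hn0.le) this
  have e7 : (n : ℝ) * (1 / m) * (m * t / (m + 1)) = n * (t / (m + 1)) := by
    field_simp
  have e8 : (n : ℝ) * (Real.log ((n : ℝ) / (m + 1) * t) + Real.log (1 + 1 / (m : ℝ))) *
      (m * t / (m + 1)) = n * Real.log ((n : ℝ) / (m + 1) * t) * (m * t / (m + 1)) +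
        n * Real.log (1 + 1 / (m : ℝ)) * (m * t / (m + 1)) := by ring
  rw [e8]
  linarith

end PPG
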