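import Pool.Agent.PPG.Stmts

/-!
# Squad PPG, module PFO: the first order condition in the position of minimal surface area.
-/

set_option autoImplicit false

namespace PPG

open MeasureTheory Set Filter Topology
open PPI
open scoped Pointwise

namespace PFO_

/-- `y ↦ y + t ⟨x, y⟩ x` -/
noncomputable def T {n : ℕ} (x : EE n) (t : ℝ) : EE n →L[ℝ] EE n :=
  ContinuousLinearMap.id ℝ (EE n) + (t • innerSL ℝ x).smulRight x

theorem T_apply {n : ℕ} (x : EE n) (t : ℝ) (y : EE n) :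
    T x t y = y + (t * inner ℝ x y) • x := by
  simp [T]

theorem T_det {n : ℕ} (x : EE n) (t : ℝ) (hx : ‖x‖ = 1) : (T x t).det = 1 + t := by
  have h : ((T x t : EE n →L[ℝ] EE n) : EE n →ₗ[ℝ] EE n) =
      LinearMap.transvection ((t • innerSL ℝ x : EE n →L[ℝ] ℝ) : EE n →ₗ[ℝ] ℝ) x := by
    ext y
    simp [T, LinearMap.transvection]
  unfold ContinuousLinearMap.det
  rw [h, LinearMap.transvection.det]
  simp [hx]

theorem norm_T {n : ℕ} (x : EE n) (t : ℝ) (y : EE n) (hx : ‖x‖ = 1) (hy : y ≠ 0) :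
    ‖T x t y‖ ≤ ‖y‖ + (t + t ^ 2 / 2) * ((inner ℝ y x) ^ 2 / ‖y‖) := by
  have hy0 : 0 < ‖y‖ := norm_pos_iff.2 hy
  have h1 : ‖T x t y‖ ^ 2 = ‖y‖ ^ 2 + (2 * t + t ^ 2) * (inner ℝ y x) ^ 2 := by
    rw [T_apply, norm_add_sq_real, norm_smul, inner_smul_right, hx, real_inner_comm x y]
    rw [mul_one, Real.norm_eq_abs, sq_abs]
    ring
  have h2 : 0 ≤ ‖T x t y‖ := norm_nonneg _
  have h3 : (‖T x t y‖ - ‖y‖) ^ 2 ≥ 0 := sq_nonneg _
  have h4 : 2 * ‖y‖ * ‖T x t y‖ ≤ 2 * ‖y‖ ^ 2 + (2 * t + t ^ 2) * (inner ℝ y x) ^ 2 := by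
    nlinarith
  have h5 : ‖y‖ + (t + t ^ 2 / 2) * ((inner ℝ y x) ^ 2 / ‖y‖) =
      (2 * ‖y‖ ^ 2 + (2 * t + t ^ 2) * (inner ℝ y x) ^ 2) / (2 * ‖y‖) := by
    field_simp
  rw [h5, le_div_iff₀ (by positivity)]
  linarith

end PFO_

open PFO_ in
theorem pfo_proof : Stmt_PFO := by
  intro n ι _ a v B hn ha hv hB hmin x
  have hn0 : (0 : ℝ) < n := by exact_mod_cast hn
  -- the case of unit vectors
  have key : ∀ x : EE n, ‖x‖ = 1 →
      (n : ℝ) * ∑ i, a i * ((inner ℝ (B (v i)) x) ^ 2 / ‖B (v i)‖) =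
        ∑ i, a i * ‖B (v i)‖ := by
    intro x hx
    have hBv : ∀ i, B (v i) ≠ 0 := by
      intro i h0
      have hinj : Function.Injective (B : EE n →ₗ[ℝ] EE n) := by
        have hu : IsUnit (B : EE n →ₗ[ℝ] EE n) := by
          rw [LinearMap.isUnit_iff_isUnit_det]
          exact isUnit_iff_ne_zero.2 hB
        exact ((Module.End.isUnit_iff _).1 hu).1
      exact hv i (hinj (by simpa using h0))
    set F : ℝ := ∑ i, a i * ((inner ℝ (B (v i)) x) ^ 2 / ‖B (v i)‖) with hF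
    set S : ℝ := ∑ i, a i * ‖B (v i)‖ with hS
    let g : ℝ → ℝ := fun t => (t + t ^ 2 / 2) * F - S * ((1 + t) ^ ((n : ℝ)⁻¹) - 1)
    have hg : ∀ t : ℝ, -1 < t → 0 ≤ g t := by
      intro t ht
      have ht1 : 0 < 1 + t := by linarith
      set r : ℝ := (1 + t) ^ ((n : ℝ)⁻¹) with hr
      have hr0 : 0 < r := Real.rpow_pos_of_pos ht1 _
      have hrn : r ^ n = 1 + t := by
        rw [hr, ← Real.rpow_natCast, ← Real.rpow_mul ht1.le, inv_mul_cancel₀ hn0.ne', Real.rpow_one]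
      have h1 := hmin (r⁻¹ • ((T x t).comp B)) (by
        have hd : (r⁻¹ • ((T x t).comp B)).det = (r⁻¹) ^ n * ((T x t).det * B.det) := by
          unfold ContinuousLinearMap.det
          have e1 : ((r⁻¹ • ((T x t).comp B) : EE n →L[ℝ] EE n) : EE n →ₗ[ℝ] EE n) =
              r⁻¹ • ((T x t : EE n →ₗ[ℝ] EE n) ∘ₗ (B : EE n →ₗ[ℝ] EE n)) := by
            ext y
            simp
          rw [e1, LinearMap.det_smul, LinearMap.det_comp]
          congr 2
          simp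
        rw [hd, T_det x t hx, inv_pow, hrn, ← mul_assoc, inv_mul_cancel₀ ht1.ne', one_mul])
      have h2 : ∀ i, ‖(r⁻¹ • ((T x t).comp B)) (v i)‖ = r⁻¹ * ‖T x t (B (v i))‖ := by
        intro i
        rw [_root_.smul_apply, norm_smul, Real.norm_eq_abs, abs_of_pos (inv_pos.2 hr0)]
        rfl
      have h3 : ∑ i, a i * ‖(r⁻¹ • ((T x t).comp B)) (v i)‖ ≤
          r⁻¹ * (S + (t + t ^ 2 / 2) * F) := by
        rw [hS, hF, Finset.mul_sum, ← Finset.sum_add_distrib, Finset.mul_sum]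
        apply Finset.sum_le_sum
        intro i _
        rw [h2 i]
        have h4 := norm_T x t (B (v i)) hx (hBv i)
        have h5 : 0 ≤ a i * r⁻¹ := mul_nonneg (ha i).le (inv_pos.2 hr0).le
        calc a i * (r⁻¹ * ‖T x t (B (v i))‖) = (a i * r⁻¹) * ‖T x t (B (v i))‖ := by ring
          _ ≤ (a i * r⁻¹) * (‖B (v i)‖ +
              (t + t ^ 2 / 2) * ((inner ℝ (B (v i)) x) ^ 2 / ‖B (v i)‖)) :=
              mul_le_mul_of_nonneg_left h4 h5
          _ = _ := by ring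
      have h6 : S ≤ r⁻¹ * (S + (t + t ^ 2 / 2) * F) := h1.trans h3
      have h7 : r * S ≤ S + (t + t ^ 2 / 2) * F := by
        have := mul_le_mul_of_nonneg_left h6 hr0.le
        rwa [← mul_assoc, mul_inv_cancel₀ hr0.ne', one_mul] at this
      change 0 ≤ (t + t ^ 2 / 2) * F - S * (r - 1)
      linarith
    have hg0 : g 0 = 0 := by simp [g]
    have hmin0 : IsLocalMin g 0 := by
      have : ∀ᶠ t : ℝ in 𝓝 0, -1 < t := eventually_gt_nhds (by norm_num)
      filter_upwards [this] with t ht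
      rw [hg0]
      exact hg t ht
    have hd : HasDerivAt g ((1 + 2 * 0 ^ (2 - 1) * 1 / 2) * F - S * ((1 : ℝ) * ((n : ℝ)⁻¹) *
        (1 + 0) ^ ((n : ℝ)⁻¹ - 1))) 0 := by
      have h1 : HasDerivAt (fun t : ℝ => t + t ^ 2 / 2) (1 + 2 * 0 ^ (2 - 1) * 1 / 2) 0 := by
        have h2 := ((hasDerivAt_id (0 : ℝ)).pow 2).div_const 2
        have h3 := (hasDerivAt_id (0 : ℝ)).add h2
        exact h3.congr_deriv (by simp)
      have h4 : HasDerivAt (fun t : ℝ => (1 + t) ^ ((n : ℝ)⁻¹))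
          ((1 : ℝ) * ((n : ℝ)⁻¹) * (1 + 0) ^ ((n : ℝ)⁻¹ - 1)) 0 := by
        have h5 : HasDerivAt (fun t : ℝ => 1 + t) 1 0 := (hasDerivAt_id (0 : ℝ)).const_add 1
        exact h5.rpow_const (Or.inl (by norm_num))
      exact (h1.mul_const F).sub ((h4.sub_const 1).const_mul S)
    have h0 := hmin0.hasDerivAt_eq_zero hd
    norm_num at h0
    have h1 : F = S * (n : ℝ)⁻¹ := by linarith
    rw [h1]
    field_simp
  by_cases hx : x = 0
  · subst hx
    simp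
  · have hx0 : 0 < ‖x‖ := norm_pos_iff.2 hx
    have h1 := key ((‖x‖)⁻¹ • x) (by
      rw [norm_smul, norm_inv, norm_norm, inv_mul_cancel₀ hx0.ne'])
    have h2 : ∀ i, (inner ℝ (B (v i)) ((‖x‖)⁻¹ • x)) ^ 2 =
        (‖x‖ ^ 2)⁻¹ * (inner ℝ (B (v i)) x) ^ 2 := by
      intro i
      rw [inner_smul_right, mul_pow, inv_pow]
    have h3 : ∑ i, a i * ((inner ℝ (B (v i)) ((‖x‖)⁻¹ • x)) ^ 2 / ‖B (v i)‖) =
        (‖x‖ ^ 2)⁻¹ * ∑ i, a i * ((inner ℝ (B (v i)) x) ^ 2 / ‖B (v i)‖) := by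
      rw [Finset.mul_sum]
      apply Finset.sum_congr rfl
      intro i _
      rw [h2 i]
      ring
    rw [h3] at h1
    rw [← h1]
    field_simp

end PPG
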