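import Pool.Agent.PPG.Stmts

/-!
# Squad PPG, module PMN: existence of the minimal position
-/

set_option autoImplicit false

namespace PPG

open MeasureTheory Set Filter Topology
open PPI

namespace PMN_

/-- the linear map `B ↦ (a_i B v_i)_i` -/
noncomputable def TM (n : ℕ) (ι : Type) [Fintype ι] (a : ι → ℝ) (v : ι → EE n) :
    (EE n →L[ℝ] EE n) →ₗ[ℝ] (ι → EE n) where
  toFun B := fun i => a i • B (v i)
  map_add' := by
    intro B C
    funext i
    simp [smul_add]
  map_smul' := by
    intro t B
    funext i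
    change a i • (t • B (v i)) = t • (a i • B (v i))
    rw [smul_comm]

theorem ker_TM (n : ℕ) (ι : Type) [Fintype ι] (a : ι → ℝ) (v : ι → EE n) (ha : ∀ i, 0 < a i)
    (hv : ∀ y : EE n, y ≠ 0 → ∃ i, inner ℝ (v i) y ≠ 0) :
    LinearMap.ker (TM n ι a v) = ⊥ := by
  rw [LinearMap.ker_eq_bot']
  intro B hB
  have h1 : ∀ i, B (v i) = 0 := by
    intro i
    have := congrFun hB i
    change a i • B (v i) = 0 at this
    rcases smul_eq_zero.mp this with h | h
    · exact absurd h (ha i).ne'
    · exact h
  apply ContinuousLinearMap.ext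
  intro x
  change B x = 0
  have h2 : ContinuousLinearMap.adjoint B (B x) = 0 := by
    by_contra hne
    obtain ⟨i, hi⟩ := hv _ hne
    apply hi
    rw [ContinuousLinearMap.adjoint_inner_right, h1 i, inner_zero_left]
  have h3 : inner ℝ (B x) (B x) = 0 := by
    rw [← ContinuousLinearMap.adjoint_inner_right, h2, inner_zero_right]
  exact inner_self_eq_zero.mp h3

end PMN_

open PMN_ in
theorem pmn_proof : Stmt_PMN := by
  intro n ι _ a v r hn ha hv hr
  obtain ⟨K, hK, hanti⟩ := LinearMap.exists_antilipschitzWith (TM n ι a v)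
    (ker_TM n ι a v ha hv)
  set F : (EE n →L[ℝ] EE n) → ℝ := fun B => ∑ i, a i * ‖B (v i)‖ with hF
  have hbound : ∀ B : EE n →L[ℝ] EE n, ‖B‖ ≤ K * F B := by
    intro B
    have h1 := hanti.le_mul_dist B 0
    rw [dist_zero_right, map_zero, dist_zero_right] at h1
    refine h1.trans (mul_le_mul_of_nonneg_left ?_ K.2)
    have hF0 : 0 ≤ F B := Finset.sum_nonneg fun i _ => mul_nonneg (ha i).le (norm_nonneg _)
    rw [pi_norm_le_iff_of_nonneg hF0]
    intro i
    change ‖a i • B (v i)‖ ≤ F B
    rw [norm_smul, Real.norm_of_nonneg (ha i).le]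
    exact Finset.single_le_sum (f := fun i => a i * ‖B (v i)‖)
      (fun i _ => mul_nonneg (ha i).le (norm_nonneg _)) (Finset.mem_univ i)
  have hcont : Continuous F := by
    apply continuous_finsetSum
    intro i _
    exact continuous_const.mul ((ContinuousLinearMap.apply ℝ (EE n) (v i)).continuous.norm)
  set S : Set (EE n →L[ℝ] EE n) := {B | |B.det| = r} with hS
  have hclosed : IsClosed S := by
    have : Continuous fun B : EE n →L[ℝ] EE n => |B.det| :=
      (ContinuousLinearMap.continuous_det).abs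
    exact isClosed_eq this continuous_const
  set B0 : EE n →L[ℝ] EE n := (r ^ ((1 : ℝ) / n)) • ContinuousLinearMap.id ℝ (EE n) with hB0
  have hB0S : B0 ∈ S := by
    change |B0.det| = r
    have h1 : B0.det = (r ^ ((1 : ℝ) / n)) ^ n := by
      rw [hB0]
      unfold ContinuousLinearMap.det
      rw [ContinuousLinearMap.toLinearMap_smul, LinearMap.det_smul]
      simp
    rw [h1, ← Real.rpow_natCast, ← Real.rpow_mul hr.le]
    have h2 : (1 : ℝ) / n * (n : ℝ) = 1 := by
      have : (n : ℝ) ≠ 0 := by
        have : 0 < n := hn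
        positivity
      field_simp
    rw [h2, Real.rpow_one, abs_of_pos hr]
  have : ProperSpace (EE n →L[ℝ] EE n) := FiniteDimensional.proper_real _
  have hev : ∀ᶠ B in cocompact (EE n →L[ℝ] EE n) ⊓ 𝓟 S, F B0 ≤ F B := by
    apply Filter.Eventually.filter_mono inf_le_left
    have h1 := (tendsto_norm_cocompact_atTop (E := EE n →L[ℝ] EE n)).eventually_ge_atTop
      (K * F B0)
    filter_upwards [h1] with B hB
    have h2 := hbound B
    have hK' : (0 : ℝ) < K := hK
    by_contra hlt
    push Not at hlt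
    have := mul_lt_mul_of_pos_left hlt hK'
    linarith
  obtain ⟨B, hBS, hB⟩ := hcont.continuousOn.exists_isMinOn' hclosed hB0S hev
  exact ⟨B, hBS, fun B' hB' => hB hB'⟩

end PPG
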