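import Pool.Agent.PPG.Stmts

/-!
# Squad PPG, module PSM: moments of the norm of a projection of small rank.
-/

set_option autoImplicit false

namespace PPG

open MeasureTheory Set Filter Topology
open PPI
open scoped Pointwise

namespace PSM_

theorem coi_exists {n : ℕ} (F : Submodule ℝ (EE n)) :
    ∃ A : EE n →L[ℝ] EE (Module.finrank ℝ F), PPF.Coi A ∧
      ∀ x, ‖A x‖ = ‖F.starProjection x‖ := by
  let b := stdOrthonormalBasis ℝ F
  let r : F →L[ℝ] EE (Module.finrank ℝ F) := b.repr.toContinuousLinearEquiv
  let r' : EE (Module.finrank ℝ F) →L[ℝ] F := b.repr.symm.toContinuousLinearEquiv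
  refine ⟨r.comp F.orthogonalProjectionOnto, ?_, ?_⟩
  · have h : F.subtypeL.comp r' =
        ContinuousLinearMap.adjoint (r.comp F.orthogonalProjectionOnto) := by
      rw [ContinuousLinearMap.eq_adjoint_iff]
      intro x y
      have h1 : inner ℝ ((F.subtypeL.comp r') x) y =
          inner ℝ (b.repr.symm x) (F.orthogonalProjectionOnto y) := by
        rw [Submodule.inner_orthogonalProjectionOnto_eq_of_mem_left]
        rfl
      have h2 : inner ℝ x ((r.comp F.orthogonalProjectionOnto) y) =
          inner ℝ x (b.repr (F.orthogonalProjectionOnto y)) := rfl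
      rw [h1, h2]
      exact (LinearIsometryEquiv.inner_map_eq_flip b.repr.symm x _).trans rfl
    unfold PPF.Coi
    rw [← h]
    ext1 y
    have h3 : F.orthogonalProjectionOnto ((F.subtypeL.comp r') y) = r' y := by
      simp
    change r (F.orthogonalProjectionOnto ((F.subtypeL.comp r') y)) = y
    rw [h3]
    exact b.repr.apply_symm_apply y
  · intro x
    change ‖b.repr (F.orthogonalProjectionOnto x)‖ = _
    rw [LinearIsometryEquiv.norm_map]
    rfl

end PSM_

open PSM_ in
theorem psm_proof (hBMO : PPF.Stmt_BMO) (hAVE : PPI.Stmt_AVE) : Stmt_PSM := by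
  intro n q κ v s hn hq
  have hn0 : (0 : ℝ) < n := by exact_mod_cast hn
  set F : Submodule ℝ (EE n) := Submodule.span ℝ (v '' (s : Set κ)) with hF
  have hj1 : Module.finrank ℝ F ≤ s.card := by
    classical
    have h1 : F = Submodule.span ℝ ((s.image v : Finset (EE n)) : Set (EE n)) := by
      rw [hF, Finset.coe_image]
    rw [h1]
    exact (finrank_span_finset_le_card (s.image v)).trans Finset.card_image_le
  have hj2 : Module.finrank ℝ F ≤ n := by
    have h1 := Submodule.finrank_le F
    rwa [finrank_euclideanSpace_fin] at h1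
  obtain ⟨A, hA, hAn⟩ := coi_exists F
  have hpsp : ∀ x, ‖psp v s x‖ = ‖A x‖ := fun x => (hAn x).symm
  simp_rw [hpsp]
  have hmono : ((((Module.finrank ℝ F : ℕ) : ℝ) + 2 * q) / n) ^ q ≤
      (((s.card : ℝ) + 2 * q) / n) ^ q := by
    have h1 : ((Module.finrank ℝ F : ℕ) : ℝ) ≤ (s.card : ℝ) := by exact_mod_cast hj1
    apply pow_le_pow_left₀ (by positivity)
    apply div_le_div_of_nonneg_right _ hn0.le
    linarith
  by_cases hj0 : Module.finrank ℝ F = 0
  · have hFb : F = ⊥ := Submodule.finrank_eq_zero.1 hj0
    have h0 : ∀ x, ‖A x‖ = 0 := by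
      intro x
      rw [hAn x]
      have h1 := Submodule.starProjection_apply_mem F x
      have h2 : F.starProjection x = 0 := by
        rw [hFb] at h1
        have h3 := (Submodule.mem_bot ℝ).1 h1
        have h4 : F.starProjection x ∈ F := Submodule.starProjection_apply_mem F x
        have h5 : F.starProjection x ∈ (⊥ : Submodule ℝ (EE n)) := hFb ▸ h4
        exact (Submodule.mem_bot ℝ).1 h5
      rw [h2, norm_zero]
    simp_rw [h0]
    have h1 : (0 : ℝ) ^ (2 * q) = 0 := zero_pow (by omega)
    rw [h1, (hAVE n hn).2.2.2.2.1 0]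
    positivity
  · exact (hBMO n _ q A (by omega) hj2 hA).trans hmono

end PPG
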