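import Pool.Agent.PPG.Stmts

set_option autoImplicit false

namespace PPG

open MeasureTheory Set Filter Topology
open PPI
open scoped Pointwise

namespace PSP_

variable {n : ℕ}

lemma orth (F : Submodule ℝ (EE n)) (x y : EE n) :
    inner ℝ x y = inner ℝ (F.starProjection x) (F.starProjection y) +
      inner ℝ (x - F.starProjection x) (y - F.starProjection y) := by
  have h1 : inner ℝ (x - F.starProjection x) (F.starProjection y) = 0 :=
    F.starProjection_inner_eq_zero x _ (F.starProjection_apply_mem y)
  have h2 : inner ℝ (F.starProjection x) (y - F.starProjection y) = 0 := by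
    rw [real_inner_comm]
    exact F.starProjection_inner_eq_zero y _ (F.starProjection_apply_mem x)
  rw [inner_sub_right (x - F.starProjection x), h1, sub_zero, inner_sub_left]
  rw [inner_sub_right] at h2
  linarith

lemma pyth (F : Submodule ℝ (EE n)) (x : EE n) :
    ‖x - F.starProjection x‖ ^ 2 = ‖x‖ ^ 2 - ‖F.starProjection x‖ ^ 2 := by
  have h := orth F x x
  rw [real_inner_self_eq_norm_sq, real_inner_self_eq_norm_sq, real_inner_self_eq_norm_sq] at h
  linarith

lemma res (F : Submodule ℝ (EE n)) (x y : EE n) (hy : y ∈ F) :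
    inner ℝ x y = inner ℝ (F.starProjection x) y := by
  rw [F.inner_starProjection_left_eq_right x y, F.starProjection_eq_self_iff.mpr hy]

end PSP_

open PSP_ in
theorem psp_proof : Stmt_PSP := by
  intro n κ v s
  set F : Submodule ℝ (EE n) := Submodule.span ℝ (v '' (s : Set κ)) with hF
  have hP : psp v s = F.starProjection := rfl
  have hsum : ∀ c : κ → ℝ, ∑ i ∈ s, c i • v i ∈ F := by
    intro c
    refine Submodule.sum_mem _ fun i hi => Submodule.smul_mem _ _ (Submodule.subset_span ?_)
    exact ⟨i, hi, rfl⟩
  rw [hP]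
  refine ⟨fun x => F.norm_starProjection_apply_le x, ?_, ?_, ?_⟩
  · intro x y
    rw [orth F x y, ← pyth F x, ← pyth F y, Real.sqrt_sq (norm_nonneg _),
      Real.sqrt_sq (norm_nonneg _)]
    exact add_le_add (real_inner_le_norm _ _) (real_inner_le_norm _ _)
  · intro c u
    rw [res F u _ (hsum c), ← mul_pow]
    have h := abs_real_inner_le_norm (F.starProjection u) (∑ i ∈ s, c i • v i)
    calc (inner ℝ (F.starProjection u) (∑ i ∈ s, c i • v i)) ^ 2
        = |inner ℝ (F.starProjection u) (∑ i ∈ s, c i • v i)| ^ 2 := (sq_abs _).symm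
      _ ≤ _ := pow_le_pow_left₀ (abs_nonneg _) h 2
  · intro hv u
    have hPu : F.starProjection u = ∑ i ∈ s, (inner ℝ (v i) u : ℝ) • v i := by
      refine F.eq_starProjection_of_mem_of_inner_eq_zero (hsum _) ?_
      intro w hw
      rw [hF] at hw
      refine Submodule.span_induction ?_ ?_ ?_ ?_ hw
      · rintro x ⟨i, hi, rfl⟩
        rw [inner_sub_left, real_inner_comm, sub_eq_zero]
        exact (real_inner_comm _ _).trans
          ((hv.inner_right_sum (fun i => (inner ℝ (v i) u : ℝ)) hi).trans rfl) |>.symm
      · simp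
      · intro x y _ _ hx hy
        rw [inner_add_right, hx, hy, add_zero]
      · intro a x _ hx
        rw [inner_smul_right, hx, mul_zero]
    rw [hPu, ← real_inner_self_eq_norm_sq, hv.inner_sum]
    refine Finset.sum_congr rfl fun i _ => ?_
    simp [sq]

end PPG
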