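import Pool.Agent.PPG.Stmts

/-!
# Squad PPG (MP_0bf616_gt), module PTG: the theorem for polytopes `Pol v`
-/

set_option autoImplicit false

namespace PPG

open MeasureTheory Set Filter Topology
open PPI
open scoped Pointwise

theorem ptg_proof (h1 : Stmt_CRE) (h2 : Stmt_ISP) (h3 : Stmt_FFD) (h4 : PPI.Stmt_NUA)
    (h5 : PPI.Stmt_AVE) : Stmt_PTG := by
  obtain ⟨c, C, hc0, hc1, hC, hcre⟩ := h1
  refine ⟨c, C + 1, hc0, by linarith, ?_⟩
  intro n N v hn hcomp hvol
  obtain ⟨ι, hι, p, w, D, A, hcard, hI, hM, hA, hX, htube⟩ := h2 n N v hn hcomp hvol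
  obtain ⟨hD, hXT⟩ := hcre n ι p w D hn hI hM
  refine ⟨D, A, hD, hA, htube, h3 n N ι p w D (by omega) hI hM hcard, ?_⟩
  have hk : 0 < kap n := (h5 n (by omega)).1
  have hnp : (0 : ℝ) < n := by positivity
  set V := vl (Pol v) with hV
  have hfac : (0 : ℝ) < n.factorial := by positivity
  have hnn : (0 : ℝ) < (n : ℝ) ^ n := by positivity
  -- lower bound
  have e1 : kap n * (n : ℝ) ^ n * V ^ (n - 1) * Real.exp D *
      (√((n.factorial : ℝ) / (n : ℝ) ^ n) * Real.exp (-((1 - c) * D + C * Real.log n))) ≤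
      n.factorial * vl (projBody (Pol v)) := by
    refine le_trans (mul_le_mul_of_nonneg_left hXT ?_) hX
    positivity
  have e2 : √((n.factorial : ℝ) / (n : ℝ) ^ n) * (n : ℝ) ^ n =
      n.factorial * √((n : ℝ) ^ n / n.factorial) := by
    rw [Real.sqrt_div hfac.le, Real.sqrt_div hnn.le]
    have s1 : √(n.factorial : ℝ) * √(n.factorial : ℝ) = n.factorial :=
      Real.mul_self_sqrt hfac.le
    have s2 : √((n : ℝ) ^ n) * √((n : ℝ) ^ n) = (n : ℝ) ^ n := Real.mul_self_sqrt hnn.le
    have s3 : 0 < √(n.factorial : ℝ) := Real.sqrt_pos.mpr hfac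
    have s4 : 0 < √((n : ℝ) ^ n) := Real.sqrt_pos.mpr hnn
    have t1 : √(n.factorial : ℝ) / √((n : ℝ) ^ n) * (n : ℝ) ^ n =
        √(n.factorial : ℝ) * √((n : ℝ) ^ n) := by
      rw [div_mul_eq_mul_div, div_eq_iff s4.ne', mul_assoc, s2]
    have t2 : (n.factorial : ℝ) * (√((n : ℝ) ^ n) / √(n.factorial : ℝ)) =
        √(n.factorial : ℝ) * √((n : ℝ) ^ n) := by
      rw [mul_div_assoc', div_eq_iff s3.ne']
      calc (n.factorial : ℝ) * √((n : ℝ) ^ n) =
          (√(n.factorial : ℝ) * √(n.factorial : ℝ)) * √((n : ℝ) ^ n) := by rw [s1]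
        _ = _ := by ring
    rw [t1, t2]
  have e3 : kap n * √((n : ℝ) ^ n / n.factorial) * V ^ (n - 1) *
      Real.exp (c * D - C * Real.log n) ≤ vl (projBody (Pol v)) := by
    have e4 : n.factorial * (kap n * √((n : ℝ) ^ n / n.factorial) * V ^ (n - 1) *
        Real.exp (c * D - C * Real.log n)) ≤ n.factorial * vl (projBody (Pol v)) := by
      refine le_trans (le_of_eq ?_) e1
      have : Real.exp (c * D - C * Real.log n) =
          Real.exp D * Real.exp (-((1 - c) * D + C * Real.log n)) := by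
        rw [← Real.exp_add]
        ring_nf
      rw [this]
      calc _ = (n.factorial * √((n : ℝ) ^ n / n.factorial)) * (kap n * V ^ (n - 1) *
            (Real.exp D * Real.exp (-((1 - c) * D + C * Real.log n)))) := by ring
        _ = (√((n.factorial : ℝ) / (n : ℝ) ^ n) * (n : ℝ) ^ n) * (kap n * V ^ (n - 1) *
            (Real.exp D * Real.exp (-((1 - c) * D + C * Real.log n)))) := by rw [e2]
        _ = _ := by ring
    exact le_of_mul_le_mul_left e4 hfac
  refine le_trans ?_ e3
  have hlog2 : (1 : ℝ) / 2 ≤ Real.log n := by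
    have h7 : Real.log 2 ≤ Real.log n := Real.log_le_log (by norm_num) (by exact_mod_cast hn)
    have := Real.log_two_gt_d9
    linarith
  have e5 : Pn n ≤ √(Real.exp 1) * kap n * √((n : ℝ) ^ n / n.factorial) := h4 n hn
  have e6 : √(Real.exp 1) = Real.exp (1 / 2) := by
    rw [← Real.exp_half 1]
  have hVn : 0 ≤ V ^ (n - 1) := by positivity
  calc Real.exp (c * D - (C + 1) * Real.log n) * Pn n * V ^ (n - 1)
      ≤ Real.exp (c * D - (C + 1) * Real.log n) *
          (√(Real.exp 1) * kap n * √((n : ℝ) ^ n / n.factorial)) * V ^ (n - 1) := by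
        refine mul_le_mul_of_nonneg_right (mul_le_mul_of_nonneg_left e5 (Real.exp_pos _).le) hVn
    _ = (Real.exp (c * D - (C + 1) * Real.log n) * Real.exp (1 / 2)) *
          (kap n * √((n : ℝ) ^ n / n.factorial) * V ^ (n - 1)) := by
        rw [e6]
        ring
    _ ≤ Real.exp (c * D - C * Real.log n) *
          (kap n * √((n : ℝ) ^ n / n.factorial) * V ^ (n - 1)) := by
        refine mul_le_mul_of_nonneg_right ?_ (by positivity)
        rw [← Real.exp_add]
        apply Real.exp_le_exp.mpr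
        linarith
    _ = _ := by ring

end PPG
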