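import Pool.Agent.PPG.Stmts

/-!
# Squad PPG (MP_0bf616_gt), module RNK: the sum of the inverse square roots of the ranks.
-/

set_option autoImplicit false

namespace PPG

theorem rnk_step (m : ℕ) :
    1 / √((m + 1 : ℕ) : ℝ) + 2 * √(m : ℝ) ≤ 2 * √((m + 1 : ℕ) : ℝ) := by
  have h0 : (0 : ℝ) ≤ (m : ℝ) := Nat.cast_nonneg m
  have h1 : (0 : ℝ) < ((m + 1 : ℕ) : ℝ) := by positivity
  have hs : 0 < √((m + 1 : ℕ) : ℝ) := Real.sqrt_pos.mpr h1
  have ht : 0 ≤ √(m : ℝ) := Real.sqrt_nonneg _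
  have e1 : √((m + 1 : ℕ) : ℝ) * √((m + 1 : ℕ) : ℝ) = (m : ℝ) + 1 := by
    rw [Real.mul_self_sqrt h1.le]; push_cast; ring
  have e2 : √(m : ℝ) * √(m : ℝ) = (m : ℝ) := Real.mul_self_sqrt h0
  have h3 : 1 / √((m + 1 : ℕ) : ℝ) ≤ 2 * √((m + 1 : ℕ) : ℝ) - 2 * √(m : ℝ) := by
    rw [div_le_iff₀ hs]
    nlinarith [sq_nonneg (√((m + 1 : ℕ) : ℝ) - √(m : ℝ))]
  linarith

open Classical in
theorem rnk_aux : ∀ (m : ℕ) (κ : Type) (A : Finset κ) (b : κ → ℝ), A.card = m →
    ∑ k ∈ A, 1 / √((A.filter fun l => b k ≤ b l).card : ℝ) ≤ 2 * √(A.card : ℝ) := by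
  intro m
  induction m with
  | zero =>
    intro κ A b hA
    rw [Finset.card_eq_zero] at hA
    subst hA
    simp
  | succ m ih =>
    intro κ A b hA
    have hne : A.Nonempty := by
      rw [← Finset.card_pos, hA]; omega
    obtain ⟨k₀, hk₀, hmin⟩ := Finset.exists_min_image A b hne
    have hcard : (A.erase k₀).card = m := by
      rw [Finset.card_erase_of_mem hk₀, hA]; omega
    have hsum := Finset.add_sum_erase A
      (fun k => 1 / √((A.filter fun l => b k ≤ b l).card : ℝ)) hk₀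
    rw [← hsum]
    have hfull : (A.filter fun l => b k₀ ≤ b l) = A :=
      Finset.filter_true_of_mem (fun l hl => hmin l hl)
    have hle : ∑ k ∈ A.erase k₀, 1 / √((A.filter fun l => b k ≤ b l).card : ℝ) ≤
        ∑ k ∈ A.erase k₀, 1 / √(((A.erase k₀).filter fun l => b k ≤ b l).card : ℝ) := by
      apply Finset.sum_le_sum
      intro k hk
      have hpos : 0 < ((A.erase k₀).filter fun l => b k ≤ b l).card := by
        rw [Finset.card_pos]
        exact ⟨k, Finset.mem_filter.mpr ⟨hk, le_refl _⟩⟩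
      apply one_div_le_one_div_of_le
      · exact Real.sqrt_pos.mpr (by exact_mod_cast hpos)
      · apply Real.sqrt_le_sqrt
        exact_mod_cast Finset.card_le_card
          (Finset.filter_subset_filter _ (Finset.erase_subset _ _))
    have hih := ih κ (A.erase k₀) b hcard
    rw [hcard] at hih
    have hst := rnk_step m
    rw [hA]
    simp only [hfull, hA]
    linarith

theorem rnk_proof : Stmt_RNK := fun κ A b => rnk_aux A.card κ A b rfl

end PPG
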