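import Pool.Agent.PPG.Stmts

/-!
# Squad PPG, module SJB (helper42): the cost of the small jumps
-/

set_option autoImplicit false

namespace PPG

open MeasureTheory Set Filter Topology
open PPI
open scoped Pointwise

namespace SJB_

/-- the average of `J (v o) (w j)` -/
noncomputable def S {n : ℕ} {ι Ω : Type} [Fintype ι] [Fintype Ω] (p : ι → ℝ) (w : ι → EE n)
    (μ : Ω → ℝ) (v : Ω → Fin n → EE n) (J : (Fin n → EE n) → EE n → ℝ) : ℝ :=
  ∑ j, p j * ∑ o, μ o * J (v o) (w j)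

theorem S_add {n : ℕ} {ι Ω : Type} [Fintype ι] [Fintype Ω] (p : ι → ℝ) (w : ι → EE n)
    (μ : Ω → ℝ) (v : Ω → Fin n → EE n) (J J' : (Fin n → EE n) → EE n → ℝ) :
    S p w μ v (fun a b => J a b + J' a b) = S p w μ v J + S p w μ v J' := by
  unfold S
  rw [← Finset.sum_add_distrib]
  refine Finset.sum_congr rfl fun j _ => ?_
  rw [← mul_add, ← Finset.sum_add_distrib]
  congr 1
  refine Finset.sum_congr rfl fun o _ => ?_
  ring

theorem S_mul {n : ℕ} {ι Ω : Type} [Fintype ι] [Fintype Ω] (p : ι → ℝ) (w : ι → EE n)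
    (μ : Ω → ℝ) (v : Ω → Fin n → EE n) (c : ℝ) (J : (Fin n → EE n) → EE n → ℝ) :
    S p w μ v (fun a b => c * J a b) = c * S p w μ v J := by
  unfold S
  simp only [Finset.mul_sum]
  refine Finset.sum_congr rfl fun j _ => ?_
  refine Finset.sum_congr rfl fun o _ => ?_
  ring

theorem S_sum {n : ℕ} {ι Ω κ : Type} [Fintype ι] [Fintype Ω] (p : ι → ℝ) (w : ι → EE n)
    (μ : Ω → ℝ) (v : Ω → Fin n → EE n) (s : Finset κ) (J : κ → (Fin n → EE n) → EE n → ℝ) :
    S p w μ v (fun a b => ∑ k ∈ s, J k a b) = ∑ k ∈ s, S p w μ v (J k) := by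
  unfold S
  simp only [Finset.mul_sum]
  rw [Finset.sum_comm]
  conv_rhs => rw [Finset.sum_comm]
  rw [Finset.sum_comm]
  refine Finset.sum_congr rfl fun j _ => ?_
  rw [Finset.sum_comm]

theorem S_swap {n : ℕ} {ι Ω : Type} [Fintype ι] [Fintype Ω] (p : ι → ℝ) (w : ι → EE n)
    (μ : Ω → ℝ) (v : Ω → Fin n → EE n) (J : (Fin n → EE n) → EE n → ℝ) :
    ∑ o, μ o * ∑ j, p j * J (v o) (w j) = S p w μ v J := by
  unfold S
  simp only [Finset.mul_sum]
  rw [Finset.sum_comm]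
  refine Finset.sum_congr rfl fun j _ => ?_
  refine Finset.sum_congr rfl fun o _ => ?_
  ring

theorem S_nonneg {n : ℕ} {ι Ω : Type} [Fintype ι] [Fintype Ω] (p : ι → ℝ) (w : ι → EE n)
    (μ : Ω → ℝ) (v : Ω → Fin n → EE n) (J : (Fin n → EE n) → EE n → ℝ)
    (hp : ∀ i, 0 < p i) (hμ : ∀ o, 0 ≤ μ o) (hJ : ∀ a b, 0 ≤ J a b) :
    0 ≤ S p w μ v J := by
  unfold S
  refine Finset.sum_nonneg fun j _ => mul_nonneg (hp j).le ?_
  exact Finset.sum_nonneg fun o _ => mul_nonneg (hμ o) (hJ _ _)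

theorem S_mono {n : ℕ} {ι Ω : Type} [Fintype ι] [Fintype Ω] (p : ι → ℝ) (w : ι → EE n)
    (μ : Ω → ℝ) (v : Ω → Fin n → EE n) (J J' : (Fin n → EE n) → EE n → ℝ)
    (hp : ∀ i, 0 < p i) (hμ : ∀ o, 0 ≤ μ o) (hJ : ∀ a b, J a b ≤ J' a b) :
    S p w μ v J ≤ S p w μ v J' := by
  unfold S
  refine Finset.sum_le_sum fun j _ => mul_le_mul_of_nonneg_left ?_ (hp j).le
  exact Finset.sum_le_sum fun o _ => mul_le_mul_of_nonneg_left (hJ _ _) (hμ o)

theorem bb_nonneg {m n : ℕ} (v : Fin m → EE n) (x : EE n) (k : Fin m) : 0 ≤ bb v x k := by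
  unfold bb; positivity

theorem bb_le_tl {m n : ℕ} (v : Fin m → EE n) (x : EE n) (k : Fin m) :
    bb v x k ≤ tl v x k := by
  unfold tl
  have h : (fun l : Fin m => if (k : ℕ) ≤ (l : ℕ) then bb v x l else 0) k = bb v x k := by simp
  rw [← h]
  refine Finset.single_le_sum (f := fun l : Fin m => if (k : ℕ) ≤ (l : ℕ) then bb v x l else 0)
    (fun l _ => ?_) (Finset.mem_univ k)
  split_ifs
  · exact bb_nonneg _ _ _
  · exact le_rfl

/-- a function on `Fin n`, indexed by `m = n - k` -/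
noncomputable def zz {n : ℕ} (Z : Fin n → ℝ) (m : ℕ) : ℝ :=
  if h : 0 < m ∧ m ≤ n then Z ⟨n - m, by omega⟩ else 0

/-- the indices with `m₀ < n - k ≤ M` -/
def FF (n m₀ M : ℕ) : Finset (Fin n) :=
  Finset.univ.filter (fun k : Fin n => (k : ℕ) + m₀ < n ∧ n ≤ (k : ℕ) + M)

theorem mem_FF {n m₀ M : ℕ} (k : Fin n) :
    k ∈ FF n m₀ M ↔ (k : ℕ) + m₀ < n ∧ n ≤ (k : ℕ) + M := by
  unfold FF
  simp

theorem reidx (n m₀ M : ℕ) (hM : M ≤ n) (Z : Fin n → ℝ) :
    ∑ k ∈ FF n m₀ M, Z k = ∑ m ∈ Finset.Ioc m₀ M, zz Z m := by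
  refine Finset.sum_bij (fun k _ => n - (k : ℕ)) ?_ ?_ ?_ ?_
  · intro k hk
    rw [mem_FF] at hk
    rw [Finset.mem_Ioc]
    omega
  · intro a ha b hb h
    have h1 := a.2
    have h2 := b.2
    ext
    omega
  · intro m hm
    rw [Finset.mem_Ioc] at hm
    refine ⟨⟨n - m, by omega⟩, ?_, ?_⟩
    · rw [mem_FF]
      dsimp only
      omega
    · dsimp only
      omega
  · intro k hk
    have h1 := k.2
    unfold zz
    rw [dif_pos (by omega)]
    congr 1
    ext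
    dsimp only
    omega

theorem card_FF (n M : ℕ) (hM : M ≤ n) : ((FF n 0 M).card : ℝ) = M := by
  have h := reidx n 0 M hM (fun _ => 1)
  rw [Finset.sum_const, nsmul_eq_mul, mul_one] at h
  rw [h]
  have h2 : ∑ m ∈ Finset.Ioc 0 M, zz (fun _ : Fin n => (1 : ℝ)) m =
      ∑ m ∈ Finset.Ioc 0 M, (1 : ℝ) := by
    refine Finset.sum_congr rfl fun m hm => ?_
    rw [Finset.mem_Ioc] at hm
    unfold zz
    rw [dif_pos (by omega)]
  rw [h2]
  simp

theorem zz_nonneg {n : ℕ} (Z : Fin n → ℝ) (hZ : ∀ k, 0 ≤ Z k) (m : ℕ) : 0 ≤ zz Z m := by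
  unfold zz
  split_ifs
  · exact hZ _
  · exact le_rfl

/-- the sum of the inverse squares -/
theorem invsq (n m₀ : ℕ) (hm : 1 ≤ m₀) :
    ∑ k ∈ FF n m₀ n, 1 / ((n : ℝ) - (k : ℕ)) ^ 2 ≤ 1 / (m₀ : ℝ) := by
  rw [reidx n m₀ n le_rfl (fun k => 1 / ((n : ℝ) - (k : ℕ)) ^ 2)]
  rcases le_or_gt n m₀ with h | h
  · rw [Finset.Ioc_eq_empty (by omega), Finset.sum_empty]
    positivity
  have e : ∑ m ∈ Finset.Ioc m₀ n, zz (fun k : Fin n => 1 / ((n : ℝ) - (k : ℕ)) ^ 2) m =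
      ∑ m ∈ Finset.Ioc m₀ n, ((m : ℝ) ^ 2)⁻¹ := by
    refine Finset.sum_congr rfl fun m hm' => ?_
    rw [Finset.mem_Ioc] at hm'
    unfold zz
    rw [dif_pos (by omega)]
    dsimp only
    rw [Nat.cast_sub hm'.2, one_div]
    congr 2
    ring
  rw [e]
  have h1 := sum_Ioc_inv_sq_le_sub (α := ℝ) (k := m₀) (n := n) (by omega) h.le
  have h2 : (0 : ℝ) ≤ (n : ℝ)⁻¹ := by positivity
  rw [one_div]
  linarith

/-- the function for the martingale identity -/
noncomputable def hh (θ t : ℝ) : ℝ := if t ≤ θ then 1 / t else 0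

/-- one term -/
theorem term (hT : Stmt_TTF) (β θ t b : ℝ) (hb : 0 ≤ b) (hbt : b ≤ t) (hβ : 0 ≤ β)
    (hθ : 0 < θ) :
    (if b < β then TT t b else 0) ≤ β * (hh θ t * b) + 1 / θ * (if b < β then b ^ 2 else 0) := by
  obtain ⟨h1, h2, h3⟩ := hT t b hb hbt
  have ht : 0 ≤ t := le_trans hb hbt
  have hh0 : 0 ≤ hh θ t := by
    unfold hh
    split_ifs
    · positivity
    · exact le_rfl
  by_cases hbβ : b < β
  · rw [if_pos hbβ, if_pos hbβ]
    rcases ht.eq_or_lt with h0 | h0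
    · have hb0 : b = 0 := by linarith
      rw [hb0] at h2 ⊢
      have : 0 ≤ β * (hh θ t * 0) + 1 / θ * 0 ^ 2 := by positivity
      linarith
    · have h4 : TT t b ≤ b ^ 2 / t := by
        rw [le_div_iff₀ h0]
        linarith
      by_cases htθ : t ≤ θ
      · have h5 : hh θ t = 1 / t := by
          unfold hh
          rw [if_pos htθ]
        rw [h5]
        have h6 : b ^ 2 / t ≤ β * (1 / t * b) := by
          rw [div_eq_mul_one_div]
          have h7 : b * b ≤ β * b := mul_le_mul_of_nonneg_right hbβ.le hb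
          have h8 : 0 ≤ 1 / t := by positivity
          have h9 := mul_le_mul_of_nonneg_right h7 h8
          nlinarith [h9]
        have h10 : 0 ≤ 1 / θ * b ^ 2 := by positivity
        linarith
      · push_neg at htθ
        have h6 : b ^ 2 / t ≤ 1 / θ * b ^ 2 := by
          rw [div_eq_mul_one_div, mul_comm]
          exact mul_le_mul_of_nonneg_right (one_div_le_one_div_of_le hθ htθ.le) (by positivity)
        have h7 : 0 ≤ β * (hh θ t * b) := by positivity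
        linarith
  · rw [if_neg hbβ, if_neg hbβ]
    have : 0 ≤ β * (hh θ t * b) + 1 / θ * 0 := by positivity
    exact this

/-- the threshold -/
noncomputable def tq (n : ℕ) (k : ℕ) : ℝ := rh * ((n : ℝ) - k) / n

theorem th_pos (n k : ℕ) (h : k < n) : 0 < tq n k := by
  unfold tq rh
  have h1 : (k : ℝ) < n := by exact_mod_cast h
  have h2 : (0 : ℝ) < n := lt_of_le_of_lt (Nat.cast_nonneg k) h1
  have h3 : (0 : ℝ) < (n : ℝ) - k := by linarith
  positivity

/-- the pointwise bound -/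
theorem ptw (hT : Stmt_TTF) (n m₀ : ℕ) (β : ℝ) (hβ : 0 ≤ β) (v : Fin n → EE n) (x : EE n) :
    cm β v x ≤ tl v x (n - m₀) +
      (∑ k ∈ FF n m₀ n, β * (hh (tq n k) (tl v x k) * bb v x k) +
        ∑ k ∈ FF n m₀ n, 1 / tq n k * (if bb v x k < β then bb v x k ^ 2 else 0)) := by
  classical
  unfold cm
  have e1 : tl v x (n - m₀) = ∑ k : Fin n, if n ≤ (k : ℕ) + m₀ then bb v x k else 0 := by
    unfold tl
    refine Finset.sum_congr rfl fun k _ => ?_
    have : (n - m₀ ≤ (k : ℕ)) ↔ (n ≤ (k : ℕ) + m₀) := by omega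
    simp only [this]
  have e2 : ∀ g : Fin n → ℝ, ∑ k ∈ FF n m₀ n, g k =
      ∑ k : Fin n, if (k : ℕ) + m₀ < n then g k else 0 := by
    intro g
    unfold FF
    rw [Finset.sum_filter]
    refine Finset.sum_congr rfl fun k _ => ?_
    have : ((k : ℕ) + m₀ < n ∧ n ≤ (k : ℕ) + n) ↔ ((k : ℕ) + m₀ < n) :=
      ⟨fun h => h.1, fun h => ⟨h, by omega⟩⟩
    simp only [this]
  rw [← Finset.sum_add_distrib, e1, e2, ← Finset.sum_add_distrib]
  refine Finset.sum_le_sum fun k _ => ?_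
  have hb := bb_nonneg v x k
  have hbt := bb_le_tl v x k
  by_cases hk : n ≤ (k : ℕ) + m₀
  · have hk' : ¬ ((k : ℕ) + m₀ < n) := by omega
    rw [if_pos hk, if_neg hk', add_zero]
    split_ifs
    · exact (hT _ _ hb hbt).2.1
    · exact hb
  · have hk' : (k : ℕ) + m₀ < n := by omega
    rw [if_neg hk, if_pos hk', zero_add]
    exact term hT β (tq n k) (tl v x k) (bb v x k) hb hbt hβ (th_pos n k k.2)

/-- the first part -/
theorem part1 {n : ℕ} {ι Ω : Type} [Fintype ι] [Fintype Ω] (p : ι → ℝ) (w : ι → EE n)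
    (μ : Ω → ℝ) (v : Ω → Fin n → EE n) (hIS : IS p w) (hRF : RF μ v) (m₀ : ℕ) :
    (n : ℝ) * S p w μ v (fun a b => tl a b (n - m₀)) ≤ m₀ := by
  have h1 : ∀ j, (n : ℝ) * ∑ o, μ o * tl (v o) (w j) (n - m₀) ≤ m₀ := by
    intro j
    rw [hRF.tail (w j) (n - m₀) (Nat.sub_le _ _), hIS.nrm j]
    have : (n : ℝ) ≤ ((n - m₀ : ℕ) : ℝ) + m₀ := by
      have : n ≤ (n - m₀) + m₀ := by omega
      exact_mod_cast this
    linarith
  have h2 : (n : ℝ) * S p w μ v (fun a b => tl a b (n - m₀)) =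
      ∑ j, p j * ((n : ℝ) * ∑ o, μ o * tl (v o) (w j) (n - m₀)) := by
    unfold S
    rw [Finset.mul_sum]
    refine Finset.sum_congr rfl fun j _ => ?_
    ring
  rw [h2]
  calc ∑ j, p j * ((n : ℝ) * ∑ o, μ o * tl (v o) (w j) (n - m₀))
      ≤ ∑ j, p j * (m₀ : ℝ) :=
        Finset.sum_le_sum fun j _ => mul_le_mul_of_nonneg_left (h1 j) (hIS.ppos j).le
    _ = m₀ := by rw [← Finset.sum_mul, hIS.psum, one_mul]

/-- the second part, one `k` -/
theorem part2 {n : ℕ} {ι Ω : Type} [Fintype ι] [Fintype Ω] (p : ι → ℝ) (w : ι → EE n)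
    (μ : Ω → ℝ) (v : Ω → Fin n → EE n) (D : ℝ) (hIS : IS p w) (hRF : RF μ v) (k : Fin n)
    (hL : ∀ o, ((n : ℝ) - (k : ℕ)) * ∑ j, p j *
      (if tl (v o) (w j) k ≤ rh * ((n : ℝ) - (k : ℕ)) / n then 1 else 0) ≤ 16 * (D + 1)) :
    S p w μ v (fun a b => hh (tq n k) (tl a b k) * bb a b k) ≤
      16 * (D + 1) * (1 / ((n : ℝ) - (k : ℕ)) ^ 2) := by
  have hk : (0 : ℝ) < (n : ℝ) - (k : ℕ) := by
    have : ((k : ℕ) : ℝ) < n := by exact_mod_cast k.2
    linarith
  have h1 : ∀ j, ((n : ℝ) - (k : ℕ)) *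
      ∑ o, μ o * (hh (tq n k) (tl (v o) (w j) k) * bb (v o) (w j) k) ≤
      ∑ o, μ o * (if tl (v o) (w j) k ≤ rh * ((n : ℝ) - (k : ℕ)) / n then 1 else 0) := by
    intro j
    rw [hRF.mg (w j) k (hh (tq n k))]
    refine Finset.sum_le_sum fun o _ => mul_le_mul_of_nonneg_left ?_ (hRF.nn o)
    unfold hh tq
    split_ifs
    · rcases eq_or_ne (tl (v o) (w j) k) 0 with h0 | h0
      · rw [h0]
        norm_num
      · rw [one_div, inv_mul_cancel₀ h0]
    · rw [zero_mul]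
  have h2 : ((n : ℝ) - (k : ℕ)) *
      S p w μ v (fun a b => hh (tq n k) (tl a b k) * bb a b k) ≤
      S p w μ v (fun a b => if tl a b k ≤ rh * ((n : ℝ) - (k : ℕ)) / n then 1 else 0) := by
    unfold S
    rw [Finset.mul_sum]
    refine Finset.sum_le_sum fun j _ => ?_
    have := mul_le_mul_of_nonneg_left (h1 j) (hIS.ppos j).le
    linarith
  have h3 : ((n : ℝ) - (k : ℕ)) *
      S p w μ v (fun a b => if tl a b k ≤ rh * ((n : ℝ) - (k : ℕ)) / n then 1 else 0) ≤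
      16 * (D + 1) := by
    rw [← S_swap, Finset.mul_sum]
    calc ∑ o, ((n : ℝ) - (k : ℕ)) * (μ o * ∑ j, p j *
          (if tl (v o) (w j) k ≤ rh * ((n : ℝ) - (k : ℕ)) / n then 1 else 0))
        ≤ ∑ o, μ o * (16 * (D + 1)) := by
          refine Finset.sum_le_sum fun o _ => ?_
          have := mul_le_mul_of_nonneg_left (hL o) (hRF.nn o)
          linarith
      _ = 16 * (D + 1) := by rw [← Finset.sum_mul, hRF.sum, one_mul]
  set X := S p w μ v (fun a b => hh (tq n k) (tl a b k) * bb a b k) with hX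
  have h4 : ((n : ℝ) - (k : ℕ)) ^ 2 * X ≤ 16 * (D + 1) := by
    have := mul_le_mul_of_nonneg_left h2 hk.le
    nlinarith [this, h3]
  rw [mul_one_div, le_div_iff₀ (by positivity)]
  linarith

/-- the third part -/
theorem part3 {n : ℕ} {ι Ω : Type} [Fintype ι] [Fintype Ω] (p : ι → ℝ) (w : ι → EE n)
    (μ : Ω → ℝ) (v : Ω → Fin n → EE n) (D β C : ℝ) (m₀ : ℕ) (hn : 1 ≤ n) (hm₀ : 1 ≤ m₀)
    (hIS : IS p w) (hRF : RF μ v) (hβ : 0 ≤ β) (hC : 0 < C) (hD : 0 ≤ D + 1) (hA : Stmt_ABL)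
    (hT : ∀ (o : Ω) (A : Finset (Fin n)), ∑ i, p i * ((n : ℝ) ^ 2 *
      ∑ k ∈ A, if bb (v o) (w i) k < β then bb (v o) (w i) k ^ 2 else 0) ≤
        C * (n * β * (D + 1) + A.card)) :
    (n : ℝ) * ∑ k ∈ FF n m₀ n, 1 / tq n k *
      S p w μ v (fun a b => if bb a b k < β then bb a b k ^ 2 else 0) ≤
      1 / rh * (2 * (C * (n * β * (D + 1))) / m₀ + C * (2 + Real.log n)) := by
  have hn' : (0 : ℝ) < n := by exact_mod_cast hn
  set Z : Fin n → ℝ := fun k => (n : ℝ) ^ 2 *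
    S p w μ v (fun a b => if bb a b k < β then bb a b k ^ 2 else 0) with hZ
  have hZ0 : ∀ k, 0 ≤ Z k := by
    intro k
    rw [hZ]
    refine mul_nonneg (by positivity) (S_nonneg p w μ v _ hIS.ppos hRF.nn ?_)
    intro a b
    split_ifs
    · positivity
    · exact le_rfl
  have hsum : ∀ M, 1 ≤ M → M ≤ n → ∑ m ∈ Finset.Icc 1 M, zz Z m ≤
      C * (n * β * (D + 1)) + C * M := by
    intro M hM1 hMn
    have e1 : Finset.Icc 1 M = Finset.Ioc 0 M := by
      ext m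
      rw [Finset.mem_Icc, Finset.mem_Ioc]
      omega
    rw [e1, ← reidx n 0 M hMn Z]
    have e2 : ∑ k ∈ FF n 0 M, Z k = ∑ o, μ o * ∑ i, p i * ((n : ℝ) ^ 2 *
      ∑ k ∈ FF n 0 M, if bb (v o) (w i) k < β then bb (v o) (w i) k ^ 2 else 0) := by
      rw [S_swap p w μ v (fun a b => (n : ℝ) ^ 2 *
        ∑ k ∈ FF n 0 M, if bb a b k < β then bb a b k ^ 2 else 0),
        S_mul p w μ v ((n : ℝ) ^ 2)
          (fun a b => ∑ k ∈ FF n 0 M, if bb a b k < β then bb a b k ^ 2 else 0),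
        S_sum p w μ v (FF n 0 M) (fun k a b => if bb a b k < β then bb a b k ^ 2 else 0),
        Finset.mul_sum]
    rw [e2]
    calc ∑ o, μ o * ∑ i, p i * ((n : ℝ) ^ 2 *
      ∑ k ∈ FF n 0 M, if bb (v o) (w i) k < β then bb (v o) (w i) k ^ 2 else 0)
        ≤ ∑ o, μ o * (C * (n * β * (D + 1) + (FF n 0 M).card)) :=
          Finset.sum_le_sum fun o _ => mul_le_mul_of_nonneg_left (hT o _) (hRF.nn o)
      _ = C * (n * β * (D + 1)) + C * M := by
          rw [← Finset.sum_mul, hRF.sum, one_mul, card_FF n M hMn]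
          ring
  have hab := hA (zz Z) (C * (n * β * (D + 1))) C m₀ n hm₀ (by positivity) hC.le
    (zz_nonneg Z hZ0) hsum
  have e3 : (n : ℝ) * ∑ k ∈ FF n m₀ n, 1 / tq n k *
      S p w μ v (fun a b => if bb a b k < β then bb a b k ^ 2 else 0) =
      1 / rh * ∑ m ∈ Finset.Ioc m₀ n, zz Z m / m := by
    have e4 : ∑ m ∈ Finset.Ioc m₀ n, zz Z m / m =
        ∑ m ∈ Finset.Ioc m₀ n, zz (fun k => Z k / ((n : ℝ) - (k : ℕ))) m := by
      refine Finset.sum_congr rfl fun m hm => ?_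
      rw [Finset.mem_Ioc] at hm
      unfold zz
      rw [dif_pos (by omega), dif_pos (by omega)]
      dsimp only
      rw [Nat.cast_sub hm.2]
      congr 1
      ring
    rw [e4, ← reidx n m₀ n le_rfl (fun k => Z k / ((n : ℝ) - (k : ℕ))), Finset.mul_sum,
      Finset.mul_sum]
    refine Finset.sum_congr rfl fun k _ => ?_
    have hk : (0 : ℝ) < (n : ℝ) - (k : ℕ) := by
      have : ((k : ℕ) : ℝ) < n := by exact_mod_cast k.2
      linarith
    have hr : (0 : ℝ) < rh := by unfold rh; positivity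
    rw [hZ]
    unfold tq
    dsimp only
    generalize S p w μ v (fun a b => if bb a b k < β then bb a b k ^ 2 else 0) = X
    field_simp
  rw [e3]
  refine mul_le_mul_of_nonneg_left hab ?_
  unfold rh
  positivity

end SJB_

open SJB_ in
theorem sjb_proof (h1 : Stmt_TTF) (h2 : Stmt_ABL) (h3 : Stmt_LTI) (h4 : Stmt_T4)
    (h5 : Stmt_TBS) : Stmt_SJB := by
  intro ε hε
  obtain ⟨m₁, hm1, hL⟩ := h3
  obtain ⟨C4, hC4, hT4⟩ := h4
  set c1 : ℝ := 200 * (100 / be) ^ 2 with hc1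
  have hbe : (0 : ℝ) < be := by unfold be; positivity
  have hrh : (0 : ℝ) < rh := by unfold rh; positivity
  have hc1p : 0 < c1 := by rw [hc1]; positivity
  set c2 : ℝ := 3 * c1 with hc2
  have hc2p : 0 < c2 := by rw [hc2]; positivity
  set C3 : ℝ := (8 + C4 / rh) * c2 / ε + m₁ with hC3
  have hC3p : 0 < C3 := by rw [hC3]; positivity
  refine ⟨(C3 + 1) / 2 + 3 * C4 / (2 * rh), 64, by positivity, ?_⟩
  intro n ι _ p w D Ω _ μ v hn hIS hMI hRF
  have hn1 : 1 ≤ n := by omega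
  have hn' : (64 : ℝ) ≤ n := by exact_mod_cast hn
  have hn0 : (0 : ℝ) < n := by linarith
  have hlog1 : 1 ≤ Real.log n := by
    have h := Real.exp_one_lt_d9
    have h' : Real.log (Real.exp 1) ≤ Real.log n :=
      Real.log_le_log (Real.exp_pos 1) (by linarith)
    rwa [Real.log_exp] at h'
  have hlog2 : Real.log (64 * n) ≤ 2 * Real.log n := by
    have : Real.log (64 * n) ≤ Real.log ((n : ℝ) * n) :=
      Real.log_le_log (by positivity) (by nlinarith)
    rw [Real.log_mul hn0.ne' hn0.ne'] at this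
    linarith
  have hlog3 : 0 ≤ Real.log (64 * n) := Real.log_nonneg (by linarith)
  have hβ : 0 ≤ bs n := by
    unfold bs
    positivity
  have hnβ : (n : ℝ) * bs n ≤ c2 * Real.log n := by
    have e : (n : ℝ) * bs n = c1 * (1 + Real.log (64 * n)) := by
      unfold bs
      rw [hc1]
      field_simp
    rw [e, hc2]
    have : 1 + Real.log (64 * n) ≤ 3 * Real.log n := by linarith
    have := mul_le_mul_of_nonneg_left this hc1p.le
    linarith
  have hD : 0 ≤ D + 1 := by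
    have h := h5 n 1 ι p w D (Fin 0) (fun k => k.elim0) (fun _ => ∅) hn1 le_rfl (by simp)
      hIS hMI
    have h0 : ∀ i, psp (fun k : Fin 0 => (k.elim0 : EE n)) ∅ (w i) = 0 := by
      intro i
      unfold psp
      simp
    simp only [h0] at h
    simpa using h
  set m₀ : ℕ := ⌈C3 * Real.log n⌉₊ with hm0
  have hm0l : C3 * Real.log n ≤ m₀ := Nat.le_ceil _
  have hm0u : (m₀ : ℝ) ≤ C3 * Real.log n + 1 := (Nat.ceil_lt_add_one (by positivity)).le
  have hm1m0 : m₁ ≤ m₀ := by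
    have h6 : (m₁ : ℝ) ≤ C3 := by
      rw [hC3]
      have : 0 ≤ (8 + C4 / rh) * c2 / ε := by positivity
      linarith
    have h7 : (m₁ : ℝ) ≤ m₀ := by nlinarith
    exact_mod_cast h7
  have hm01 : 1 ≤ m₀ := le_trans hm1 hm1m0
  have hm0p : (0 : ℝ) < m₀ := by exact_mod_cast hm01
  -- the averages
  have hS : ∑ j, p j * ∑ o, μ o * cm (bs n) (v o) (w j) ≤
      S p w μ v (fun a b => tl a b (n - m₀)) +
      (∑ k ∈ FF n m₀ n, bs n * S p w μ v (fun a b => hh (tq n k) (tl a b k) * bb a b k) +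
        ∑ k ∈ FF n m₀ n, 1 / tq n k *
          S p w μ v (fun a b => if bb a b k < bs n then bb a b k ^ 2 else 0)) := by
    have e0 : ∑ j, p j * ∑ o, μ o * cm (bs n) (v o) (w j) =
        S p w μ v (fun a b => cm (bs n) a b) := rfl
    rw [e0]
    refine le_trans (S_mono p w μ v _ _ hIS.ppos hRF.nn
      (fun a b => ptw h1 n m₀ (bs n) hβ a b)) (le_of_eq ?_)
    rw [S_add p w μ v (fun a b => tl a b (n - m₀)) (fun a b =>
      (∑ k ∈ FF n m₀ n, bs n * (hh (tq n k) (tl a b k) * bb a b k) +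
        ∑ k ∈ FF n m₀ n, 1 / tq n k * (if bb a b k < bs n then bb a b k ^ 2 else 0))),
      S_add p w μ v (fun a b => ∑ k ∈ FF n m₀ n, bs n * (hh (tq n k) (tl a b k) * bb a b k))
        (fun a b => ∑ k ∈ FF n m₀ n, 1 / tq n k * (if bb a b k < bs n then bb a b k ^ 2 else 0)),
      S_sum p w μ v (FF n m₀ n) (fun k a b => bs n * (hh (tq n k) (tl a b k) * bb a b k)),
      S_sum p w μ v (FF n m₀ n)
        (fun k a b => 1 / tq n k * (if bb a b k < bs n then bb a b k ^ 2 else 0))]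
    congr 1
    congr 1
    · refine Finset.sum_congr rfl fun k _ => ?_
      exact S_mul p w μ v (bs n) (fun a b => hh (tq n k) (tl a b k) * bb a b k)
    · refine Finset.sum_congr rfl fun k _ => ?_
      exact S_mul p w μ v (1 / tq n k)
        (fun a b => if bb a b k < bs n then bb a b k ^ 2 else 0)
  have q1 := part1 p w μ v hIS hRF m₀
  have q2 : ∑ k ∈ FF n m₀ n, bs n *
      S p w μ v (fun a b => hh (tq n k) (tl a b k) * bb a b k) ≤
      bs n * (16 * (D + 1)) * (1 / m₀) := by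
    calc ∑ k ∈ FF n m₀ n, bs n *
        S p w μ v (fun a b => hh (tq n k) (tl a b k) * bb a b k)
        ≤ ∑ k ∈ FF n m₀ n, bs n * (16 * (D + 1) * (1 / ((n : ℝ) - (k : ℕ)) ^ 2)) := by
          refine Finset.sum_le_sum fun k hk => mul_le_mul_of_nonneg_left ?_ hβ
          rw [mem_FF] at hk
          refine part2 p w μ v D hIS hRF k (fun o => ?_)
          have := hL n (k : ℕ) ι p w D (v o) hIS hMI (hRF.on o) (by omega)
          exact this
      _ = bs n * (16 * (D + 1)) * ∑ k ∈ FF n m₀ n, 1 / ((n : ℝ) - (k : ℕ)) ^ 2 := by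
          rw [Finset.mul_sum]
          refine Finset.sum_congr rfl fun k _ => ?_
          ring
      _ ≤ bs n * (16 * (D + 1)) * (1 / m₀) :=
          mul_le_mul_of_nonneg_left (invsq n m₀ hm01) (by positivity)
  have q3 := part3 p w μ v D (bs n) C4 m₀ hn1 hm01 hIS hRF hβ hC4 hD h2
    (fun o A => hT4 n ι p w D (v o) A (bs n) hn1 hIS hMI (hRF.on o) hβ)
  have hfin : (n : ℝ) / 2 * ∑ j, p j * ∑ o, μ o * cm (bs n) (v o) (w j) ≤
      (m₀ : ℝ) / 2 + (n : ℝ) / 2 * (bs n * (16 * (D + 1)) * (1 / m₀)) +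
      1 / 2 * (1 / rh * (2 * (C4 * (n * bs n * (D + 1))) / m₀ + C4 * (2 + Real.log n))) := by
    have a1 := mul_le_mul_of_nonneg_left hS (by positivity : (0 : ℝ) ≤ (n : ℝ) / 2)
    have a2 := mul_le_mul_of_nonneg_left q2 (by positivity : (0 : ℝ) ≤ (n : ℝ) / 2)
    linarith
  refine le_trans hfin ?_
  have hr : (n : ℝ) * bs n / m₀ ≤ c2 / C3 := by
    rw [div_le_div_iff₀ hm0p hC3p]
    have b1 := mul_le_mul_of_nonneg_right hnβ hC3p.le
    have b2 := mul_le_mul_of_nonneg_left hm0l hc2p.le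
    linarith
  have hk : (8 + C4 / rh) * (c2 / C3) ≤ ε := by
    rw [← mul_div_assoc, div_le_iff₀ hC3p, hC3, mul_add, mul_div_assoc', mul_div_cancel_left₀ _ hε.ne']
    have : 0 ≤ ε * (m₁ : ℝ) := by positivity
    linarith
  have e5 : (m₀ : ℝ) / 2 + (n : ℝ) / 2 * (bs n * (16 * (D + 1)) * (1 / m₀)) +
      1 / 2 * (1 / rh * (2 * (C4 * (n * bs n * (D + 1))) / m₀ + C4 * (2 + Real.log n))) =
      (m₀ : ℝ) / 2 + ((8 + C4 / rh) * ((n : ℝ) * bs n / m₀)) * (D + 1) +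
        C4 / (2 * rh) * (2 + Real.log n) := by
    field_simp
    ring
  rw [e5]
  have h6 : (8 + C4 / rh) * ((n : ℝ) * bs n / m₀) ≤ ε :=
    le_trans (mul_le_mul_of_nonneg_left hr (by positivity)) hk
  have h7 := mul_le_mul_of_nonneg_right h6 hD
  have h8 : (m₀ : ℝ) / 2 ≤ (C3 + 1) / 2 * Real.log n := by linarith
  have h9 : C4 / (2 * rh) * (2 + Real.log n) ≤ 3 * C4 / (2 * rh) * Real.log n := by
    have b1 : 2 + Real.log n ≤ 3 * Real.log n := by linarith
    have b2 := mul_le_mul_of_nonneg_left b1 (by positivity : (0 : ℝ) ≤ C4 / (2 * rh))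
    have b3 : C4 / (2 * rh) * (3 * Real.log n) = 3 * C4 / (2 * rh) * Real.log n := by ring
    linarith
  rw [add_mul]
  linarith

end PPG
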