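import Pool.Agent.PPG.Stmts

set_option autoImplicit false

namespace PPG

open MeasureTheory Set Filter Topology
open PPI

theorem smn_PR_idn (n : ℕ) : PR n (idn n) := by
  refine ⟨fun x y => rfl, fun x => rfl, ?_⟩
  have : ∀ k : Fin n, ‖idn n (EuclideanSpace.single k 1)‖ ^ 2 = 1 := by
    intro k
    show ‖(EuclideanSpace.single k (1 : ℝ) : EE n)‖ ^ 2 = 1
    rw [PiLp.norm_single]
    norm_num
  rw [Finset.sum_congr rfl (fun k _ => this k)]
  simp

theorem smn_proof (hWSM : Stmt_WSM) (hDET : Stmt_DET) : Stmt_SMN := by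
  intro n ι _ p w hn hI
  obtain ⟨hW0, hW1⟩ := hWSM n n ι p w (idn n) hn hI (smn_PR_idn n)
  have hc : (0 : ℝ) < (n : ℝ) ^ n / n.factorial := by
    have : (0 : ℝ) < n := by exact_mod_cast hn
    positivity
  have key : ∀ f : Fin n → ι, Wt p w n (idn n) f ≤
      (n : ℝ) ^ n / n.factorial * ((∏ k, p (f k)) * |dt (fun k => w (f k))|) := by
    intro f
    have hp : 0 ≤ ∏ k, p (f k) := Finset.prod_nonneg (fun k _ => (hI.ppos _).le)
    by_cases h : Wt p w n (idn n) f = 0
    · rw [h]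
      positivity
    · obtain ⟨h1, h2⟩ := hDET n ι p w f hI h
      rw [h1, mul_assoc]
      apply mul_le_mul_of_nonneg_left _ hc.le
      apply mul_le_mul_of_nonneg_left _ hp
      rw [← sq_abs]
      nlinarith [abs_nonneg (dt (fun k => w (f k)))]
  have h2 : (1 : ℝ) ≤ (n : ℝ) ^ n / n.factorial * XT p w := by
    rw [← hW1, XT, Finset.mul_sum]
    exact Finset.sum_le_sum (fun f _ => key f)
  have h3 : (n.factorial : ℝ) / (n : ℝ) ^ n * ((n : ℝ) ^ n / n.factorial) = 1 := by
    have : (0 : ℝ) < n := by exact_mod_cast hn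
    field_simp
  calc (n.factorial : ℝ) / (n : ℝ) ^ n = (n.factorial : ℝ) / (n : ℝ) ^ n * 1 := by ring
    _ ≤ (n.factorial : ℝ) / (n : ℝ) ^ n * ((n : ℝ) ^ n / n.factorial * XT p w) := by
        apply mul_le_mul_of_nonneg_left h2
        positivity
    _ = XT p w := by rw [← mul_assoc, h3, one_mul]

end PPG
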