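import Pool.Agent.PPG.Stmts

set_option autoImplicit false

namespace PPG

open MeasureTheory Set Filter Topology
open PPI
open scoped Pointwise

namespace STP_

lemma nsq {n : ℕ} (y : EE n) :
    ‖y‖ ^ 2 = ∑ k : Fin n, (inner ℝ y (EuclideanSpace.single k (1 : ℝ))) ^ 2 := by
  have h1 := EuclideanSpace.norm_sq_eq y
  rw [h1]
  apply Finset.sum_congr rfl
  intro k _
  rw [real_inner_comm, EuclideanSpace.inner_single_left]
  simp

end STP_

theorem stp_proof (hUPD : Stmt_UPD) : Stmt_STP := by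
  intro n m ι _ p w P hn hI hP
  refine ⟨?_, ?_⟩
  · have h1 : ∀ i, ‖P (w i)‖ ^ 2 =
        ∑ k : Fin n, (inner ℝ (w i) (P (EuclideanSpace.single k (1 : ℝ)))) ^ 2 := by
      intro i
      rw [STP_.nsq]
      apply Finset.sum_congr rfl
      intro k _
      rw [hP.sym]
    simp only [h1, Finset.mul_sum]
    rw [Finset.sum_comm]
    have h2 : ∀ k : Fin n, ∑ i, (n : ℝ) * (p i *
        (inner ℝ (w i) (P (EuclideanSpace.single k (1 : ℝ)))) ^ 2) =
        ‖P (EuclideanSpace.single k (1 : ℝ))‖ ^ 2 := by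
      intro k
      rw [← hI.iso, Finset.mul_sum]
    simp only [h2]
    have := hP.rk
    push_cast at this
    exact this
  · intro x
    have h1 := hI.iso (P x)
    have h2 : ∀ i, p i * ‖P (w i)‖ ^ 2 * (inner ℝ (dir P (w i)) x) ^ 2 =
        p i * (inner ℝ (w i) (P x)) ^ 2 := by
      intro i
      rw [mul_assoc, (hUPD n m P (w i) hP).2.1 x]
    simp only [h2]
    exact h1

end PPG
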