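import Pool.Agent.PPG.Stmts

set_option autoImplicit false

namespace PPG

open MeasureTheory Set Filter Topology
open PPI
open scoped Pointwise

namespace T1_

lemma bs_pos {n : ℕ} (hn : 1 ≤ n) : 0 < bs n := by
  have hn' : (0 : ℝ) < n := by exact_mod_cast hn
  have h1 : (1 : ℝ) ≤ 64 * n := by
    have : (1 : ℝ) ≤ n := by exact_mod_cast hn
    linarith
  have h2 : 0 ≤ Real.log (64 * n) := Real.log_nonneg h1
  unfold bs be
  positivity

lemma lev_le {n j : ℕ} (hn : 1 ≤ n) : lev n n j ≤ (be / 100) ^ 2 * (j * bs n) := by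
  have hn' : (0 : ℝ) < n := by exact_mod_cast hn
  have hbe : (0 : ℝ) < be := by unfold be; positivity
  rcases Nat.eq_zero_or_pos j with hj | hj
  · subst hj
    simp [lev]
  · have hj' : (1 : ℝ) ≤ j := by exact_mod_cast hj
    have hlog : Real.log (2 * n / j) ≤ Real.log (64 * n) := by
      apply Real.log_le_log
      · positivity
      · rw [div_le_iff₀ (by linarith)]
        nlinarith
    have e : (be / 100) ^ 2 * (j * bs n) = 200 * j * (1 + Real.log (64 * n)) / n := by
      unfold bs
      field_simp
    rw [e]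
    unfold lev
    have : 200 * (j : ℝ) * (1 + Real.log (2 * n / j)) ≤ 200 * j * (1 + Real.log (64 * n)) := by
      have h0 : (0 : ℝ) ≤ 200 * j := by linarith
      nlinarith
    gcongr

lemma sqrt_bd {B : ℝ} (h0 : 0 ≤ B) (h1 : B ≤ 1) : √(1 - B) ≤ 1 - B / 2 - B ^ 2 / 8 := by
  rw [Real.sqrt_le_left (by nlinarith)]
  have h2 : 0 ≤ B ^ 3 := by positivity
  have h3 : 0 ≤ B ^ 4 := by positivity
  have : (1 - B / 2 - B ^ 2 / 8) ^ 2 = 1 - B + B ^ 3 / 8 + B ^ 4 / 64 := by ring
  rw [this]; linarith

end T1_

open T1_ in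
theorem t1_proof (hPSP : Stmt_PSP) (hTBS : Stmt_TBS) : Stmt_T1 := by
  classical
  intro n K ι _ p w D v hn hIS hMI hv
  have hbe : (0 : ℝ) < be := by unfold be; positivity
  have hbs := bs_pos hn
  let s : ι → Finset (Fin n) := fun i => Finset.univ.filter fun k => bs n ≤ bb v (w i) k
  have key := hTBS n n ι p w D (Fin n) v s hn hn (by simp) hIS hMI
  refine le_trans ?_ key
  have hn' : (0 : ℝ) ≤ n := by positivity
  refine mul_le_mul_of_nonneg_left (Finset.sum_le_sum fun i _ => ?_) hn'
  refine mul_le_mul_of_nonneg_left ?_ (hIS.ppos i).le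
  have hB : ‖psp v (s i) (w i)‖ ^ 2 = JA (bs n) v (w i) := by
    rw [(hPSP n (Fin n) v (s i)).2.2.2 hv (w i)]
    unfold JA
    rw [Finset.sum_filter]
    rfl
  set B := JA (bs n) v (w i) with hBdef
  have hB0 : 0 ≤ B := by rw [← hB]; positivity
  have hB1 : B ≤ 1 := by
    rw [← hB]
    have h := (hPSP n (Fin n) v (s i)).1 (w i)
    rw [hIS.nrm i] at h
    have h0 := norm_nonneg (psp v (s i) (w i))
    nlinarith
  rw [hB]
  -- the level
  have hcard : ((s i).card : ℝ) * bs n ≤ B := by
    have : ((s i).card : ℝ) * bs n = ∑ _k ∈ s i, bs n := by simp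
    rw [this, ← hB, (hPSP n (Fin n) v (s i)).2.2.2 hv (w i)]
    refine Finset.sum_le_sum fun k hk => ?_
    have := (Finset.mem_filter.1 hk).2
    simpa [bb] using this
  have hlev : lev n n (s i).card * B ≤ (be / 100 * B) ^ 2 := by
    have h1 := lev_le (n := n) (j := (s i).card) hn
    have h2 : (be / 100) ^ 2 * ((s i).card * bs n) ≤ (be / 100) ^ 2 * B :=
      mul_le_mul_of_nonneg_left hcard (by positivity)
    have h3 : lev n n (s i).card ≤ (be / 100) ^ 2 * B := h1.trans h2
    calc lev n n (s i).card * B ≤ (be / 100) ^ 2 * B * B := mul_le_mul_of_nonneg_right h3 hB0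
      _ = (be / 100 * B) ^ 2 := by ring
  have hs : √(lev n n (s i).card * B) ≤ be / 100 * B := by
    rw [Real.sqrt_le_left (by positivity)]
    exact hlev
  have hq := sqrt_bd hB0 hB1
  -- the big jumps
  have hJB : be * JB (bs n) K v (w i) ≤ B ^ 2 := by
    have hJB1 : JB (bs n) K v (w i) ≤ B := by
      rw [hBdef]
      unfold JB JA
      refine Finset.sum_le_sum fun k _ => ?_
      have hb : 0 ≤ bb v (w i) k := by unfold bb; positivity
      split_ifs with h1 h2 h2
      · exact le_rfl
      · exact absurd h1.1 h2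
      · exact hb
      · exact le_rfl
    by_cases hz : JB (bs n) K v (w i) = 0
    · rw [hz]; nlinarith [sq_nonneg B]
    · have hex : ∃ k : Fin n, bs n ≤ bb v (w i) k ∧ be ≤ bb v (w i) k := by
        by_contra hcon
        push Not at hcon
        apply hz
        unfold JB
        refine Finset.sum_eq_zero fun k _ => ?_
        rw [if_neg]
        rintro ⟨h1, _, _, h4⟩
        exact absurd h4 (not_le.2 (hcon k h1))
      obtain ⟨k, hk1, hk2⟩ := hex
      have hbB : be ≤ B := by
        refine hk2.trans ?_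
        rw [hBdef]
        unfold JA
        have hnn : ∀ l ∈ (Finset.univ : Finset (Fin n)),
            0 ≤ (if bs n ≤ bb v (w i) l then bb v (w i) l else 0) := by
          intro l _
          split_ifs
          · unfold bb; positivity
          · exact le_rfl
        have := Finset.single_le_sum hnn (Finset.mem_univ k)
        rw [if_pos hk1] at this
        convert this using 1
      nlinarith
  have hc : be / 100 ≤ 1 := by unfold be; norm_num
  nlinarith

end PPG
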