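import Pool.Agent.PPG.Stmts

set_option autoImplicit false

namespace PPG

open MeasureTheory Set Filter Topology
open PPI
open scoped Pointwise

namespace T2_

open Classical in
noncomputable def SF {n : ℕ} (K : ℕ) (u : Fin 32 → Fin n → EE n) (x : EE n) :
    Finset (Fin 32 × Fin n) :=
  Finset.univ.filter (fun a => bs n ≤ bb (u a.1) x a.2 ∧ K ≤ (a.2 : ℕ))

theorem sum_JL {n : ℕ} (K : ℕ) (u : Fin 32 → Fin n → EE n) (x : EE n) :
    ∑ a ∈ SF K u x, bb (u a.1) x a.2 = ∑ r, JL (bs n) K (u r) x := by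
  unfold SF JL
  rw [Finset.sum_filter, Fintype.sum_prod_type]

theorem sum_XL {n : ℕ} (K : ℕ) (u : Fin 32 → Fin n → EE n) (x : EE n) :
    ∑ a ∈ SF K u x, (inner ℝ (u a.1 a.2) x : ℝ) • (u a.1 a.2) =
      ∑ r, XL (bs n) K (u r) x := by
  unfold SF XL
  rw [Finset.sum_filter, Fintype.sum_prod_type]

theorem JL_nn {n : ℕ} (β : ℝ) (K : ℕ) (v : Fin n → EE n) (x : EE n) : 0 ≤ JL β K v x := by
  unfold JL
  refine Finset.sum_nonneg fun k _ => ?_
  split_ifs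
  · unfold bb; positivity
  · exact le_rfl

theorem card_le {n : ℕ} (K : ℕ) (u : Fin 32 → Fin n → EE n) (x : EE n) :
    ((SF K u x).card : ℝ) * bs n ≤ ∑ r, JL (bs n) K (u r) x := by
  rw [← sum_JL, ← nsmul_eq_mul]
  refine Finset.card_nsmul_le_sum _ _ _ fun a ha => ?_
  unfold SF at ha
  exact (Finset.mem_filter.1 ha).2.1

theorem lev_le (n j : ℕ) (hn : 1 ≤ n) :
    lev n (32 * n) j ≤ (be / 100) ^ 2 * ((j : ℝ) * bs n) := by
  have hn0 : (0 : ℝ) < n := by exact_mod_cast hn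
  have hbe : (be : ℝ) ≠ 0 := by unfold be; norm_num
  have e1 : (be / 100) ^ 2 * ((j : ℝ) * bs n) = 200 * j * (1 + Real.log (64 * n)) / n := by
    unfold bs
    field_simp
  rw [e1]
  unfold lev
  rcases Nat.eq_zero_or_pos j with h | h
  · subst h; simp
  · have hj : (1 : ℝ) ≤ j := by exact_mod_cast h
    have hl : Real.log (2 * ((32 * n : ℕ) : ℝ) / j) ≤ Real.log (64 * n) := by
      apply Real.log_le_log
      · push_cast; positivity
      · push_cast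
        rw [div_le_iff₀ (by linarith)]
        nlinarith
    gcongr

theorem key {n : ℕ} (hPSP : Stmt_PSP) (K : ℕ) (hn : 1 ≤ n) (u : Fin 32 → Fin n → EE n)
    (x : EE n) (hx : ‖x‖ = 1)
    (hin : ∀ r, inner ℝ x (XL (bs n) K (u r) x) = JL (bs n) K (u r) x) :
    (1 - be / 100) / 2 * (∑ r, JL (bs n) K (u r) x - ‖∑ r, XL (bs n) K (u r) x‖ ^ 2 / 4) -
      (be / 100) / 2 * ∑ r, JL (bs n) K (u r) x ≤
    1 - √(1 - ‖psp (fun a : Fin 32 × Fin n => u a.1 a.2) (SF K u x) x‖ ^ 2) -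
      √(lev n (32 * n) (SF K u x).card *
        ‖psp (fun a : Fin 32 × Fin n => u a.1 a.2) (SF K u x) x‖ ^ 2) := by
  set V : Fin 32 × Fin n → EE n := fun a => u a.1 a.2 with hV
  obtain ⟨h1, _, h3, _⟩ := hPSP n (Fin 32 × Fin n) V (SF K u x)
  have h1' := h1 x
  set N := ‖psp V (SF K u x) x‖ with hN
  set S := ∑ r, JL (bs n) K (u r) x with hS
  set T := ‖∑ r, XL (bs n) K (u r) x‖ ^ 2 with hT
  have hN0 : 0 ≤ N := norm_nonneg _
  rw [hx] at h1'
  have hy1 : N ^ 2 ≤ 1 := by nlinarith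
  have hy0 : 0 ≤ N ^ 2 := by positivity
  have hS0 : 0 ≤ S := Finset.sum_nonneg fun r _ => JL_nn _ _ _ _
  have hT0 : 0 ≤ T := by positivity
  have h4 := h3 (fun a => inner ℝ (u a.1 a.2) x) x
  have e1 : ∑ i ∈ SF K u x, (fun a : Fin 32 × Fin n => (inner ℝ (u a.1 a.2) x : ℝ)) i • V i =
      ∑ r, XL (bs n) K (u r) x := sum_XL K u x
  rw [e1] at h4
  have e2 : inner ℝ x (∑ r, XL (bs n) K (u r) x) = S := by
    rw [inner_sum, hS]
    exact Finset.sum_congr rfl fun r _ => hin r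
  rw [e2] at h4
  -- `S ^ 2 ≤ y T`
  have h5 : S ^ 2 ≤ N ^ 2 * T := h4
  have h6 : S - T / 4 ≤ N ^ 2 := by
    rcases hT0.eq_or_lt with h | h
    · rw [← h] at h5 ⊢
      have : S = 0 := by nlinarith
      rw [this]; linarith
    · have h7 : (S - T / 4) * T ≤ N ^ 2 * T := by nlinarith [sq_nonneg (S - T / 2)]
      exact le_of_mul_le_mul_right h7 h
  have hbe0 : (0 : ℝ) < be := by unfold be; norm_num
  have hbe1 : (be : ℝ) ≤ 1 := by unfold be; norm_num
  -- first square root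
  have h8 : √(1 - N ^ 2) ≤ 1 - N ^ 2 / 2 := by
    apply Real.sqrt_le_iff.2
    constructor
    · linarith
    · nlinarith
  have h9 : √(lev n (32 * n) (SF K u x).card * N ^ 2) ≤ (be / 100) * ((S + N ^ 2) / 2) := by
    apply Real.sqrt_le_iff.2
    constructor
    · positivity
    · have h10 : lev n (32 * n) (SF K u x).card ≤ (be / 100) ^ 2 * S :=
        (lev_le n _ hn).trans (mul_le_mul_of_nonneg_left (card_le K u x) (by positivity))
      calc lev n (32 * n) (SF K u x).card * N ^ 2 ≤ ((be / 100) ^ 2 * S) * N ^ 2 :=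
            mul_le_mul_of_nonneg_right h10 hy0
        _ = (be / 100) ^ 2 * (S * N ^ 2) := by ring
        _ ≤ (be / 100) ^ 2 * ((S + N ^ 2) / 2) ^ 2 := by
            apply mul_le_mul_of_nonneg_left _ (by positivity)
            nlinarith [sq_nonneg (S - N ^ 2)]
        _ = (be / 100 * ((S + N ^ 2) / 2)) ^ 2 := by ring
  have h11 : (1 - be / 100) / 2 * (S - T / 4) ≤ (1 - be / 100) / 2 * N ^ 2 :=
    mul_le_mul_of_nonneg_left h6 (by linarith)
  nlinarith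

end T2_

open T2_ in
theorem t2_proof (hPSP : Stmt_PSP) (hTBS : Stmt_TBS) (hIND : Stmt_IND) (hXLM : Stmt_XLM) :
    Stmt_T2 := by
  intro n K ι _ p w D Ω _ μ v hn hIS hMI hRF hK h32
  have hn0 : (0 : ℝ) < n := by exact_mod_cast hn
  set e : ℝ := be / 100 with he
  -- the inequality for each `F`
  have hF : ∀ F : Fin 32 → Ω, (n : ℝ) * ∑ i, p i *
      ((1 - e) / 2 * (∑ r, JL (bs n) K (v (F r)) (w i) -
        ‖∑ r, XL (bs n) K (v (F r)) (w i)‖ ^ 2 / 4) -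
        e / 2 * ∑ r, JL (bs n) K (v (F r)) (w i)) ≤ D + 1 := by
    intro F
    have h1 := hTBS n (32 * n) ι p w D (Fin 32 × Fin n) (fun a => v (F a.1) a.2)
      (fun i => SF K (fun r => v (F r)) (w i)) hn (by omega) (by simp) hIS hMI
    refine le_trans ?_ h1
    refine mul_le_mul_of_nonneg_left ?_ hn0.le
    refine Finset.sum_le_sum fun i _ => ?_
    refine mul_le_mul_of_nonneg_left ?_ (hIS.ppos i).le
    exact key hPSP K hn (fun r => v (F r)) (w i) (hIS.nrm i)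
      (fun r => ((hXLM n K Ω μ v (bs n) (w i) hK hRF).1 (F r)).2)
  have hP0 : ∀ F : Fin 32 → Ω, 0 ≤ ∏ r, μ (F r) := fun F =>
    Finset.prod_nonneg fun r _ => hRF.nn _
  have hP1 : ∑ F : Fin 32 → Ω, (∏ r, μ (F r)) = 1 :=
    (hIND n 32 Ω μ (fun _ => 0) (fun _ => 0) hRF.sum).1
  have hav : ∑ F : Fin 32 → Ω, (∏ r, μ (F r)) * ((n : ℝ) * ∑ i, p i *
      ((1 - e) / 2 * (∑ r, JL (bs n) K (v (F r)) (w i) -
        ‖∑ r, XL (bs n) K (v (F r)) (w i)‖ ^ 2 / 4) -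
        e / 2 * ∑ r, JL (bs n) K (v (F r)) (w i))) ≤ D + 1 := by
    calc _ ≤ ∑ F : Fin 32 → Ω, (∏ r, μ (F r)) * (D + 1) :=
          Finset.sum_le_sum fun F _ => mul_le_mul_of_nonneg_left (hF F) (hP0 F)
      _ = D + 1 := by rw [← Finset.sum_mul, hP1, one_mul]
  -- exchange the sums
  have hex : ∑ F : Fin 32 → Ω, (∏ r, μ (F r)) * ((n : ℝ) * ∑ i, p i *
      ((1 - e) / 2 * (∑ r, JL (bs n) K (v (F r)) (w i) -
        ‖∑ r, XL (bs n) K (v (F r)) (w i)‖ ^ 2 / 4) -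
        e / 2 * ∑ r, JL (bs n) K (v (F r)) (w i))) =
      (n : ℝ) * ∑ i, p i * (((1 - e) / 2 - e / 2) *
        (∑ F : Fin 32 → Ω, (∏ r, μ (F r)) * ∑ r, JL (bs n) K (v (F r)) (w i)) -
        (1 - e) / 8 * (∑ F : Fin 32 → Ω, (∏ r, μ (F r)) *
          ‖∑ r, XL (bs n) K (v (F r)) (w i)‖ ^ 2)) := by
    simp only [Finset.mul_sum]
    rw [Finset.sum_comm]
    refine Finset.sum_congr rfl fun i _ => ?_
    simp only [← Finset.mul_sum]
    have e1 : ∀ F : Fin 32 → Ω, (∏ r, μ (F r)) * (↑n * (p i *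
        ((1 - e) / 2 * (∑ r, JL (bs n) K (v (F r)) (w i) -
          ‖∑ r, XL (bs n) K (v (F r)) (w i)‖ ^ 2 / 4) -
          e / 2 * ∑ r, JL (bs n) K (v (F r)) (w i)))) =
        (n * p i * ((1 - e) / 2 - e / 2)) *
          ((∏ r, μ (F r)) * ∑ r, JL (bs n) K (v (F r)) (w i)) -
        (n * p i * ((1 - e) / 8)) * ((∏ r, μ (F r)) *
          ‖∑ r, XL (bs n) K (v (F r)) (w i)‖ ^ 2) := by
      intro F; ring
    rw [Finset.sum_congr rfl fun F _ => e1 F, Finset.sum_sub_distrib, ← Finset.mul_sum,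
      ← Finset.mul_sum]
    ring
  rw [hex] at hav
  refine le_trans ?_ hav
  rw [mul_comm (2 : ℝ) (n : ℝ), mul_assoc]
  refine mul_le_mul_of_nonneg_left ?_ hn0.le
  rw [Finset.mul_sum]
  refine Finset.sum_le_sum fun i _ => ?_
  rw [mul_left_comm]
  refine mul_le_mul_of_nonneg_left ?_ (hIS.ppos i).le
  obtain ⟨_, hg, hX⟩ := hIND n 32 Ω μ (fun o => XL (bs n) K (v o) (w i))
    (fun o => JL (bs n) K (v o) (w i)) hRF.sum
  obtain ⟨hx1, hx2⟩ := hXLM n K Ω μ v (bs n) (w i) hK hRF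
  rw [hg, hX]
  have hth : ∑ o, μ o * ‖XL (bs n) K (v o) (w i)‖ ^ 2 =
      ∑ o, μ o * JL (bs n) K (v o) (w i) :=
    Finset.sum_congr rfl fun o _ => by rw [(hx1 o).1]
  rw [hth]
  set θ := ∑ o, μ o * JL (bs n) K (v o) (w i) with hθ
  set m := ‖∑ o, μ o • XL (bs n) K (v o) (w i)‖ ^ 2 with hm
  have hθ0 : 0 ≤ θ := Finset.sum_nonneg fun o _ => mul_nonneg (hRF.nn o) (JL_nn _ _ _ _)
  have h32' : 32 * ((n : ℝ) - K) ≤ n := by
    have : ((n - K : ℕ) : ℝ) = (n : ℝ) - K := by push_cast [hK]; ring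
    rw [← this]; exact_mod_cast h32
  have hm1 : m ≤ θ / 32 := by
    have h1 : (n : ℝ) * m ≤ n * (θ / 32) := by nlinarith
    exact le_of_mul_le_mul_left h1 hn0
  have he0 : 0 < e := by rw [he]; unfold be; norm_num
  have he1 : e ≤ 1 / 100 := by rw [he]; unfold be; norm_num
  push_cast
  have h2 : (1 - e) / 8 * (32 * θ + 32 * (32 - 1) * m) ≤ (1 - e) / 8 * (63 * θ) := by
    apply mul_le_mul_of_nonneg_left _ (by linarith)
    linarith
  nlinarith

end PPG
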