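import Pool.Agent.PPG.Stmts

set_option autoImplicit false

/-!
# Squad PPG (MP_0bf616_gt): module T3
-/

namespace PPG

open MeasureTheory Set Filter Topology
open PPI
open scoped Pointwise

theorem t3_proof (hLTI : Stmt_LTI) (hOBO : Stmt_OBO) : Stmt_T3 := by
  classical
  obtain ⟨m₁, hm₁, hL⟩ := hLTI
  refine ⟨32 * m₁ + 32, ?_⟩
  intro n ι _ p w D Ω _ μ v β hn his hmi hrf
  obtain ⟨m, hm⟩ : ∃ m, m = n / 32 := ⟨_, rfl⟩
  rw [← hm]
  have hm2 : n ≤ 64 * m := by omega
  have hmn : m ≤ n := by omega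
  have hm2' : (n : ℝ) ≤ 64 * m := by exact_mod_cast hm2
  have hnpos : (0 : ℝ) < n := by
    have : 0 < n := by omega
    exact_mod_cast this
  have hK : (n : ℝ) - ((n - m : ℕ) : ℝ) = m := by
    rw [Nat.cast_sub hmn]; ring
  have het : (0 : ℝ) < et := by unfold et; positivity
  have hlevel : et ≤ rh * (m : ℝ) / n := by
    rw [le_div_iff₀ hnpos]
    unfold et rh
    nlinarith
  have key : ∀ o, (n : ℝ) * ∑ j, p j * JO β (n - m) (v o) (w j) ≤ et * (1024 * (D + 1)) := by
    intro o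
    have h := hL n (n - m) ι p w D (v o) his hmi (hrf.on o) (by omega)
    rw [hK] at h
    obtain ⟨S, hS⟩ : ∃ S : ℝ, S = ∑ j, p j *
      (if tl (v o) (w j) (n - m) ≤ rh * (m : ℝ) / n then (1 : ℝ) else 0) := ⟨_, rfl⟩
    rw [← hS] at h
    have hS0 : 0 ≤ S := by
      rw [hS]
      refine Finset.sum_nonneg fun j _ => mul_nonneg (his.ppos j).le ?_
      split_ifs <;> norm_num
    have h1 : ∑ j, p j * JO β (n - m) (v o) (w j) ≤ et * S := by
      rw [hS, Finset.mul_sum]
      refine Finset.sum_le_sum fun j _ => ?_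
      rw [mul_left_comm]
      refine mul_le_mul_of_nonneg_left ?_ (his.ppos j).le
      refine (hOBO n (n - m) β (v o) (w j)).trans (mul_le_mul_of_nonneg_left ?_ het.le)
      split_ifs with h2 h3 h3
      · exact le_refl _
      · exact absurd (h2.trans hlevel) h3
      · exact zero_le_one
      · exact le_refl _
    have h2 : (n : ℝ) * (et * S) ≤ 64 * m * (et * S) :=
      mul_le_mul_of_nonneg_right hm2' (mul_nonneg het.le hS0)
    have h3 : (n : ℝ) * ∑ j, p j * JO β (n - m) (v o) (w j) ≤ n * (et * S) :=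
      mul_le_mul_of_nonneg_left h1 hnpos.le
    have h4 : et * (m * S) ≤ et * (16 * (D + 1)) := mul_le_mul_of_nonneg_left h het.le
    nlinarith
  have h5 : (n : ℝ) * ∑ j, p j * ∑ o, μ o * JO β (n - m) (v o) (w j) =
      ∑ o, μ o * ((n : ℝ) * ∑ j, p j * JO β (n - m) (v o) (w j)) := by
    simp only [Finset.mul_sum]
    rw [Finset.sum_comm]
    refine Finset.sum_congr rfl fun o _ => Finset.sum_congr rfl fun j _ => ?_
    ring
  rw [h5]
  calc ∑ o, μ o * ((n : ℝ) * ∑ j, p j * JO β (n - m) (v o) (w j))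
      ≤ ∑ o, μ o * (et * (1024 * (D + 1))) :=
        Finset.sum_le_sum fun o _ => mul_le_mul_of_nonneg_left (key o) (hrf.nn o)
    _ = et * (1024 * (D + 1)) := by rw [← Finset.sum_mul, hrf.sum, one_mul]

end PPG
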