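import Pool.Agent.PPG.Stmts

/-!
# PPG, module T4 (helper52): small jumps in a block
-/

set_option autoImplicit false

namespace PPG

open MeasureTheory Set Filter Topology
open PPI
open scoped Pointwise

namespace T4Aux

/-- `(1 + log (2y))² ≤ 16 √y` for `y ≥ 1` -/
theorem log_bound (y : ℝ) (hy : 1 ≤ y) :
    0 ≤ 1 + Real.log (2 * y) ∧ (1 + Real.log (2 * y)) ^ 2 ≤ 16 * √y := by
  have hy0 : 0 < y := by linarith
  have h1 : Real.log (2 * y) = Real.log 2 + Real.log y :=
    Real.log_mul (by norm_num) hy0.ne'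
  have hl2 : Real.log 2 < 1 := by
    have := Real.log_two_lt_d9
    linarith
  have hl20 : 0 < Real.log 2 := Real.log_pos (by norm_num)
  have hly : 0 ≤ Real.log y := Real.log_nonneg hy
  set z : ℝ := √(√y) with hz
  have hz0 : 0 < z := Real.sqrt_pos.mpr (Real.sqrt_pos.mpr hy0)
  have hz2 : z ^ 2 = √y := Real.sq_sqrt (Real.sqrt_nonneg _)
  have hz4 : z ^ 4 = y := by
    have : z ^ 4 = (z ^ 2) ^ 2 := by ring
    rw [this, hz2, Real.sq_sqrt hy0.le]
  have hlz : Real.log y = 4 * Real.log z := by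
    rw [← hz4, Real.log_pow]
    push_cast
    ring
  have hz1 : Real.log z ≤ z - 1 := Real.log_le_sub_one_of_pos hz0
  have hle : 1 + Real.log (2 * y) ≤ 4 * z := by
    rw [h1, hlz]
    linarith
  have hge : 0 ≤ 1 + Real.log (2 * y) := by
    rw [h1]
    linarith
  refine ⟨hge, ?_⟩
  rw [← hz2]
  nlinarith

/-- choice of the block of controlled indices -/
theorem select {κ : Type} [Fintype κ] (m M : ℝ) (hm : 0 ≤ m) (b : κ → ℝ) :
    ∃ s : Finset κ,
      (∀ l ∈ s, 3200 * (1 + Real.log (2 * M / s.card)) ≤ m * b l) ∧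
      (∀ k, k ∉ s → m * b k < 3200 * (1 + Real.log (2 * M /
        ((Finset.univ.filter fun l => b k ≤ b l).card : ℝ)))) := by
  classical
  set Ct : Finset κ := Finset.univ.filter (fun k => 3200 * (1 + Real.log (2 * M /
        ((Finset.univ.filter fun l => b k ≤ b l).card : ℝ))) ≤ m * b k) with hCt
  by_cases hne : Ct.Nonempty
  · obtain ⟨k, hk, hmin⟩ := Finset.exists_min_image Ct b hne
    refine ⟨Finset.univ.filter fun l => b k ≤ b l, ?_, ?_⟩
    · intro l hl
      have h1 : b k ≤ b l := (Finset.mem_filter.mp hl).2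
      have h2 := (Finset.mem_filter.mp hk).2
      exact le_trans h2 (mul_le_mul_of_nonneg_left h1 hm)
    · intro l hl
      by_contra hcon
      have h3 : l ∈ Ct := Finset.mem_filter.mpr ⟨Finset.mem_univ _, not_lt.mp hcon⟩
      exact hl (Finset.mem_filter.mpr ⟨Finset.mem_univ _, hmin l h3⟩)
  · refine ⟨∅, by simp, ?_⟩
    intro l _
    by_contra hcon
    exact hne ⟨l, Finset.mem_filter.mpr ⟨Finset.mem_univ _, not_lt.mp hcon⟩⟩

/-- the gain for one vector -/
theorem gain (B L : ℝ) (hB0 : 0 ≤ B) (hB1 : B ≤ 1) (hL : L ≤ B / 16) :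
    B / 4 ≤ 1 - √(1 - B) - √(L * B) := by
  have h1 : √(1 - B) ≤ 1 - B / 2 :=
    Real.sqrt_le_iff.mpr ⟨by linarith, by nlinarith [sq_nonneg B]⟩
  have h2 : √(L * B) ≤ B / 4 :=
    Real.sqrt_le_iff.mpr ⟨by linarith, by nlinarith⟩
  linarith

end T4Aux

open T4Aux

theorem t4_proof (hPSP : Stmt_PSP) (hTBS : Stmt_TBS) (hRNK : Stmt_RNK) : Stmt_T4 := by
  classical
  refine ⟨3200 ^ 2 * 32, by norm_num, ?_⟩
  intro n ι _ p w D v A β hn hIS hMI hv hβ
  have hn0 : (0 : ℝ) < n := by exact_mod_cast hn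
  have hD : 0 ≤ D + 1 := by
    have h := hTBS n 1 ι p w D (Fin 0) (fun k => k.elim0) (fun _ => ∅) hn le_rfl (by simp)
      hIS hMI
    have h0 : ∀ i, ‖psp (fun k : Fin 0 => (k.elim0 : EE n)) ∅ (w i)‖ ^ 2 = 0 := by
      intro i
      have h1 := (hPSP n (Fin 0) (fun k => k.elim0) ∅).2.2.2
        ⟨fun k => k.elim0, fun k => k.elim0⟩ (w i)
      rw [h1]
      simp
    simp only [h0] at h
    simpa using h
  by_cases hA : A.card = 0
  · have hA' : A = ∅ := Finset.card_eq_zero.mp hA
    subst hA'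
    have : 0 ≤ (n : ℝ) * β * (D + 1) := by positivity
    simpa using this
  · have hM : 1 ≤ A.card := Nat.one_le_iff_ne_zero.mpr hA
    set M : ℕ := A.card with hMdef
    have hM0 : (0 : ℝ) < M := by exact_mod_cast hM
    -- the vectors indexed by `A`
    set v' : A → EE n := fun k => v k with hv'
    have hv'o : Orthonormal ℝ v' := hv.comp _ Subtype.val_injective
    have hcard : Fintype.card A ≤ M := by simp [hMdef]
    have hsel : ∀ i, ∃ s : Finset A,
      (∀ l ∈ s, 3200 * (1 + Real.log (2 * M / s.card)) ≤ n * (inner ℝ (v' l) (w i)) ^ 2) ∧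
      (∀ k, k ∉ s → n * (inner ℝ (v' k) (w i)) ^ 2 < 3200 * (1 + Real.log (2 * M /
        ((Finset.univ.filter fun l => (inner ℝ (v' k) (w i)) ^ 2 ≤
          (inner ℝ (v' l) (w i)) ^ 2).card : ℝ)))) :=
      fun i => select (n : ℝ) (M : ℝ) hn0.le (fun l => (inner ℝ (v' l) (w i)) ^ 2)
    choose s hs1 hs2 using hsel
    have hB : ∀ i, ‖psp v' (s i) (w i)‖ ^ 2 = ∑ l ∈ s i, (inner ℝ (v' l) (w i)) ^ 2 :=
      fun i => (hPSP n A v' (s i)).2.2.2 hv'o (w i)
    have hB1 : ∀ i, ‖psp v' (s i) (w i)‖ ^ 2 ≤ 1 := by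
      intro i
      have h1 := (hPSP n A v' (s i)).1 (w i)
      rw [hIS.nrm i] at h1
      have h2 := norm_nonneg (psp v' (s i) (w i))
      nlinarith
    have hlev : ∀ i, lev n M (s i).card ≤ ‖psp v' (s i) (w i)‖ ^ 2 / 16 := by
      intro i
      rw [hB i]
      have h1 : ∑ _l ∈ s i, 3200 * (1 + Real.log (2 * M / (s i).card)) ≤
          ∑ l ∈ s i, n * (inner ℝ (v' l) (w i)) ^ 2 := Finset.sum_le_sum (hs1 i)
      rw [Finset.sum_const, nsmul_eq_mul, ← Finset.mul_sum] at h1
      unfold lev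
      rw [div_le_iff₀ hn0]
      linarith
    have hT := hTBS n M ι p w D A v' s hn hM hcard hIS hMI
    have hT2 : (n : ℝ) * ∑ i, p i * (‖psp v' (s i) (w i)‖ ^ 2 / 4) ≤ D + 1 := by
      refine le_trans ?_ hT
      refine mul_le_mul_of_nonneg_left ?_ hn0.le
      refine Finset.sum_le_sum ?_
      intro i _
      refine mul_le_mul_of_nonneg_left ?_ (hIS.ppos i).le
      exact gain _ _ (by positivity) (hB1 i) (hlev i)
    -- the estimate for one vector
    have hone : ∀ i, (n : ℝ) ^ 2 * ∑ k ∈ A, (if bb v (w i) k < β then bb v (w i) k ^ 2 else 0) ≤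
        n * β * (n * ‖psp v' (s i) (w i)‖ ^ 2) + 3200 ^ 2 * 32 * M := by
      intro i
      have e1 : ∑ k ∈ A, (if bb v (w i) k < β then bb v (w i) k ^ 2 else 0) =
          ∑ k : A, (if (inner ℝ (v' k) (w i)) ^ 2 < β then
            ((inner ℝ (v' k) (w i) : ℝ) ^ 2) ^ 2 else 0) := by
        rw [← Finset.sum_coe_sort A]
        rfl
      rw [e1, Finset.mul_sum]
      have hNpos : ∀ k : A, 1 ≤ ((Finset.univ.filter fun l => (inner ℝ (v' k) (w i)) ^ 2 ≤
          (inner ℝ (v' l) (w i)) ^ 2).card) := by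
        intro k
        refine Finset.card_pos.mpr ⟨k, ?_⟩
        simp
      have hNle : ∀ k : A, ((Finset.univ.filter fun l => (inner ℝ (v' k) (w i)) ^ 2 ≤
          (inner ℝ (v' l) (w i)) ^ 2).card) ≤ M := by
        intro k
        refine le_trans (Finset.card_filter_le _ _) ?_
        simp [hMdef]
      have hterm : ∀ k : A, (n : ℝ) ^ 2 * (if (inner ℝ (v' k) (w i)) ^ 2 < β then
            ((inner ℝ (v' k) (w i) : ℝ) ^ 2) ^ 2 else 0) ≤
          (if k ∈ s i then n * β * (n * (inner ℝ (v' k) (w i)) ^ 2) else 0) +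
            3200 ^ 2 * 16 * √(M : ℝ) * (1 / √((Finset.univ.filter fun l =>
              (inner ℝ (v' k) (w i)) ^ 2 ≤ (inner ℝ (v' l) (w i)) ^ 2).card : ℝ)) := by
        intro k
        set t : ℝ := (inner ℝ (v' k) (w i)) ^ 2 with ht
        have ht0 : 0 ≤ t := by positivity
        set N : ℕ := (Finset.univ.filter fun l => t ≤ (inner ℝ (v' l) (w i)) ^ 2).card with hN
        have hN1 : (1 : ℝ) ≤ N := by exact_mod_cast hNpos k
        have hNM : (N : ℝ) ≤ M := by exact_mod_cast hNle k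
        have hr0 : 0 ≤ 3200 ^ 2 * 16 * √(M : ℝ) * (1 / √(N : ℝ)) := by positivity
        by_cases hk : k ∈ s i
        · rw [if_pos hk]
          have : (n : ℝ) ^ 2 * (if t < β then t ^ 2 else 0) ≤ n * β * (n * t) := by
            split_ifs with h
            · have h3 : t * t ≤ β * t := mul_le_mul_of_nonneg_right h.le ht0
              have h4 : (0 : ℝ) ≤ (n : ℝ) ^ 2 := by positivity
              have h5 := mul_le_mul_of_nonneg_left h3 h4
              nlinarith [h5]
            · have : 0 ≤ (n : ℝ) * β * (n * t) := by positivity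
              simpa using this
          linarith
        · rw [if_neg hk, zero_add]
          have h1 := hs2 i k hk
          have hy : 1 ≤ (M : ℝ) / N := by
            rw [le_div_iff₀ (by linarith)]
            linarith
          obtain ⟨hb0, hb⟩ := log_bound ((M : ℝ) / N) hy
          have e2 : 2 * (M : ℝ) / N = 2 * ((M : ℝ) / N) := by ring
          have h1' : n * t < 3200 * (1 + Real.log (2 * ((M : ℝ) / N))) := by
            rw [← e2]
            exact h1
          have h2 : (n * t) ^ 2 ≤ (3200 * (1 + Real.log (2 * ((M : ℝ) / N)))) ^ 2 :=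
            pow_le_pow_left₀ (by positivity) h1'.le 2
          have h3 : √((M : ℝ) / N) = √(M : ℝ) * (1 / √(N : ℝ)) := by
            rw [Real.sqrt_div' _ (by linarith)]
            ring
          rw [h3] at hb
          have h4 : (n : ℝ) ^ 2 * (if t < β then t ^ 2 else 0) ≤ (n * t) ^ 2 := by
            split_ifs with h
            · exact le_of_eq (by ring)
            · have : 0 ≤ (n * t) ^ 2 := by positivity
              simpa using this
          nlinarith [h2, h4, hb]
      refine le_trans (Finset.sum_le_sum fun k _ => hterm k) ?_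
      rw [Finset.sum_add_distrib, ← Finset.mul_sum]
      have hR := hRNK A Finset.univ (fun l => (inner ℝ (v' l) (w i)) ^ 2)
      have hR' : ∑ k : A, 1 / √((Finset.univ.filter fun l =>
              (inner ℝ (v' k) (w i)) ^ 2 ≤ (inner ℝ (v' l) (w i)) ^ 2).card : ℝ) ≤
            2 * √(M : ℝ) := by
        have e3 : ((Finset.univ : Finset A).card : ℝ) = M := by simp [hMdef]
        rw [← e3]
        exact hR
      have hS : ∑ k : A, (if k ∈ s i then n * β * (n * (inner ℝ (v' k) (w i)) ^ 2) else 0) =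
          n * β * (n * ‖psp v' (s i) (w i)‖ ^ 2) := by
        rw [hB i, Finset.mul_sum, Finset.mul_sum, ← Finset.sum_filter]
        refine Finset.sum_congr ?_ (fun _ _ => rfl)
        ext k
        simp
      rw [hS]
      have hMs : √(M : ℝ) * √(M : ℝ) = M := Real.mul_self_sqrt hM0.le
      have h6 : 3200 ^ 2 * 16 * √(M : ℝ) * ∑ k : A, 1 / √((Finset.univ.filter fun l =>
              (inner ℝ (v' k) (w i)) ^ 2 ≤ (inner ℝ (v' l) (w i)) ^ 2).card : ℝ) ≤
            3200 ^ 2 * 16 * √(M : ℝ) * (2 * √(M : ℝ)) :=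
        mul_le_mul_of_nonneg_left hR' (by positivity)
      nlinarith [h6, hMs]
    have hsum : ∑ i, p i * ((n : ℝ) ^ 2 * ∑ k ∈ A,
        (if bb v (w i) k < β then bb v (w i) k ^ 2 else 0)) ≤
        ∑ i, p i * (n * β * (n * ‖psp v' (s i) (w i)‖ ^ 2) + 3200 ^ 2 * 32 * M) :=
      Finset.sum_le_sum fun i _ => mul_le_mul_of_nonneg_left (hone i) (hIS.ppos i).le
    refine le_trans hsum ?_
    have e4 : ∑ i, p i * (n * β * (n * ‖psp v' (s i) (w i)‖ ^ 2) + 3200 ^ 2 * 32 * M) =
        4 * (n * β) * (n * ∑ i, p i * (‖psp v' (s i) (w i)‖ ^ 2 / 4)) + 3200 ^ 2 * 32 * M := by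
      have e5 : ∀ i, p i * (n * β * (n * ‖psp v' (s i) (w i)‖ ^ 2) + 3200 ^ 2 * 32 * M) =
          4 * (n * β) * n * (p i * (‖psp v' (s i) (w i)‖ ^ 2 / 4)) +
            p i * (3200 ^ 2 * 32 * M) := by
        intro i
        ring
      simp_rw [e5]
      rw [Finset.sum_add_distrib, ← Finset.mul_sum, ← Finset.sum_mul, hIS.psum]
      ring
    rw [e4]
    have hnb : 0 ≤ (n : ℝ) * β := by positivity
    have h7 : 4 * ((n : ℝ) * β) * (n * ∑ i, p i * (‖psp v' (s i) (w i)‖ ^ 2 / 4)) ≤
        4 * (n * β) * (D + 1) := mul_le_mul_of_nonneg_left hT2 (by positivity)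
    have h8 : 0 ≤ (n : ℝ) * β * (D + 1) := mul_nonneg hnb hD
    nlinarith [h7, h8]

end PPG
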