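import Pool.Agent.PPG.Stmts

/-!
# Squad PPG (MP_0bf616_gt), module TAI: the expectation of the tails.
-/

set_option autoImplicit false

namespace PPG

open PPI

theorem tai_tl_zero {m n : ℕ} (v : Fin m → EE n) (x : EE n) :
    tl v x 0 = ∑ k, bb v x k := by
  unfold tl
  exact Finset.sum_congr rfl (fun l _ => by simp)

theorem tai_tl_succ {m n : ℕ} (v : Fin m → EE n) (x : EE n) (k : ℕ) (hk : k < m) :
    tl v x k = bb v x ⟨k, hk⟩ + tl v x (k + 1) := by
  unfold tl
  have h1 : bb v x ⟨k, hk⟩ = ∑ l : Fin m, if l = ⟨k, hk⟩ then bb v x l else 0 := by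
    simp
  rw [h1, ← Finset.sum_add_distrib]
  refine Finset.sum_congr rfl (fun l _ => ?_)
  by_cases h : l = ⟨k, hk⟩
  · subst h
    simp
  · have hne : (l : ℕ) ≠ k := fun h' => h (Fin.ext h')
    by_cases h2 : k ≤ (l : ℕ)
    · have h3 : k + 1 ≤ (l : ℕ) := by omega
      simp [h, h2, h3]
    · have h3 : ¬ (k + 1 ≤ (l : ℕ)) := by omega
      simp [h, h2, h3]

theorem tai_proof (hWSM : Stmt_WSM) (hONB : Stmt_ONB) (hMGP : Stmt_MGP) : Stmt_TAI := by
  intro n m ι _ p w P x k hn hIS hPR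
  induction k with
  | zero =>
    intro _
    have hs := (hWSM n m ι p w P hn hIS hPR).2
    have h1 : ∑ f, Wt p w m P f * tl (fg w m P f) x 0 = ∑ f, Wt p w m P f * ‖P x‖ ^ 2 := by
      refine Finset.sum_congr rfl (fun f _ => ?_)
      by_cases hf : Wt p w m P f = 0
      · rw [hf]; ring
      · rw [tai_tl_zero, (hONB n m ι p w P f hPR hf).2.2 x]
    rw [h1, ← Finset.sum_mul, hs]
    push_cast
    ring
  | succ k ih =>
    intro hk
    have hk' : k < m := by omega
    have hE := ih hk'.le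
    have hM := hMGP n m ι p w P x ⟨k, hk'⟩ (fun _ => 1) hn hIS hPR
    simp only [one_mul] at hM
    have hsplit : ∑ f, Wt p w m P f * tl (fg w m P f) x k =
        ∑ f, Wt p w m P f * bb (fg w m P f) x ⟨k, hk'⟩ +
          ∑ f, Wt p w m P f * tl (fg w m P f) x (k + 1) := by
      rw [← Finset.sum_add_distrib]
      refine Finset.sum_congr rfl (fun f _ => ?_)
      rw [tai_tl_succ _ _ k hk']
      ring
    set E := ∑ f, Wt p w m P f * tl (fg w m P f) x k with hEdef
    set E' := ∑ f, Wt p w m P f * tl (fg w m P f) x (k + 1) with hE'def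
    set B := ∑ f, Wt p w m P f * bb (fg w m P f) x ⟨k, hk'⟩ with hBdef
    have hpos : (0 : ℝ) < (m : ℝ) - k := by
      have : (k : ℝ) < m := by exact_mod_cast hk'
      linarith
    have hM' : ((m : ℝ) - k) * B = E := hM
    have h2 : ((m : ℝ) - k) * (m * E') = ((m : ℝ) - k) * (((m : ℝ) - (k + 1 : ℕ)) * ‖P x‖ ^ 2) := by
      push_cast
      have e1 : E' = E - B := by linarith
      linear_combination (((m : ℝ) - k) * m) * e1 - (m : ℝ) * hM' + ((m : ℝ) - k - 1) * hE
    exact mul_left_cancel₀ hpos.ne' h2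

end PPG
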