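import Pool.Agent.PPG.Stmts

set_option autoImplicit false

namespace PPG

open MeasureTheory Set Filter Topology
open PPI
open scoped Pointwise

namespace TBC_

lemma lev_nonneg (n M j : ℕ) (hjM : j ≤ M) : 0 ≤ lev n M j := by
  unfold lev
  rcases Nat.eq_zero_or_pos j with hj | hj
  · subst hj; simp
  · have hj' : (0 : ℝ) < j := by exact_mod_cast hj
    have hM : (j : ℝ) ≤ M := by exact_mod_cast hjM
    have h1 : (1 : ℝ) ≤ 2 * M / j := by
      rw [le_div_iff₀ hj']
      linarith
    have h2 := Real.log_nonneg h1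
    positivity

end TBC_

open TBC_ in
theorem tbc_proof : Stmt_TBC := by
  intro n M κ _ v hn hM
  have hset : TB M v = Bn n ∩ ⋂ s : Finset κ, {x | ‖psp v s x‖ ^ 2 ≤ lev n M s.card} := by
    ext x
    simp [TB]
  have hcard : ∀ s : Finset κ, s.card ≤ M := fun s => (Finset.card_le_univ s).trans hM
  have hclosed : ∀ s : Finset κ, IsClosed {x : EE n | ‖psp v s x‖ ^ 2 ≤ lev n M s.card} := by
    intro s
    exact isClosed_le ((psp v s).continuous.norm.pow 2) continuous_const
  have hconv : ∀ s : Finset κ, Convex ℝ {x : EE n | ‖psp v s x‖ ^ 2 ≤ lev n M s.card} := by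
    intro s
    have : {x : EE n | ‖psp v s x‖ ^ 2 ≤ lev n M s.card}
        = (psp v s) ⁻¹' Metric.closedBall 0 (√(lev n M s.card)) := by
      ext x
      simp only [Set.mem_setOf_eq, Set.mem_preimage, Metric.mem_closedBall, dist_zero_right]
      exact (Real.le_sqrt (norm_nonneg _) (lev_nonneg n M _ (hcard s))).symm
    rw [this]
    exact (convex_closedBall _ _).linear_preimage (psp v s).toLinearMap
  refine ⟨?_, ?_, ?_⟩
  · rw [hset]
    refine IsCompact.inter_right ?_ (isClosed_iInter hclosed)
    exact isCompact_closedBall _ _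
  · rw [hset]
    refine Convex.inter ?_ (convex_iInter hconv)
    exact convex_closedBall _ _
  · rw [hset]
    refine ⟨?_, ?_⟩
    · show (0 : EE n) ∈ Metric.closedBall _ _
      simp
    · rw [Set.mem_iInter]
      intro s
      simp only [Set.mem_setOf_eq, map_zero, norm_zero, ne_eq, OfNat.ofNat_ne_zero,
        not_false_eq_true, zero_pow]
      exact lev_nonneg n M _ (hcard s)

end PPG
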