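import Pool.Agent.PPG.Stmts

set_option autoImplicit false

namespace PPG

open MeasureTheory Set Filter Topology
open PPI
open scoped Pointwise

namespace TBS_

lemma pow_le_exp (n : ℕ) (z : ℝ) (hz : 0 ≤ 1 - z) :
    (1 - z) ^ n ≤ Real.exp (-(n * z)) := by
  have h1 : 1 - z ≤ Real.exp (-z) := by
    have := Real.add_one_le_exp (-z)
    linarith
  calc (1 - z) ^ n ≤ (Real.exp (-z)) ^ n := pow_le_pow_left₀ hz h1 n
    _ = Real.exp (-(n * z)) := by
        rw [← Real.exp_nat_mul]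
        congr 1
        ring

lemma log_two_le_one : Real.log 2 ≤ 1 := by
  have := Real.log_two_lt_d9
  linarith

end TBS_

theorem tbs_proof (hPSP : Stmt_PSP) (hTBV : Stmt_TBV) (hTBC : Stmt_TBC)
    (hAVE : PPI.Stmt_AVE) : Stmt_TBS := by
  intro n M ι _ p w D κ _ v s hn hM hcard hIS hMI
  obtain ⟨hkap, -⟩ := hAVE n hn
  obtain ⟨hcpt, hcvx, h0⟩ := hTBC n M κ v hn hcard
  have hvol := hTBV n M κ v hn hM hcard
  set y : ι → ℝ := fun i => ‖psp v (s i) (w i)‖ ^ 2 with hy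
  set l : ι → ℝ := fun i => lev n M (s i).card with hl
  set c : ι → ℝ := fun i => √(1 - y i) + √(l i * y i) with hc
  have hsupp : ∀ i, ∀ x ∈ TB M v, inner ℝ (w i) x ≤ c i := by
    intro i x hx
    obtain ⟨hxB, hxs⟩ := hx
    have hx1 : ‖x‖ ≤ 1 := by simpa [Bn] using hxB
    obtain ⟨hle, hin, -, -⟩ := hPSP n κ v (s i)
    have h1 := hin (w i) x
    have hw1 : ‖w i‖ = 1 := hIS.nrm i
    rw [hw1] at h1
    have h2 : ‖psp v (s i) x‖ ^ 2 ≤ l i := hxs (s i)
    have h3 : ‖psp v (s i) (w i)‖ * ‖psp v (s i) x‖ ≤ √(l i * y i) := by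
      apply Real.le_sqrt_of_sq_le
      rw [mul_pow]
      have : 0 ≤ ‖psp v (s i) (w i)‖ ^ 2 := sq_nonneg _
      calc ‖psp v (s i) (w i)‖ ^ 2 * ‖psp v (s i) x‖ ^ 2
          ≤ ‖psp v (s i) (w i)‖ ^ 2 * l i := mul_le_mul_of_nonneg_left h2 this
        _ = l i * y i := by rw [hy]; ring
    have h4 : √(1 ^ 2 - ‖psp v (s i) (w i)‖ ^ 2) * √(‖x‖ ^ 2 - ‖psp v (s i) x‖ ^ 2)
        ≤ √(1 - y i) := by
      have h5 : √(‖x‖ ^ 2 - ‖psp v (s i) x‖ ^ 2) ≤ 1 := by
        rw [show (1 : ℝ) = √1 from Real.sqrt_one.symm]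
        apply Real.sqrt_le_sqrt
        have h7 : ‖x‖ ^ 2 ≤ 1 := by nlinarith [norm_nonneg x]
        have h8 : 0 ≤ ‖psp v (s i) x‖ ^ 2 := sq_nonneg _
        linarith
      have h6 : √((1 : ℝ) ^ 2 - ‖psp v (s i) (w i)‖ ^ 2) = √(1 - y i) := by
        rw [hy]; norm_num
      rw [h6]
      calc √(1 - y i) * √(‖x‖ ^ 2 - ‖psp v (s i) x‖ ^ 2) ≤ √(1 - y i) * 1 :=
            mul_le_mul_of_nonneg_left h5 (Real.sqrt_nonneg _)
        _ = √(1 - y i) := mul_one _
    rw [hc]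
    simp only
    linarith
  obtain ⟨hnn, hMK⟩ := hMI (TB M v) c hcpt hcvx ⟨0, h0⟩ hsupp
  set z : ℝ := ∑ i, p i * (1 - √(1 - y i) - √(l i * y i)) with hz
  have hsum : ∑ i, p i * c i = 1 - z := by
    have e1 : ∑ i, p i * c i + z = ∑ i, p i := by
      rw [hz, ← Finset.sum_add_distrib]
      apply Finset.sum_congr rfl
      intro i _
      rw [hc]
      ring
    rw [hIS.psum] at e1
    linarith
  rw [hsum] at hnn hMK
  have h1 : kap n / 2 ≤ kap n * Real.exp D * (1 - z) ^ n := le_trans hvol hMK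
  have h2 : (1 - z) ^ n ≤ Real.exp (-(n * z)) := TBS_.pow_le_exp n z hnn
  have h3 : kap n / 2 ≤ kap n * Real.exp (D - n * z) := by
    calc kap n / 2 ≤ kap n * Real.exp D * (1 - z) ^ n := h1
      _ ≤ kap n * Real.exp D * Real.exp (-(n * z)) := by
          apply mul_le_mul_of_nonneg_left h2
          exact mul_nonneg hkap.le (Real.exp_pos _).le
      _ = kap n * Real.exp (D - n * z) := by
          rw [mul_assoc, ← Real.exp_add, sub_eq_add_neg]
  have h4 : (1 / 2 : ℝ) ≤ Real.exp (D - n * z) := by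
    have : kap n * (1 / 2) ≤ kap n * Real.exp (D - n * z) := by linarith
    exact le_of_mul_le_mul_left this hkap
  have h5 : Real.log (1 / 2) ≤ D - n * z := by
    rw [Real.log_le_iff_le_exp (by norm_num)]
    exact h4
  have h6 : Real.log (1 / 2 : ℝ) = - Real.log 2 := by
    rw [one_div, Real.log_inv]
  rw [h6] at h5
  have h7 := TBS_.log_two_le_one
  linarith

end PPG
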