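import Pool.Agent.PPG.Stmts

/-!
# Squad PPG (MP_0bf616_gt), module TBV: volume of the test body
-/

set_option autoImplicit false

namespace PPG

open MeasureTheory Set Filter Topology
open PPI
open scoped Pointwise

namespace TBV_

/-- `Λ_j = 1 + log (2 M / j)` -/
noncomputable def La (M j : ℕ) : ℝ := 1 + Real.log (2 * M / j)

lemma La_ge {M j : ℕ} (hj : 1 ≤ j) (hjM : j ≤ M) : 1 + Real.log 2 ≤ La M j := by
  unfold La
  have hj0 : (0 : ℝ) < j := by exact_mod_cast hj
  have hjM' : (j : ℝ) ≤ M := by exact_mod_cast hjM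
  have : (2 : ℝ) ≤ 2 * M / j := by
    rw [le_div_iff₀ hj0]
    linarith
  have := Real.log_le_log (by norm_num) this
  linarith

lemma choose_le {N M j : ℕ} (hj : 1 ≤ j) (hN : N ≤ M) (hjM : j ≤ M) :
    ((N.choose j : ℕ) : ℝ) ≤ Real.exp (j * La M j) := by
  have hj0 : (0 : ℝ) < j := by exact_mod_cast hj
  have hM0 : (0 : ℝ) < M := by
    have : 1 ≤ M := hj.trans hjM
    exact_mod_cast this
  have h1 : ((N.choose j : ℕ) : ℝ) ≤ (N : ℝ) ^ j / j.factorial := Nat.choose_le_pow_div j N
  have h2 : (N : ℝ) ^ j ≤ (M : ℝ) ^ j := pow_le_pow_left₀ (by positivity) (by exact_mod_cast hN) j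
  have h3 : (j : ℝ) ^ j / j.factorial ≤ Real.exp j := Real.pow_div_factorial_le_exp j hj0.le j
  have h4 : (M : ℝ) ^ j / j.factorial ≤ Real.exp j * ((M : ℝ) / j) ^ j := by
    have e : (M : ℝ) ^ j / j.factorial = ((j : ℝ) ^ j / j.factorial) * ((M : ℝ) / j) ^ j := by
      rw [div_pow]
      field_simp
    rw [e]
    exact mul_le_mul_of_nonneg_right h3 (by positivity)
  have h5 : Real.exp j * ((M : ℝ) / j) ^ j ≤ Real.exp (j * La M j) := by
    have e : ((M : ℝ) / j) ^ j = Real.exp (j * Real.log (M / j)) := by
      rw [mul_comm, Real.exp_mul, Real.exp_log (by positivity), Real.rpow_natCast]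
    rw [e, ← Real.exp_add]
    apply Real.exp_le_exp.mpr
    have h6 : Real.log ((M : ℝ) / j) ≤ Real.log (2 * M / j) := by
      apply Real.log_le_log (by positivity)
      gcongr
      linarith
    unfold La
    nlinarith
  calc ((N.choose j : ℕ) : ℝ) ≤ (N : ℝ) ^ j / j.factorial := h1
    _ ≤ (M : ℝ) ^ j / j.factorial := by gcongr
    _ ≤ _ := h4
    _ ≤ _ := h5

lemma markov {n : ℕ} (hA : PPI.Stmt_AVE) (hn : 1 ≤ n) {g : EE n → ℝ} (hg : Continuous g)
    (hg0 : ∀ x, 0 ≤ g x) {a b : ℝ} (ha : 0 < a) (hb : ave g ≤ b) {S : Set (EE n)}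
    (hS : S ⊆ {x | x ∈ Bn n ∧ a ≤ g x}) : a * vl S ≤ kap n * b := by
  have hk : 0 < kap n := (hA n hn).1
  have hint : IntegrableOn g (Bn n) := (hA n hn).2.1 g hg
  have h1 := mul_meas_ge_le_integral_of_nonneg (μ := volume.restrict (Bn n))
    (Filter.Eventually.of_forall hg0) hint a
  have h2 : ∫ x in Bn n, g x ≤ kap n * b := by
    unfold ave at hb
    rw [div_le_iff₀ hk] at hb
    linarith
  have h3 : vl S ≤ (volume.restrict (Bn n)).real {x | a ≤ g x} := by
    unfold vl Measure.real
    apply ENNReal.toReal_mono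
    · exact (lt_of_le_of_lt (measure_mono (Set.subset_univ _)) (by
        rw [Measure.restrict_apply_univ]
        exact measure_closedBall_lt_top)).ne
    · have hm : MeasurableSet {x | a ≤ g x} := (isClosed_le continuous_const hg).measurableSet
      rw [Measure.restrict_apply hm]
      apply measure_mono
      intro x hx
      exact ⟨(hS hx).2, (hS hx).1⟩
  calc a * vl S ≤ a * (volume.restrict (Bn n)).real {x | a ≤ g x} :=
        mul_le_mul_of_nonneg_left h3 ha.le
    _ ≤ _ := h1
    _ ≤ _ := h2

end TBV_

open TBV_ in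
theorem tbv_proof (h1 : Stmt_PSM) (h2 : PPI.Stmt_AVE) : Stmt_TBV := by
  classical
  intro n M κ _ v hn hM hcard
  have hk : 0 < kap n := (h2 n hn).1
  have hnp : (0 : ℝ) < n := by exact_mod_cast hn
  -- the bad sets
  set Bad : Finset κ → Set (EE n) := fun s => {x | x ∈ Bn n ∧ lev n M s.card < ‖psp v s x‖ ^ 2}
    with hBad
  set F : ℕ → ℝ := fun j => if j = 0 then 0 else Real.exp (-(3 * (j * La M j))) with hF
  have hbad : ∀ s : Finset κ, vl (Bad s) ≤ kap n * F s.card := by
    intro s
    rcases Nat.eq_zero_or_pos s.card with h0 | hpos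
    · have hs : s = ∅ := Finset.card_eq_zero.mp h0
      have : Bad s = ∅ := by
        ext x
        simp only [hBad, Set.mem_ofPred_eq, Set.mem_empty_iff_false, iff_false, not_and, not_lt]
        intro _
        subst hs
        have e1 : psp v (∅ : Finset κ) x = 0 := by
          unfold psp
          simp
        rw [e1]
        simp [lev]
      rw [this]
      simp [vl, hF, h0]
    · set j := s.card with hj
      have hj1 : 1 ≤ j := hpos
      have hjM : j ≤ M := (Finset.card_le_univ s).trans hcard
      have hj0 : (0 : ℝ) < j := by exact_mod_cast hj1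
      have hLa := La_ge hj1 hjM
      have hlog2 : (0.69 : ℝ) < Real.log 2 := by
        have := Real.log_two_gt_d9
        linarith
      have hjL : (1.69 : ℝ) * j ≤ j * La M j := by nlinarith
      have hj1' : (1 : ℝ) ≤ j := by exact_mod_cast hj1
      set q := ⌈(j : ℝ) * La M j⌉₊ with hq
      have hq1 : (j : ℝ) * La M j ≤ q := Nat.le_ceil _
      have hq2 : (q : ℝ) < j * La M j + 1 := Nat.ceil_lt_add_one (by nlinarith)
      have hq0 : 1 ≤ q := by
        rw [Nat.one_le_iff_ne_zero]
        intro h
        rw [h] at hq1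
        push_cast at hq1
        nlinarith
      have hlev : lev n M j = 200 * (j * La M j) / n := by
        unfold lev La
        ring
      have hlev0 : 0 < lev n M j := by
        rw [hlev]
        have : 0 < (j : ℝ) * La M j := by nlinarith
        positivity
      have hm := h1 n q κ v s hn hq0
      have hm2 : ave (fun x => ‖psp v s x‖ ^ (2 * q)) ≤ (lev n M j / 40) ^ q := by
        refine hm.trans (pow_le_pow_left₀ (by positivity) ?_ q)
        rw [hlev, ← hj, div_le_div_iff₀ hnp (by norm_num), div_mul_eq_mul_div, le_div_iff₀ hnp]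
        nlinarith
      have hmk := markov h2 hn (g := fun x => ‖psp v s x‖ ^ (2 * q)) (by fun_prop)
        (fun x => by positivity) (a := lev n M j ^ q) (by positivity) hm2 (S := Bad s) (by
          intro x hx
          refine ⟨hx.1, ?_⟩
          change lev n M j ^ q ≤ ‖psp v s x‖ ^ (2 * q)
          rw [pow_mul]
          exact pow_le_pow_left₀ hlev0.le hx.2.le q)
      have hv : vl (Bad s) ≤ kap n * (1 / 40) ^ q := by
        have e2 : (lev n M j / 40) ^ q = lev n M j ^ q * (1 / 40) ^ q := by
          rw [← mul_pow]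
          ring_nf
        rw [e2] at hmk
        have e3 : lev n M j ^ q * vl (Bad s) ≤ lev n M j ^ q * (kap n * (1 / 40) ^ q) := by
          calc _ ≤ _ := hmk
            _ = _ := by ring
        exact le_of_mul_le_mul_left e3 (by positivity)
      refine hv.trans (mul_le_mul_of_nonneg_left ?_ hk.le)
      have e4 : (1 / 40 : ℝ) ≤ Real.exp (-3) := by
        rw [Real.exp_neg, one_div]
        apply inv_anti₀ (Real.exp_pos _)
        have h9 := Real.exp_one_lt_d9
        have : Real.exp 3 = Real.exp 1 ^ 3 := by
          rw [← Real.exp_nat_mul]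
          norm_num
        rw [this]
        calc Real.exp 1 ^ 3 ≤ (2.7182818286 : ℝ) ^ 3 :=
              pow_le_pow_left₀ (Real.exp_pos _).le h9.le 3
          _ ≤ 40 := by norm_num
      calc (1 / 40 : ℝ) ^ q ≤ Real.exp (-3) ^ q := pow_le_pow_left₀ (by norm_num) e4 q
        _ = Real.exp (-(3 * q)) := by
          rw [← Real.exp_nat_mul]
          ring_nf
        _ ≤ Real.exp (-(3 * (j * La M j))) := by
          apply Real.exp_le_exp.mpr
          linarith
        _ = F j := by
          simp only [hF]
          rw [if_neg (by omega)]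
  -- the sum
  have hsum : ∑ s : Finset κ, F s.card ≤ 1 / 2 := by
    have e5 : ∑ s : Finset κ, F s.card =
        ∑ j ∈ Finset.range (Fintype.card κ + 1), ((Fintype.card κ).choose j : ℝ) * F j := by
      have := Finset.sum_powerset_apply_card F (x := (Finset.univ : Finset κ))
      rw [Finset.powerset_univ] at this
      rw [this]
      simp [nsmul_eq_mul, Finset.card_univ]
    rw [e5]
    have e6 : ∀ j ∈ Finset.range (Fintype.card κ + 1),
        ((Fintype.card κ).choose j : ℝ) * F j ≤ if j = 0 then 0 else (1 / 4 : ℝ) ^ j := by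
      intro j hj
      rw [Finset.mem_range] at hj
      by_cases h0 : j = 0
      · simp [hF, h0]
      · have hj1 : 1 ≤ j := Nat.one_le_iff_ne_zero.mpr h0
        have hjM : j ≤ M := by omega
        have hj0 : (0 : ℝ) < j := by exact_mod_cast hj1
        rw [if_neg h0]
        simp only [hF]
        rw [if_neg h0]
        have hc := choose_le hj1 hcard hjM
        have hLa := La_ge hj1 hjM
        calc ((Fintype.card κ).choose j : ℝ) * Real.exp (-(3 * (j * La M j)))
            ≤ Real.exp (j * La M j) * Real.exp (-(3 * (j * La M j))) :=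
              mul_le_mul_of_nonneg_right hc (Real.exp_pos _).le
          _ = Real.exp (-(2 * (j * La M j))) := by
              rw [← Real.exp_add]
              ring_nf
          _ ≤ Real.exp (-(2 * (j * Real.log 2))) := by
              apply Real.exp_le_exp.mpr
              nlinarith
          _ = (1 / 4 : ℝ) ^ j := by
              have : -(2 * (j * Real.log 2)) = j * (-(Real.log 2 + Real.log 2)) := by ring
              rw [this, Real.exp_nat_mul, Real.exp_neg, Real.exp_add,
                Real.exp_log (by norm_num)]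
              norm_num
    refine (Finset.sum_le_sum e6).trans ?_
    have e7 : ∀ N : ℕ, ∑ j ∈ Finset.range (N + 1), (if j = 0 then 0 else (1 / 4 : ℝ) ^ j) ≤
        1 / 2 - (1 / 4) ^ N / 3 := by
      intro N
      induction N with
      | zero => norm_num
      | succ N ih =>
        rw [Finset.sum_range_succ, if_neg (by omega)]
        have : (1 / 4 : ℝ) ^ (N + 1) = (1 / 4) ^ N / 4 := by
          rw [pow_succ]
          ring
        rw [this]
        linarith
    have e8 := e7 (Fintype.card κ)
    have : (0 : ℝ) ≤ (1 / 4) ^ (Fintype.card κ) / 3 := by positivity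
    linarith
  -- union bound
  have hcov : Bn n ⊆ TB M v ∪ ⋃ s ∈ (Finset.univ : Finset (Finset κ)), Bad s := by
    intro x hx
    by_cases h : x ∈ TB M v
    · exact Or.inl h
    · right
      have : ∃ s : Finset κ, lev n M s.card < ‖psp v s x‖ ^ 2 := by
        by_contra hcon
        push Not at hcon
        exact h ⟨hx, hcon⟩
      obtain ⟨s, hs⟩ := this
      simp only [Set.mem_iUnion]
      exact ⟨s, Finset.mem_univ _, hx, hs⟩
  have hTBfin : volume (TB M v) ≠ ⊤ :=
    ((measure_mono (fun x hx => hx.1)).trans_lt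
      (measure_closedBall_lt_top (x := (0 : EE n)) (r := 1))).ne
  have hBadfin : ∀ s, volume (Bad s) ≠ ⊤ := fun s =>
    ((measure_mono (fun x hx => hx.1)).trans_lt
      (measure_closedBall_lt_top (x := (0 : EE n)) (r := 1))).ne
  have hmain : kap n ≤ vl (TB M v) + ∑ s : Finset κ, vl (Bad s) := by
    have e9 : volume (Bn n) ≤ volume (TB M v) + ∑ s : Finset κ, volume (Bad s) :=
      (measure_mono hcov).trans ((measure_union_le _ _).trans
        (add_le_add le_rfl (measure_biUnion_finset_le _ _)))
    have e10 : ∑ s : Finset κ, volume (Bad s) ≠ ⊤ :=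
      ENNReal.sum_ne_top.mpr fun s _ => hBadfin s
    have e11 := ENNReal.toReal_mono (ENNReal.add_ne_top.mpr ⟨hTBfin, e10⟩) e9
    rw [ENNReal.toReal_add hTBfin e10, ENNReal.toReal_sum fun s _ => hBadfin s] at e11
    exact e11
  have e12 : ∑ s : Finset κ, vl (Bad s) ≤ kap n * (1 / 2) := by
    calc ∑ s : Finset κ, vl (Bad s) ≤ ∑ s : Finset κ, kap n * F s.card :=
          Finset.sum_le_sum fun s _ => hbad s
      _ = kap n * ∑ s : Finset κ, F s.card := by rw [Finset.mul_sum]
      _ ≤ _ := mul_le_mul_of_nonneg_left hsum hk.le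
  linarith

end PPG
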