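import Pool.Agent.PPG.Stmts

set_option autoImplicit false

namespace PPG

open MeasureTheory Set Filter Topology
open PPI
open scoped Pointwise

theorem tri_proof (hUPD : Stmt_UPD) (hONB : Stmt_ONB) : Stmt_TRI := by
  intro n m ι _ p w
  induction m with
  | zero =>
    intro P f hP _
    refine ⟨fun k => k.elim0, ?_⟩
    simp [Wt]
  | succ m ih =>
    intro P f hP hW
    have hW' : ((n : ℝ) / ((m : ℝ) + 1) * (p (f 0) * ‖P (w (f 0))‖ ^ 2)) *
      Wt p w m (upd P (w (f 0))) (Fin.tail f) ≠ 0 := hW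
    have h1 : P (w (f 0)) ≠ 0 := by
      intro h0
      apply hW'
      rw [h0]
      simp
    have h2 : Wt p w m (upd P (w (f 0))) (Fin.tail f) ≠ 0 := right_ne_zero_of_mul hW'
    obtain ⟨u1, u2, u3, u4⟩ := hUPD n m P (w (f 0)) hP
    obtain ⟨v1, v2, v3, v4, v5, v6, v7⟩ := u4 h1
    obtain ⟨a1, a2, a3⟩ := hONB n m ι p w (upd P (w (f 0))) (Fin.tail f) v1 h2
    obtain ⟨b1, b2⟩ := ih (upd P (w (f 0))) (Fin.tail f) v1 h2
    have hfg : fg w (m + 1) P f = Fin.cons (dir P (w (f 0)))
      (fg w m (upd P (w (f 0))) (Fin.tail f)) := rfl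
    have hdir : P (w (f 0)) = ‖P (w (f 0))‖ • dir P (w (f 0)) := by
      unfold dir
      rw [smul_smul, mul_inv_cancel₀ (norm_ne_zero_iff.mpr h1), one_smul]
    refine ⟨?_, ?_⟩
    · intro k l hkl
      rw [hfg]
      revert hkl
      refine Fin.cases ?_ (fun j => ?_) k
      · refine Fin.cases ?_ (fun j' => ?_) l
        · intro h; exact absurd h (lt_irrefl _)
        · intro _
          rw [Fin.cons_succ, ← a2 j', ← v5, ← hP.sym, hdir, inner_smul_left, v6]
          simp
      · refine Fin.cases ?_ (fun j' => ?_) l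
        · intro h; exact absurd h (Fin.not_lt_zero _)
        · intro h
          rw [Fin.cons_succ]
          exact b1 j j' (Fin.succ_lt_succ_iff.mp h)
    · have h3 : Wt p w (m + 1) P f = ((n : ℝ) / ((m : ℝ) + 1) * (p (f 0) * ‖P (w (f 0))‖ ^ 2)) *
        Wt p w m (upd P (w (f 0))) (Fin.tail f) := rfl
      rw [h3, b2, hfg, Fin.prod_univ_succ, Fin.prod_univ_succ, Fin.cons_zero, v7,
        Nat.factorial_succ]
      have h4 : ∀ k : Fin m, (Fin.cons (dir P (w (f 0)))
          (fg w m (upd P (w (f 0))) (Fin.tail f)) : Fin (m + 1) → EE n) k.succ =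
          fg w m (upd P (w (f 0))) (Fin.tail f) k := fun k => rfl
      have h5 : ∀ k : Fin m, Fin.tail f k = f k.succ := fun k => rfl
      simp only [h4, h5]
      push_cast
      have h6 : (m.factorial : ℝ) ≠ 0 := by exact_mod_cast m.factorial_ne_zero
      have h7 : (m : ℝ) + 1 ≠ 0 := by positivity
      field_simp
      ring

end PPG
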