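import Pool.Agent.PPG.Stmts

namespace PPG

theorem ttf_proof : Stmt_TTF := by
  intro t b hb hbt
  have ht : 0 ≤ t := hb.trans hbt
  rcases ht.eq_or_lt with h0 | h0
  · have hb0 : b = 0 := le_antisymm (by linarith) hb
    subst hb0
    rw [← h0]
    simp [TT]
  rcases hbt.eq_or_lt with h1 | h1
  · subst h1
    refine ⟨?_, ?_, ?_⟩ <;> simp [TT]
    · exact hb
    · exact le_of_eq (by ring)
  have hd : 0 < t - b := by linarith
  have hy : 0 < (t - b) / t := by positivity
  have e1 : Real.log ((t - b) / t) ≤ (t - b) / t - 1 := Real.log_le_sub_one_of_pos hy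
  have e2 : 1 - ((t - b) / t)⁻¹ ≤ Real.log ((t - b) / t) := Real.one_sub_inv_le_log_of_pos hy
  have e3 : (t - b) / t - 1 = -(b / t) := by field_simp; ring
  have e4 : 1 - ((t - b) / t)⁻¹ = -(b / (t - b)) := by
    rw [inv_div]; field_simp; ring
  rw [e3] at e1
  rw [e4] at e2
  have e5 : (t - b) * Real.log ((t - b) / t) ≤ (t - b) * (-(b / t)) :=
    mul_le_mul_of_nonneg_left e1 hd.le
  have e6 : (t - b) * (-(b / (t - b))) ≤ (t - b) * Real.log ((t - b) / t) :=
    mul_le_mul_of_nonneg_left e2 hd.le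
  have e7 : (t - b) * (-(b / (t - b))) = -b := by field_simp
  have e8 : (t - b) * (-(b / t)) ≤ 0 := by
    have : 0 ≤ b / t := by positivity
    nlinarith
  have e9 : t * ((t - b) * (-(b / t))) = -((t - b) * b) := by field_simp
  have e10 : t * ((t - b) * Real.log ((t - b) / t)) ≤ t * ((t - b) * (-(b / t))) :=
    mul_le_mul_of_nonneg_left e5 ht
  unfold TT
  refine ⟨by linarith, by linarith, ?_⟩
  rw [mul_add]
  nlinarith

end PPG
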