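import Pool.Agent.PPG.Stmts

set_option autoImplicit false

/-!
# Squad PPG (MP_0bf616_gt): module TUB
-/

namespace PPG

open MeasureTheory Set Filter Topology
open PPI
open scoped Pointwise

namespace TUB_

theorem vl_smul {n : ℕ} (c : ℝ) (hc : 0 ≤ c) (S : Set (EE n)) : vl (c • S) = c ^ n * vl S := by
  unfold vl
  rw [MeasureTheory.Measure.addHaar_smul, ENNReal.toReal_mul, finrank_euclideanSpace_fin,
    abs_of_nonneg (pow_nonneg hc n), ENNReal.toReal_ofReal (pow_nonneg hc n)]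

theorem vl_mono {n : ℕ} {S T : Set (EE n)} (h : S ⊆ T) (hT : IsCompact T) : vl S ≤ vl T :=
  ENNReal.toReal_mono hT.measure_lt_top.ne (measure_mono h)

theorem det_smul' {n : ℕ} (c : ℝ) (A : EE n →L[ℝ] EE n) : (c • A).det = c ^ n * A.det := by
  unfold ContinuousLinearMap.det
  rw [ContinuousLinearMap.toLinearMap_smul, LinearMap.det_smul, finrank_euclideanSpace_fin]

end TUB_

open TUB_ in
theorem tub_proof (hAVE : PPI.Stmt_AVE) : Stmt_TUB := by
  intro n K P A η δ r hn hK hP _ _ hvP hPK hδ hδ1 hKP hη hA htube hiso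
  have hkap : 0 < kap n := (hAVE n hn).1
  have hδ0 : 0 < 1 - δ := by linarith
  have hn0 : n ≠ 0 := by omega
  have h1 : (1 - δ) ^ n * vl K ≤ vl P := by
    rw [← vl_smul (1 - δ) hδ0.le]
    exact vl_mono hKP hP
  have hPK' : vl P ≤ vl K := vl_mono hPK hK
  have hvK : 0 < vl K := lt_of_lt_of_le hvP hPK'
  refine ⟨h1, ?_⟩
  intro t ht
  obtain ⟨σ, hσ0, hσ⟩ : ∃ σ : ℝ, 0 < σ ∧ σ ^ n = vl K / vl P := by
    refine ⟨(vl K / vl P) ^ ((n : ℝ)⁻¹), Real.rpow_pos_of_pos (by positivity) _, ?_⟩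
    exact Real.rpow_inv_natCast_pow (by positivity) hn0
  have hσ1 : σ * (1 - δ) ≤ 1 := by
    have h2 : (σ * (1 - δ)) ^ n ≤ 1 := by
      rw [mul_pow, hσ, div_mul_eq_mul_div, div_le_one hvP]
      linarith
    exact (pow_le_one_iff_of_nonneg (by positivity) hn0).mp h2
  have hA' : |(σ • A).det| * kap n = vl K := by
    rw [det_smul', abs_mul, abs_of_pos (pow_pos hσ0 n), mul_assoc, hA, hσ]
    field_simp
  obtain ⟨t', ht'⟩ : ∃ t' : ℝ, t' = t / (σ * (1 - δ)) := ⟨_, rfl⟩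
  have hσδ : 0 < σ * (1 - δ) := by positivity
  have ht'0 : 0 < t' := by rw [ht']; positivity
  have htt' : t ≤ t' := by
    rw [ht', le_div_iff₀ hσδ]
    nlinarith
  have h3 := hiso (σ • A) hA' t' ht'0
  have hsub : (1 - δ) • (K + t' • ((σ • A) '' Bn n)) ⊆ P + t • (A '' Bn n) := by
    rintro _ ⟨_, ⟨k, hk, _, ⟨_, ⟨x, hx, rfl⟩, rfl⟩, rfl⟩, rfl⟩
    refine ⟨(1 - δ) • k, hKP ⟨k, hk, rfl⟩, t • A x, ⟨A x, ⟨x, hx, rfl⟩, rfl⟩, ?_⟩
    have h4 : t = (1 - δ) * (t' * σ) := by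
      rw [ht']
      field_simp
    simp only [ContinuousLinearMap.smul_apply, smul_add, smul_smul]
    rw [← mul_assoc] at h4
    conv_lhs => rw [h4]
    rw [mul_assoc]
  have hcomp : IsCompact (P + t • (A '' Bn n)) := by
    refine hP.add ?_
    exact ((isCompact_closedBall (0 : EE n) 1).image A.continuous).smul t
  have h5 : (1 - δ) ^ n * vl (K + t' • ((σ • A) '' Bn n)) ≤ vl (P + t • (A '' Bn n)) := by
    rw [← vl_smul (1 - δ) hδ0.le]
    exact vl_mono hsub hcomp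
  have h6 := htube t ht.le
  have h7 : (1 - δ) ^ n * ((1 + (1 + η) * n * t') * vl K) ≤ vl P * (1 + t * r) ^ n :=
    (mul_le_mul_of_nonneg_left h3 (by positivity)).trans (h5.trans h6)
  have h8 : 0 < (1 - δ) ^ n * ((1 + (1 + η) * n * t') * vl K) := by positivity
  have h9 : 0 < (1 + t * r) ^ n := by
    by_contra h
    push Not at h
    have : vl P * (1 + t * r) ^ n ≤ 0 := mul_nonpos_of_nonneg_of_nonpos hvP.le h
    linarith
  have h10 : vl P * (1 + t * r) ^ n ≤ vl K * (1 + t * r) ^ n :=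
    mul_le_mul_of_nonneg_right hPK' h9.le
  have h11 : (1 - δ) ^ n * (1 + (1 + η) * n * t) ≤ (1 - δ) ^ n * (1 + (1 + η) * n * t') := by
    refine mul_le_mul_of_nonneg_left ?_ (by positivity)
    have : (1 + η) * n * t ≤ (1 + η) * n * t' :=
      mul_le_mul_of_nonneg_left htt' (by positivity)
    linarith
  refine h11.trans ?_
  have h12 : (1 - δ) ^ n * (1 + (1 + η) * n * t') * vl K ≤ (1 + t * r) ^ n * vl K := by
    nlinarith
  exact le_of_mul_le_mul_right h12 hvK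

end PPG
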