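import Pool.Agent.PPG.Stmts

/-!
# Squad PPG, module UPD: the update of an orthogonal projection
-/

set_option autoImplicit false

namespace PPG

open MeasureTheory Set Filter Topology
open PPI
open scoped Pointwise

namespace UPD_

variable {n : ℕ}

theorem upd_apply (P : EE n →L[ℝ] EE n) (w x : EE n) :
    upd P w x = P x - (inner ℝ (dir P w) x : ℝ) • dir P w := by
  simp only [upd, sub_apply, ContinuousLinearMap.smulRight_apply,
    innerSL_apply_apply]

theorem nrm_sq (P : EE n →L[ℝ] EE n) (hs : ∀ x y, inner ℝ (P x) y = inner ℝ x (P y))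
    (hi : ∀ x, P (P x) = P x) (x : EE n) : inner ℝ x (P x) = ‖P x‖ ^ 2 := by
  rw [← real_inner_self_eq_norm_sq, hs, hi]

end UPD_

theorem upd_proof : Stmt_UPD := by
  intro n m P w hP
  have hs := hP.sym
  have hi := hP.idem
  -- the square of the component in the direction of `P w`
  have h2 : ∀ x, ‖P w‖ ^ 2 * (inner ℝ (dir P w) x) ^ 2 = (inner ℝ w (P x)) ^ 2 := by
    intro x
    by_cases h0 : P w = 0
    · rw [← hs, h0]; simp
    · have hn : ‖P w‖ ≠ 0 := norm_ne_zero_iff.mpr h0
      rw [dir, real_inner_smul_left, hs]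
      field_simp
  have hPd : P (dir P w) = dir P w := by rw [dir, map_smul, hi]
  have hdx : ∀ x, inner ℝ (dir P w) x = inner ℝ (dir P w) (P x) := by
    intro x
    rw [← hs, hPd]
  have hd1 : P w ≠ 0 → ‖dir P w‖ = 1 := by
    intro h0
    have hn : ‖P w‖ ≠ 0 := norm_ne_zero_iff.mpr h0
    rw [dir, norm_smul, norm_inv, norm_norm, inv_mul_cancel₀ hn]
  have hdd : P w ≠ 0 → inner ℝ (dir P w) (dir P w) = 1 := by
    intro h0
    rw [real_inner_self_eq_norm_sq, hd1 h0, one_pow]
  have hd0 : P w = 0 → dir P w = 0 := by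
    intro h0
    rw [dir, h0, smul_zero]
  have h3 : ∀ x, ‖upd P w x‖ ^ 2 = ‖P x‖ ^ 2 - (inner ℝ (dir P w) x) ^ 2 := by
    intro x
    rw [UPD_.upd_apply]
    by_cases h0 : P w = 0
    · rw [hd0 h0]; simp
    · rw [norm_sub_sq_real, real_inner_smul_right, norm_smul, hd1 h0,
        real_inner_comm (dir P w) (P x), ← hdx, mul_one, Real.norm_eq_abs, sq_abs]
      ring
  have h1 : ∀ x, (inner ℝ (dir P w) x) ^ 2 ≤ ‖P x‖ ^ 2 := by
    intro x
    have := h3 x
    have h4 : 0 ≤ ‖upd P w x‖ ^ 2 := sq_nonneg _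
    linarith
  refine ⟨h1, h2, h3, fun h0 => ⟨?_, hd1 h0, hPd, ?_, ?_, ?_, ?_⟩⟩
  · refine ⟨?_, ?_, ?_⟩
    · intro x y
      rw [UPD_.upd_apply, UPD_.upd_apply, inner_sub_left, inner_sub_right, hs,
        real_inner_smul_left, real_inner_smul_right, real_inner_comm x (dir P w)]
      ring
    · intro x
      rw [UPD_.upd_apply P w (upd P w x), UPD_.upd_apply P w x, map_sub, map_smul, hi, hPd,
        inner_sub_right, real_inner_smul_right, hdd h0, ← hdx, mul_one, sub_self, zero_smul,
        sub_zero]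
    · have hsum : ∑ k : Fin n, (inner ℝ (dir P w) (EuclideanSpace.single k 1)) ^ 2 = 1 := by
        have h5 := (EuclideanSpace.basisFun (Fin n) ℝ).sum_sq_norm_inner_left (dir P w)
        rw [hd1 h0, one_pow] at h5
        refine Eq.trans (Finset.sum_congr rfl fun k _ => ?_) h5
        rw [EuclideanSpace.basisFun_apply, Real.norm_eq_abs, sq_abs]
      have hrk := hP.rk
      simp only [h3, Finset.sum_sub_distrib]
      rw [hrk, hsum]
      push_cast
      ring
  · rw [UPD_.upd_apply, hPd, hdd h0, one_smul, sub_self]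
  · intro x
    rw [UPD_.upd_apply, map_sub, map_smul, hi, hPd]
  · intro x
    rw [UPD_.upd_apply, inner_sub_right, real_inner_smul_right, hdd h0, ← hdx, mul_one, sub_self]
  · have hn : ‖P w‖ ≠ 0 := norm_ne_zero_iff.mpr h0
    rw [dir, real_inner_smul_right, UPD_.nrm_sq P hs hi w]
    field_simp

end PPG
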