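import Pool.Agent.PPG.Stmts

set_option autoImplicit false

namespace PPG

open MeasureTheory Set Filter Topology
open PPI
open scoped Pointwise

namespace WSM_

lemma sum_cons {ι : Type} [Fintype ι] (m : ℕ) (F : (Fin (m + 1) → ι) → ℝ) :
    ∑ f, F f = ∑ i, ∑ g : Fin m → ι, F (Fin.cons i g) := by
  rw [← Fintype.sum_equiv (Fin.consEquiv fun _ => ι) (fun x => F (Fin.cons x.1 x.2)) F
    (fun x => rfl), Fintype.sum_prod_type]

end WSM_

open WSM_ in
theorem wsm_proof (hU : Stmt_UPD) (hS : Stmt_STP) : Stmt_WSM := by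
  intro n m ι _ p w P hn hI
  induction m generalizing P with
  | zero =>
    intro _
    refine ⟨fun f => by simp [Wt], by simp [Wt]⟩
  | succ m ih =>
    intro hP
    have hmp : (0 : ℝ) < (m : ℝ) + 1 := by positivity
    refine ⟨fun f => ?_, ?_⟩
    · simp only [Wt]
      by_cases h0 : P (w (f 0)) = 0
      · rw [h0]; simp
      · have hP' := ((hU n m P (w (f 0)) hP).2.2.2 h0).1
        refine mul_nonneg ?_ ((ih _ hP').1 _)
        have := (hI.ppos (f 0)).le
        positivity
    · rw [sum_cons]
      have h1 : ∀ i, ∑ g : Fin m → ι, Wt p w (m + 1) P (Fin.cons i g) =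
          (n : ℝ) / ((m : ℝ) + 1) * (p i * ‖P (w i)‖ ^ 2) := by
        intro i
        simp only [Wt, Fin.cons_zero, Fin.tail_cons]
        rw [← Finset.mul_sum]
        by_cases h0 : P (w i) = 0
        · rw [h0]; simp
        · have hP' := ((hU n m P (w i) hP).2.2.2 h0).1
          rw [(ih _ hP').2, mul_one]
      simp_rw [h1]
      rw [← Finset.mul_sum]
      have h2 := (hS n m ι p w P hn hI hP).1
      rw [div_mul_eq_mul_div, h2, div_self hmp.ne']

end PPG
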