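import Pool.Agent.PPG.Stmts

set_option autoImplicit false

namespace PPG

open MeasureTheory Set Filter Topology
open PPI
open scoped Pointwise

namespace XLM_

open Classical in
/-- coefficients of `XL` -/
noncomputable def cf {n : ℕ} (β : ℝ) (K : ℕ) (v : Fin n → EE n) (x : EE n) (k : Fin n) : ℝ :=
  if β ≤ bb v x k ∧ K ≤ (k : ℕ) then (inner ℝ (v k) x : ℝ) else 0

lemma XL_eq {n : ℕ} (β : ℝ) (K : ℕ) (v : Fin n → EE n) (x : EE n) :
    XL β K v x = ∑ k : Fin n, cf β K v x k • v k := by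
  unfold XL cf
  refine Finset.sum_congr rfl fun k _ => ?_
  split_ifs <;> simp

lemma JL_eq {n : ℕ} (β : ℝ) (K : ℕ) (v : Fin n → EE n) (x : EE n) :
    JL β K v x = ∑ k : Fin n, cf β K v x k ^ 2 := by
  unfold JL cf bb
  refine Finset.sum_congr rfl fun k _ => ?_
  split_ifs <;> simp

lemma nrm {n : ℕ} (β : ℝ) (K : ℕ) (v : Fin n → EE n) (hv : Orthonormal ℝ v) (x : EE n) :
    ‖XL β K v x‖ ^ 2 = JL β K v x := by
  rw [XL_eq, JL_eq, ← real_inner_self_eq_norm_sq, hv.inner_sum]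
  refine Finset.sum_congr rfl fun k _ => ?_
  simp [sq]

lemma inn {n : ℕ} (β : ℝ) (K : ℕ) (v : Fin n → EE n) (x y : EE n) :
    inner ℝ y (XL β K v x) = ∑ k : Fin n, cf β K v x k * inner ℝ (v k) y := by
  rw [XL_eq, inner_sum]
  refine Finset.sum_congr rfl fun k _ => ?_
  rw [inner_smul_right, real_inner_comm]

lemma innx {n : ℕ} (β : ℝ) (K : ℕ) (v : Fin n → EE n) (x : EE n) :
    inner ℝ x (XL β K v x) = JL β K v x := by
  rw [inn, JL_eq]
  refine Finset.sum_congr rfl fun k _ => ?_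
  unfold cf
  split_ifs
  · ring
  · simp

lemma innm {n : ℕ} (β : ℝ) (K : ℕ) (v : Fin n → EE n) (x y : EE n) :
    inner ℝ y (XL β K v x) ≤ √(JL β K v x) * √(tl v y K) := by
  rw [inn, JL_eq]
  have h1 : ∑ k : Fin n, cf β K v x k * inner ℝ (v k) y
      = ∑ k : Fin n, cf β K v x k * (if K ≤ (k : ℕ) then inner ℝ (v k) y else 0) := by
    refine Finset.sum_congr rfl fun k _ => ?_
    unfold cf
    split_ifs with h h'
    · rfl
    · exact absurd h.2 h'
    · simp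
    · simp
  have h2 : tl v y K = ∑ k : Fin n, (if K ≤ (k : ℕ) then (inner ℝ (v k) y : ℝ) else 0) ^ 2 := by
    unfold tl bb
    refine Finset.sum_congr rfl fun k _ => ?_
    split_ifs <;> simp
  rw [h1, h2]
  exact Real.sum_mul_le_sqrt_mul_sqrt _ _ _

lemma JL_nn {n : ℕ} (β : ℝ) (K : ℕ) (v : Fin n → EE n) (x : EE n) : 0 ≤ JL β K v x := by
  rw [JL_eq]; positivity

lemma tl_nn {m n : ℕ} (v : Fin m → EE n) (x : EE n) (k : ℕ) : 0 ≤ tl v x k := by
  unfold tl bb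
  refine Finset.sum_nonneg fun l _ => ?_
  split_ifs <;> positivity

end XLM_

open XLM_ in
theorem xlm_proof : Stmt_XLM := by
  intro n K Ω _ μ v β x hK hR
  refine ⟨fun o => ⟨nrm β K (v o) (hR.on o) x, innx β K (v o) x⟩, ?_⟩
  set m : EE n := ∑ o, μ o • XL β K (v o) x with hm
  set th : ℝ := ∑ o, μ o * JL β K (v o) x with hth
  have hth0 : 0 ≤ th := Finset.sum_nonneg fun o _ => mul_nonneg (hR.nn o) (JL_nn _ _ _ _)
  have hKn : (0 : ℝ) ≤ (n : ℝ) - K := by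
    have : (K : ℝ) ≤ n := by exact_mod_cast hK
    linarith
  have h1 : ‖m‖ ^ 2 ≤ ∑ o, (√(μ o * JL β K (v o) x)) * (√(μ o * tl (v o) m K)) := by
    rw [← real_inner_self_eq_norm_sq]
    nth_rewrite 2 [hm]
    rw [inner_sum]
    refine Finset.sum_le_sum fun o _ => ?_
    rw [inner_smul_right, Real.sqrt_mul (hR.nn o), Real.sqrt_mul (hR.nn o)]
    have h2 := innm β K (v o) x m
    have h3 : √(μ o) * √(μ o) = μ o := Real.mul_self_sqrt (hR.nn o)
    calc μ o * inner ℝ m (XL β K (v o) x)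
        ≤ μ o * (√(JL β K (v o) x) * √(tl (v o) m K)) :=
          mul_le_mul_of_nonneg_left h2 (hR.nn o)
      _ = (√(μ o) * √(μ o)) * (√(JL β K (v o) x) * √(tl (v o) m K)) := by rw [h3]
      _ = √(μ o) * √(JL β K (v o) x) * (√(μ o) * √(tl (v o) m K)) := by ring
  have h2 : (∑ o, (√(μ o * JL β K (v o) x)) * (√(μ o * tl (v o) m K))) ^ 2 ≤
      th * ∑ o, μ o * tl (v o) m K := by
    refine (Finset.sum_mul_sq_le_sq_mul_sq _ _ _).trans (le_of_eq ?_)
    congr 1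
    · refine Finset.sum_congr rfl fun o _ => ?_
      exact Real.sq_sqrt (mul_nonneg (hR.nn o) (JL_nn _ _ _ _))
    · refine Finset.sum_congr rfl fun o _ => ?_
      exact Real.sq_sqrt (mul_nonneg (hR.nn o) (tl_nn _ _ _))
  have h3 := hR.tail m K hK
  have h4 : (‖m‖ ^ 2) ^ 2 ≤ th * ∑ o, μ o * tl (v o) m K :=
    (pow_le_pow_left₀ (by positivity) h1 2).trans h2
  by_cases h0 : ‖m‖ ^ 2 = 0
  · rw [h0, mul_zero]
    exact mul_nonneg hKn hth0
  · have hp : 0 < ‖m‖ ^ 2 := lt_of_le_of_ne (by positivity) (Ne.symm h0)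
    have h5 : ((n : ℝ) * ‖m‖ ^ 2) * ‖m‖ ^ 2 ≤ (((n : ℝ) - K) * th) * ‖m‖ ^ 2 := by
      calc ((n : ℝ) * ‖m‖ ^ 2) * ‖m‖ ^ 2 = n * (‖m‖ ^ 2) ^ 2 := by ring
        _ ≤ n * (th * ∑ o, μ o * tl (v o) m K) := mul_le_mul_of_nonneg_left h4 (by positivity)
        _ = th * (n * ∑ o, μ o * tl (v o) m K) := by ring
        _ = (((n : ℝ) - K) * th) * ‖m‖ ^ 2 := by rw [h3]; ring
    exact le_of_mul_le_mul_right h5 hp

end PPG
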