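import Pool.Agent.PPG.Stmts

/-!
# Squad PPG: Jensen's inequality for the determinantal chain
-/

set_option autoImplicit false

namespace PPG

open MeasureTheory Set Filter Topology
open PPI
open scoped Pointwise

noncomputable section

private theorem pr_idn (n : ℕ) : PR n (idn n) := by
  refine ⟨fun x y => rfl, fun x => rfl, ?_⟩
  simp [idn]

theorem xtj_proof (hW : Stmt_WSM) (hD : Stmt_DET) : Stmt_XTJ := by
  intro n ι _ p w hn his
  obtain ⟨hnn, hsum⟩ := hW n n ι p w (idn n) hn his (pr_idn n)
  set W : (Fin n → ι) → ℝ := fun f => Wt p w n (idn n) f with hWdef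
  set L : (Fin n → ι) → ℝ := fun f => Real.log (W f / ∏ k, p (f k)) with hL
  have hn0 : (0 : ℝ) < n := by exact_mod_cast hn
  set c : ℝ := (n.factorial : ℝ) / (n : ℝ) ^ n with hc
  have hfac : (0 : ℝ) < n.factorial := by exact_mod_cast n.factorial_pos
  have hc0 : 0 < c := by positivity
  have hpp : ∀ f : Fin n → ι, 0 < ∏ k, p (f k) := fun f => Finset.prod_pos fun k _ => his.ppos _
  -- termwise
  have hterm : ∀ f, √c * (W f * Real.exp (-(L f / 2))) ≤
      (∏ k, p (f k)) * |dt (fun k => w (f k))| := by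
    intro f
    rcases eq_or_ne (W f) 0 with h0 | h0
    · rw [h0]
      simp only [zero_mul, mul_zero]
      exact mul_nonneg (hpp f).le (abs_nonneg _)
    · have hWp : 0 < W f := lt_of_le_of_ne (hnn f) (Ne.symm h0)
      obtain ⟨hd, -⟩ := hD n ι p w f his h0
      have hP := hpp f
      set Pf : ℝ := ∏ k, p (f k) with hPf
      set d : ℝ := dt (fun k => w (f k)) with hd'
      have hd2 : W f = c⁻¹ * Pf * d ^ 2 := by
        have : W f = (n : ℝ) ^ n / n.factorial * Pf * d ^ 2 := hd
        rw [this, hc, inv_div]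
      have hd3 : d ^ 2 = c * (W f / Pf) := by
        rw [hd2]; field_simp
      have hWP : 0 < W f / Pf := div_pos hWp hP
      have hexp : Real.exp (-(L f / 2)) = (√(W f / Pf))⁻¹ := by
        rw [Real.exp_neg, Real.exp_half, hL]
        simp only
        rw [Real.exp_log hWP]
      have habs : |d| = √c * √(W f / Pf) := by
        rw [← Real.sqrt_sq_eq_abs, hd3, Real.sqrt_mul hc0.le]
      have hs : 0 < √(W f / Pf) := Real.sqrt_pos.mpr hWP
      have hsq : √(W f / Pf) * √(W f / Pf) = W f / Pf := Real.mul_self_sqrt hWP.le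
      rw [hexp, habs]
      have : W f * (√(W f / Pf))⁻¹ = Pf * √(W f / Pf) := by
        rw [← div_eq_mul_inv, div_eq_iff hs.ne', mul_assoc, hsq]
        field_simp
      rw [this]
      apply le_of_eq
      ring
  -- Jensen
  set a : ℝ := -((∑ f, W f * L f) / 2) with ha
  have hj : Real.exp a ≤ ∑ f, W f * Real.exp (-(L f / 2)) := by
    have h1 : ∀ f, W f * (Real.exp a * (1 + (-(L f / 2)) - a)) ≤ W f * Real.exp (-(L f / 2)) := by
      intro f
      apply mul_le_mul_of_nonneg_left _ (hnn f)
      have h2 := Real.add_one_le_exp (-(L f / 2) - a)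
      have h3 : Real.exp (-(L f / 2)) = Real.exp a * Real.exp (-(L f / 2) - a) := by
        rw [← Real.exp_add]; congr 1; ring
      rw [h3]
      apply mul_le_mul_of_nonneg_left _ (Real.exp_pos a).le
      linarith
    have h4 : ∑ f, W f * (Real.exp a * (1 + (-(L f / 2)) - a)) = Real.exp a := by
      have h5 : ∀ f, W f * (Real.exp a * (1 + (-(L f / 2)) - a)) =
          Real.exp a * (1 - a) * W f + Real.exp a * (-(1/2)) * (W f * L f) := by
        intro f; ring
      rw [Finset.sum_congr rfl (fun f _ => h5 f), Finset.sum_add_distrib, ← Finset.mul_sum,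
        ← Finset.mul_sum]
      have h6 : ∑ f, W f = 1 := hsum
      rw [h6, ha]
      ring
    calc Real.exp a = ∑ f, W f * (Real.exp a * (1 + (-(L f / 2)) - a)) := h4.symm
      _ ≤ _ := Finset.sum_le_sum fun f _ => h1 f
  show √c * Real.exp a ≤ XT p w
  calc √c * Real.exp a ≤ √c * ∑ f, W f * Real.exp (-(L f / 2)) :=
        mul_le_mul_of_nonneg_left hj (Real.sqrt_nonneg _)
    _ = ∑ f, √c * (W f * Real.exp (-(L f / 2))) := by rw [Finset.mul_sum]
    _ ≤ ∑ f : Fin n → ι, (∏ k, p (f k)) * |dt (fun k => w (f k))| :=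
        Finset.sum_le_sum fun f _ => hterm f
    _ = XT p w := rfl

end

end PPG
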