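import Pool.Agent.PPF.Final
import Pool.Agent.PPG.TTF
import Pool.Agent.PPG.ONE
import Pool.Agent.PPG.RNK
import Pool.Agent.PPG.ABL
import Pool.Agent.PPG.UPD
import Pool.Agent.PPG.STP
import Pool.Agent.PPG.WSM
import Pool.Agent.PPG.ONB
import Pool.Agent.PPG.MGP
import Pool.Agent.PPG.TAI
import Pool.Agent.PPG.ENT
import Pool.Agent.PPG.TRI
import Pool.Agent.PPG.DET
import Pool.Agent.PPG.XTJ
import Pool.Agent.PPG.SMN
import Pool.Agent.PPG.CHN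
import Pool.Agent.PPG.CLS
import Pool.Agent.PPG.OBO
import Pool.Agent.PPG.PSP
import Pool.Agent.PPG.PSM
import Pool.Agent.PPG.TBV
import Pool.Agent.PPG.TBC
import Pool.Agent.PPG.TBS
import Pool.Agent.PPG.T1
import Pool.Agent.PPG.IND
import Pool.Agent.PPG.XLM
import Pool.Agent.PPG.T2
import Pool.Agent.PPG.BMX
import Pool.Agent.PPG.LTV
import Pool.Agent.PPG.LTI
import Pool.Agent.PPG.T3
import Pool.Agent.PPG.T4
import Pool.Agent.PPG.SJB
import Pool.Agent.PPG.CMB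
import Pool.Agent.PPG.CRE
import Pool.Agent.PPG.PMN
import Pool.Agent.PPG.PFO
import Pool.Agent.PPG.GE3
import Pool.Agent.PPG.ISP
import Pool.Agent.PPG.FFD
import Pool.Agent.PPG.PTG
import Pool.Agent.PPG.AP2
import Pool.Agent.PPG.LMV
import Pool.Agent.PPG.TUB
import Pool.Agent.PPG.BKG
import Pool.Agent.PPG.KST
import Pool.Agent.PPG.KFF
import Pool.Agent.PPG.FIN

/-!
# Squad PPG (MP_0bf616_gt): assembly
-/

set_option autoImplicit false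

namespace PPG

theorem t_TTF : Stmt_TTF := ttf_proof
theorem t_ONE : Stmt_ONE := one_proof
theorem t_RNK : Stmt_RNK := rnk_proof
theorem t_ABL : Stmt_ABL := abl_proof
theorem t_UPD : Stmt_UPD := upd_proof
theorem t_STP : Stmt_STP := stp_proof t_UPD
theorem t_WSM : Stmt_WSM := wsm_proof t_UPD t_STP
theorem t_ONB : Stmt_ONB := onb_proof t_UPD
theorem t_MGP : Stmt_MGP := mgp_proof t_UPD t_STP t_WSM t_ONB
theorem t_TAI : Stmt_TAI := tai_proof t_WSM t_ONB t_MGP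
theorem t_ENT : Stmt_ENT := ent_proof t_TTF t_ONE t_UPD t_STP t_WSM t_ONB
theorem t_TRI : Stmt_TRI := tri_proof t_UPD t_ONB
theorem t_DET : Stmt_DET := det_proof t_ONB t_TRI
theorem t_XTJ : Stmt_XTJ := xtj_proof t_WSM t_DET
theorem t_SMN : Stmt_SMN := smn_proof t_WSM t_DET
theorem t_CHN : Stmt_CHN := chn_proof t_WSM t_ONB t_MGP t_TAI t_ENT t_XTJ
theorem t_CLS : Stmt_CLS := cls_proof t_TTF
theorem t_OBO : Stmt_OBO := obo_proof
theorem t_PSP : Stmt_PSP := psp_proof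
theorem t_PSM : Stmt_PSM := psm_proof PPF.t_BMO PPI.t_AVE
theorem t_TBV : Stmt_TBV := tbv_proof t_PSM PPI.t_AVE
theorem t_TBC : Stmt_TBC := tbc_proof
theorem t_TBS : Stmt_TBS := tbs_proof t_PSP t_TBV t_TBC PPI.t_AVE
theorem t_T1 : Stmt_T1 := t1_proof t_PSP t_TBS
theorem t_IND : Stmt_IND := ind_proof
theorem t_XLM : Stmt_XLM := xlm_proof
theorem t_T2 : Stmt_T2 := t2_proof t_PSP t_TBS t_IND t_XLM
theorem t_BMX : Stmt_BMX := bmx_proof PPF.t_BMG PPF.t_BMR PPI.t_MGA PPI.t_MCC PPI.t_AVE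
theorem t_LTV : Stmt_LTV := ltv_proof t_BMX PPI.t_AVE
theorem t_LTI : Stmt_LTI := lti_proof t_LTV PPI.t_AVE
theorem t_T3 : Stmt_T3 := t3_proof t_LTI t_OBO
theorem t_T4 : Stmt_T4 := t4_proof t_PSP t_TBS t_RNK
theorem t_SJB : Stmt_SJB := sjb_proof t_TTF t_ABL t_LTI t_T4 t_TBS
theorem t_CMB : Stmt_CMB := cmb_proof t_CLS t_T1 t_T2 t_T3
theorem t_CRE : Stmt_CRE := cre_proof t_CHN t_CLS t_CMB t_SJB t_SMN PPI.t_AVE
theorem t_PMN : Stmt_PMN := pmn_proof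
theorem t_PFO : Stmt_PFO := pfo_proof
theorem t_GE3 : Stmt_GE3 := ge3_proof PPI.t_CEL PPI.t_MKI PPI.t_PRJ PPI.t_ZON PPI.t_MON
theorem t_ISP : Stmt_ISP := isp_proof t_GE3 t_PMN t_PFO PPI.t_SPN PPI.t_TRX PPI.t_AVE
theorem t_FFD : Stmt_FFD := ffd_proof PPF.t_CAP PPI.t_AVE
theorem t_PTG : Stmt_PTG := ptg_proof t_CRE t_ISP t_FFD PPI.t_NUA PPI.t_AVE
theorem t_AP2 : Stmt_AP2 := ap2_proof
theorem t_LMV : Stmt_LMV := lmv_proof
theorem t_TUB : Stmt_TUB := tub_proof PPI.t_AVE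
theorem t_BKG : Stmt_BKG := bkg_proof t_PTG t_AP2 t_LMV t_TUB PPI.t_MON PPI.t_AVE
theorem t_KST : Stmt_KST := kst_proof
theorem t_KFF : Stmt_KFF := kff_proof
theorem t_FIN : Stmt_FIN := fin_proof t_BKG t_PTG t_KST t_KFF PPF.t_POL PPI.t_MON PPI.t_AVE

end PPG
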