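import Pool.Agent.PPG.Stmts

/-!
# Squad PPG (MP_0bf616_gt): the theorem for bodies with an isoperimetric gap, in terms of the
linear images of `K`
-/

set_option autoImplicit false

namespace PPG

open MeasureTheory Set Filter Topology
open PPI
open scoped Pointwise

namespace GAP_

lemma vl_pos {n : ℕ} {K : Set (EE n)} (hk : IsCompact K) (hi : (interior K).Nonempty) :
    0 < vl K := by
  unfold vl
  apply ENNReal.toReal_pos
  · have := (isOpen_interior.measure_pos volume hi).trans_le (measure_mono interior_subset)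
    exact this.ne'
  · exact hk.measure_lt_top.ne

lemma vl_image {n : ℕ} (T : EE n →L[ℝ] EE n) (S : Set (EE n)) : vl (T '' S) = |T.det| * vl S := by
  unfold vl
  rw [Measure.addHaar_image_continuousLinearMap, ENNReal.toReal_mul,
    ENNReal.toReal_ofReal (abs_nonneg _)]

/-- the two forms of the hypothesis -/
lemma form {n : ℕ} (hk : 0 < kap n) {K : Set (EE n)} (hv : 0 < vl K) {η : ℝ}
    (h : ∀ T : EE n →L[ℝ] EE n, vl (T '' K) = kap n → ∀ t : ℝ, 0 < t →
      kap n * (1 + (1 + η) * n * t) ≤ vl (T '' K + t • Metric.closedBall (0 : EE n) 1)) :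
    ∀ A : EE n →L[ℝ] EE n, |A.det| * kap n = vl K → ∀ t : ℝ, 0 < t →
      (1 + (1 + η) * n * t) * vl K ≤ vl (K + t • (A '' Bn n)) := by
  intro A hA t ht
  have hdet : A.det ≠ 0 := by
    intro h0
    rw [h0, abs_zero, zero_mul] at hA
    linarith
  obtain ⟨e, he⟩ : ∃ e : EE n ≃L[ℝ] EE n, (e : EE n →L[ℝ] EE n) = A :=
    ⟨A.toContinuousLinearEquivOfDetNeZero hdet, by ext; simp⟩
  set T : EE n →L[ℝ] EE n := (e.symm : EE n →L[ℝ] EE n) with hT
  have hTA : ∀ x, A (T x) = x := by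
    intro x
    rw [← he]
    simp [hT]
  have hAT : ∀ x, T (A x) = x := by
    intro x
    rw [← he]
    simp [hT]
  have hAK : A '' (T '' K) = K := by
    ext x
    simp only [mem_image, exists_exists_and_eq_and]
    constructor
    · rintro ⟨y, hy, rfl⟩
      rw [hTA]
      exact hy
    · intro hx
      exact ⟨x, hx, hTA x⟩
  have h1 : vl (T '' K) = kap n := by
    have h2 : |A.det| * vl (T '' K) = vl K := by rw [← vl_image, hAK]
    have h3 : 0 < |A.det| := abs_pos.mpr hdet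
    have : |A.det| * vl (T '' K) = |A.det| * kap n := by rw [h2, hA]
    exact mul_left_cancel₀ h3.ne' this
  have h4 := h T h1 t ht
  have h5 : K + t • (A '' Bn n) = A '' (T '' K + t • Metric.closedBall (0 : EE n) 1) := by
    ext x
    simp only [Set.mem_add, mem_image, Set.mem_smul_set]
    constructor
    · rintro ⟨y, hy, _, ⟨_, ⟨b, hb, rfl⟩, rfl⟩, rfl⟩
      refine ⟨T y + t • b, ⟨T y, ⟨y, hy, rfl⟩, t • b, ⟨b, hb, rfl⟩, rfl⟩, ?_⟩
      rw [map_add, hTA, map_smul]
    · rintro ⟨_, ⟨_, ⟨y, hy, rfl⟩, _, ⟨b, hb, rfl⟩, rfl⟩, rfl⟩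
      refine ⟨y, hy, t • A b, ⟨A b, ⟨b, hb, rfl⟩, rfl⟩, ?_⟩
      rw [map_add, hTA, map_smul]
  rw [h5, vl_image, ← hA]
  calc (1 + (1 + η) * n * t) * (|A.det| * kap n)
      = |A.det| * (kap n * (1 + (1 + η) * n * t)) := by ring
    _ ≤ _ := mul_le_mul_of_nonneg_left h4 (abs_nonneg _)

end GAP_

open GAP_ in
/-- strict inequality with a gain for bodies with an isoperimetric gap -/
theorem gap_proof (h1 : Stmt_BKG) (h3 : Stmt_KST) (h7 : PPI.Stmt_AVE) :
    ∃ c C : ℝ, 0 < c ∧ 0 < C ∧ ∀ n : ℕ, 2 ≤ n → ∀ K : Set (EE n), Convex ℝ K → IsCompact K →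
      (interior K).Nonempty → ∀ η : ℝ, C * Real.log n / n ≤ η →
      (∀ T : EE n →L[ℝ] EE n, vl (T '' K) = kap n → ∀ t : ℝ, 0 < t →
        kap n * (1 + (1 + η) * n * t) ≤ vl (T '' K + t • Metric.closedBall (0 : EE n) 1)) →
      (1 + η) ^ (c * n) * (kap (n - 1) ^ n / kap n ^ (n - 2) * vl K ^ (n - 1)) <
        vl (projBody K) := by
  obtain ⟨c, C₀, hc, hC₀, hB⟩ := h1
  obtain ⟨C', hC', hst⟩ := h3 (c / 2) C₀ (by linarith) hC₀
  refine ⟨c / 2, C', by linarith, hC', ?_⟩
  intro n hn K hconv hcomp hint η hη hyp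
  have hk : 0 < kap n := (h7 n (by omega)).1
  have hk1 : 0 < kap (n - 1) := (h7 (n - 1) (by omega)).1
  have hv := vl_pos hcomp hint
  have hnp : (0 : ℝ) < n := by positivity
  have hlog : 0 ≤ Real.log n := Real.log_nonneg (by exact_mod_cast (by omega : 1 ≤ n))
  have hη1 : 0 ≤ C' * Real.log n / n := by positivity
  have hη0 : 0 ≤ η := hη1.trans hη
  have h9 := (hB n hn K hconv hcomp hint).2 η hη0 (form hk hv hyp)
  refine lt_of_lt_of_le ?_ h9
  have hX : 0 < Pn n * vl K ^ (n - 1) := by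
    unfold Pn
    positivity
  have h10 : 1 < (1 + η) ^ (c / 2 * n) * Real.exp (-(C₀ * Real.log n)) := by
    refine lt_of_lt_of_le (hst n hn) ?_
    refine mul_le_mul_of_nonneg_right ?_ (Real.exp_pos _).le
    exact Real.rpow_le_rpow (by positivity) (by linarith) (by positivity)
  have h11 : (1 + η) ^ (c * n) = (1 + η) ^ (c / 2 * n) * (1 + η) ^ (c / 2 * n) := by
    rw [← Real.rpow_add (by linarith)]
    ring_nf
  have h12 : 0 < (1 + η) ^ (c / 2 * n) := Real.rpow_pos_of_pos (by linarith) _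
  rw [h11]
  calc (1 + η) ^ (c / 2 * n) * (kap (n - 1) ^ n / kap n ^ (n - 2) * vl K ^ (n - 1))
      = 1 * ((1 + η) ^ (c / 2 * n) * (Pn n * vl K ^ (n - 1))) := by
        unfold Pn
        ring
    _ < ((1 + η) ^ (c / 2 * n) * Real.exp (-(C₀ * Real.log n))) *
          ((1 + η) ^ (c / 2 * n) * (Pn n * vl K ^ (n - 1))) :=
        mul_lt_mul_of_pos_right h10 (by positivity)
    _ = _ := by ring

end PPG
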