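import Pool.Agent.PPG.Defs

/-!
# Squad PPG (MP_0bf616_gt): statements of the modules.  Recipes: /team-store/MP_0bf616_PPG.md
-/

set_option autoImplicit false

namespace PPG

open MeasureTheory Set Filter Topology
open PPI
open scoped Pointwise

/-! ## A. Real variables -/

/-- the function `TT` -/
def Stmt_TTF : Prop :=
  ∀ t b : ℝ, 0 ≤ b → b ≤ t → 0 ≤ TT t b ∧ TT t b ≤ b ∧ t * TT t b ≤ b ^ 2

/-- one step of the chain -/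
def Stmt_ONE : Prop :=
  ∀ (n m : ℕ) (ι : Type) [Fintype ι] (q b : ι → ℝ) (t : ℝ), 1 ≤ n → 1 ≤ m → 0 ≤ t →
    (∀ i, 0 ≤ q i) → ∑ i, q i = 1 → (∀ i, 0 ≤ b i) → (∀ i, b i ≤ t) →
    ((m : ℝ) + 1) * ∑ i, q i * b i = t →
    (m : ℝ) * ∑ i, q i * fe n m (t - b i) ≤
      (m : ℝ) * fe n (m + 1) t + n * ∑ i, q i * TT t (b i)

open Classical in
/-- sum of the inverse square roots of the ranks -/
def Stmt_RNK : Prop :=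
  ∀ (κ : Type) (A : Finset κ) (b : κ → ℝ),
    ∑ k ∈ A, 1 / √((A.filter fun l => b k ≤ b l).card : ℝ) ≤ 2 * √(A.card : ℝ)

/-- Abel summation -/
def Stmt_ABL : Prop :=
  ∀ (z : ℕ → ℝ) (a c : ℝ) (m₀ n : ℕ), 1 ≤ m₀ → 0 ≤ a → 0 ≤ c → (∀ m, 0 ≤ z m) →
    (∀ M, 1 ≤ M → M ≤ n → ∑ m ∈ Finset.Icc 1 M, z m ≤ a + c * M) →
    ∑ m ∈ Finset.Ioc m₀ n, z m / m ≤ 2 * a / m₀ + c * (2 + Real.log n)

/-! ## B. The chain -/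

/-- the update of a projection -/
def Stmt_UPD : Prop :=
  ∀ (n m : ℕ) (P : EE n →L[ℝ] EE n) (w : EE n), PR (m + 1) P →
    (∀ x, (inner ℝ (dir P w) x) ^ 2 ≤ ‖P x‖ ^ 2) ∧
    (∀ x, ‖P w‖ ^ 2 * (inner ℝ (dir P w) x) ^ 2 = (inner ℝ w (P x)) ^ 2) ∧
    (∀ x, ‖upd P w x‖ ^ 2 = ‖P x‖ ^ 2 - (inner ℝ (dir P w) x) ^ 2) ∧
    (P w ≠ 0 → PR m (upd P w) ∧ ‖dir P w‖ = 1 ∧ P (dir P w) = dir P w ∧
      upd P w (dir P w) = 0 ∧ (∀ x, P (upd P w x) = upd P w x) ∧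
      (∀ x, inner ℝ (dir P w) (upd P w x) = 0) ∧ inner ℝ w (dir P w) = ‖P w‖)

/-- sums over one step. Uses UPD -/
def Stmt_STP : Prop :=
  ∀ (n m : ℕ) (ι : Type) [Fintype ι] (p : ι → ℝ) (w : ι → EE n) (P : EE n →L[ℝ] EE n),
    1 ≤ n → IS p w → PR (m + 1) P →
    (n : ℝ) * ∑ i, p i * ‖P (w i)‖ ^ 2 = (m : ℝ) + 1 ∧
    ∀ x, (n : ℝ) * ∑ i, p i * ‖P (w i)‖ ^ 2 * (inner ℝ (dir P (w i)) x) ^ 2 = ‖P x‖ ^ 2

/-- the weights are probability weights. Uses UPD, STP -/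
def Stmt_WSM : Prop :=
  ∀ (n m : ℕ) (ι : Type) [Fintype ι] (p : ι → ℝ) (w : ι → EE n) (P : EE n →L[ℝ] EE n),
    1 ≤ n → IS p w → PR m P → (∀ f, 0 ≤ Wt p w m P f) ∧ ∑ f, Wt p w m P f = 1

/-- the flags. Uses UPD -/
def Stmt_ONB : Prop :=
  ∀ (n m : ℕ) (ι : Type) [Fintype ι] (p : ι → ℝ) (w : ι → EE n) (P : EE n →L[ℝ] EE n)
    (f : Fin m → ι), PR m P → Wt p w m P f ≠ 0 →
    Orthonormal ℝ (fg w m P f) ∧ (∀ k, P (fg w m P f k) = fg w m P f k) ∧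
      ∀ x, ∑ k, bb (fg w m P f) x k = ‖P x‖ ^ 2

/-- conditional expectations. Uses UPD, STP, WSM, ONB -/
def Stmt_MGP : Prop :=
  ∀ (n m : ℕ) (ι : Type) [Fintype ι] (p : ι → ℝ) (w : ι → EE n) (P : EE n →L[ℝ] EE n)
    (x : EE n) (k : Fin m) (h : ℝ → ℝ), 1 ≤ n → IS p w → PR m P →
    ((m : ℝ) - (k : ℕ)) *
        ∑ f, Wt p w m P f * (h (tl (fg w m P f) x k) * bb (fg w m P f) x k) =
      ∑ f, Wt p w m P f * (h (tl (fg w m P f) x k) * tl (fg w m P f) x k)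

/-- the tails. Uses WSM, ONB, MGP -/
def Stmt_TAI : Prop :=
  ∀ (n m : ℕ) (ι : Type) [Fintype ι] (p : ι → ℝ) (w : ι → EE n) (P : EE n →L[ℝ] EE n)
    (x : EE n) (k : ℕ), 1 ≤ n → IS p w → PR m P → k ≤ m →
    (m : ℝ) * ∑ f, Wt p w m P f * tl (fg w m P f) x k = ((m : ℝ) - k) * ‖P x‖ ^ 2

/-- the entropy. Uses TTF, ONE, UPD, STP, WSM, ONB -/
def Stmt_ENT : Prop :=
  ∀ (n m : ℕ) (ι : Type) [Fintype ι] (p : ι → ℝ) (w : ι → EE n) (P : EE n →L[ℝ] EE n),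
    1 ≤ n → IS p w → PR m P →
    ∑ f, Wt p w m P f * Real.log (Wt p w m P f / ∏ k, p (f k)) ≤
      ∑ j, p j * (m * fe n m (‖P (w j)‖ ^ 2)) +
        n * ∑ f, Wt p w m P f * ∑ j, p j * cs (fg w m P f) (w j)

/-- the weights and the diagonal. Uses UPD, ONB -/
def Stmt_TRI : Prop :=
  ∀ (n m : ℕ) (ι : Type) [Fintype ι] (p : ι → ℝ) (w : ι → EE n) (P : EE n →L[ℝ] EE n)
    (f : Fin m → ι), PR m P → Wt p w m P f ≠ 0 →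
    (∀ k l : Fin m, k < l → inner ℝ (w (f k)) (fg w m P f l) = 0) ∧
    Wt p w m P f = (n : ℝ) ^ m / m.factorial * (∏ k, p (f k)) *
      ∏ k, (inner ℝ (w (f k)) (fg w m P f k)) ^ 2

/-- the weights and the determinant. Uses ONB, TRI -/
def Stmt_DET : Prop :=
  ∀ (n : ℕ) (ι : Type) [Fintype ι] (p : ι → ℝ) (w : ι → EE n) (f : Fin n → ι), IS p w →
    Wt p w n (idn n) f ≠ 0 →
    Wt p w n (idn n) f = (n : ℝ) ^ n / n.factorial * (∏ k, p (f k)) * dt (fun k => w (f k)) ^ 2 ∧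
      |dt (fun k => w (f k))| ≤ 1

/-- Jensen's inequality. Uses WSM, DET -/
def Stmt_XTJ : Prop :=
  ∀ (n : ℕ) (ι : Type) [Fintype ι] (p : ι → ℝ) (w : ι → EE n), 1 ≤ n → IS p w →
    √((n.factorial : ℝ) / (n : ℝ) ^ n) *
      Real.exp (-((∑ f, Wt p w n (idn n) f *
        Real.log (Wt p w n (idn n) f / ∏ k, p (f k))) / 2)) ≤ XT p w

/-- a simple lower bound. Uses WSM, DET -/
def Stmt_SMN : Prop :=
  ∀ (n : ℕ) (ι : Type) [Fintype ι] (p : ι → ℝ) (w : ι → EE n), 1 ≤ n → IS p w →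
    (n.factorial : ℝ) / (n : ℝ) ^ n ≤ XT p w

/-- summary. Uses WSM, ONB, MGP, TAI, ENT, XTJ -/
def Stmt_CHN : Prop :=
  ∀ (n : ℕ) (ι : Type) [Fintype ι] (p : ι → ℝ) (w : ι → EE n), 1 ≤ n → IS p w →
    ∃ (Ω : Type) (_ : Fintype Ω) (μ : Ω → ℝ) (v : Ω → Fin n → EE n), RF μ v ∧
      √((n.factorial : ℝ) / (n : ℝ) ^ n) *
        Real.exp (-((n : ℝ) / 2 * ∑ j, p j * ∑ o, μ o * cs (v o) (w j))) ≤ XT p w

/-! ## C. Classes of jumps -/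

/-- splitting of the cost. Uses TTF -/
def Stmt_CLS : Prop :=
  ∀ (n K : ℕ) (β : ℝ) (v : Fin n → EE n) (x : EE n),
    JA β v x = JB β K v x + JM β K v x + JL β K v x + JO β K v x ∧
    cs v x ≤ JB β K v x + JM β K v x / 4 + JL β K v x + JO β K v x + cm β v x

open Classical in
/-- low jumps -/
def Stmt_OBO : Prop :=
  ∀ (n K : ℕ) (β : ℝ) (v : Fin n → EE n) (x : EE n),
    JO β K v x ≤ et * (if tl v x K ≤ et then 1 else 0)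

/-! ## D. Test bodies -/

/-- linear algebra of the projections `psp` -/
def Stmt_PSP : Prop :=
  ∀ (n : ℕ) (κ : Type) (v : κ → EE n) (s : Finset κ),
    (∀ x, ‖psp v s x‖ ≤ ‖x‖) ∧
    (∀ x y, inner ℝ x y ≤ ‖psp v s x‖ * ‖psp v s y‖ +
      √(‖x‖ ^ 2 - ‖psp v s x‖ ^ 2) * √(‖y‖ ^ 2 - ‖psp v s y‖ ^ 2)) ∧
    (∀ (c : κ → ℝ) (u : EE n),
      (inner ℝ u (∑ i ∈ s, c i • v i)) ^ 2 ≤ ‖psp v s u‖ ^ 2 * ‖∑ i ∈ s, c i • v i‖ ^ 2) ∧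
    (Orthonormal ℝ v → ∀ u, ‖psp v s u‖ ^ 2 = ∑ i ∈ s, (inner ℝ (v i) u) ^ 2)

/-- moments. Uses PPF.BMO, PPI.AVE -/
def Stmt_PSM : Prop :=
  ∀ (n q : ℕ) (κ : Type) (v : κ → EE n) (s : Finset κ), 1 ≤ n → 1 ≤ q →
    ave (fun x => ‖psp v s x‖ ^ (2 * q)) ≤ (((s.card : ℝ) + 2 * q) / n) ^ q

/-- volume of the test body. Uses PSM, PPI.AVE -/
def Stmt_TBV : Prop :=
  ∀ (n M : ℕ) (κ : Type) [Fintype κ] (v : κ → EE n), 1 ≤ n → 1 ≤ M → Fintype.card κ ≤ M →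
    kap n / 2 ≤ vl (TB M v)

/-- the test body is a convex body -/
def Stmt_TBC : Prop :=
  ∀ (n M : ℕ) (κ : Type) [Fintype κ] (v : κ → EE n), 1 ≤ n → Fintype.card κ ≤ M →
    IsCompact (TB M v) ∧ Convex ℝ (TB M v) ∧ (0 : EE n) ∈ TB M v

/-- Minkowski's inequality for the test body. Uses PSP, TBV, TBC, PPI.AVE -/
def Stmt_TBS : Prop :=
  ∀ (n M : ℕ) (ι : Type) [Fintype ι] (p : ι → ℝ) (w : ι → EE n) (D : ℝ) (κ : Type) [Fintype κ]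
    (v : κ → EE n) (s : ι → Finset κ), 1 ≤ n → 1 ≤ M → Fintype.card κ ≤ M → IS p w → MI p w D →
    (n : ℝ) * ∑ i, p i * (1 - √(1 - ‖psp v (s i) (w i)‖ ^ 2) -
      √(lev n M (s i).card * ‖psp v (s i) (w i)‖ ^ 2)) ≤ D + 1

/-- one flag. Uses PSP, TBS -/
def Stmt_T1 : Prop :=
  ∀ (n K : ℕ) (ι : Type) [Fintype ι] (p : ι → ℝ) (w : ι → EE n) (D : ℝ) (v : Fin n → EE n),
    1 ≤ n → IS p w → MI p w D → Orthonormal ℝ v →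
    (n : ℝ) * ∑ i, p i * ((1 / 2 - be / 100) * JA (bs n) v (w i) +
      be / 8 * JB (bs n) K v (w i)) ≤ D + 1

/-- second moments of sums of independent vectors -/
def Stmt_IND : Prop :=
  ∀ (n R : ℕ) (Ω : Type) [Fintype Ω] (μ : Ω → ℝ) (X : Ω → EE n) (g : Ω → ℝ), ∑ o, μ o = 1 →
    ∑ F : Fin R → Ω, (∏ r, μ (F r)) = 1 ∧
    ∑ F : Fin R → Ω, (∏ r, μ (F r)) * ∑ r, g (F r) = R * ∑ o, μ o * g o ∧
    ∑ F : Fin R → Ω, (∏ r, μ (F r)) * ‖∑ r, X (F r)‖ ^ 2 =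
      R * ∑ o, μ o * ‖X o‖ ^ 2 + R * ((R : ℝ) - 1) * ‖∑ o, μ o • X o‖ ^ 2

/-- the mean of the vector of the late jumps -/
def Stmt_XLM : Prop :=
  ∀ (n K : ℕ) (Ω : Type) [Fintype Ω] (μ : Ω → ℝ) (v : Ω → Fin n → EE n) (β : ℝ) (x : EE n),
    K ≤ n → RF μ v →
    (∀ o, ‖XL β K (v o) x‖ ^ 2 = JL β K (v o) x ∧ inner ℝ x (XL β K (v o) x) = JL β K (v o) x) ∧
    (n : ℝ) * ‖∑ o, μ o • XL β K (v o) x‖ ^ 2 ≤ ((n : ℝ) - K) * ∑ o, μ o * JL β K (v o) x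

/-- many flags. Uses PSP, TBS, IND, XLM -/
def Stmt_T2 : Prop :=
  ∀ (n K : ℕ) (ι : Type) [Fintype ι] (p : ι → ℝ) (w : ι → EE n) (D : ℝ) (Ω : Type) [Fintype Ω]
    (μ : Ω → ℝ) (v : Ω → Fin n → EE n), 1 ≤ n → IS p w → MI p w D → RF μ v →
    K ≤ n → 32 * (n - K) ≤ n →
    2 * (n : ℝ) * ∑ j, p j * ∑ o, μ o * JL (bs n) K (v o) (w j) ≤ D + 1

/-- exact moments for the ball. Uses PPF.BMG, PPF.BMR, PPI.MGA, PPI.MCC, PPI.AVE -/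
def Stmt_BMX : Prop :=
  ∀ (n j q : ℕ) (A : EE n →L[ℝ] EE j), 1 ≤ j → j ≤ n → PPF.Coi A →
    ave (fun x => ‖A x‖ ^ (2 * q)) =
      ∏ i ∈ Finset.range q, (((j : ℝ) + 2 * i) / ((n : ℝ) + 2 + 2 * i))

/-- the second test body: volume. Uses BMX, PPI.AVE -/
def Stmt_LTV : Prop :=
  ∃ m₁ : ℕ, 1 ≤ m₁ ∧ ∀ (n K : ℕ) (v : Fin n → EE n), Orthonormal ℝ v → K + m₁ ≤ n →
    kap n / 2 ≤ vl {x : EE n | x ∈ Bn n ∧
      ‖x‖ ^ 2 - tl v x K ≤ 1 - ((n : ℝ) - K) / (4 * n) ∧ tl v x K ≤ 4 * ((n : ℝ) - K) / n}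

open Classical in
/-- low tails. Uses LTV, PPI.AVE -/
def Stmt_LTI : Prop :=
  ∃ m₁ : ℕ, 1 ≤ m₁ ∧ ∀ (n K : ℕ) (ι : Type) [Fintype ι] (p : ι → ℝ) (w : ι → EE n) (D : ℝ)
    (v : Fin n → EE n), IS p w → MI p w D → Orthonormal ℝ v → K + m₁ ≤ n →
    ((n : ℝ) - K) * ∑ j, p j * (if tl v (w j) K ≤ rh * ((n : ℝ) - K) / n then 1 else 0) ≤
      16 * (D + 1)

/-- low jumps. Uses LTI, OBO -/
def Stmt_T3 : Prop :=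
  ∃ n₀ : ℕ, ∀ (n : ℕ) (ι : Type) [Fintype ι] (p : ι → ℝ) (w : ι → EE n) (D : ℝ) (Ω : Type)
    [Fintype Ω] (μ : Ω → ℝ) (v : Ω → Fin n → EE n) (β : ℝ), n₀ ≤ n → IS p w → MI p w D →
    RF μ v →
    (n : ℝ) * ∑ j, p j * ∑ o, μ o * JO β (n - n / 32) (v o) (w j) ≤ et * (1024 * (D + 1))

open Classical in
/-- small jumps in a block. Uses PSP, TBS, RNK -/
def Stmt_T4 : Prop :=
  ∃ C : ℝ, 0 < C ∧ ∀ (n : ℕ) (ι : Type) [Fintype ι] (p : ι → ℝ) (w : ι → EE n) (D : ℝ)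
    (v : Fin n → EE n) (A : Finset (Fin n)) (β : ℝ), 1 ≤ n → IS p w → MI p w D →
    Orthonormal ℝ v → 0 ≤ β →
    ∑ i, p i * ((n : ℝ) ^ 2 * ∑ k ∈ A, if bb v (w i) k < β then bb v (w i) k ^ 2 else 0) ≤
      C * (n * β * (D + 1) + A.card)

/-- the cost of the small jumps. Uses TTF, ABL, LTI, T4, TBS -/
def Stmt_SJB : Prop :=
  ∀ ε : ℝ, 0 < ε → ∃ (C : ℝ) (n₀ : ℕ), 0 < C ∧ ∀ (n : ℕ) (ι : Type) [Fintype ι] (p : ι → ℝ)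
    (w : ι → EE n) (D : ℝ) (Ω : Type) [Fintype Ω] (μ : Ω → ℝ) (v : Ω → Fin n → EE n),
    n₀ ≤ n → IS p w → MI p w D → RF μ v →
    (n : ℝ) / 2 * ∑ j, p j * ∑ o, μ o * cm (bs n) (v o) (w j) ≤ ε * (D + 1) + C * Real.log n

/-- the cost of the large jumps. Uses CLS, T1, T2, T3 -/
def Stmt_CMB : Prop :=
  ∃ n₀ : ℕ, ∀ (n : ℕ) (ι : Type) [Fintype ι] (p : ι → ℝ) (w : ι → EE n) (D : ℝ) (Ω : Type)
    [Fintype Ω] (μ : Ω → ℝ) (v : Ω → Fin n → EE n), n₀ ≤ n → IS p w → MI p w D → RF μ v →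
    (1 + be / 100) * ((n : ℝ) / 2 * ∑ j, p j * ∑ o, μ o *
      (JB (bs n) (n - n / 32) (v o) (w j) + JM (bs n) (n - n / 32) (v o) (w j) / 4 +
        JL (bs n) (n - n / 32) (v o) (w j) + JO (bs n) (n - n / 32) (v o) (w j))) ≤ D + 1

/-- THE CORE. Uses CHN, CLS, CMB, SJB, SMN, PPI.AVE -/
def Stmt_CRE : Prop :=
  ∃ c C : ℝ, 0 < c ∧ c < 1 ∧ 0 < C ∧ ∀ (n : ℕ) (ι : Type) [Fintype ι] (p : ι → ℝ)
    (w : ι → EE n) (D : ℝ), 2 ≤ n → IS p w → MI p w D →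
    0 ≤ D ∧ √((n.factorial : ℝ) / (n : ℝ) ^ n) *
      Real.exp (-((1 - c) * D + C * Real.log n)) ≤ XT p w

/-! ## E. Geometry -/

/-- minimal position: existence -/
def Stmt_PMN : Prop :=
  ∀ (n : ℕ) (ι : Type) [Fintype ι] (a : ι → ℝ) (v : ι → EE n) (r : ℝ), 1 ≤ n →
    (∀ i, 0 < a i) → (∀ y : EE n, y ≠ 0 → ∃ i, inner ℝ (v i) y ≠ 0) → 0 < r →
    ∃ B : EE n →L[ℝ] EE n, |B.det| = r ∧ ∀ B' : EE n →L[ℝ] EE n, |B'.det| = r →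
      ∑ i, a i * ‖B (v i)‖ ≤ ∑ i, a i * ‖B' (v i)‖

/-- minimal position: first order condition -/
def Stmt_PFO : Prop :=
  ∀ (n : ℕ) (ι : Type) [Fintype ι] (a : ι → ℝ) (v : ι → EE n) (B : EE n →L[ℝ] EE n), 1 ≤ n →
    (∀ i, 0 < a i) → (∀ i, v i ≠ 0) → B.det ≠ 0 →
    (∀ B' : EE n →L[ℝ] EE n, |B'.det| = |B.det| →
      ∑ i, a i * ‖B (v i)‖ ≤ ∑ i, a i * ‖B' (v i)‖) →
    ∀ x : EE n, (n : ℝ) * ∑ i, a i * ((inner ℝ (B (v i)) x) ^ 2 / ‖B (v i)‖) =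
      (∑ i, a i * ‖B (v i)‖) * ‖x‖ ^ 2

/-- the facets of a polytope. Uses PPI.CEL, PPI.MKI, PPI.PRJ, PPI.ZON, PPI.MON -/
def Stmt_GE3 : Prop :=
  ∀ (n N : ℕ) (v : Fin N → EE n), 2 ≤ n → IsCompact (Pol v) → 0 < vl (Pol v) →
    ∃ (ι : Type) (_ : Fintype ι) (a : ι → ℝ) (w : ι → EE n), Fintype.card ι ≤ N ∧
      MK a w (vl (Pol v) ^ (n - 1)) ∧ XT a w ≤ n.factorial * vl (projBody (Pol v)) ∧
      ∑ i, a i = n * vl (Pol v) ∧ ∀ i, ∀ x ∈ Pol v, inner ℝ (w i) x ≤ 1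

/-- polytopes in isotropic position. Uses GE3, PMN, PFO, PPI.SPN, PPI.TRX, PPI.AVE -/
def Stmt_ISP : Prop :=
  ∀ (n N : ℕ) (v : Fin N → EE n), 2 ≤ n → IsCompact (Pol v) → 0 < vl (Pol v) →
    ∃ (ι : Type) (_ : Fintype ι) (p : ι → ℝ) (w : ι → EE n) (D : ℝ) (A : EE n →L[ℝ] EE n),
      Fintype.card ι ≤ N ∧ IS p w ∧ MI p w D ∧ |A.det| * kap n = vl (Pol v) ∧
      kap n * (n : ℝ) ^ n * vl (Pol v) ^ (n - 1) * Real.exp D * XT p w ≤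
        n.factorial * vl (projBody (Pol v)) ∧
      ∀ t : ℝ, 0 ≤ t → vl (Pol v + t • (A '' Bn n)) ≤
        vl (Pol v) * (1 + t * Real.exp (D / n)) ^ n

/-- few facets. Uses PPF.CAP, PPI.AVE -/
def Stmt_FFD : Prop :=
  ∀ (n N : ℕ) (ι : Type) [Fintype ι] (p : ι → ℝ) (w : ι → EE n) (D : ℝ), 1 ≤ n → IS p w →
    MI p w D → Fintype.card ι ≤ N →
    (n : ℝ) / 2 * (2 * (N : ℝ)) ^ (-(2 / (n : ℝ))) - Real.log 2 ≤ D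

/-- polytopes. Uses CRE, ISP, FFD, PPI.NUA, PPI.AVE -/
def Stmt_PTG : Prop :=
  ∃ c C : ℝ, 0 < c ∧ 0 < C ∧ ∀ (n N : ℕ) (v : Fin N → EE n), 2 ≤ n → IsCompact (Pol v) →
    0 < vl (Pol v) → ∃ (D : ℝ) (A : EE n →L[ℝ] EE n), 0 ≤ D ∧
      |A.det| * kap n = vl (Pol v) ∧
      (∀ t : ℝ, 0 ≤ t → vl (Pol v + t • (A '' Bn n)) ≤
        vl (Pol v) * (1 + t * Real.exp (D / n)) ^ n) ∧
      (n : ℝ) / 2 * (2 * (N : ℝ)) ^ (-(2 / (n : ℝ))) - Real.log 2 ≤ D ∧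
      Real.exp (c * D - C * Real.log n) * Pn n * vl (Pol v) ^ (n - 1) ≤ vl (projBody (Pol v))

/-- inner approximation by polytopes -/
def Stmt_AP2 : Prop :=
  ∀ (n : ℕ) (K : Set (EE n)) (δ : ℝ), 1 ≤ n → Convex ℝ K → IsCompact K → 0 ∈ interior K →
    0 < δ → δ < 1 → ∃ (N : ℕ) (v : Fin N → EE n), IsCompact (Pol v) ∧ Pol v ⊆ K ∧
      (1 - δ) • K ⊆ Pol v

/-- a limit -/
def Stmt_LMV : Prop :=
  ∀ (n : ℕ) (c η X Y : ℝ), 1 ≤ n → 0 < c → 0 ≤ η → 0 ≤ X →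
    (∀ t δ : ℝ, 0 < t → 0 < δ → δ < 1 → ∃ r : ℝ, 0 < r ∧
      (1 - δ) ^ n * (1 + (1 + η) * n * t) ≤ (1 + t * r) ^ n ∧
      r ^ (c * n) * ((1 - δ) ^ (n * (n - 1)) * X) ≤ Y) →
    (1 + η) ^ (c * n) * X ≤ Y

/-- from `K` to the inner polytope. Uses PPI.AVE -/
def Stmt_TUB : Prop :=
  ∀ (n : ℕ) (K P : Set (EE n)) (A : EE n →L[ℝ] EE n) (η δ r : ℝ), 1 ≤ n → IsCompact K →
    IsCompact P → Convex ℝ K → Convex ℝ P → 0 < vl P → P ⊆ K → 0 < δ → δ < 1 →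
    (1 - δ) • K ⊆ P → 0 ≤ η → |A.det| * kap n = vl P →
    (∀ t : ℝ, 0 ≤ t → vl (P + t • (A '' Bn n)) ≤ vl P * (1 + t * r) ^ n) →
    (∀ A' : EE n →L[ℝ] EE n, |A'.det| * kap n = vl K → ∀ t : ℝ, 0 < t →
      (1 + (1 + η) * n * t) * vl K ≤ vl (K + t • (A' '' Bn n))) →
    (1 - δ) ^ n * vl K ≤ vl P ∧
    ∀ t : ℝ, 0 < t → (1 - δ) ^ n * (1 + (1 + η) * n * t) ≤ (1 + t * r) ^ n

/-- bodies. Uses PTG, AP2, LMV, TUB, PPI.MON, PPI.AVE -/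
def Stmt_BKG : Prop :=
  ∃ c C : ℝ, 0 < c ∧ 0 < C ∧ ∀ n : ℕ, 2 ≤ n → ∀ K : Set (EE n), Convex ℝ K → IsCompact K →
    (interior K).Nonempty →
    Real.exp (-(C * Real.log n)) * Pn n * vl K ^ (n - 1) ≤ vl (projBody K) ∧
    ∀ η : ℝ, 0 ≤ η →
      (∀ A : EE n →L[ℝ] EE n, |A.det| * kap n = vl K → ∀ t : ℝ, 0 < t →
        (1 + (1 + η) * n * t) * vl K ≤ vl (K + t • (A '' Bn n))) →
      (1 + η) ^ (c * n) * (Real.exp (-(C * Real.log n)) * Pn n * vl K ^ (n - 1)) ≤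
        vl (projBody K)

/-- constants for strictness -/
def Stmt_KST : Prop :=
  ∀ c C : ℝ, 0 < c → 0 < C → ∃ C' : ℝ, 0 < C' ∧ ∀ n : ℕ, 2 ≤ n →
    1 < (1 + C' * Real.log n / n) ^ (c * n) * Real.exp (-(C * Real.log n))

/-- constants for few facets -/
def Stmt_KFF : Prop :=
  ∀ c C : ℝ, 0 < c → 0 < C → ∃ (c' : ℝ) (n₀ : ℕ), 0 < c' ∧ ∀ n : ℕ, n₀ ≤ n → 2 ≤ n →
    ∀ N : ℕ, 1 ≤ N → (N : ℝ) ≤ (c' * n / Real.log n) ^ ((n : ℝ) / 2) →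
    C * Real.log n < c * ((n : ℝ) / 2 * (2 * (N : ℝ)) ^ (-(2 / (n : ℝ))) - Real.log 2)

/-- THE THEOREM. Uses BKG, PTG, KST, KFF, PPF.POL, PPI.MON, PPI.AVE -/
def Stmt_FIN : Prop :=
  (∃ c C : ℝ, 0 < c ∧ 0 < C ∧ ∀ n : ℕ, 2 ≤ n → ∀ K : Set (EE n), Convex ℝ K → IsCompact K →
    (interior K).Nonempty →
    (n : ℝ) ^ (-C) * (Pn n * vl K ^ (n - 1)) ≤ vl (projBody K) ∧
    (∀ η : ℝ, 0 ≤ η →
      (∀ A : EE n →L[ℝ] EE n, |A.det| * kap n = vl K → ∀ t : ℝ, 0 < t →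
        (1 + (1 + η) * n * t) * vl K ≤ vl (K + t • (A '' Bn n))) →
      (1 + η) ^ (c * n) * (n : ℝ) ^ (-C) * (Pn n * vl K ^ (n - 1)) ≤ vl (projBody K)) ∧
    ((∀ A : EE n →L[ℝ] EE n, |A.det| * kap n = vl K → ∀ t : ℝ, 0 < t →
        (1 + (1 + C * Real.log n / n) * n * t) * vl K ≤ vl (K + t • (A '' Bn n))) →
      Pn n * vl K ^ (n - 1) < vl (projBody K))) ∧
  ∃ (c : ℝ) (n₀ : ℕ), 0 < c ∧ ∀ n : ℕ, n₀ ≤ n → ∀ (N : ℕ) (v : Fin N → EE n) (b : Fin N → ℝ),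
    (N : ℝ) ≤ (c * n / Real.log n) ^ ((n : ℝ) / 2) →
    IsCompact {x : EE n | ∀ i, inner ℝ (v i) x ≤ b i} →
    (interior {x : EE n | ∀ i, inner ℝ (v i) x ≤ b i}).Nonempty →
    Pn n * vl {x : EE n | ∀ i, inner ℝ (v i) x ≤ b i} ^ (n - 1) <
      vl (projBody {x : EE n | ∀ i, inner ℝ (v i) x ≤ b i})

end PPG
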